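import Mathlib

set_option autoImplicit false

/-!
# FPU.CalG (helper55)

Calibration along the graph of a 1-Lipschitz function, without differentiability of the function.
-/

namespace Pool.Agent.FPU

open Real MeasureTheory Set Filter Topology

/-- If `V` is differentiable at the points of the graph of a 1-Lipschitz function `g`, with
`D (1,-1) ≥ L` and `D (1,1) ≥ L`, then `∫ L ≤ V (b, g b) - V (a, g a)`. -/
theorem cal_graph {g : ℝ → ℝ} (hg : ∀ x y, |g x - g y| ≤ |x - y|) {a b : ℝ} (hab : a ≤ b)
    (V : ℝ × ℝ → ℝ) (D : ℝ → (ℝ × ℝ →L[ℝ] ℝ)) (L : ℝ → ℝ)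
    (hV : ContinuousOn (fun t => V (t, g t)) (Icc a b)) (hL : Continuous L)
    (hD : ∀ x ∈ Ico a b, HasFDerivAt V (D x) (x, g x))
    (h1 : ∀ x ∈ Ico a b, L x ≤ D x (1, -1)) (h2 : ∀ x ∈ Ico a b, L x ≤ D x (1, 1)) :
    ∫ t in a..b, L t ≤ V (b, g b) - V (a, g a) := by
  have hgc : Continuous g := by
    have : LipschitzWith 1 g := LipschitzWith.of_dist_le_mul (fun x y => by
      simpa [Real.dist_eq] using hg x y)
    exact this.continuous
  have hprim : ∀ x, HasDerivAt (fun t => ∫ s in a..t, L s) (L x) x := fun x =>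
    intervalIntegral.integral_hasDerivAt_right (hL.intervalIntegrable _ _)
      (hL.stronglyMeasurableAtFilter _ _) hL.continuousAt
  have key := image_le_of_liminf_slope_right_le_deriv_boundary
    (f := fun t => (∫ s in a..t, L s) - V (t, g t) + V (a, g a)) (a := a) (b := b)
    (B := fun _ => 0) (B' := fun _ => 0) ?_ (by simp) continuousOn_const
    (fun x _ => hasDerivWithinAt_const _ _ _) ?_ (right_mem_Icc.mpr hab)
  · linarith
  · refine ContinuousOn.add (ContinuousOn.sub ?_ hV) continuousOn_const
    exact fun x _ => (hprim x).continuousAt.continuousWithinAt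
  · intro x hx r hr
    replace hr : 0 < r := hr
    apply Filter.Eventually.frequently
    -- little-o of V along the graph
    have ho := (hD x hx).isLittleO
    have htend : Tendsto (fun z => (z, g z)) (𝓝[>] x) (𝓝 (x, g x)) := by
      have : ContinuousAt (fun z => (z, g z)) x := (continuous_id.prodMk hgc).continuousAt
      exact this.tendsto.mono_left nhdsWithin_le_nhds
    have ho2 := ho.comp_tendsto htend
    have ho3 : (fun z => V (z, g z) - V (x, g x) - D x ((z, g z) - (x, g x)))
        =o[𝓝[>] x] (fun z => z - x) := by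
      refine ho2.trans_isBigO ?_
      refine Asymptotics.IsBigO.of_bound 1 ?_
      filter_upwards with z
      simp only [Function.comp, Prod.mk_sub_mk, one_mul]
      rw [Prod.norm_def]
      refine max_le (le_refl _) ?_
      simpa [Real.norm_eq_abs] using hg z x
    have hi := (hprim x).isLittleO
    have hi2 : (fun z => (∫ s in a..z, L s) - (∫ s in a..x, L s) - (z - x) * L x)
        =o[𝓝[>] x] (fun z => z - x) := by
      refine (hi.mono nhdsWithin_le_nhds).congr_left ?_
      intro z
      simp
    have e1 := ho3.bound (c := r / 4) (by positivity)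
    have e2 := hi2.bound (c := r / 4) (by positivity)
    filter_upwards [e1, e2, self_mem_nhdsWithin] with z h3 h4 h5
    have hzx : 0 < z - x := sub_pos.mpr h5
    rw [slope_def_field, div_lt_iff₀ hzx]
    have h3' := (abs_le.mp (show |V (z, g z) - V (x, g x) - D x ((z, g z) - (x, g x))| ≤ r / 4 * (z - x) by
      simpa [Real.norm_eq_abs, abs_of_pos hzx] using h3))
    have h4' := (abs_le.mp (show |(∫ s in a..z, L s) - (∫ s in a..x, L s) - (z - x) * L x| ≤ r / 4 * (z - x) by
      simpa [Real.norm_eq_abs, abs_of_pos hzx] using h4))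
    -- D x (Δ) ≥ L x (z - x)
    have hgz := hg z x
    rw [abs_of_pos hzx] at hgz
    obtain ⟨hg1, hg2⟩ := abs_le.mp hgz
    have hDd : D x ((z, g z) - (x, g x)) =
        ((z - x) - (g z - g x)) / 2 * D x (1, -1) + ((z - x) + (g z - g x)) / 2 * D x (1, 1) := by
      rw [← smul_eq_mul, ← smul_eq_mul, ← ContinuousLinearMap.map_smul, ← ContinuousLinearMap.map_smul,
        ← ContinuousLinearMap.map_add]
      congr 1
      ext <;> simp <;> ring
    have hDl : (z - x) * L x ≤ D x ((z, g z) - (x, g x)) := by
      rw [hDd]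
      have a1 : ((z - x) - (g z - g x)) / 2 * L x ≤ ((z - x) - (g z - g x)) / 2 * D x (1, -1) :=
        mul_le_mul_of_nonneg_left (h1 x hx) (by linarith)
      have a2 : ((z - x) + (g z - g x)) / 2 * L x ≤ ((z - x) + (g z - g x)) / 2 * D x (1, 1) :=
        mul_le_mul_of_nonneg_left (h2 x hx) (by linarith)
      nlinarith [a1, a2]
    nlinarith [h3'.1, h3'.2, h4'.1, h4'.2, mul_pos hr hzx]

end Pool.Agent.FPU
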