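import Mathlib
import Pool.Agent.FPX.UMPDefs

/-
EUDefs (helper26, helper3): second moment bound of the universal map `F` of UMPDefs.
`NE E` is the bound in the frame of the area vector, `EUAt E f` the bound for one function in the
original frame: `F` has pointwise energy at most `E`.
-/

open MeasureTheory Set Filter Topology

noncomputable section

namespace Pool.Agent.FPX.UMP

/-- the second moment bound in the frame of the area vector: for every unit vector `(p, q)`
`2 ∫ ⟨(p, q), ξ⟩² (1 - ⟨b, z⟩) sec² g ≤ E ∫ (1 - ⟨b, z⟩) sec² g`, `ξ = u sec g` -/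
def NE (E : ℝ) : Prop := ∀ g g' : ℝ → ℝ, Ef g → (∀ t, HasDerivAt g (g' t) t) → Continuous g' →
  V1 g = 0 → V2 g = 0 → ∀ a b : ℝ, a ^ 2 + b ^ 2 ≤ 1 → ∀ p q : ℝ, p ^ 2 + q ^ 2 ≤ 1 →
  0 ≤ ∫ t in (0 : ℝ)..(2 * Real.pi),
    (E - 2 * (p * Real.cos t + q * Real.sin t) ^ 2 / Real.cos (g t) ^ 2) / Real.cos (g t) ^ 2 *
    (1 - a * (Real.sin (g t) * Real.cos t - Real.cos (g t) * g' t * Real.sin t)
      - b * (Real.sin (g t) * Real.sin t + Real.cos (g t) * g' t * Real.cos t))

/-- the second moment bound for one function: the norm of the covector `(a, b)` on the tangent space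
of the sphere at `F f` is `√(a² + b² - (F₁ a + F₂ b)²)` -/
def EUAt (E : ℝ) (f : ℝ → ℝ) : Prop := ∀ a b : ℝ,
  ∫ t in (0 : ℝ)..(2 * Real.pi),
    (a * (Real.cos t - F1 f * Real.sin (f t)) + b * (Real.sin t - F2 f * Real.sin (f t))) ^ 2
      / Real.cos (f t) ^ 4
  ≤ E * V0 f * (a ^ 2 + b ^ 2 - (F1 f * a + F2 f * b) ^ 2)

/-- the second moment bound for all functions -/
def EUStar (E : ℝ) : Prop := ∀ f, Ef f → EUAt E f

end Pool.Agent.FPX.UMP
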