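import Mathlib
import Pool.Agent.FPX.UMP4
import Pool.Agent.FPU.EUDefs

/-
EUA (helper3): the second moment bound of the universal map in the original frame follows from the
bound in the frame of the area vector: `NE E → EUStar E`.
-/

open MeasureTheory Set Filter Topology
open scoped ENNReal NNReal

noncomputable section

namespace Pool.Agent.FPX.UMP

open Real

namespace Bst

variable {f f' : ℝ → ℝ} {ρ z : ℝ}

/-- the second moment bound in the original frame, area vector in the first coordinate plane -/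
theorem bound2 (h : Bst f f' ρ z) {E : ℝ} (hN : NE E) {p q : ℝ} (hpq : p ^ 2 + q ^ 2 ≤ 1) :
    ∫ t in (0 : ℝ)..(2 * π), 2 * (p * bP f ρ z t + q * bQ f t) ^ 2 / cos (f t) ^ 2
      ≤ E * ∫ t in (0 : ℝ)..(2 * π), 1 / cos (f t) ^ 2 := by
  obtain ⟨g, g', hg, hgd, hgc, hga, hga'⟩ := h.exists_boost
  have hz := h.z0
  have hne : ∀ t, cos (g t) ^ 2 ≠ 0 := fun t => pow_ne_zero 2 (hg.cos_pos t).ne'
  have hV1 : V1 g = 0 := by
    have h1 := parts1 hg hgd hgc
    rw [h.cov (G := fun t => (sin (g t) * cos t - cos (g t) * g' t * sin t) / cos (g t) ^ 2)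
      ((cont_z1 hg hgc).div (cont_cos2 hg) hne)] at h1
    have h2 : ∫ t in (0 : ℝ)..(2 * π), (fun t => (sin (g t) * cos t - cos (g t) * g' t * sin t)
        / cos (g t) ^ 2) (bal f f' ρ z t) * bA f f' ρ z t
        = ∫ t in (0 : ℝ)..(2 * π), ((sin (f t) * cos t - cos (f t) * f' t * sin t) / cos (f t) ^ 2
          - ρ * (1 / cos (f t) ^ 2)) / z := by
      refine intervalIntegral.integral_congr fun t _ => ?_
      simp only
      rw [hga, hga', h.E1, h.cross2]
    have c1 : IntervalIntegrable (fun t => (sin (f t) * cos t - cos (f t) * f' t * sin t) / cos (f t) ^ 2)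
        volume 0 (2 * π) :=
      ((cont_z1 h.ef h.hc).div (cont_cos2 h.ef)
        fun t => pow_ne_zero 2 (h.ef.cos_pos t).ne').intervalIntegrable _ _
    have c2 : IntervalIntegrable (fun t => ρ * (1 / cos (f t) ^ 2)) volume 0 (2 * π) :=
      (h.ef.cont_sec2.intervalIntegrable _ _).const_mul _
    rw [intervalIntegral.integral_div, intervalIntegral.integral_sub c1 c2, parts1 h.ef h.hd h.hc,
      intervalIntegral.integral_const_mul, h.v1] at h2
    have h3 : ∫ t in (0 : ℝ)..(2 * π), 1 / cos (f t) ^ 2 = 2 * V0 f := by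
      unfold V0
      ring
    rw [h3] at h2
    have h4 : (2 * (ρ * V0 f) - ρ * (2 * V0 f)) / z = 0 := by ring
    rw [h4] at h2
    linarith [h1.symm.trans h2]
  have hV2 : V2 g = 0 := by
    have h1 := parts2 hg hgd hgc
    rw [h.cov (G := fun t => (sin (g t) * sin t + cos (g t) * g' t * cos t) / cos (g t) ^ 2)
      ((cont_z2 hg hgc).div (cont_cos2 hg) hne)] at h1
    have h2 : ∫ t in (0 : ℝ)..(2 * π), (fun t => (sin (g t) * sin t + cos (g t) * g' t * cos t)
        / cos (g t) ^ 2) (bal f f' ρ z t) * bA f f' ρ z t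
        = ∫ t in (0 : ℝ)..(2 * π), (sin (f t) * sin t + cos (f t) * f' t * cos t) / cos (f t) ^ 2 := by
      refine intervalIntegral.integral_congr fun t _ => ?_
      simp only
      rw [hga, hga', h.E2, h.cross3]
    rw [parts2 h.ef h.hd h.hc, h.v2] at h2
    linarith [h1.symm.trans h2]
  have key := hN g g' hg hgd hgc hV1 hV2 (-ρ) 0 (by
    have := h.rz
    nlinarith [sq_nonneg z]) p q hpq
  have cpq : Continuous fun t : ℝ => 2 * (p * cos t + q * sin t) ^ 2 := by fun_prop
  rw [h.cov (G := fun t => (E - 2 * (p * cos t + q * sin t) ^ 2 / cos (g t) ^ 2) / cos (g t) ^ 2 *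
    (1 - -ρ * (sin (g t) * cos t - cos (g t) * g' t * sin t)
      - 0 * (sin (g t) * sin t + cos (g t) * g' t * cos t))) ?_] at key
  · have cP : Continuous (bP f ρ z) := continuous_iff_continuousAt.2 fun t => (h.dP t).continuousAt
    have cQ : Continuous (bQ f) := continuous_iff_continuousAt.2 fun t => (h.dQ t).continuousAt
    have e : ∫ t in (0 : ℝ)..(2 * π), (fun t => (E - 2 * (p * cos t + q * sin t) ^ 2 / cos (g t) ^ 2)
          / cos (g t) ^ 2 *
        (1 - -ρ * (sin (g t) * cos t - cos (g t) * g' t * sin t)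
        - 0 * (sin (g t) * sin t + cos (g t) * g' t * cos t))) (bal f f' ρ z t) * bA f f' ρ z t
        = ∫ t in (0 : ℝ)..(2 * π), (z * E * (1 / cos (f t) ^ 2)
          - z * (2 * (p * bP f ρ z t + q * bQ f t) ^ 2 / cos (f t) ^ 2)) := by
      refine intervalIntegral.integral_congr fun t _ => ?_
      simp only
      rw [hga, hga']
      have e1 := h.E1 t
      have e0 := h.E0 t
      have hpq' : 2 * (p * cos (bal f f' ρ z t) + q * sin (bal f f' ρ z t)) ^ 2
          / cos (arctan (bT f ρ z t)) ^ 2 = 2 * (p * bP f ρ z t + q * bQ f t) ^ 2 := by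
        obtain ⟨h1, h2⟩ := h.cs t
        have hr2 : √(1 + bT f ρ z t ^ 2) ^ 2 = 1 + bT f ρ z t ^ 2 := sq_sqrt (by positivity)
        have hr0 : 0 < 1 + bT f ρ z t ^ 2 := by positivity
        have e7 : (p * bP f ρ z t + q * bQ f t) ^ 2 = (1 + bT f ρ z t ^ 2) *
            (p * cos (bal f f' ρ z t) + q * sin (bal f f' ρ z t)) ^ 2 := by
          rw [h1, h2]
          linear_combination (p * cos (bal f f' ρ z t) + q * sin (bal f f' ρ z t)) ^ 2 * hr2
        rw [e7, cos_sq_arctan]
        field_simp
      rw [hpq']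
      have e3 : ∀ W : ℝ, (E - W) / cos (arctan (bT f ρ z t)) ^ 2 *
          (1 - -ρ * (sin (arctan (bT f ρ z t)) * cos (bal f f' ρ z t)
            - cos (arctan (bT f ρ z t)) * (bT' f f' ρ z t / bC f f' ρ z t) * sin (bal f f' ρ z t))
          - 0 * (sin (arctan (bT f ρ z t)) * sin (bal f f' ρ z t)
            + cos (arctan (bT f ρ z t)) * (bT' f f' ρ z t / bC f f' ρ z t) * cos (bal f f' ρ z t)))
          * bA f f' ρ z t
          = (E - W) * (1 / cos (arctan (bT f ρ z t)) ^ 2 * bA f f' ρ z t
            + ρ * ((sin (arctan (bT f ρ z t)) * cos (bal f f' ρ z t)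
      - cos (arctan (bT f ρ z t)) * (bT' f f' ρ z t / bC f f' ρ z t) * sin (bal f f' ρ z t))
      / cos (arctan (bT f ρ z t)) ^ 2 * bA f f' ρ z t)) := by
        intro W
        ring
      rw [e3, e1, e0, h.cross2]
      have hp := h.ef.cos_pos t
      have hrz := h.rz
      have e4 : bC f f' ρ z t + ρ * (((sin (f t) * cos t - cos (f t) * f' t * sin t) / cos (f t) ^ 2
          - ρ * (1 / cos (f t) ^ 2)) / z) = z / cos (f t) ^ 2 := by
        unfold bC
        field_simp
        linear_combination (-1 : ℝ) * hrz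
      rw [e4]
      ring
    rw [e] at key
    have cA : Continuous fun t => 2 * (p * bP f ρ z t + q * bQ f t) ^ 2 / cos (f t) ^ 2 :=
      (continuous_const.mul (((continuous_const.mul cP).add (continuous_const.mul cQ)).pow 2)).div
        (cont_cos2 h.ef) fun t => pow_ne_zero 2 (h.ef.cos_pos t).ne'
    rw [intervalIntegral.integral_sub ((h.ef.cont_sec2.intervalIntegrable _ _).const_mul _)
      ((cA.intervalIntegrable _ _).const_mul _), intervalIntegral.integral_const_mul,
      intervalIntegral.integral_const_mul] at key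
    have k3 : 0 ≤ z * (E * (∫ t in (0 : ℝ)..(2 * π), 1 / cos (f t) ^ 2)
        - ∫ t in (0 : ℝ)..(2 * π), 2 * (p * bP f ρ z t + q * bQ f t) ^ 2 / cos (f t) ^ 2) := by
      linarith
    have k4 := (mul_nonneg_iff_of_pos_left hz).1 k3
    linarith
  · exact ((continuous_const.sub (cpq.div (cont_cos2 hg) hne)).div (cont_cos2 hg) hne).mul
      ((continuous_const.sub (continuous_const.mul (cont_z1 hg hgc))).sub
        (continuous_const.mul (cont_z2 hg hgc)))

/-- homogeneous form -/
theorem bound3 (h : Bst f f' ρ z) {E : ℝ} (hN : NE E) (p q : ℝ) :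
    ∫ t in (0 : ℝ)..(2 * π), (p * bP f ρ z t + q * bQ f t) ^ 2 / cos (f t) ^ 2
      ≤ E * V0 f * (p ^ 2 + q ^ 2) := by
  rcases eq_or_ne (p ^ 2 + q ^ 2) 0 with h0 | h0
  · have hp : p = 0 := by nlinarith [sq_nonneg p, sq_nonneg q]
    have hq : q = 0 := by nlinarith [sq_nonneg p, sq_nonneg q]
    rw [hp, hq]
    simp
  · have hpos : 0 < p ^ 2 + q ^ 2 := lt_of_le_of_ne (by positivity) (Ne.symm h0)
    set s := √(p ^ 2 + q ^ 2) with hs
    have hs0 : 0 < s := sqrt_pos.2 hpos
    have hs2 : s ^ 2 = p ^ 2 + q ^ 2 := sq_sqrt hpos.le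
    have k := h.bound2 hN (p := p / s) (q := q / s) (by
      rw [div_pow, div_pow, ← add_div, hs2, div_self h0])
    have e1 : ∫ t in (0 : ℝ)..(2 * π), 2 * (p / s * bP f ρ z t + q / s * bQ f t) ^ 2 / cos (f t) ^ 2
        = 2 / s ^ 2 * ∫ t in (0 : ℝ)..(2 * π), (p * bP f ρ z t + q * bQ f t) ^ 2 / cos (f t) ^ 2 := by
      rw [← intervalIntegral.integral_const_mul]
      refine intervalIntegral.integral_congr fun t _ => ?_
      have := h.ef.cos_pos t
      field_simp
    have e2 : ∫ t in (0 : ℝ)..(2 * π), 1 / cos (f t) ^ 2 = 2 * V0 f := by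
      unfold V0
      ring
    rw [e1, e2] at k
    have k2 := mul_le_mul_of_nonneg_left k (by positivity : 0 ≤ s ^ 2 / 2)
    have e3 : s ^ 2 / 2 * (2 / s ^ 2 * ∫ t in (0 : ℝ)..(2 * π),
        (p * bP f ρ z t + q * bQ f t) ^ 2 / cos (f t) ^ 2)
        = ∫ t in (0 : ℝ)..(2 * π), (p * bP f ρ z t + q * bQ f t) ^ 2 / cos (f t) ^ 2 := by
      field_simp
    rw [e3] at k2
    rw [hs2] at k2
    linarith

end Bst

theorem euat_c1 {E : ℝ} (hN : NE E) {f f' : ℝ → ℝ} (h : Ef f) (hd : ∀ t, HasDerivAt f (f' t) t)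
    (hc : Continuous f') : EUAt E f := by
  intro a b
  set ρ := ‖(⟨F1 f, F2 f⟩ : ℂ)‖ with hρ
  set β := Complex.arg ⟨F1 f, F2 f⟩ with hβ
  have e1 : ρ * cos β = F1 f := Complex.norm_mul_cos_arg (⟨F1 f, F2 f⟩ : ℂ)
  have e2 : ρ * sin β = F2 f := Complex.norm_mul_sin_arg (⟨F1 f, F2 f⟩ : ℂ)
  have hz := h.zz_pos
  have hρ2 : ρ ^ 2 = F1 f ^ 2 + F2 f ^ 2 := by
    rw [← e1, ← e2]
    nlinarith [sin_sq_add_cos_sq β]
  have hV := h.V0_pos
  have hv1 : V1 f = F1 f * V0 f := by
    unfold F1
    field_simp
  have hv2 : V2 f = F2 f * V0 f := by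
    unfold F2
    field_simp
  have hfp : Function.Periodic f (2 * π) := h.per
  set g : ℝ → ℝ := fun t => f (t + β) with hg
  have hgE : Ef g := h.shift β
  have cr : Continuous fun t => RR (f t) := h.cont_RR
  have hg1 : V1 g = cos β * V1 f + sin β * V2 f := by
    have h1 : V1 g = ∫ t in (0 : ℝ)..(2 * π), (fun t => cos (t - β) * RR (f t)) (t + β) := by
      unfold V1
      refine intervalIntegral.integral_congr fun t _ => ?_
      simp only [add_sub_cancel_right, hg]
    rw [h1, int_shift (H := fun t => cos (t - β) * RR (f t))]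
    · unfold V1 V2
      rw [← intervalIntegral.integral_const_mul, ← intervalIntegral.integral_const_mul,
        ← intervalIntegral.integral_add]
      · refine intervalIntegral.integral_congr fun t _ => ?_
        simp only [cos_sub]
        ring
      · exact (continuous_const.mul (continuous_cos.mul cr)).intervalIntegrable _ _
      · exact (continuous_const.mul (continuous_sin.mul cr)).intervalIntegrable _ _
    · intro t
      simp only
      rw [hfp t]
      congr 1
      rw [← cos_add_two_pi (t - β)]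
      congr 1
      ring
  have hg2 : V2 g = cos β * V2 f - sin β * V1 f := by
    have h1 : V2 g = ∫ t in (0 : ℝ)..(2 * π), (fun t => sin (t - β) * RR (f t)) (t + β) := by
      unfold V2
      refine intervalIntegral.integral_congr fun t _ => ?_
      simp only [add_sub_cancel_right, hg]
    rw [h1, int_shift (H := fun t => sin (t - β) * RR (f t))]
    · unfold V1 V2
      rw [← intervalIntegral.integral_const_mul, ← intervalIntegral.integral_const_mul,
        ← intervalIntegral.integral_sub]
      · refine intervalIntegral.integral_congr fun t _ => ?_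
        simp only [sin_sub]
        ring
      · exact (continuous_const.mul (continuous_sin.mul cr)).intervalIntegrable _ _
      · exact (continuous_const.mul (continuous_cos.mul cr)).intervalIntegrable _ _
    · intro t
      simp only
      rw [hfp t]
      congr 1
      rw [← sin_add_two_pi (t - β)]
      congr 1
      ring
  have hg0 : V0 g = V0 f := by
    unfold V0
    congr 1
    refine int_shift (H := fun t => 1 / cos (f t) ^ 2) ?_ β
    intro t
    simp only
    rw [hfp t]
  set z := √(zz f) with hzd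
  have hz0 : 0 < z := sqrt_pos.2 hz
  have hz2 : z ^ 2 = zz f := sq_sqrt hz.le
  have hB : Bst g (fun t => f' (t + β)) ρ z := by
    refine ⟨hgE, fun t => (hd (t + β)).comp_add_const t β, hc.comp (continuous_add_const β),
      norm_nonneg _, hz0, ?_, ?_, ?_⟩
    · rw [hz2, hρ2]
      unfold zz
      ring
    · rw [hg2, hv1, hv2, ← e1, ← e2]
      ring
    · rw [hg1, hg0, hv1, hv2, ← e1, ← e2]
      have := sin_sq_add_cos_sq β
      linear_combination (ρ * V0 f) * this
  -- the covector in the rotated frame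
  have key := hB.bound3 hN (z * (cos β * a + sin β * b)) (cos β * b - sin β * a)
  rw [hg0] at key
  have hrz := hB.rz
  have hcs := sin_sq_add_cos_sq β
  have e5 : (z * (cos β * a + sin β * b)) ^ 2 + (cos β * b - sin β * a) ^ 2
      = a ^ 2 + b ^ 2 - (F1 f * a + F2 f * b) ^ 2 := by
    rw [← e1, ← e2]
    linear_combination (cos β * a + sin β * b) ^ 2 * hrz + (a ^ 2 + b ^ 2) * hcs
  rw [e5] at key
  have k2 : ∫ t in (0 : ℝ)..(2 * π), (z * (cos β * a + sin β * b) * bP g ρ z t
      + (cos β * b - sin β * a) * bQ g t) ^ 2 / cos (g t) ^ 2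
      = ∫ t in (0 : ℝ)..(2 * π), (a * (cos t - F1 f * sin (f t)) + b * (sin t - F2 f * sin (f t))) ^ 2
        / cos (f t) ^ 4 := by
    have h1 : ∫ t in (0 : ℝ)..(2 * π), (z * (cos β * a + sin β * b) * bP g ρ z t
        + (cos β * b - sin β * a) * bQ g t) ^ 2 / cos (g t) ^ 2
        = ∫ t in (0 : ℝ)..(2 * π),
          (fun t => (a * (cos t - F1 f * sin (f t)) + b * (sin t - F2 f * sin (f t))) ^ 2
        / cos (f t) ^ 4) (t + β) := by
      refine intervalIntegral.integral_congr fun t _ => ?_
      simp only [hg]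
      have hp := h.cos_pos (t + β)
      unfold bP bQ
      rw [← e1, ← e2, cos_add, sin_add]
      have e6 : (z * (cos β * a + sin β * b) * ((cos t - ρ * sin (f (t + β))) / (z * cos (f (t + β))))
          + (cos β * b - sin β * a) * (sin t / cos (f (t + β)))) =
          (a * (cos t * cos β - sin t * sin β - ρ * cos β * sin (f (t + β)))
            + b * (sin t * cos β + cos t * sin β - ρ * sin β * sin (f (t + β)))) / cos (f (t + β)) := by
        field_simp
        ring
      rw [e6]
      field_simp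
    rw [h1]
    refine int_shift (H := fun t => (a * (cos t - F1 f * sin (f t)) + b * (sin t - F2 f * sin (f t))) ^ 2
        / cos (f t) ^ 4) ?_ β
    intro t
    simp only
    rw [hfp t, cos_add_two_pi, sin_add_two_pi]
  rw [k2] at key
  exact key

theorem eustar_of_ne {E : ℝ} (hN : NE E) : EUStar E := by
  intro f hf a b
  obtain ⟨m, hm0, hm, hb⟩ := hf.exists_bd
  set e : ℕ → ℝ := fun n => 1 / ((n : ℝ) + 1) with he
  have he0 : ∀ n, 0 < e n := fun n => by positivity
  have hel : Tendsto e atTop (𝓝 0) := tendsto_one_div_add_atTop_nhds_zero_nat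
  set fn : ℕ → ℝ → ℝ := fun n => stk f (e n) with hfn
  have hE : ∀ n, Ef (fn n) := fun n => stk_Ef hf (he0 n)
  have hbn : ∀ n t, |fn n t| ≤ m := fun n t => stk_bd (he0 n) hb t
  have hlim : ∀ t, Tendsto (fun n => fn n t) atTop (𝓝 (f t)) := by
    intro t
    rw [tendsto_iff_dist_tendsto_zero]
    refine squeeze_zero (fun _ => dist_nonneg) (fun n => ?_) hel
    rw [Real.dist_eq]
    exact stk_sub hf (he0 n) t
  have hcos : ∀ x, |x| ≤ m → 0 < cos x := fun x hx =>
    cos_pos_of_mem_Ioo (abs_lt.1 (lt_of_le_of_lt hx hm))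
  have t0 : Tendsto (fun n => ∫ t in (0 : ℝ)..(2 * π), 1 / cos (fn n t) ^ 2) atTop
      (𝓝 (∫ t in (0 : ℝ)..(2 * π), 1 / cos (f t) ^ 2)) := by
    have := tend_int (fun n => (hE n).cont) hb hbn hlim (G := fun x => 1 / cos x ^ 2)
      (fun x hx => (hasDerivAt_sec2 (hcos x hx)).continuousAt) (w := fun _ _ => 1) (w₀ := fun _ => 1)
      (fun _ => continuous_const) (fun _ => tendsto_const_nhds) (B := 1) (fun _ _ => by simp)
    simpa using this
  have tR : ∀ w : ℝ → ℝ, Continuous w → (∀ t, |w t| ≤ 1) →
      Tendsto (fun n => ∫ t in (0 : ℝ)..(2 * π), w t * RR (fn n t)) atTop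
      (𝓝 (∫ t in (0 : ℝ)..(2 * π), w t * RR (f t))) := fun w hw hw1 =>
    tend_int (fun n => (hE n).cont) hb hbn hlim (G := RR)
      (fun x hx => (hasDerivAt_RR (hcos x hx)).continuousAt) (w := fun _ => w)
      (fun _ => hw) (fun _ => tendsto_const_nhds) (fun _ => hw1)
  have tV0 : Tendsto (fun n => V0 (fn n)) atTop (𝓝 (V0 f)) := t0.const_mul _
  have tF1 : Tendsto (fun n => F1 (fn n)) atTop (𝓝 (F1 f)) :=
    (tR cos continuous_cos abs_cos_le_one).div tV0 hf.V0_pos.ne'
  have tF2 : Tendsto (fun n => F2 (fn n)) atTop (𝓝 (F2 f)) :=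
    (tR sin continuous_sin abs_sin_le_one).div tV0 hf.V0_pos.ne'
  have hF : ∀ n, |F1 (fn n)| ≤ 1 ∧ |F2 (fn n)| ≤ 1 := by
    intro n
    have := (hE n).zz_pos
    unfold zz at this
    constructor <;> rw [← sq_le_one_iff_abs_le_one] <;> nlinarith [sq_nonneg (F1 (fn n)), sq_nonneg (F2 (fn n))]
  have tA : Tendsto (fun n => ∫ t in (0 : ℝ)..(2 * π),
      (a * (cos t - F1 (fn n) * sin (fn n t)) + b * (sin t - F2 (fn n) * sin (fn n t))) ^ 2
        / cos (fn n t) ^ 4) atTop
      (𝓝 (∫ t in (0 : ℝ)..(2 * π),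
        (a * (cos t - F1 f * sin (f t)) + b * (sin t - F2 f * sin (f t))) ^ 2 / cos (f t) ^ 4)) := by
    have := tend_int (fun n => (hE n).cont) hb hbn hlim (G := fun x => 1 / cos x ^ 4)
      (fun x hx => ?_) (w := fun n t => (a * (cos t - F1 (fn n) * sin (fn n t))
        + b * (sin t - F2 (fn n) * sin (fn n t))) ^ 2)
      (w₀ := fun t => (a * (cos t - F1 f * sin (f t)) + b * (sin t - F2 f * sin (f t))) ^ 2)
      (fun n => ?_) (fun t => ?_) (B := (2 * (|a| + |b|)) ^ 2) (fun n t => ?_)
    · refine (this.congr fun n => ?_).trans (le_of_eq ?_)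
      · refine intervalIntegral.integral_congr fun t _ => ?_
        ring
      · congr 1
        refine intervalIntegral.integral_congr fun t _ => ?_
        ring
    · exact continuousAt_const.div ((continuous_cos.continuousAt).pow 4) (pow_ne_zero 4 (hcos x hx).ne')
    · have cs := continuous_sin.comp (hE n).cont
      exact ((continuous_const.mul (continuous_cos.sub (continuous_const.mul cs))).add
        (continuous_const.mul (continuous_sin.sub (continuous_const.mul cs)))).pow 2
    · have ts := (continuous_sin.tendsto (f t)).comp (hlim t)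
      exact (((tendsto_const_nhds.sub (tF1.mul ts)).const_mul a).add
        ((tendsto_const_nhds.sub (tF2.mul ts)).const_mul b)).pow 2
    · rw [abs_of_nonneg (sq_nonneg _)]
      refine sq_le_sq' ?_ ?_
      · have h1 := abs_sin_le_one (fn n t)
        have h2 : |a * (cos t - F1 (fn n) * sin (fn n t))| ≤ 2 * |a| := by
          rw [abs_mul]
          have h3 : |F1 (fn n) * sin (fn n t)| ≤ 1 := by
            rw [abs_mul]
            exact mul_le_one₀ (hF n).1 (abs_nonneg _) h1
          have h4 : |cos t - F1 (fn n) * sin (fn n t)| ≤ 2 := by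
            refine (abs_sub _ _).trans ?_
            linarith [abs_cos_le_one t]
          nlinarith [abs_nonneg a]
        have h5 : |b * (sin t - F2 (fn n) * sin (fn n t))| ≤ 2 * |b| := by
          rw [abs_mul]
          have h3 : |F2 (fn n) * sin (fn n t)| ≤ 1 := by
            rw [abs_mul]
            exact mul_le_one₀ (hF n).2 (abs_nonneg _) h1
          have h4 : |sin t - F2 (fn n) * sin (fn n t)| ≤ 2 := by
            refine (abs_sub _ _).trans ?_
            linarith [abs_sin_le_one t]
          nlinarith [abs_nonneg b]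
        linarith [(abs_le.1 h2).1, (abs_le.1 h5).1]
      · have h1 := abs_sin_le_one (fn n t)
        have h2 : |a * (cos t - F1 (fn n) * sin (fn n t))| ≤ 2 * |a| := by
          rw [abs_mul]
          have h3 : |F1 (fn n) * sin (fn n t)| ≤ 1 := by
            rw [abs_mul]
            exact mul_le_one₀ (hF n).1 (abs_nonneg _) h1
          have h4 : |cos t - F1 (fn n) * sin (fn n t)| ≤ 2 := by
            refine (abs_sub _ _).trans ?_
            linarith [abs_cos_le_one t]
          nlinarith [abs_nonneg a]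
        have h5 : |b * (sin t - F2 (fn n) * sin (fn n t))| ≤ 2 * |b| := by
          rw [abs_mul]
          have h3 : |F2 (fn n) * sin (fn n t)| ≤ 1 := by
            rw [abs_mul]
            exact mul_le_one₀ (hF n).2 (abs_nonneg _) h1
          have h4 : |sin t - F2 (fn n) * sin (fn n t)| ≤ 2 := by
            refine (abs_sub _ _).trans ?_
            linarith [abs_sin_le_one t]
          nlinarith [abs_nonneg b]
        linarith [(abs_le.1 h2).2, (abs_le.1 h5).2]
  have tB : Tendsto (fun n => E * V0 (fn n) * (a ^ 2 + b ^ 2 - (F1 (fn n) * a + F2 (fn n) * b) ^ 2)) atTop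
      (𝓝 (E * V0 f * (a ^ 2 + b ^ 2 - (F1 f * a + F2 f * b) ^ 2))) :=
    (tV0.const_mul E).mul (tendsto_const_nhds.sub (((tF1.mul_const a).add (tF2.mul_const b)).pow 2))
  refine le_of_tendsto_of_tendsto tA tB (Eventually.of_forall fun n => ?_)
  refine euat_c1 hN (hE n) (stk_deriv hf.cont (e n)) ?_ a b
  exact continuous_const.mul ((hf.cont.comp (continuous_add_const _)).sub
    (hf.cont.comp (continuous_sub_right _)))

end Pool.Agent.FPX.UMP
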