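import Mathlib
import Pool.Agent.FPX.UMC
import Pool.Agent.FPU.EUDefs

/-
EUB (helper3): for a variation `(h, k)` with `h² + k² ≤ 1` the derivatives of the universal map have
`∑ (dd qᵢ f h)² + (dd qᵢ f k)² ≤ 2 E` when `EUAt E f` holds: pointwise energy at most `E`.
-/

open MeasureTheory Set Filter Topology
open scoped ENNReal NNReal

noncomputable section

namespace Pool.Agent.FPX.UMQ

open Pool.Agent.FPX.UMP

open Real

variable {f h k : ℝ → ℝ}

private theorem ii (hf : Ef f) (hm : Measurable h) (hb : ∀ t, |h t| ≤ 1) {q : ℝ → ℝ}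
    (hq : Continuous q) : IntervalIntegrable (fun t => ww f t * q t * h t) volume 0 (2 * π) :=
  int_mul ((cont_ww hf).mul hq) hm hb _ _

private theorem alg {X Y Z a b c α β : ℝ} (hZ : Z ≠ 0) (hZ2 : Z ^ 2 = 1 - X ^ 2 - Y ^ 2)
    (ha : α * Z = a * Z - c * X) (hb : β * Z = b * Z - c * Y) :
    a ^ 2 + b ^ 2 + c ^ 2 - (α ^ 2 + β ^ 2 - (X * α + Y * β) ^ 2) = (X * a + Y * b + Z * c) ^ 2 := by
  have h1 : (a ^ 2 + b ^ 2 + c ^ 2 - (α ^ 2 + β ^ 2 - (X * α + Y * β) ^ 2)) * Z ^ 2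
      = (X * a + Y * b + Z * c) ^ 2 * Z ^ 2 := by
    have e1 : (a ^ 2 + b ^ 2 + c ^ 2 - (α ^ 2 + β ^ 2 - (X * α + Y * β) ^ 2)) * Z ^ 2
        = (a ^ 2 + b ^ 2 + c ^ 2) * Z ^ 2 - ((α * Z) ^ 2 + (β * Z) ^ 2 - (X * (α * Z) + Y * (β * Z)) ^ 2) := by
      ring
    rw [e1, ha, hb]
    linear_combination (-c ^ 2 - 2 * Z * (X * a + Y * b) * c + c ^ 2 * (X ^ 2 + Y ^ 2 + 1 - Z ^ 2)) * hZ2
  exact mul_right_cancel₀ (pow_ne_zero 2 hZ) h1

/-- the second moment of the weight in the direction `(a, b, c)` -/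
theorem eu_moment (hf : Ef f) {E : ℝ} (hE : EUAt E f) (hE0 : 0 ≤ E) (a b c : ℝ) :
    ∫ t in (0 : ℝ)..(2 * π), ww f t * (a * q1 f t + b * q2 f t + c * q3 f t) ^ 2
      ≤ E * (a ^ 2 + b ^ 2 + c ^ 2) := by
  have hz := hf.zz_pos
  have hV := hf.V0_pos
  set Z := √(zz f) with hZ
  have hZ0 : 0 < Z := sqrt_pos.2 hz
  have hZ2 : Z ^ 2 = 1 - F1 f ^ 2 - F2 f ^ 2 := by
    rw [hZ, sq_sqrt hz.le]
    rfl
  set α := a - c * F1 f / Z with hα
  set β := b - c * F2 f / Z with hβ
  have h1 : ∫ t in (0 : ℝ)..(2 * π), ww f t * (a * q1 f t + b * q2 f t + c * q3 f t) ^ 2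
      = 1 / V0 f * ∫ t in (0 : ℝ)..(2 * π),
        (α * (cos t - F1 f * sin (f t)) + β * (sin t - F2 f * sin (f t))) ^ 2 / cos (f t) ^ 4 := by
    rw [← intervalIntegral.integral_const_mul]
    refine intervalIntegral.integral_congr fun t _ => ?_
    have hc := hf.cos_pos t
    have e3 : q3 f t = -(F1 f * q1 f t + F2 f * q2 f t) / Z := rfl
    have e1 : q1 f t = (cos t - F1 f * sin (f t)) / cos (f t) := rfl
    have e2 : q2 f t = (sin t - F2 f * sin (f t)) / cos (f t) := rfl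
    have e4 : a * q1 f t + b * q2 f t + c * q3 f t
        = (α * (cos t - F1 f * sin (f t)) + β * (sin t - F2 f * sin (f t))) / cos (f t) := by
      rw [e3, e1, e2, hα, hβ]
      field_simp
      ring
    rw [e4]
    unfold ww
    field_simp
  have h2 := hE α β
  have h3 : α ^ 2 + β ^ 2 - (F1 f * α + F2 f * β) ^ 2 ≤ a ^ 2 + b ^ 2 + c ^ 2 := by
    have e5 : a ^ 2 + b ^ 2 + c ^ 2 - (α ^ 2 + β ^ 2 - (F1 f * α + F2 f * β) ^ 2)
        = (F1 f * a + F2 f * b + Z * c) ^ 2 := by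
      have ha : α * Z = a * Z - c * F1 f := by
        rw [hα]
        field_simp
      have hb : β * Z = b * Z - c * F2 f := by
        rw [hβ]
        field_simp
      exact alg hZ0.ne' hZ2 ha hb
    have := sq_nonneg (F1 f * a + F2 f * b + Z * c)
    linarith
  rw [h1]
  have h4 : E * V0 f * (α ^ 2 + β ^ 2 - (F1 f * α + F2 f * β) ^ 2)
      ≤ E * V0 f * (a ^ 2 + b ^ 2 + c ^ 2) := mul_le_mul_of_nonneg_left h3 (by positivity)
  calc 1 / V0 f * ∫ t in (0 : ℝ)..(2 * π),
        (α * (cos t - F1 f * sin (f t)) + β * (sin t - F2 f * sin (f t))) ^ 2 / cos (f t) ^ 4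
      ≤ 1 / V0 f * (E * V0 f * (a ^ 2 + b ^ 2 + c ^ 2)) :=
        mul_le_mul_of_nonneg_left (h2.trans h4) (by positivity)
    _ = E * (a ^ 2 + b ^ 2 + c ^ 2) := by field_simp

/-- the pointwise energy bound -/
theorem eu_bound (hf : Ef f) {E : ℝ} (hE : EUAt E f) (hE0 : 0 ≤ E) (hm : Measurable h)
    (km : Measurable k) (hk : ∀ t, h t ^ 2 + k t ^ 2 ≤ 1) :
    dd q1 f h ^ 2 + dd q2 f h ^ 2 + dd q3 f h ^ 2 + dd q1 f k ^ 2 + dd q2 f k ^ 2 + dd q3 f k ^ 2
      ≤ 2 * E := by
  have hb : ∀ t, |h t| ≤ 1 := fun t => abs_le_one_iff_mul_self_le_one.2 (by nlinarith [hk t, sq_nonneg (k t)])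
  have kb : ∀ t, |k t| ≤ 1 := fun t => abs_le_one_iff_mul_self_le_one.2 (by nlinarith [hk t, sq_nonneg (h t)])
  have c1 := cont_q1 hf
  have c2 := cont_q2 hf
  have c3 := cont_q3 hf
  set S := dd q1 f h ^ 2 + dd q2 f h ^ 2 + dd q3 f h ^ 2 + dd q1 f k ^ 2 + dd q2 f k ^ 2
    + dd q3 f k ^ 2 with hS
  have i1h := ii hf hm hb c1
  have i2h := ii hf hm hb c2
  have i3h := ii hf hm hb c3
  have i1k := ii hf km kb c1
  have i2k := ii hf km kb c2
  have i3k := ii hf km kb c3
  -- the pairing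
  set P : ℝ → ℝ := fun t => dd q1 f h * q1 f t + dd q2 f h * q2 f t + dd q3 f h * q3 f t with hP
  set R : ℝ → ℝ := fun t => dd q1 f k * q1 f t + dd q2 f k * q2 f t + dd q3 f k * q3 f t with hR
  have cP : Continuous P := by
    rw [hP]
    exact ((continuous_const.mul c1).add (continuous_const.mul c2)).add (continuous_const.mul c3)
  have cR : Continuous R := by
    rw [hR]
    exact ((continuous_const.mul c1).add (continuous_const.mul c2)).add (continuous_const.mul c3)
  have iP := ii hf hm hb cP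
  have iR := ii hf km kb cR
  have e1 : S = ∫ t in (0 : ℝ)..(2 * π), ww f t * (P t * h t + R t * k t) := by
    have e2 : ∀ t, ww f t * (P t * h t + R t * k t) =
        (dd q1 f h * (ww f t * q1 f t * h t) + dd q2 f h * (ww f t * q2 f t * h t)
          + dd q3 f h * (ww f t * q3 f t * h t))
        + (dd q1 f k * (ww f t * q1 f t * k t) + dd q2 f k * (ww f t * q2 f t * k t)
          + dd q3 f k * (ww f t * q3 f t * k t)) := by
      intro t
      simp only [hP, hR]
      ring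
    simp only [e2]
    rw [intervalIntegral.integral_add
        (((i1h.const_mul _).add (i2h.const_mul _)).add (i3h.const_mul _))
        (((i1k.const_mul _).add (i2k.const_mul _)).add (i3k.const_mul _)),
      intervalIntegral.integral_add ((i1h.const_mul _).add (i2h.const_mul _)) (i3h.const_mul _),
      intervalIntegral.integral_add (i1h.const_mul _) (i2h.const_mul _),
      intervalIntegral.integral_add ((i1k.const_mul _).add (i2k.const_mul _)) (i3k.const_mul _),
      intervalIntegral.integral_add (i1k.const_mul _) (i2k.const_mul _)]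
    simp only [intervalIntegral.integral_const_mul]
    rw [hS]
    unfold dd
    ring
  have j : IntervalIntegrable (fun t => ww f t * (P t * h t + R t * k t) ^ 2) volume 0 (2 * π) := by
    have b1 : ∀ t, |h t ^ 2| ≤ 1 := fun t => by
      rw [abs_pow]
      exact pow_le_one₀ (abs_nonneg _) (hb t)
    have b2 : ∀ t, |k t ^ 2| ≤ 1 := fun t => by
      rw [abs_pow]
      exact pow_le_one₀ (abs_nonneg _) (kb t)
    have b3 : ∀ t, |h t * k t| ≤ 1 := fun t => by
      rw [abs_mul]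
      exact mul_le_one₀ (hb t) (abs_nonneg _) (kb t)
    have j1 := ii hf (hm.pow_const 2) b1 (cP.pow 2)
    have j2 := ii hf (km.pow_const 2) b2 (cR.pow 2)
    have j3 := (ii hf (hm.mul km) b3 (cP.mul cR)).const_mul 2
    refine ((j1.add j2).add j3).congr fun t _ => ?_
    simp only [Pi.mul_apply, Pi.pow_apply]
    ring
  have j0 : IntervalIntegrable (fun t => ww f t * (P t * h t + R t * k t)) volume 0 (2 * π) := by
    refine (iP.add iR).congr fun t _ => ?_
    ring
  have k1 := cs hf j0 j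
  rw [← e1] at k1
  have k2 : ∫ t in (0 : ℝ)..(2 * π), ww f t * (P t * h t + R t * k t) ^ 2 ≤
      (∫ t in (0 : ℝ)..(2 * π), ww f t * P t ^ 2) + ∫ t in (0 : ℝ)..(2 * π), ww f t * R t ^ 2 := by
    have l1 : IntervalIntegrable (fun t => ww f t * P t ^ 2) volume 0 (2 * π) :=
      ((cont_ww hf).mul (cP.pow 2)).intervalIntegrable _ _
    have l2 : IntervalIntegrable (fun t => ww f t * R t ^ 2) volume 0 (2 * π) :=
      ((cont_ww hf).mul (cR.pow 2)).intervalIntegrable _ _
    rw [← intervalIntegral.integral_add l1 l2]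
    refine intervalIntegral.integral_mono (by positivity) j (l1.add l2) fun t => ?_
    have hw := (ww_pos hf t).le
    have h5 : (P t * h t + R t * k t) ^ 2 ≤ P t ^ 2 + R t ^ 2 := by
      have h6 : (P t * h t + R t * k t) ^ 2 ≤ (P t ^ 2 + R t ^ 2) * (h t ^ 2 + k t ^ 2) := by
        nlinarith [sq_nonneg (P t * k t - R t * h t)]
      have h7 : (P t ^ 2 + R t ^ 2) * (h t ^ 2 + k t ^ 2) ≤ P t ^ 2 + R t ^ 2 :=
        mul_le_of_le_one_right (by positivity) (hk t)
      exact h6.trans h7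
    simp only
    calc ww f t * (P t * h t + R t * k t) ^ 2 ≤ ww f t * (P t ^ 2 + R t ^ 2) :=
          mul_le_mul_of_nonneg_left h5 hw
      _ = ww f t * P t ^ 2 + ww f t * R t ^ 2 := by ring
  have k3 := eu_moment hf hE hE0 (dd q1 f h) (dd q2 f h) (dd q3 f h)
  have k4 := eu_moment hf hE hE0 (dd q1 f k) (dd q2 f k) (dd q3 f k)
  have k5 : S ^ 2 ≤ 2 * (E * S) := by
    have : E * S = E * (dd q1 f h ^ 2 + dd q2 f h ^ 2 + dd q3 f h ^ 2)
        + E * (dd q1 f k ^ 2 + dd q2 f k ^ 2 + dd q3 f k ^ 2) := by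
      rw [hS]
      ring
    linarith
  have hS0 : 0 ≤ S := by
    rw [hS]
    positivity
  rcases hS0.eq_or_lt with h0 | h0
  · rw [← h0]
    positivity
  · have : S * S ≤ 2 * E * S := by nlinarith
    exact le_of_mul_le_mul_right this h0

end Pool.Agent.FPX.UMQ
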