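import Mathlib
import Pool.Agent.FPX.UMP2
import Pool.Agent.FPU.EUA
import Pool.Agent.FPU.EUB

/-
EUC (helper3): the universal map of the surface with the second pointwise bound: from `UStar c` and
`NE E` one gets an odd Lipschitz map `F` of the surface into the sphere with
`e + |J| ≤ 2 (1 + c) + ε`, `e ≤ E + ε` almost everywhere (`e = (|F_x|² + |F_y|²)/2`) and `∫ J = 2π`.
-/

open MeasureTheory Set Filter Topology
open scoped ENNReal NNReal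

noncomputable section

namespace Pool.Agent.FPX.UMQ

open Pool.Agent.FPX Pool.Agent.FPX.UMP Pool.Agent.EWD

open Real

private theorem nrm {X Y W3 N p : ℝ} (hN : 0 < N) (hN2 : N ^ 2 = X ^ 2 + Y ^ 2 + W3 ^ 2)
    (hp : p ^ 2 ≤ 1) (u1 u2 u3 : ℝ) :
    (u1 / N - X * (X * u1 + Y * u2 + W3 * (p * u3)) / N ^ 3) ^ 2
      + (u2 / N - Y * (X * u1 + Y * u2 + W3 * (p * u3)) / N ^ 3) ^ 2
      + (p * u3 / N - W3 * (X * u1 + Y * u2 + W3 * (p * u3)) / N ^ 3) ^ 2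
      ≤ (u1 ^ 2 + u2 ^ 2 + u3 ^ 2) / N ^ 2 := by
  generalize hA : (X * u1 + Y * u2 + W3 * (p * u3)) = A
  have t1 : ∀ u v : ℝ, (u / N - v * A / N ^ 3) ^ 2 = (N ^ 2 * u - v * A) ^ 2 / N ^ 6 := fun u v => by
    have : u / N - v * A / N ^ 3 = (N ^ 2 * u - v * A) / N ^ 3 := by field_simp
    rw [this, div_pow, ← pow_mul]
  have e : (u1 / N - X * A / N ^ 3) ^ 2 + (u2 / N - Y * A / N ^ 3) ^ 2
      + (p * u3 / N - W3 * A / N ^ 3) ^ 2
      = (u1 ^ 2 + u2 ^ 2 + (p * u3) ^ 2) / N ^ 2 - A ^ 2 / N ^ 4 := by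
    rw [t1, t1, t1, ← add_div, ← add_div]
    have key : (N ^ 2 * u1 - X * A) ^ 2 + (N ^ 2 * u2 - Y * A) ^ 2 + (N ^ 2 * (p * u3) - W3 * A) ^ 2
        = N ^ 4 * (u1 ^ 2 + u2 ^ 2 + (p * u3) ^ 2) - N ^ 2 * A ^ 2 := by
      linear_combination (-(A ^ 2)) * hN2 - 2 * N ^ 2 * A * hA
    rw [key]
    generalize u1 ^ 2 + u2 ^ 2 + (p * u3) ^ 2 = D
    field_simp
  rw [e]
  have h1 : (p * u3) ^ 2 ≤ u3 ^ 2 := by
    rw [mul_pow]
    nlinarith [sq_nonneg u3]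
  have h2 : (u1 ^ 2 + u2 ^ 2 + (p * u3) ^ 2) / N ^ 2 ≤ (u1 ^ 2 + u2 ^ 2 + u3 ^ 2) / N ^ 2 := by
    gcongr
  have h3 : 0 ≤ A ^ 2 / N ^ 4 := by positivity
  linarith

/-- the pointwise energy bound of the normalised map -/
theorem dG_eu {f h k : ℝ → ℝ} (hf : Ef f) {E : ℝ} (hE0 : 0 ≤ E) (hE : EUAt E f)
    (hm : Measurable h) (km : Measurable k) (hk : ∀ t, h t ^ 2 + k t ^ 2 ≤ 1)
    {τ η : ℝ} (hτ : τ ^ 2 = 1) (hη : 0 < η) (hη1 : η < 1 / 4) :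
    (dG τ η f h 0 ^ 2 + dG τ η f h 1 ^ 2 + dG τ η f h 2 ^ 2
      + dG τ η f k 0 ^ 2 + dG τ η f k 1 ^ 2 + dG τ η f k 2 ^ 2) / 2 ≤ E / (1 - 4 * η) := by
  have hN := gN_pos hf hη hη1
  have hN2 := gN_sq hf hη hη1
  have hge := gN_sq_ge hf hη hη1
  have hp : (τ * phid η (√(zz f))) ^ 2 ≤ 1 := by
    rw [mul_pow, hτ, one_mul]
    exact pow_le_one₀ (phid_nonneg _ _) (phid_le _ _)
  have hN3 : gN η f ^ 2 = F1 f ^ 2 + F2 f ^ 2 + (τ * phi η (√(zz f))) ^ 2 := by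
    rw [hN2, mul_pow, hτ, one_mul]
  have n1 := nrm hN hN3 hp (dd q1 f h) (dd q2 f h) (dd q3 f h)
  have n2 := nrm hN hN3 hp (dd q1 f k) (dd q2 f k) (dd q3 f k)
  have e0 : ∀ h : ℝ → ℝ, dG τ η f h 0 = dd q1 f h / gN η f - F1 f * (F1 f * dd q1 f h + F2 f * dd q2 f h
      + τ * phi η (√(zz f)) * (τ * phid η (√(zz f)) * dd q3 f h)) / gN η f ^ 3 := fun h => rfl
  have e1 : ∀ h : ℝ → ℝ, dG τ η f h 1 = dd q2 f h / gN η f - F2 f * (F1 f * dd q1 f h + F2 f * dd q2 f h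
      + τ * phi η (√(zz f)) * (τ * phid η (√(zz f)) * dd q3 f h)) / gN η f ^ 3 := fun h => rfl
  have e2 : ∀ h : ℝ → ℝ, dG τ η f h 2 = τ * phid η (√(zz f)) * dd q3 f h / gN η f
      - τ * phi η (√(zz f)) * (F1 f * dd q1 f h + F2 f * dd q2 f h
      + τ * phi η (√(zz f)) * (τ * phid η (√(zz f)) * dd q3 f h)) / gN η f ^ 3 := fun h => rfl
  rw [← e0, ← e1, ← e2] at n1 n2
  have key := eu_bound hf hE hE0 hm km hk
  have h4 : 0 < 1 - 4 * η := by linarith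
  rw [← hN2] at hge
  have h5 : (dd q1 f h ^ 2 + dd q2 f h ^ 2 + dd q3 f h ^ 2) / gN η f ^ 2
      + (dd q1 f k ^ 2 + dd q2 f k ^ 2 + dd q3 f k ^ 2) / gN η f ^ 2 ≤ 2 * E / gN η f ^ 2 := by
    rw [← add_div]
    exact div_le_div_of_nonneg_right (by linarith) (by positivity)
  have h6 : 2 * E / gN η f ^ 2 ≤ 2 * E / (1 - 4 * η) :=
    div_le_div_of_nonneg_left (by positivity) h4 hge
  have h7 : 2 * E / (1 - 4 * η) = 2 * (E / (1 - 4 * η)) := by ring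
  linarith

variable {M : Type} [MetricSpace M] {γ : ℝ → M}

/-- the pointwise energy bound on the surface -/
theorem FM_eu (C : Calc M γ) {L τ η ρ δ : ℝ} {n : ℕ} (P : Par L τ η ρ n δ) (hγ : Bd γ)
    {E : ℝ} (hE0 : 0 ≤ E) (hE : EUStar E) : ∀ᵐ o ∂C.μ,
      (‖dx C (FM γ τ η ρ n) o‖ ^ 2 + ‖dy C (FM γ τ η ρ n) o‖ ^ 2) / 2 ≤ E / (1 - 4 * η) := by
  filter_upwards [FM_ae C P hγ] with o ho
  obtain ⟨h, k, hm, km, hq, hx, hy⟩ := ho
  have hf := P.ef hγ (C.pt o)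
  have key := dG_eu hf hE0 (hE _ hf) hm km hq P.tau P.eta P.eta1
  rw [normsq3, normsq3]
  have e0 : ∀ i, (dx C (FM γ τ η ρ n) o) i = dG τ η (pf γ ρ n (C.pt o)) h i := by
    intro i
    rw [← hx i]
    fin_cases i <;> rfl
  have e1 : ∀ i, (dy C (FM γ τ η ρ n) o) i = dG τ η (pf γ ρ n (C.pt o)) k i := by
    intro i
    rw [← hy i]
    fin_cases i <;> rfl
  simp only [e0, e1]
  linarith

/-- **the universal map with two pointwise bounds**: there is an odd Lipschitz map of the surface into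
the sphere of degree one (`∫ J = 2π` on one half of the double) whose energy density and area density
satisfy `e + |J| ≤ 2 (1 + c) + ε` and `e ≤ E + ε` -/
theorem umapE [CompactSpace M] (C : Calc M γ) (hγ : Bd γ) {c : ℝ} (hc : 0 ≤ c) (hU : UStar c)
    {E : ℝ} (hE0 : 0 ≤ E) (hE : NE E) {ε : ℝ} (hε : 0 < ε) : ∃ F : Fin 3 → M → ℝ, Sph γ F ∧
      (∀ k, LipschitzWith (toNNReal (2 * √(1 + c) + ε)) (F k)) ∧
      (∀ᵐ o ∂C.μ, (‖dx C F o‖ ^ 2 + ‖dy C F o‖ ^ 2) / 2 + |jac C F o| ≤ 2 * (1 + c) + ε) ∧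
      (∀ᵐ o ∂C.μ, (‖dx C F o‖ ^ 2 + ‖dy C F o‖ ^ 2) / 2 ≤ E + ε) ∧
      ∫ o, jac C F o ∂C.μ = 2 * π := by
  have hc1 : 0 ≤ 1 + c := by linarith
  have t1 : ∀ᶠ η in 𝓝[>] (0 : ℝ), 2 * (1 + c) / (1 - 4 * η) < 2 * (1 + c) + ε := by
    have hc2 : ContinuousAt (fun η : ℝ => 2 * (1 + c) / (1 - 4 * η)) 0 := by
      refine ContinuousAt.div (by fun_prop) (by fun_prop) (by norm_num)
    refine (hc2.eventually_lt_const ?_).filter_mono nhdsWithin_le_nhds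
    simp only [mul_zero, sub_zero, div_one]
    linarith
  have t2 : ∀ᶠ η in 𝓝[>] (0 : ℝ), 2 * √((1 + c) / (1 - 4 * η)) < 2 * √(1 + c) + ε := by
    have hc2 : ContinuousAt (fun η : ℝ => 2 * √((1 + c) / (1 - 4 * η))) 0 := by
      refine ContinuousAt.mul continuousAt_const (ContinuousAt.sqrt ?_)
      refine ContinuousAt.div (by fun_prop) (by fun_prop) (by norm_num)
    refine (hc2.eventually_lt_const ?_).filter_mono nhdsWithin_le_nhds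
    simp only [mul_zero, sub_zero, div_one]
    linarith
  have t3 : ∀ᶠ η in 𝓝[>] (0 : ℝ), η < 1 / 4 :=
    (eventually_lt_nhds (by norm_num : (0 : ℝ) < 1 / 4)).filter_mono nhdsWithin_le_nhds
  have t4 : ∀ᶠ η in 𝓝[>] (0 : ℝ), E / (1 - 4 * η) < E + ε := by
    have hc2 : ContinuousAt (fun η : ℝ => E / (1 - 4 * η)) 0 := by
      refine ContinuousAt.div (by fun_prop) (by fun_prop) (by norm_num)
    refine (hc2.eventually_lt_const ?_).filter_mono nhdsWithin_le_nhds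
    simp only [mul_zero, sub_zero, div_one]
    linarith
  obtain ⟨η, h1, h2, h3, h5, h4⟩ := (t1.and (t2.and (t3.and (t4.and self_mem_nhdsWithin)))).exists
  have hη : 0 < η := h4
  have hL0 : 0 ≤ 2 * √(1 + c) + ε := by positivity
  obtain ⟨ρ, n, δ, hP⟩ := exists_par hL0 hη h3
  have hsg : (-C.sg) ^ 2 = 1 := by
    rcases C.pm with h | h <;> rw [h] <;> norm_num
  have P := hP (-C.sg) hsg
  refine ⟨FM γ (-C.sg) η ρ n, FM_sph P hγ hc1 hU, fun k => ?_, ?_, ?_, ?_⟩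
  · exact (FM_lip P hγ hc1 hU k).weaken (toNNReal_le_toNNReal h2.le)
  · filter_upwards [FM_energy C P hγ hc1 hU] with o ho
    exact ho.trans h1.le
  · filter_upwards [FM_eu C P hγ hE0 (eustar_of_ne hE)] with o ho
    exact ho.trans h5.le
  · exact FM_jac C P hγ hc1 hU h2.le rfl

end Pool.Agent.FPX.UMQ
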