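import Mathlib

/-
EUF (helper26): a weighted Wirtinger inequality for anti-periodic functions, with control of the
first harmonic.  Input of the energy bound of the universal map (EUN).
-/

set_option autoImplicit false

open MeasureTheory Set Filter Topology

noncomputable section

namespace Pool.Agent.FPX.UMP.EU

open Complex

/-- the `k`-th Fourier coefficient over `[0, 2π]` -/
def fc (f : ℝ → ℂ) (k : ℤ) : ℂ :=
  (1 / (2 * (Real.pi : ℂ))) * ∫ t in (0 : ℝ)..(2 * Real.pi), cexp (-(I * k * t)) * f t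

theorem pi2 : (0 : ℝ) < 2 * Real.pi := by positivity

theorem fc_eq (f : ℝ → ℂ) (k : ℤ) : fourierCoeffOn pi2 f k = fc f k := by
  rw [fourierCoeffOn_eq_integral]
  unfold fc
  rw [Complex.real_smul]
  congr 1
  · push_cast
    ring
  · refine intervalIntegral.integral_congr fun t _ => ?_
    have hp : (Real.pi : ℂ) ≠ 0 := by exact_mod_cast Real.pi_ne_zero
    have e : (fourier (-k) : AddCircle (2 * Real.pi - 0) → ℂ) (t : AddCircle (2 * Real.pi - 0))
        = cexp (-(I * k * t)) := by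
      rw [fourier_coe_apply]
      congr 1
      push_cast
      field_simp
      ring
    change (fourier (-k) : AddCircle (2 * Real.pi - 0) → ℂ) (t : AddCircle (2 * Real.pi - 0)) • f t
      = _
    rw [e, smul_eq_mul]

/-- Parseval -/
theorem parseval {f : ℝ → ℂ} (hf : Continuous f) :
    HasSum (fun k : ℤ => ‖fc f k‖ ^ 2)
      ((2 * Real.pi)⁻¹ * ∫ t in (0 : ℝ)..(2 * Real.pi), ‖f t‖ ^ 2) := by
  have hm : MemLp f 2 (volume.restrict (Ioc 0 (2 * Real.pi))) := by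
    obtain ⟨C, hC⟩ := isCompact_Icc.exists_bound_of_continuousOn
      (s := Icc (0 : ℝ) (2 * Real.pi)) (f := f) hf.continuousOn
    refine MemLp.of_bound hf.aestronglyMeasurable C ?_
    refine (ae_restrict_iff' measurableSet_Ioc).2 (Filter.Eventually.of_forall fun t ht => ?_)
    exact hC t (Ioc_subset_Icc_self ht)
  have := hasSum_sq_fourierCoeffOn pi2 hm
  simp only [fc_eq, sub_zero, smul_eq_mul] at this
  exact this

theorem fc_shift (f : ℝ → ℂ) (m k : ℤ) :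
    fc (fun t => f t * cexp (I * m * t)) k = fc f (k - m) := by
  unfold fc
  congr 1
  refine intervalIntegral.integral_congr fun t _ => ?_
  change cexp (-(I * k * t)) * (f t * cexp (I * m * t)) = cexp (-(I * ((k - m : ℤ) : ℂ) * t)) * f t
  have : cexp (-(I * ((k - m : ℤ) : ℂ) * t)) = cexp (-(I * k * t)) * cexp (I * m * t) := by
    rw [← Complex.exp_add]
    congr 1
    push_cast
    ring
  rw [this]
  ring

theorem fc_add {f g : ℝ → ℂ} (hf : Continuous f) (hg : Continuous g) (k : ℤ) :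
    fc (fun t => f t + g t) k = fc f k + fc g k := by
  unfold fc
  have he : Continuous fun t : ℝ => cexp (-(I * k * t)) := by fun_prop
  have i1 : IntervalIntegrable (fun t : ℝ => cexp (-(I * k * t)) * f t) volume 0 (2 * Real.pi) :=
    (he.mul hf).intervalIntegrable _ _
  have i2 : IntervalIntegrable (fun t : ℝ => cexp (-(I * k * t)) * g t) volume 0 (2 * Real.pi) :=
    (he.mul hg).intervalIntegrable _ _
  rw [← mul_add, ← intervalIntegral.integral_add i1 i2]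
  congr 1
  refine intervalIntegral.integral_congr fun t _ => ?_
  change cexp (-(I * k * t)) * (f t + g t) = cexp (-(I * k * t)) * f t + cexp (-(I * k * t)) * g t
  ring

theorem fc_mul_const (c : ℂ) (f : ℝ → ℂ) (k : ℤ) :
    fc (fun t => c * f t) k = c * fc f k := by
  unfold fc
  rw [mul_left_comm c]
  congr 1
  rw [← intervalIntegral.integral_const_mul]
  refine intervalIntegral.integral_congr fun t _ => ?_
  change cexp (-(I * k * t)) * (c * f t) = c * (cexp (-(I * k * t)) * f t)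
  ring

/-- derivative -/
theorem fc_deriv {f f' : ℝ → ℂ} (hd : ∀ t, HasDerivAt f (f' t) t) (hc : Continuous f')
    (hp : f (2 * Real.pi) = f 0) (k : ℤ) : fc f' k = I * k * fc f k := by
  unfold fc
  have he : ∀ t : ℝ, HasDerivAt (fun t : ℝ => cexp (-(I * k * t))) (-(I * k) * cexp (-(I * k * t))) t := by
    intro t
    have h1 : HasDerivAt (fun t : ℝ => -(I * k * (t : ℂ))) (-(I * k * 1)) t :=
      ((Complex.ofRealCLM.hasDerivAt (x := t)).const_mul (I * (k : ℂ))).neg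
    have h2 := h1.cexp
    refine h2.congr_deriv ?_
    ring
  have hcont : Continuous fun t : ℝ => cexp (-(I * k * t)) := by fun_prop
  have hf : Continuous f := continuous_iff_continuousAt.2 fun t => (hd t).continuousAt
  have key := intervalIntegral.integral_mul_deriv_eq_deriv_mul (a := 0) (b := 2 * Real.pi)
    (u := fun t : ℝ => cexp (-(I * k * t))) (v := f)
    (u' := fun t : ℝ => -(I * k) * cexp (-(I * k * t))) (v' := f')
    (fun t _ => he t) (fun t _ => hd t)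
    ((continuous_const.mul hcont).intervalIntegrable _ _) (hc.intervalIntegrable _ _)
  rw [key]
  have e1 : cexp (-(I * k * ((2 * Real.pi : ℝ) : ℂ))) = 1 := by
    have : -(I * k * ((2 * Real.pi : ℝ) : ℂ)) = ((-k : ℤ) : ℂ) * (2 * Real.pi * I) := by
      push_cast
      ring
    rw [this]
    exact Complex.exp_int_mul_two_pi_mul_I (-k)
  have e2 : cexp (-(I * k * ((0 : ℝ) : ℂ))) = 1 := by simp
  rw [e1, e2, hp]
  have e3 : ∫ t in (0 : ℝ)..(2 * Real.pi), -(I * k) * cexp (-(I * k * t)) * f t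
      = -(I * k) * ∫ t in (0 : ℝ)..(2 * Real.pi), cexp (-(I * k * t)) * f t := by
    rw [← intervalIntegral.integral_const_mul]
    refine intervalIntegral.integral_congr fun t _ => ?_
    change -(I * k) * cexp (-(I * k * t)) * f t = -(I * k) * (cexp (-(I * k * t)) * f t)
    ring
  rw [e3]
  ring

theorem fc_conj {f : ℝ → ℝ} (k : ℤ) :
    fc (fun t => (f t : ℂ)) (-k) = (starRingEnd ℂ) (fc (fun t => (f t : ℂ)) k) := by
  unfold fc
  rw [map_mul, ← intervalIntegral.intervalIntegral_conj]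
  congr 1
  · rw [map_div₀, map_mul, Complex.conj_ofReal, map_one, map_ofNat]
  · refine intervalIntegral.integral_congr fun t _ => ?_
    change cexp (-(I * ((-k : ℤ) : ℂ) * t)) * (f t : ℂ)
      = (starRingEnd ℂ) (cexp (-(I * k * t)) * (f t : ℂ))
    rw [map_mul, Complex.conj_ofReal, ← Complex.exp_conj]
    congr 2
    simp

/-- even coefficients of an anti-periodic function vanish -/
theorem fc_even {f : ℝ → ℂ} (hf : Continuous f) (ho : ∀ t, f (t + Real.pi) = -f t) (m : ℤ) :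
    fc f (2 * m) = 0 := by
  have hs : ∫ t in (0 : ℝ)..(2 * Real.pi), cexp (-(I * ((2 * m : ℤ) : ℂ) * t)) * f t
      = (∫ t in (0 : ℝ)..Real.pi, cexp (-(I * ((2 * m : ℤ) : ℂ) * t)) * f t)
        + ∫ t in Real.pi..(2 * Real.pi), cexp (-(I * ((2 * m : ℤ) : ℂ) * t)) * f t := by
    rw [intervalIntegral.integral_add_adjacent_intervals]
    · exact (Continuous.mul (by fun_prop) hf).intervalIntegrable _ _
    · exact (Continuous.mul (by fun_prop) hf).intervalIntegrable _ _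
  have h2 : ∫ t in Real.pi..(2 * Real.pi), cexp (-(I * ((2 * m : ℤ) : ℂ) * t)) * f t
      = ∫ t in (0 : ℝ)..Real.pi, -(cexp (-(I * ((2 * m : ℤ) : ℂ) * t)) * f t) := by
    have := intervalIntegral.integral_comp_add_right (a := 0) (b := Real.pi)
      (fun t : ℝ => cexp (-(I * ((2 * m : ℤ) : ℂ) * t)) * f t) Real.pi
    rw [zero_add, show Real.pi + Real.pi = 2 * Real.pi by ring] at this
    rw [← this]
    refine intervalIntegral.integral_congr fun t _ => ?_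
    rw [ho t]
    have e1 : cexp (-(I * ((2 * m : ℤ) : ℂ) * ((t + Real.pi : ℝ) : ℂ)))
        = cexp (-(I * ((2 * m : ℤ) : ℂ) * t)) := by
      have : -(I * ((2 * m : ℤ) : ℂ) * ((t + Real.pi : ℝ) : ℂ))
          = -(I * ((2 * m : ℤ) : ℂ) * t) + ((-m : ℤ) : ℂ) * (2 * Real.pi * I) := by
        push_cast
        ring
      rw [this, Complex.exp_add, Complex.exp_int_mul_two_pi_mul_I, mul_one]
    rw [e1]
    ring
  unfold fc
  rw [hs, h2, intervalIntegral.integral_neg, add_neg_cancel, mul_zero]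

/-! ### algebra of the blocks -/

theorem quad_nonneg {P Q R : ℝ} (hP : 0 ≤ P) (hQ : 0 ≤ Q) (h : R ^ 2 ≤ 4 * P * Q) (x y : ℝ) :
    0 ≤ P * x ^ 2 + Q * y ^ 2 + R * (x * y) := by
  rcases eq_or_lt_of_le hP with h0 | h0
  · have hR : R = 0 := by
      have : R ^ 2 ≤ 0 := by rw [← h0] at h; linarith
      exact pow_eq_zero_iff (two_ne_zero) |>.1 (le_antisymm this (sq_nonneg R))
    rw [← h0, hR]
    nlinarith [mul_nonneg hQ (sq_nonneg y)]
  · have h1 : 0 ≤ P * (P * x ^ 2 + Q * y ^ 2 + R * (x * y)) := by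
      nlinarith [sq_nonneg (2 * P * x + R * y), mul_nonneg (sub_nonneg.2 h) (sq_nonneg y)]
    exact nonneg_of_mul_nonneg_right h1 h0

/-- the block -/
def blk (k l : ℝ) (a b : ℂ) : ℝ :=
  (1 / 2) * ‖(k : ℂ) * a + (l : ℂ) * b‖ ^ 2 - (15 / 2) * ‖a + b‖ ^ 2 + 3 * ‖a‖ ^ 2 + 3 * ‖b‖ ^ 2

theorem nsq (z : ℂ) : ‖z‖ ^ 2 = z.re ^ 2 + z.im ^ 2 := by
  rw [← Complex.normSq_eq_norm_sq, Complex.normSq_apply]
  ring

theorem blk_eq (k l : ℝ) (a b : ℂ) : blk k l a b =
    ((k ^ 2 - 9) / 2 * a.re ^ 2 + (l ^ 2 - 9) / 2 * b.re ^ 2 + (k * l - 15) * (a.re * b.re))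
    + ((k ^ 2 - 9) / 2 * a.im ^ 2 + (l ^ 2 - 9) / 2 * b.im ^ 2 + (k * l - 15) * (a.im * b.im)) := by
  unfold blk
  rw [nsq, nsq, nsq, nsq]
  simp only [Complex.add_re, Complex.add_im, Complex.mul_re, Complex.mul_im, Complex.ofReal_re,
    Complex.ofReal_im]
  ring

theorem blk_nonneg {k : ℤ} (hk : 5 ≤ k ∨ k ≤ -3) (a b : ℂ) : 0 ≤ blk k ((k - 2 : ℤ) : ℝ) a b := by
  rw [blk_eq]
  have h1 : (0 : ℝ) ≤ ((k : ℝ) ^ 2 - 9) / 2 := by
    rcases hk with h | h
    · have : (5 : ℝ) ≤ k := by exact_mod_cast h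
      nlinarith
    · have : (k : ℝ) ≤ -3 := by exact_mod_cast h
      nlinarith
  have h2 : (0 : ℝ) ≤ (((k - 2 : ℤ) : ℝ) ^ 2 - 9) / 2 := by
    push_cast
    rcases hk with h | h
    · have : (5 : ℝ) ≤ k := by exact_mod_cast h
      nlinarith
    · have : (k : ℝ) ≤ -3 := by exact_mod_cast h
      nlinarith
  have h3 : ((k : ℝ) * ((k - 2 : ℤ) : ℝ) - 15) ^ 2
      ≤ 4 * (((k : ℝ) ^ 2 - 9) / 2) * ((((k - 2 : ℤ) : ℝ) ^ 2 - 9) / 2) := by
    push_cast
    have e : 4 * (((k : ℝ) ^ 2 - 9) / 2) * (((k - 2 : ℝ) ^ 2 - 9) / 2)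
        - ((k : ℝ) * (k - 2 : ℝ) - 15) ^ 2 = 12 * (((k : ℝ) + 3) * (k - 5)) := by ring
    have : 0 ≤ ((k : ℝ) + 3) * (k - 5) := by
      rcases hk with h | h
      · have : (5 : ℝ) ≤ k := by exact_mod_cast h
        exact mul_nonneg (by linarith) (by linarith)
      · have : (k : ℝ) ≤ -3 := by exact_mod_cast h
        exact mul_nonneg_of_nonpos_of_nonpos (by linarith) (by linarith)
    linarith
  exact add_nonneg (quad_nonneg h1 h2 h3 _ _) (quad_nonneg h1 h2 h3 _ _)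

theorem re_mul_le (a b : ℂ) : |a.re * b.re + a.im * b.im| ≤ ‖a‖ * ‖b‖ := by
  have h1 := nsq a
  have h2 := nsq b
  have h3 : (a.re * b.re + a.im * b.im) ^ 2 ≤ (‖a‖ * ‖b‖) ^ 2 := by
    rw [mul_pow, h1, h2]
    nlinarith [sq_nonneg (a.re * b.im - a.im * b.re)]
  exact abs_le_of_sq_le_sq h3 (by positivity)

theorem blk_one (a b : ℂ) {n : ℝ} (ha : ‖a‖ = n) (hb : ‖b‖ = n) : -24 * n ^ 2 ≤ blk 1 (-1) a b := by
  rw [blk_eq]
  have h1 := nsq a
  have h2 := nsq b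
  have h3 := (abs_le.1 (re_mul_le a b)).2
  rw [ha, hb] at h3
  rw [ha] at h1
  rw [hb] at h2
  nlinarith

theorem blk_three (a b : ℂ) : -4 * ‖b‖ ^ 2 - 12 * (‖b‖ * ‖a‖) ≤ blk 3 1 a b := by
  rw [blk_eq]
  have h2 := nsq b
  have h3 := (abs_le.1 (re_mul_le a b)).2
  nlinarith

theorem blk_mone (a b : ℂ) : -4 * ‖a‖ ^ 2 - 12 * (‖a‖ * ‖b‖) ≤ blk (-1) (-3) a b := by
  rw [blk_eq]
  have h2 := nsq a
  have h3 := (abs_le.1 (re_mul_le a b)).2
  nlinarith

/-! ### the weighted inequality -/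

theorem wsq {x y : ℝ} (h : x ^ 2 + y ^ 2 = 1) (t : ℝ) :
    ‖1 + (⟨x, -y⟩ : ℂ) * cexp (I * (2 : ℤ) * t)‖ ^ 2
      = 2 * (1 + (x * Real.cos (2 * t) + y * Real.sin (2 * t))) := by
  have e : cexp (I * (2 : ℤ) * t) = ⟨Real.cos (2 * t), Real.sin (2 * t)⟩ := by
    have h1 : I * (2 : ℤ) * t = ((2 * t : ℝ) : ℂ) * I := by
      push_cast
      ring
    rw [h1]
    apply Complex.ext
    · rw [Complex.exp_ofReal_mul_I_re]
    · rw [Complex.exp_ofReal_mul_I_im]
  rw [e, nsq]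
  simp only [Complex.add_re, Complex.add_im, Complex.mul_re, Complex.mul_im, Complex.one_re,
    Complex.one_im]
  have h2 := Real.sin_sq_add_cos_sq (2 * t)
  nlinarith

/-- **weighted Wirtinger inequality** for `Y (t + π) = -Y t` -/
theorem wirt {Y Y' : ℝ → ℝ} (hd : ∀ t, HasDerivAt Y (Y' t) t) (hc : Continuous Y')
    (ho : ∀ t, Y (t + Real.pi) = -Y t) {x y : ℝ} (h : x ^ 2 + y ^ 2 = 1) {u1 u3 : ℝ}
    (h1 : ‖fc (fun t => (Y t : ℂ)) 1‖ = u1) (h3 : ‖fc (fun t => (Y t : ℂ)) 3‖ = u3) :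
    -(2 * Real.pi) * (32 * u1 ^ 2 + 24 * (u1 * u3))
      ≤ (∫ t in (0 : ℝ)..(2 * Real.pi), Y' t ^ 2 * (1 + (x * Real.cos (2 * t) + y * Real.sin (2 * t))))
        - ∫ t in (0 : ℝ)..(2 * Real.pi),
          Y t ^ 2 * (9 + 15 * (x * Real.cos (2 * t) + y * Real.sin (2 * t))) := by
  have hY : Continuous Y := continuous_iff_continuousAt.2 fun t => (hd t).continuousAt
  have hYc : Continuous fun t => (Y t : ℂ) := Complex.continuous_ofReal.comp hY
  have hYc' : Continuous fun t => (Y' t : ℂ) := Complex.continuous_ofReal.comp hc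
  have hdc : ∀ t, HasDerivAt (fun t => (Y t : ℂ)) ((Y' t : ℝ) : ℂ) t := fun t => (hd t).ofReal_comp
  have hper : Y (2 * Real.pi) = Y 0 := by
    have a1 := ho 0
    have a2 := ho Real.pi
    rw [zero_add] at a1
    rw [show Real.pi + Real.pi = 2 * Real.pi by ring, a1, neg_neg] at a2
    exact a2
  set ζ : ℂ := ⟨x, -y⟩ with hζ
  have hζn : ‖ζ‖ = 1 := by
    have : ‖ζ‖ ^ 2 = 1 := by
      rw [nsq]
      simp only [hζ]
      nlinarith
    have h0 := norm_nonneg ζ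
    nlinarith
  set u : ℤ → ℂ := fc fun t => (Y t : ℂ) with hu
  set G2 : ℝ → ℂ := fun t => (Y t : ℂ) + ζ * ((Y t : ℂ) * cexp (I * (2 : ℤ) * t)) with hG2
  set G1 : ℝ → ℂ := fun t => (Y' t : ℂ) + ζ * ((Y' t : ℂ) * cexp (I * (2 : ℤ) * t)) with hG1
  have he : Continuous fun t : ℝ => cexp (I * (2 : ℤ) * t) := by fun_prop
  have c2 : Continuous G2 := hYc.add (continuous_const.mul (hYc.mul he))
  have c1 : Continuous G1 := hYc'.add (continuous_const.mul (hYc'.mul he))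
  have d2 : Continuous fun t : ℝ => ζ * ((Y t : ℂ) * cexp (I * (2 : ℤ) * t)) :=
    continuous_const.mul (hYc.mul he)
  have d1 : Continuous fun t : ℝ => ζ * ((Y' t : ℂ) * cexp (I * (2 : ℤ) * t)) :=
    continuous_const.mul (hYc'.mul he)
  have f2 : ∀ k, fc G2 k = u k + ζ * u (k - 2) := by
    intro k
    rw [hG2, fc_add hYc d2, fc_mul_const ζ, fc_shift]
  have f1 : ∀ k : ℤ, fc G1 k = I * (((k : ℝ) : ℂ) * u k + (((k - 2 : ℤ) : ℝ) : ℂ) * (ζ * u (k - 2))) := by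
    intro k
    rw [hG1, fc_add hYc' d1, fc_mul_const ζ, fc_shift,
      fc_deriv hdc hYc' (by simp [hper]), fc_deriv hdc hYc' (by simp [hper])]
    push_cast
    ring
  have p2 := parseval c2
  have p1 := parseval c1
  have p0 := parseval hYc
  have p0' : HasSum (fun k : ℤ => ‖u (k - 2)‖ ^ 2)
      ((2 * Real.pi)⁻¹ * ∫ t in (0 : ℝ)..(2 * Real.pi), ‖(Y t : ℂ)‖ ^ 2) := by
    have := (Equiv.subRight (2 : ℤ)).hasSum_iff.2 p0
    exact this
  have hS : HasSum (fun k : ℤ => blk k ((k - 2 : ℤ) : ℝ) (u k) (ζ * u (k - 2)))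
      ((1 / 2) * ((2 * Real.pi)⁻¹ * ∫ t in (0 : ℝ)..(2 * Real.pi), ‖G1 t‖ ^ 2)
        - (15 / 2) * ((2 * Real.pi)⁻¹ * ∫ t in (0 : ℝ)..(2 * Real.pi), ‖G2 t‖ ^ 2)
        + 3 * ((2 * Real.pi)⁻¹ * ∫ t in (0 : ℝ)..(2 * Real.pi), ‖(Y t : ℂ)‖ ^ 2)
        + 3 * ((2 * Real.pi)⁻¹ * ∫ t in (0 : ℝ)..(2 * Real.pi), ‖(Y t : ℂ)‖ ^ 2)) := by
    have key := (((p1.mul_left (1 / 2)).sub (p2.mul_left (15 / 2))).add (p0.mul_left 3)).add
      (p0'.mul_left 3)
    have hfun : (fun k : ℤ => blk k ((k - 2 : ℤ) : ℝ) (u k) (ζ * u (k - 2)))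
        = fun b : ℤ => 1 / 2 * ‖fc G1 b‖ ^ 2 - 15 / 2 * ‖fc G2 b‖ ^ 2
          + 3 * ‖fc (fun t => (Y t : ℂ)) b‖ ^ 2 + 3 * ‖u (b - 2)‖ ^ 2 := by
      funext k
      rw [f1 k, f2 k]
      unfold blk
      rw [norm_mul I, norm_I, one_mul, norm_mul ζ, hζn, one_mul]
    rw [hfun]
    exact key
  have hev : ∀ m : ℤ, u (2 * m) = 0 := fun m => fc_even hYc (fun t => by
    rw [ho t]
    push_cast
    rfl) m
  have hm1 : ‖u (-1)‖ = u1 := by
    rw [hu, fc_conj, RCLike.norm_conj]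
    exact h1
  have hm3 : ‖u (-3)‖ = u3 := by
    rw [hu, fc_conj, RCLike.norm_conj]
    exact h3
  have hlow : ∑ k ∈ ({-1, 1, 3} : Finset ℤ), blk k ((k - 2 : ℤ) : ℝ) (u k) (ζ * u (k - 2)) ≤
      (1 / 2) * ((2 * Real.pi)⁻¹ * ∫ t in (0 : ℝ)..(2 * Real.pi), ‖G1 t‖ ^ 2)
        - (15 / 2) * ((2 * Real.pi)⁻¹ * ∫ t in (0 : ℝ)..(2 * Real.pi), ‖G2 t‖ ^ 2)
        + 3 * ((2 * Real.pi)⁻¹ * ∫ t in (0 : ℝ)..(2 * Real.pi), ‖(Y t : ℂ)‖ ^ 2)
        + 3 * ((2 * Real.pi)⁻¹ * ∫ t in (0 : ℝ)..(2 * Real.pi), ‖(Y t : ℂ)‖ ^ 2) := by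
    refine sum_le_hasSum _ (fun k hk => ?_) hS
    rcases Int.even_or_odd' k with ⟨m, hm | hm⟩
    · have e1 : u k = 0 := by rw [hm]; exact hev m
      have e2 : u (k - 2) = 0 := by
        rw [hm, show 2 * m - 2 = 2 * (m - 1) by ring]
        exact hev (m - 1)
      rw [e1, e2]
      unfold blk
      simp
    · have : 5 ≤ k ∨ k ≤ -3 := by
        simp only [Finset.mem_insert, Finset.mem_singleton, not_or] at hk
        omega
      exact blk_nonneg this _ _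
  have hsum : -(32 * u1 ^ 2 + 24 * (u1 * u3))
      ≤ ∑ k ∈ ({-1, 1, 3} : Finset ℤ), blk k ((k - 2 : ℤ) : ℝ) (u k) (ζ * u (k - 2)) := by
    rw [Finset.sum_insert (by decide), Finset.sum_insert (by decide), Finset.sum_singleton]
    have b1 := blk_mone (u (-1)) (ζ * u (-3))
    have b2 := blk_one (u 1) (ζ * u (-1)) (n := u1) h1 (by rw [norm_mul, hζn, one_mul, hm1])
    have b3 := blk_three (u 3) (ζ * u 1)
    rw [norm_mul, hζn, one_mul, hm1, hm3] at b1
    have h1' : ‖u 1‖ = u1 := h1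
    have h3' : ‖u 3‖ = u3 := h3
    rw [norm_mul, hζn, one_mul, h1', h3'] at b3
    have c1 : blk (((-1 : ℤ) : ℝ)) (((-1 - 2 : ℤ) : ℝ)) (u (-1)) (ζ * u (-1 - 2))
        = blk (-1) (-3) (u (-1)) (ζ * u (-3)) := by
      norm_num
    have c2 : blk (((1 : ℤ) : ℝ)) (((1 - 2 : ℤ) : ℝ)) (u 1) (ζ * u (1 - 2))
        = blk 1 (-1) (u 1) (ζ * u (-1)) := by
      norm_num
    have c3 : blk (((3 : ℤ) : ℝ)) (((3 - 2 : ℤ) : ℝ)) (u 3) (ζ * u (3 - 2))
        = blk 3 1 (u 3) (ζ * u 1) := by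
      norm_num
    rw [c1, c2, c3]
    linarith
  have i1 : ∫ t in (0 : ℝ)..(2 * Real.pi), ‖G1 t‖ ^ 2
      = 2 * ∫ t in (0 : ℝ)..(2 * Real.pi), Y' t ^ 2 * (1 + (x * Real.cos (2 * t) + y * Real.sin (2 * t))) := by
    rw [← intervalIntegral.integral_const_mul]
    refine intervalIntegral.integral_congr fun t _ => ?_
    have e : G1 t = (Y' t : ℂ) * (1 + ζ * cexp (I * (2 : ℤ) * t)) := by
      simp only [hG1]
      ring
    change ‖G1 t‖ ^ 2 = _
    rw [e, norm_mul, mul_pow, hζ, wsq h, Complex.norm_real, Real.norm_eq_abs, sq_abs]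
    ring
  have i2 : ∫ t in (0 : ℝ)..(2 * Real.pi), ‖G2 t‖ ^ 2
      = 2 * ∫ t in (0 : ℝ)..(2 * Real.pi), Y t ^ 2 * (1 + (x * Real.cos (2 * t) + y * Real.sin (2 * t))) := by
    rw [← intervalIntegral.integral_const_mul]
    refine intervalIntegral.integral_congr fun t _ => ?_
    have e : G2 t = (Y t : ℂ) * (1 + ζ * cexp (I * (2 : ℤ) * t)) := by
      simp only [hG2]
      ring
    change ‖G2 t‖ ^ 2 = _
    rw [e, norm_mul, mul_pow, hζ, wsq h, Complex.norm_real, Real.norm_eq_abs, sq_abs]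
    ring
  have i0 : ∫ t in (0 : ℝ)..(2 * Real.pi), ‖(Y t : ℂ)‖ ^ 2 = ∫ t in (0 : ℝ)..(2 * Real.pi), Y t ^ 2 := by
    refine intervalIntegral.integral_congr fun t _ => ?_
    rw [Complex.norm_real, Real.norm_eq_abs, sq_abs]
  have cw : Continuous fun t : ℝ => x * Real.cos (2 * t) + y * Real.sin (2 * t) := by fun_prop
  have i3 : ∫ t in (0 : ℝ)..(2 * Real.pi),
      Y t ^ 2 * (9 + 15 * (x * Real.cos (2 * t) + y * Real.sin (2 * t)))
      = 15 * (∫ t in (0 : ℝ)..(2 * Real.pi), Y t ^ 2 * (1 + (x * Real.cos (2 * t) + y * Real.sin (2 * t))))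
        - 6 * ∫ t in (0 : ℝ)..(2 * Real.pi), Y t ^ 2 := by
    rw [← intervalIntegral.integral_const_mul, ← intervalIntegral.integral_const_mul,
      ← intervalIntegral.integral_sub]
    · refine intervalIntegral.integral_congr fun t _ => ?_
      ring
    · exact (continuous_const.mul ((hY.pow 2).mul (continuous_const.add cw))).intervalIntegrable _ _
    · exact (continuous_const.mul (hY.pow 2)).intervalIntegrable _ _
  rw [i1, i2, i0] at hlow
  rw [i3]
  have hpi : 0 < 2 * Real.pi := pi2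
  have hfin := hsum.trans hlow
  set A := ∫ t in (0 : ℝ)..(2 * Real.pi), Y' t ^ 2 * (1 + (x * Real.cos (2 * t) + y * Real.sin (2 * t)))
  set B := ∫ t in (0 : ℝ)..(2 * Real.pi), Y t ^ 2 * (1 + (x * Real.cos (2 * t) + y * Real.sin (2 * t)))
  set C := ∫ t in (0 : ℝ)..(2 * Real.pi), Y t ^ 2
  have e : 1 / 2 * ((2 * Real.pi)⁻¹ * (2 * A)) - 15 / 2 * ((2 * Real.pi)⁻¹ * (2 * B))
      + 3 * ((2 * Real.pi)⁻¹ * C) + 3 * ((2 * Real.pi)⁻¹ * C)
      = (2 * Real.pi)⁻¹ * (A - (15 * B - 6 * C)) := by ring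
  rw [e] at hfin
  have h5 := mul_le_mul_of_nonneg_left hfin hpi.le
  have e6 : 2 * Real.pi * ((2 * Real.pi)⁻¹ * (A - (15 * B - 6 * C))) = A - (15 * B - 6 * C) := by
    rw [← mul_assoc, mul_inv_cancel₀ hpi.ne', one_mul]
  rw [e6] at h5
  linarith

end Pool.Agent.FPX.UMP.EU
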