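import Mathlib
import Pool.Agent.FPX.UMP1

/-
URR (helper37): elementary bounds of `RR = ∫ sec³` by polynomials in `tan` and `sec`.
-/

set_option autoImplicit false

open Set

noncomputable section

namespace Pool.Agent.FPX.UMP

open Real

theorem RR_zero : RR 0 = 0 := by
  unfold RR
  simp

theorem RR_neg (s : ℝ) : RR (-s) = -RR s := by
  unfold RR
  rw [tan_neg, cos_neg, arsinh_neg]
  ring

theorem cos_pos_Ico {x : ℝ} (hx : x ∈ Ico 0 (π / 2)) : 0 < cos x :=
  cos_pos_of_mem_Ioo ⟨by linarith [hx.1, pi_pos], hx.2⟩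

theorem RR_strictMonoOn : StrictMonoOn RR (Ioo (-(π / 2)) (π / 2)) := by
  refine strictMonoOn_of_deriv_pos (convex_Ioo _ _) (fun x hx => ?_) (fun x hx => ?_)
  · exact (hasDerivAt_RR (cos_pos_of_mem_Ioo hx)).continuousAt.continuousWithinAt
  · rw [interior_Ioo] at hx
    have hc := cos_pos_of_mem_Ioo hx
    rw [(hasDerivAt_RR hc).deriv]
    positivity

theorem RR_mono {x y : ℝ} (hx : -(π / 2) < x) (hxy : x ≤ y) (hy : y < π / 2) : RR x ≤ RR y :=
  RR_strictMonoOn.monotoneOn ⟨hx, by linarith⟩ ⟨by linarith, hy⟩ hxy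

theorem RR_nonneg {x : ℝ} (h0 : 0 ≤ x) (h1 : x < π / 2) : 0 ≤ RR x := by
  rw [← RR_zero]
  exact RR_mono (by linarith [pi_pos]) h0 h1

theorem hasDerivAt_inv_cos {x : ℝ} (hc : 0 < cos x) :
    HasDerivAt (fun x => 1 / cos x) (sin x / cos x ^ 2) x := by
  have h := (hasDerivAt_const x (1 : ℝ)).div (hasDerivAt_cos x) hc.ne'
  refine h.congr_deriv ?_
  field_simp
  ring

/-- lower bound of `RR` -/
theorem le_RR {x : ℝ} (h0 : 0 ≤ x) (h1 : x < π / 2) :
    tan x * (2 + 1 / cos x) / 3 ≤ RR x := by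
  have hd : ∀ y, 0 < cos y → HasDerivAt (fun x => RR x - tan x * (2 + 1 / cos x) / 3)
      ((1 / cos y - 1) ^ 2 / (3 * cos y)) y := by
    intro y hc
    have h2 := (hasDerivAt_RR hc).sub
      (((Real.hasDerivAt_tan hc.ne').mul ((hasDerivAt_inv_cos hc).const_add 2)).div_const 3)
    refine h2.congr_deriv ?_
    rw [tan_eq_sin_div_cos]
    have h3 : sin y ^ 2 = 1 - cos y ^ 2 := by nlinarith [sin_sq_add_cos_sq y]
    field_simp
    ring_nf
    rw [h3]
    ring
  have hmono : MonotoneOn (fun x => RR x - tan x * (2 + 1 / cos x) / 3) (Ico 0 (π / 2)) := by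
    refine monotoneOn_of_deriv_nonneg (convex_Ico _ _) (fun x hx => ?_) (fun x hx => ?_)
      (fun x hx => ?_)
    · exact (hd x (cos_pos_Ico hx)).continuousAt.continuousWithinAt
    · exact (hd x (cos_pos_Ico (interior_subset hx))).differentiableAt.differentiableWithinAt
    · have hc := cos_pos_Ico (interior_subset hx)
      rw [(hd x hc).deriv]
      positivity
  have h4 := hmono (show (0 : ℝ) ∈ Ico 0 (π / 2) from ⟨le_rfl, by positivity⟩)
    (show x ∈ Ico 0 (π / 2) from ⟨h0, h1⟩) h0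
  simp only [RR_zero, tan_zero, zero_mul, zero_div, sub_zero] at h4
  linarith

/-- upper bound of `RR` -/
theorem RR_le {x : ℝ} (h0 : 0 ≤ x) (h1 : x < π / 2) :
    RR x ≤ tan x * (11 + 3 / cos x + 1 / cos x ^ 2) / 15 := by
  have hd : ∀ y, 0 < cos y → HasDerivAt
      (fun x => tan x * (11 + 3 * (1 / cos x) + 1 / cos x ^ 2) / 15 - RR x)
      ((1 / cos y - 1) ^ 3 / (5 * cos y)) y := by
    intro y hc
    have h2 := (((Real.hasDerivAt_tan hc.ne').mul
      ((((hasDerivAt_inv_cos hc).const_mul 3).const_add 11).add (hasDerivAt_sec2 hc))).div_const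
        15).sub (hasDerivAt_RR hc)
    refine h2.congr_deriv ?_
    simp only [Pi.add_apply]
    rw [tan_eq_sin_div_cos]
    have h3 : sin y ^ 2 = 1 - cos y ^ 2 := by nlinarith [sin_sq_add_cos_sq y]
    field_simp
    ring_nf
    rw [h3]
    ring
  have hmono : MonotoneOn (fun x => tan x * (11 + 3 * (1 / cos x) + 1 / cos x ^ 2) / 15 - RR x)
      (Ico 0 (π / 2)) := by
    refine monotoneOn_of_deriv_nonneg (convex_Ico _ _) (fun x hx => ?_) (fun x hx => ?_)
      (fun x hx => ?_)
    · exact (hd x (cos_pos_Ico hx)).continuousAt.continuousWithinAt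
    · exact (hd x (cos_pos_Ico (interior_subset hx))).differentiableAt.differentiableWithinAt
    · have hc := cos_pos_Ico (interior_subset hx)
      rw [(hd x hc).deriv]
      have : 0 ≤ 1 / cos x - 1 := by
        rw [sub_nonneg, le_div_iff₀ hc]
        linarith [cos_le_one x]
      positivity
  have h4 := hmono (show (0 : ℝ) ∈ Ico 0 (π / 2) from ⟨le_rfl, by positivity⟩)
    (show x ∈ Ico 0 (π / 2) from ⟨h0, h1⟩) h0
  simp only [RR_zero, tan_zero, zero_mul, zero_div, sub_zero] at h4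
  have h5 : tan x * (11 + 3 * (1 / cos x) + 1 / cos x ^ 2) / 15
      = tan x * (11 + 3 / cos x + 1 / cos x ^ 2) / 15 := by ring
  linarith

end Pool.Agent.FPX.UMP
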