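import Mathlib
import Pool.Agent.FPU.URR

/-
USUP (helper37): the sup bound `|g| ≤ π/6` for odd 1-Lipschitz functions `g` of the circle with
`∫ R(g) u = 0`.

Put `h = g z ≥ 0`, `a = g (z + π/2) = -g (z - π/2)`. On `[z, z + π/2]` the function is above
`max (h - t, a - (π/2 - t))`, and `∫_0^{π/2} cos t R(max (h - t, a - (π/2 - t))) dt
= sec h / 2 - cos a tan ((π/2 - h - a)/2) + ω(a)` with `ω` odd. Adding the two sides gives
`0 ≥ sec h - cos a (tan d₁ + tan d₂)`, which forces `sin h ≤ 1/2`.
-/

set_option autoImplicit false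

open MeasureTheory Set Filter Topology

noncomputable section

namespace Pool.Agent.FPX.UMP

open Real

/-- the odd remainder term -/
def omm (a : ℝ) : ℝ := RR a - sin a / (2 * cos a ^ 2) - sin a

theorem omm_neg (a : ℝ) : omm (-a) = -omm a := by
  unfold omm
  rw [RR_neg, sin_neg, cos_neg]
  ring

/-- first antiderivative -/
theorem hasDerivAt_PP {h t : ℝ} (hc : 0 < cos (h - t)) :
    HasDerivAt (fun t => RR (h - t) * sin t - sin h * tan (h - t) + 1 / 2 * cos h * (1 / cos (h - t) ^ 2))
      (cos t * RR (h - t)) t := by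
  have e : HasDerivAt (fun t => h - t) (-1) t := by
    simpa using (hasDerivAt_id t).const_sub h
  have h1 := (hasDerivAt_RR hc).comp t e
  have h2 := (Real.hasDerivAt_tan hc.ne').comp t e
  have h3 := (hasDerivAt_sec2 hc).comp t e
  have h4 := ((h1.mul (hasDerivAt_sin t)).sub (h2.const_mul (sin h))).add
    (h3.const_mul (1 / 2 * cos h))
  refine h4.congr_deriv ?_
  have hs : sin t = sin h * cos (h - t) - cos h * sin (h - t) := by
    rw [← sin_sub]
    congr 1
    ring
  simp only [Function.comp_apply]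
  have : sin t / cos (h - t) ^ 3 = (sin h * cos (h - t) - cos h * sin (h - t)) / cos (h - t) ^ 3 := by
    rw [← hs]
  have e2 : 1 / cos (h - t) ^ 3 * -1 * sin t = -(sin t / cos (h - t) ^ 3) := by ring
  rw [e2, this]
  field_simp
  ring

/-- second antiderivative, `c = π/2 - a` -/
theorem hasDerivAt_QQ {a t : ℝ} (hc : 0 < cos (t - (π / 2 - a))) :
    HasDerivAt (fun t => RR (t - (π / 2 - a)) * sin t
        - 1 / 2 * sin a * (1 / cos (t - (π / 2 - a)) ^ 2) - cos a * tan (t - (π / 2 - a)))
      (cos t * RR (t - (π / 2 - a))) t := by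
  have e : HasDerivAt (fun t => t - (π / 2 - a)) 1 t := (hasDerivAt_id t).sub_const _
  have h1 := (hasDerivAt_RR hc).comp t e
  have h2 := (Real.hasDerivAt_tan hc.ne').comp t e
  have h3 := (hasDerivAt_sec2 hc).comp t e
  have h4 := ((h1.mul (hasDerivAt_sin t)).sub (h3.const_mul (1 / 2 * sin a))).sub
    (h2.const_mul (cos a))
  refine h4.congr_deriv ?_
  have hs : sin t = sin a * sin (t - (π / 2 - a)) + cos a * cos (t - (π / 2 - a)) := by
    have e1 : t = (t - (π / 2 - a)) + (π / 2 - a) := by ring
    conv_lhs => rw [e1, sin_add, sin_pi_div_two_sub, cos_pi_div_two_sub]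
    ring
  simp only [Function.comp_apply]
  have : sin t / cos (t - (π / 2 - a)) ^ 3
      = (sin a * sin (t - (π / 2 - a)) + cos a * cos (t - (π / 2 - a)))
        / cos (t - (π / 2 - a)) ^ 3 := by
    rw [← hs]
  have e2 : 1 / cos (t - (π / 2 - a)) ^ 3 * 1 * sin t = sin t / cos (t - (π / 2 - a)) ^ 3 := by
    ring
  rw [e2, this]
  obtain ⟨y, hy⟩ : ∃ y, y = t - (π / 2 - a) := ⟨_, rfl⟩
  rw [← hy] at hc ⊢
  field_simp
  ring

/-- one side of the tooth -/
theorem half_bd {k : ℝ → ℝ} {h a : ℝ} (hk : Continuous fun t => RR (k t))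
    (hb : ∀ t, |k t| < π / 2) (hh0 : 0 ≤ h) (hh : h < π / 2) (ha : |a| < π / 2)
    (hha : |h - a| ≤ π / 2) (h1 : ∀ t ∈ Icc 0 (π / 2), h - t ≤ k t)
    (h2 : ∀ t ∈ Icc 0 (π / 2), a - (π / 2 - t) ≤ k t) :
    1 / (2 * cos h) - cos a * tan ((π / 2 - h - a) / 2) + omm a
      ≤ ∫ t in (0 : ℝ)..(π / 2), cos t * RR (k t) := by
  obtain ⟨ha1, ha2⟩ := abs_lt.1 ha
  obtain ⟨hha1, hha2⟩ := abs_le.1 hha
  set s : ℝ := (h + π / 2 - a) / 2 with hs
  set d : ℝ := (π / 2 - h - a) / 2 with hd
  have hs0 : 0 ≤ s := by rw [hs]; linarith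
  have hs1 : s ≤ π / 2 := by rw [hs]; linarith
  have hd1 : d < π / 2 := by rw [hd]; linarith
  have hd2 : -(π / 2) < d := by rw [hd]; linarith
  have hsd : h - s = -d := by rw [hs, hd]; ring
  have hsd' : s - (π / 2 - a) = -d := by rw [hs, hd]; ring
  have hcont : Continuous fun t => cos t * RR (k t) := continuous_cos.mul hk
  -- first piece
  have hcP : ∀ t ∈ Icc 0 s, 0 < cos (h - t) := fun t ht =>
    cos_pos_of_mem_Ioo ⟨by linarith [ht.2], by linarith [ht.1]⟩
  have hcQ : ∀ t ∈ Icc s (π / 2), 0 < cos (t - (π / 2 - a)) := fun t ht =>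
    cos_pos_of_mem_Ioo ⟨by linarith [ht.1], by linarith [ht.2]⟩
  have cRP : ContinuousOn (fun t => cos t * RR (h - t)) (Icc 0 s) := by
    refine continuous_cos.continuousOn.mul fun t ht => ?_
    have e : ContinuousAt (fun t => h - t) t := (continuous_const.sub continuous_id).continuousAt
    exact (ContinuousAt.comp (f := fun t => h - t) (g := RR)
      (hasDerivAt_RR (hcP t ht)).continuousAt e).continuousWithinAt
  have cRQ : ContinuousOn (fun t => cos t * RR (t - (π / 2 - a))) (Icc s (π / 2)) := by
    refine continuous_cos.continuousOn.mul fun t ht => ?_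
    have e : ContinuousAt (fun t => t - (π / 2 - a)) t :=
      (continuous_id.sub continuous_const).continuousAt
    exact (ContinuousAt.comp (f := fun t => t - (π / 2 - a)) (g := RR)
      (hasDerivAt_RR (hcQ t ht)).continuousAt e).continuousWithinAt
  have iP : ∫ t in (0 : ℝ)..s, cos t * RR (h - t)
      = (RR (h - s) * sin s - sin h * tan (h - s) + 1 / 2 * cos h * (1 / cos (h - s) ^ 2))
        - (RR (h - 0) * sin 0 - sin h * tan (h - 0) + 1 / 2 * cos h * (1 / cos (h - 0) ^ 2)) :=
    intervalIntegral.integral_eq_sub_of_hasDerivAt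
      (fun t ht => hasDerivAt_PP (hcP t (by rwa [uIcc_of_le hs0] at ht)))
      (cRP.intervalIntegrable_of_Icc hs0)
  have iQ : ∫ t in s..(π / 2), cos t * RR (t - (π / 2 - a))
      = (RR (π / 2 - (π / 2 - a)) * sin (π / 2)
          - 1 / 2 * sin a * (1 / cos (π / 2 - (π / 2 - a)) ^ 2)
          - cos a * tan (π / 2 - (π / 2 - a)))
        - (RR (s - (π / 2 - a)) * sin s - 1 / 2 * sin a * (1 / cos (s - (π / 2 - a)) ^ 2)
          - cos a * tan (s - (π / 2 - a))) :=
    intervalIntegral.integral_eq_sub_of_hasDerivAt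
      (fun t ht => hasDerivAt_QQ (hcQ t (by rwa [uIcc_of_le hs1] at ht)))
      (cRQ.intervalIntegrable_of_Icc hs1)
  have mP : ∫ t in (0 : ℝ)..s, cos t * RR (h - t) ≤ ∫ t in (0 : ℝ)..s, cos t * RR (k t) := by
    refine intervalIntegral.integral_mono_on hs0 (cRP.intervalIntegrable_of_Icc hs0)
      (hcont.intervalIntegrable _ _) fun t ht => ?_
    have hct : 0 ≤ cos t := cos_nonneg_of_mem_Icc ⟨by linarith [ht.1, pi_pos], by linarith [ht.2]⟩
    refine mul_le_mul_of_nonneg_left ?_ hct
    exact RR_mono (by linarith [ht.2]) (h1 t ⟨ht.1, by linarith [ht.2]⟩) (abs_lt.1 (hb t)).2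
  have mQ : ∫ t in s..(π / 2), cos t * RR (t - (π / 2 - a)) ≤ ∫ t in s..(π / 2), cos t * RR (k t) := by
    refine intervalIntegral.integral_mono_on hs1 (cRQ.intervalIntegrable_of_Icc hs1)
      (hcont.intervalIntegrable _ _) fun t ht => ?_
    have hct : 0 ≤ cos t := cos_nonneg_of_mem_Icc ⟨by linarith [ht.1, pi_pos], by linarith [ht.2]⟩
    refine mul_le_mul_of_nonneg_left ?_ hct
    refine RR_mono (by linarith [ht.1]) ?_ (abs_lt.1 (hb t)).2
    have := h2 t ⟨by linarith [ht.1], ht.2⟩
    linarith
  have split : ∫ t in (0 : ℝ)..(π / 2), cos t * RR (k t)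
      = (∫ t in (0 : ℝ)..s, cos t * RR (k t)) + ∫ t in s..(π / 2), cos t * RR (k t) :=
    (intervalIntegral.integral_add_adjacent_intervals (hcont.intervalIntegrable _ _)
      (hcont.intervalIntegrable _ _)).symm
  rw [split]
  refine le_trans (le_of_eq ?_) (add_le_add mP mQ)
  rw [iP, iQ, hsd, hsd', sub_zero, sin_zero, sin_pi_div_two,
    show π / 2 - (π / 2 - a) = a by ring]
  have hcd : 0 < cos d := cos_pos_of_mem_Ioo ⟨hd2, hd1⟩
  have hch : 0 < cos h := cos_pos_of_mem_Ioo ⟨by linarith, hh⟩
  have hca : 0 < cos a := cos_pos_of_mem_Ioo ⟨ha1, ha2⟩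
  have hsa : sin a = cos h * (2 * cos d ^ 2 - 1) - sin h * (2 * sin d * cos d) := by
    have e1 : a = π / 2 - (h + 2 * d) := by rw [hd]; ring
    rw [e1, sin_pi_div_two_sub, cos_add, cos_two_mul, sin_two_mul]
  have hta : cos a * tan a = sin a := by
    rw [tan_eq_sin_div_cos]
    field_simp
  have key : - sin h * tan (-d) + 1 / 2 * cos h * (1 / cos (-d) ^ 2)
      + 1 / 2 * sin a * (1 / cos (-d) ^ 2) = cos h := by
    rw [tan_neg, cos_neg, hsa, tan_eq_sin_div_cos]
    field_simp
    ring
  have key2 : sin h * tan h - 1 / 2 * cos h * (1 / cos h ^ 2) + cos h = 1 / (2 * cos h) := by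
    rw [tan_eq_sin_div_cos]
    have h3 : sin h ^ 2 = 1 - cos h ^ 2 := by nlinarith [sin_sq_add_cos_sq h]
    field_simp
    rw [h3]
    ring
  unfold omm
  have e5 : sin a / (2 * cos a ^ 2) = 1 / 2 * sin a * (1 / cos a ^ 2) := by
    field_simp
  rw [e5, hta]
  rw [tan_neg] at key
  rw [tan_neg]
  linarith [key, key2]

/-- the trigonometric inequality -/
theorem sin_le_half {h a : ℝ} (hh0 : 0 ≤ h) (hh : h < π / 2) (ha : |a| < π / 2)
    (hS : 1 / cos h ≤ cos a * (tan ((π / 2 - h - a) / 2) + tan ((π / 2 - h + a) / 2))) :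
    h ≤ π / 6 := by
  obtain ⟨ha1, ha2⟩ := abs_lt.1 ha
  set d : ℝ := (π / 2 - h - a) / 2 with hd
  set e : ℝ := (π / 2 - h + a) / 2 with he
  have hcd : 0 < cos d := cos_pos_of_mem_Ioo ⟨by rw [hd]; linarith, by rw [hd]; linarith⟩
  have hce : 0 < cos e := cos_pos_of_mem_Ioo ⟨by rw [he]; linarith, by rw [he]; linarith⟩
  have hch : 0 < cos h := cos_pos_of_mem_Ioo ⟨by linarith, hh⟩
  have hca : 0 < cos a := cos_pos_of_mem_Ioo ⟨ha1, ha2⟩
  have hsh : 0 ≤ sin h := sin_nonneg_of_nonneg_of_le_pi hh0 (by linarith [pi_pos])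
  have e1 : sin d * cos e + cos d * sin e = cos h := by
    rw [← sin_add, show d + e = π / 2 - h by rw [hd, he]; ring, sin_pi_div_two_sub]
  have e2 : 2 * (cos d * cos e) = sin h + cos a := by
    have e3 : cos d * cos e - sin d * sin e = sin h := by
      rw [← cos_add, show d + e = π / 2 - h by rw [hd, he]; ring, cos_pi_div_two_sub]
    have e4 : cos e * cos d + sin e * sin d = cos a := by
      rw [← cos_sub, show e - d = a by rw [hd, he]; ring]
    linarith
  have e5 : tan d + tan e = cos h / (cos d * cos e) := by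
    rw [tan_eq_sin_div_cos, tan_eq_sin_div_cos, ← e1]
    field_simp
  rw [e5] at hS
  have hp : 0 < cos d * cos e := mul_pos hcd hce
  have e6 : cos d * cos e ≤ cos a * cos h ^ 2 := by
    have h3 : 1 / cos h * (cos d * cos e * cos h)
        ≤ cos a * (cos h / (cos d * cos e)) * (cos d * cos e * cos h) :=
      mul_le_mul_of_nonneg_right hS (by positivity)
    have h4 : 1 / cos h * (cos d * cos e * cos h) = cos d * cos e := by
      field_simp
    have h5 : cos a * (cos h / (cos d * cos e)) * (cos d * cos e * cos h) = cos a * cos h ^ 2 := by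
      field_simp
    rw [h4, h5] at h3
    exact h3
  have e7 : sin h + cos a ≤ 2 * cos a * (1 - sin h ^ 2) := by
    have h3 : cos h ^ 2 = 1 - sin h ^ 2 := by nlinarith [sin_sq_add_cos_sq h]
    rw [h3] at e6
    linarith
  have hs : sin h ≤ 1 / 2 := by
    by_contra hcon
    push Not at hcon
    have h3 : cos a * sin h ^ 2 > cos a * (1 / 4) := by
      refine mul_lt_mul_of_pos_left ?_ hca
      nlinarith
    have h4 := cos_le_one a
    nlinarith
  by_contra hcon
  push Not at hcon
  have h6 : sin (π / 6) < sin h :=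
    sin_lt_sin_of_lt_of_le_pi_div_two (by linarith [pi_pos]) hh.le hcon
  rw [sin_pi_div_six] at h6
  linarith

/-- the sup bound -/
theorem gsup {g : ℝ → ℝ} (hg : Ef g) (h1 : V1 g = 0) (h2 : V2 g = 0) (t : ℝ) : |g t| ≤ π / 6 := by
  have cR := hg.cont_RR
  have main : ∀ z, 0 ≤ g z → g z ≤ π / 6 := by
    intro z hz
    set F : ℝ → ℝ := fun s => cos (s - z) * RR (g s) with hF
    have cF : Continuous F := (by fun_prop : Continuous fun s : ℝ => cos (s - z)).mul cR
    have hper : Function.Periodic F π := by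
      intro s
      simp only [hF]
      rw [hg.odd, RR_neg, show s + π - z = s - z + π by ring, cos_add_pi]
      ring
    have e1 : ∫ s in (0 : ℝ)..(2 * π), F s = 2 * ∫ s in (z - π / 2)..(z - π / 2 + π), F s := by
      have h3 : ∫ s in (0 : ℝ)..(2 * π), F s
          = (∫ s in (0 : ℝ)..(0 + π), F s) + ∫ s in π..(π + π), F s := by
        rw [zero_add, show π + π = 2 * π by ring]
        exact (intervalIntegral.integral_add_adjacent_intervals (cF.intervalIntegrable _ _)
          (cF.intervalIntegrable _ _)).symm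
      rw [h3, hper.intervalIntegral_add_eq 0 (z - π / 2), hper.intervalIntegral_add_eq π (z - π / 2)]
      ring
    have e2 : ∫ s in (0 : ℝ)..(2 * π), F s = cos z * V1 g + sin z * V2 g := by
      unfold V1 V2
      rw [← intervalIntegral.integral_const_mul, ← intervalIntegral.integral_const_mul,
        ← intervalIntegral.integral_add]
      · refine intervalIntegral.integral_congr fun s _ => ?_
        simp only [hF, cos_sub]
        ring
      · exact (continuous_const.mul (continuous_cos.mul cR)).intervalIntegrable _ _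
      · exact (continuous_const.mul (continuous_sin.mul cR)).intervalIntegrable _ _
    rw [h1, h2] at e2
    have e3 : (∫ s in (z - π / 2)..z, F s) + ∫ s in z..(z + π / 2), F s = 0 := by
      rw [intervalIntegral.integral_add_adjacent_intervals (cF.intervalIntegrable _ _)
        (cF.intervalIntegrable _ _)]
      rw [show z + π / 2 = z - π / 2 + π by ring]
      linarith
    have e4 : ∫ s in z..(z + π / 2), F s = ∫ t in (0 : ℝ)..(π / 2), cos t * RR (g (z + t)) := by
      have : ∀ t, cos t * RR (g (z + t)) = F (z + t) := by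
        intro t
        simp only [hF]
        rw [show z + t - z = t by ring]
      simp only [this]
      rw [intervalIntegral.integral_comp_add_left (fun s => F s)]
      simp
    have e5 : ∫ s in (z - π / 2)..z, F s = ∫ t in (0 : ℝ)..(π / 2), cos t * RR (g (z - t)) := by
      have : ∀ t, cos t * RR (g (z - t)) = F (z - t) := by
        intro t
        simp only [hF]
        rw [show z - t - z = -t by ring, cos_neg]
      simp only [this]
      rw [intervalIntegral.integral_comp_sub_left (fun s => F s)]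
      simp
    have hopp : g (z - π / 2) = -g (z + π / 2) := by
      have := hg.odd (z - π / 2)
      rw [show z - π / 2 + π = z + π / 2 by ring] at this
      linarith
    have hz2 : g z < π / 2 := (abs_lt.1 (hg.lt z)).2
    set a : ℝ := g (z + π / 2) with ha
    have ha2 : |a| < π / 2 := hg.lt _
    have hR : 1 / (2 * cos (g z)) - cos a * tan ((π / 2 - g z - a) / 2) + omm a
        ≤ ∫ t in (0 : ℝ)..(π / 2), cos t * RR (g (z + t)) := by
      refine half_bd (k := fun t => g (z + t)) ?_ (fun t => hg.lt _) hz hz2 ha2 ?_ ?_ ?_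
      · exact cR.comp (continuous_const.add continuous_id)
      · have := hg.abs_sub z (z + π / 2)
        rw [show z - (z + π / 2) = -(π / 2) by ring, abs_neg (π / 2),
          abs_of_pos (show (0 : ℝ) < π / 2 by positivity)] at this
        exact this
      · intro t ht
        have := (abs_le.1 (hg.abs_sub (z + t) z)).1
        rw [show z + t - z = t by ring, abs_of_nonneg ht.1] at this
        linarith
      · intro t ht
        have := (abs_le.1 (hg.abs_sub (z + t) (z + π / 2))).1
        rw [show z + t - (z + π / 2) = -(π / 2 - t) by ring, abs_neg,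
          abs_of_nonneg (by linarith [ht.2])] at this
        linarith
    have hL : 1 / (2 * cos (g z)) - cos (-a) * tan ((π / 2 - g z - -a) / 2) + omm (-a)
        ≤ ∫ t in (0 : ℝ)..(π / 2), cos t * RR (g (z - t)) := by
      refine half_bd (k := fun t => g (z - t)) ?_ (fun t => hg.lt _) hz hz2 (by rwa [abs_neg]) ?_ ?_ ?_
      · exact cR.comp (continuous_const.sub continuous_id)
      · have := hg.abs_sub z (z - π / 2)
        rw [show z - (z - π / 2) = π / 2 by ring, abs_of_pos (by positivity : (0 : ℝ) < π / 2),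
          hopp] at this
        exact this
      · intro t ht
        have := (abs_le.1 (hg.abs_sub (z - t) z)).1
        rw [show z - t - z = -t by ring, abs_neg, abs_of_nonneg ht.1] at this
        linarith
      · intro t ht
        have := (abs_le.1 (hg.abs_sub (z - t) (z - π / 2))).1
        rw [show z - t - (z - π / 2) = π / 2 - t by ring, abs_of_nonneg (by linarith [ht.2]),
          hopp] at this
        linarith
    rw [e4, e5] at e3
    rw [omm_neg, cos_neg, show π / 2 - g z - -a = π / 2 - g z + a by ring] at hL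
    refine sin_le_half hz hz2 ha2 ?_
    have hch : 0 < cos (g z) := hg.cos_pos z
    have e6 : 1 / cos (g z) = 1 / (2 * cos (g z)) + 1 / (2 * cos (g z)) := by
      field_simp
      ring
    rw [e6, mul_add]
    linarith
  rw [abs_le]
  constructor
  · by_contra hcon
    push Not at hcon
    have h3 : g (t + π) = -g t := hg.odd t
    have h4 := main (t + π) (by rw [h3]; linarith [pi_pos])
    rw [h3] at h4
    linarith
  · by_contra hcon
    push Not at hcon
    have h4 := main t (by linarith [pi_pos])
    linarith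

end Pool.Agent.FPX.UMP
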