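import Mathlib
import Pool.Agent.FPU.EUF
import Pool.Agent.FPU.USUP
import Pool.Agent.FPX.UMP3

/-
EUN1 (helper26): the second harmonic of `sec⁴ g` in the frame of the area vector.
-/

set_option autoImplicit false

open MeasureTheory Set Filter Topology

noncomputable section

namespace Pool.Agent.FPX.UMP.EU

open Real

theorem half_pi_gt {x : ℝ} (h : x ≤ π / 6) : x < π / 2 := by linarith [pi_pos]

theorem le_tan {x : ℝ} (h0 : 0 ≤ x) (h1 : x < π / 2) : x ≤ tan x := by
  rcases eq_or_lt_of_le h0 with h | h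
  · rw [← h, tan_zero]
  · exact (Real.lt_tan h h1).le

theorem sec2_ge {x : ℝ} (h : |x| < π / 2) : 1 + x ^ 2 ≤ 1 / cos x ^ 2 := by
  have hc : 0 < cos x := cos_pos_of_mem_Ioo ⟨(abs_lt.1 h).1, (abs_lt.1 h).2⟩
  have e : 1 / cos x ^ 2 = 1 + tan x ^ 2 := by
    rw [tan_eq_sin_div_cos]
    field_simp
    linarith [sin_sq_add_cos_sq x]
  rw [e]
  have h2 : |x| ≤ |tan x| := by
    rcases le_total 0 x with h0 | h0
    · have := le_tan h0 (abs_lt.1 h).2
      rw [abs_of_nonneg h0]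
      exact this.trans (le_abs_self _)
    · have h3 := le_tan (x := -x) (by linarith) (by linarith [(abs_lt.1 h).1])
      rw [tan_neg] at h3
      rw [abs_of_nonpos h0]
      exact h3.trans (neg_le_abs _)
  have h3 := sq_le_sq.2 h2
  linarith

theorem sec4_ge {x : ℝ} (h : |x| < π / 2) : 1 + 2 * x ^ 2 ≤ 1 / cos x ^ 4 := by
  have h1 := sec2_ge h
  have e : 1 / cos x ^ 4 = (1 / cos x ^ 2) * (1 / cos x ^ 2) := by
    rw [one_div_mul_one_div]
    ring_nf
  rw [e]
  nlinarith [sq_nonneg x, mul_self_nonneg (x ^ 2)]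

theorem sec3_ge {x : ℝ} (h0 : 0 ≤ x) (h : x < π / 2) : 1 + 3 / 2 * x ^ 2 ≤ 1 / cos x ^ 3 := by
  have hc : 0 < cos x := cos_pos_of_mem_Ioo ⟨by linarith [pi_pos], h⟩
  have h1 := sec2_ge (x := x) (by rw [abs_of_nonneg h0]; exact h)
  have h2 : (1 / cos x ^ 3) ^ 2 = (1 / cos x ^ 2) ^ 3 := by
    rw [div_pow, div_pow]
    ring_nf
  have h3 : (1 + x ^ 2) ^ 3 ≤ (1 / cos x ^ 2) ^ 3 := pow_le_pow_left₀ (by positivity) h1 3
  have h4 : (1 + 3 / 2 * x ^ 2) ^ 2 ≤ (1 + x ^ 2) ^ 3 := by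
    nlinarith [sq_nonneg x, sq_nonneg (x ^ 2), pow_nonneg (sq_nonneg x) 3]
  exact le_of_sq_le_sq (by linarith : (1 + 3 / 2 * x ^ 2) ^ 2 ≤ (1 / cos x ^ 3) ^ 2) (by positivity)
where
  le_of_sq_le_sq {a b : ℝ} (h : a ^ 2 ≤ b ^ 2) (hb : 0 ≤ b) : a ≤ b := by
    exact le_trans (le_abs_self a) (abs_le_of_sq_le_sq h hb)

theorem RR_ge {x : ℝ} (h0 : 0 ≤ x) (h1 : x < π / 2) : x + x ^ 3 / 2 ≤ RR x := by
  have hd : ∀ y, 0 < cos y → HasDerivAt (fun x => RR x - (x + x ^ 3 / 2))
      (1 / cos y ^ 3 - (1 + 3 / 2 * y ^ 2)) y := by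
    intro y hc
    have h2 := (hasDerivAt_RR hc).sub ((hasDerivAt_id y).add ((hasDerivAt_pow 3 y).div_const 2))
    refine h2.congr_deriv ?_
    push_cast
    ring
  have hmono : MonotoneOn (fun x => RR x - (x + x ^ 3 / 2)) (Ico 0 (π / 2)) := by
    refine monotoneOn_of_deriv_nonneg (convex_Ico _ _) (fun x hx => ?_) (fun x hx => ?_)
      (fun x hx => ?_)
    · exact (hd x (cos_pos_Ico hx)).continuousAt.continuousWithinAt
    · exact (hd x (cos_pos_Ico (interior_subset hx))).differentiableAt.differentiableWithinAt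
    · have hx' := interior_subset hx
      rw [(hd x (cos_pos_Ico hx')).deriv]
      have := sec3_ge hx'.1 hx'.2
      linarith
  have h4 := hmono (show (0 : ℝ) ∈ Ico 0 (π / 2) from ⟨le_rfl, by positivity⟩)
    (show x ∈ Ico 0 (π / 2) from ⟨h0, h1⟩) h0
  simp only [RR_zero] at h4
  linarith

theorem log_three : Real.log 3 ≤ 1.0988 := by
  rw [Real.log_le_iff_le_exp (by norm_num)]
  have := Real.sum_le_exp_of_nonneg (x := 1.0988) (by norm_num) 10
  refine le_trans ?_ this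
  simp only [Finset.sum_range_succ, Finset.sum_range_zero, Nat.factorial]
  norm_num

theorem RR_pi6 : RR (π / 6) ≤ 0.60804 := by
  have ht : tan (π / 6) = 1 / √3 := tan_pi_div_six
  have hc : cos (π / 6) = √3 / 2 := cos_pi_div_six
  have h3 : (√3) ^ 2 = 3 := Real.sq_sqrt (by norm_num)
  have hp : 0 < √3 := by positivity
  have h1 : arsinh (1 / √3) = Real.log (√3) := by
    unfold arsinh
    congr 1
    have : 1 + (1 / √3) ^ 2 = (2 / √3) ^ 2 := by
      rw [div_pow, div_pow, h3]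
      norm_num
    rw [this, Real.sqrt_sq (by positivity)]
    field_simp
    rw [h3]
    norm_num
  have h2 : Real.log (√3) = Real.log 3 / 2 := Real.log_sqrt (by norm_num)
  unfold RR
  rw [ht, hc, h1, h2]
  have e : 1 / √3 / (√3 / 2) = 2 / 3 := by
    have : 1 / √3 / (√3 / 2) = 2 / (√3) ^ 2 := by
      field_simp
    rw [this, h3]
  rw [e]
  have := log_three
  linarith

/-- `RR` is convex on `[0, π / 6]` -/
theorem RR_convex : ConvexOn ℝ (Icc 0 (π / 6)) RR := by
  have hsub : ∀ x ∈ Icc (0 : ℝ) (π / 6), 0 < cos x := fun x hx =>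
    cos_pos_of_mem_Ioo ⟨by linarith [hx.1, pi_pos], half_pi_gt hx.2⟩
  refine MonotoneOn.convexOn_of_deriv (convex_Icc _ _) (fun x hx => ?_) (fun x hx => ?_) ?_
  · exact (hasDerivAt_RR (hsub x hx)).continuousAt.continuousWithinAt
  · exact (hasDerivAt_RR (hsub x (interior_subset hx))).differentiableAt.differentiableWithinAt
  · intro x hx y hy hxy
    have hx' := interior_subset hx
    have hy' := interior_subset hy
    rw [(hasDerivAt_RR (hsub x hx')).deriv, (hasDerivAt_RR (hsub y hy')).deriv]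
    have h1 : cos y ≤ cos x := cos_le_cos_of_nonneg_of_le_pi hx'.1
      (by linarith [hy'.2, pi_pos]) hxy
    have h2 := hsub y hy'
    exact one_div_le_one_div_of_le (by positivity) (pow_le_pow_left₀ h2.le h1 3)

theorem phi_pos {x : ℝ} (h0 : 0 ≤ x) (h1 : x ≤ π / 6) : |x - 447 / 500 * RR x| ≤ 1 / 50 := by
  rw [abs_le]
  constructor
  · have hp : 0 < π / 6 := by positivity
    have hA : 0 ≤ 1 - x / (π / 6) := by
      rw [sub_nonneg, div_le_one hp]
      exact h1
    have hB : 0 ≤ x / (π / 6) := by positivity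
    have hAB : 1 - x / (π / 6) + x / (π / 6) = 1 := by ring
    have m0 : (0 : ℝ) ∈ Icc 0 (π / 6) := ⟨le_rfl, hp.le⟩
    have m1 : (π / 6 : ℝ) ∈ Icc 0 (π / 6) := ⟨hp.le, le_rfl⟩
    have h2 := RR_convex.2 m0 m1 hA hB hAB
    simp only [smul_eq_mul, mul_zero, zero_add, RR_zero] at h2
    rw [div_mul_cancel₀ x hp.ne'] at h2
    have h3 := RR_pi6
    have h4 : 0 ≤ x / (π / 6) := by positivity
    have h5 : x / (π / 6) ≤ 1 := by
      rw [div_le_one hp]
      exact h1
    have h6 : x = x / (π / 6) * (π / 6) := by field_simp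
    have h7 := Real.pi_gt_d6
    have h8 : x / (π / 6) * RR (π / 6) ≤ x / (π / 6) * 0.60804 := mul_le_mul_of_nonneg_left h3 h4
    have h9 : x / (π / 6) * 0.523598 ≤ x / (π / 6) * (π / 6) :=
      mul_le_mul_of_nonneg_left (by linarith) h4
    linarith
  · have h2 := RR_ge h0 (half_pi_gt h1)
    have h3 : 53 / 500 * x - 447 / 1000 * x ^ 3 ≤ 1 / 50 := by
      nlinarith [mul_nonneg (by linarith : (0 : ℝ) ≤ x + 2 * 0.281) (sq_nonneg (x - 0.281))]
    linarith

theorem phi_bd {x : ℝ} (h : |x| ≤ π / 6) : |x - 447 / 500 * RR x| ≤ 1 / 50 := by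
  rcases le_total 0 x with h0 | h0
  · exact phi_pos h0 (by rwa [abs_of_nonneg h0] at h)
  · have h1 := phi_pos (x := -x) (by linarith) (by rwa [abs_of_nonpos h0] at h)
    rw [RR_neg] at h1
    rw [← abs_neg]
    convert h1 using 2
    ring

end Pool.Agent.FPX.UMP.EU
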