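import Mathlib
import Pool.Agent.FPU.EUN1

/-
EUN2 (helper26): the second harmonic of `sec⁴ g` in the frame of the area vector.
-/

set_option autoImplicit false

open MeasureTheory Set Filter Topology

noncomputable section

namespace Pool.Agent.FPX.UMP.EU

open Real

theorem Iadd {f g : ℝ → ℝ} (hf : Continuous f) (hg : Continuous g) :
    ∫ t in (0 : ℝ)..(2 * π), (f t + g t)
      = (∫ t in (0 : ℝ)..(2 * π), f t) + ∫ t in (0 : ℝ)..(2 * π), g t :=
  intervalIntegral.integral_add (hf.intervalIntegrable _ _) (hg.intervalIntegrable _ _)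

theorem Isub {f g : ℝ → ℝ} (hf : Continuous f) (hg : Continuous g) :
    ∫ t in (0 : ℝ)..(2 * π), (f t - g t)
      = (∫ t in (0 : ℝ)..(2 * π), f t) - ∫ t in (0 : ℝ)..(2 * π), g t :=
  intervalIntegral.integral_sub (hf.intervalIntegrable _ _) (hg.intervalIntegrable _ _)

theorem Imul (c : ℝ) (f : ℝ → ℝ) :
    ∫ t in (0 : ℝ)..(2 * π), c * f t = c * ∫ t in (0 : ℝ)..(2 * π), f t :=
  intervalIntegral.integral_const_mul _ _

theorem Iconst (c : ℝ) : ∫ _ in (0 : ℝ)..(2 * π), c = 2 * π * c := by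
  rw [intervalIntegral.integral_const, sub_zero, smul_eq_mul]

theorem Ile {f g : ℝ → ℝ} (hf : Continuous f) (hg : Continuous g) (h : ∀ t, f t ≤ g t) :
    ∫ t in (0 : ℝ)..(2 * π), f t ≤ ∫ t in (0 : ℝ)..(2 * π), g t :=
  intervalIntegral.integral_mono_on (by positivity) (hf.intervalIntegrable _ _)
    (hg.intervalIntegrable _ _) fun t _ => h t

theorem Icongr {f g : ℝ → ℝ} (h : ∀ t, f t = g t) :
    ∫ t in (0 : ℝ)..(2 * π), f t = ∫ t in (0 : ℝ)..(2 * π), g t :=
  intervalIntegral.integral_congr fun t _ => h t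

/-- Bessel for one real frequency -/
theorem fc_le {φ : ℝ → ℝ} (hc : Continuous φ) {m : ℝ} (hm : ∀ t, |φ t| ≤ m) {k : ℤ} (hk : k ≠ 0) :
    2 * ‖fc (fun t => (φ t : ℂ)) k‖ ^ 2 ≤ m ^ 2 := by
  have hp := parseval (f := fun t => (φ t : ℂ)) (Complex.continuous_ofReal.comp hc)
  have h1 := sum_le_hasSum {k, -k} (fun i _ => sq_nonneg (‖fc (fun t => (φ t : ℂ)) i‖)) hp
  rw [Finset.sum_pair (by omega), fc_conj, RCLike.norm_conj] at h1
  have h2 : ∫ t in (0 : ℝ)..(2 * π), ‖(φ t : ℂ)‖ ^ 2 ≤ ∫ t in (0 : ℝ)..(2 * π), m ^ 2 := by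
    refine intervalIntegral.integral_mono_on (by positivity) ?_ ?_ (fun t _ => ?_)
    · exact (((Complex.continuous_ofReal.comp hc).norm).pow 2).intervalIntegrable _ _
    · exact continuous_const.intervalIntegrable _ _
    · rw [Complex.norm_real, Real.norm_eq_abs]
      exact pow_le_pow_left₀ (abs_nonneg _) (hm t) 2
  rw [intervalIntegral.integral_const, sub_zero, smul_eq_mul] at h2
  have h3 : (2 * π)⁻¹ * ∫ t in (0 : ℝ)..(2 * π), ‖(φ t : ℂ)‖ ^ 2 ≤ (2 * π)⁻¹ * (2 * π * m ^ 2) :=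
    mul_le_mul_of_nonneg_left h2 (by positivity)
  have h4 : (2 * π)⁻¹ * (2 * π * m ^ 2) = m ^ 2 := by
    field_simp
  linarith

section

variable {g g' : ℝ → ℝ}

theorem abs_g' (hg : Ef g) (hd : ∀ t, HasDerivAt g (g' t) t) (t : ℝ) : |g' t| ≤ 1 := by
  have h := norm_deriv_le_of_lipschitz (x₀ := t) hg.lip
  rw [(hd t).deriv, Real.norm_eq_abs] at h
  simpa using h

theorem fcR (h1 : V1 g = 0) (h2 : V2 g = 0) (hg : Ef g) : fc (fun t => (RR (g t) : ℂ)) 1 = 0 := by
  unfold fc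
  have cR := hg.cont_RR
  have e : ∀ t : ℝ, Complex.exp (-(Complex.I * (1 : ℤ) * t)) * (RR (g t) : ℂ)
      = ((cos t * RR (g t) : ℝ) : ℂ) - ((sin t * RR (g t) : ℝ) : ℂ) * Complex.I := by
    intro t
    have h3 : -(Complex.I * (1 : ℤ) * t) = ((-t : ℝ) : ℂ) * Complex.I := by
      push_cast
      ring
    rw [h3, Complex.exp_mul_I, ← Complex.ofReal_cos, ← Complex.ofReal_sin, cos_neg, sin_neg]
    push_cast
    ring
  have i : ∫ t in (0 : ℝ)..(2 * π), Complex.exp (-(Complex.I * (1 : ℤ) * t)) * (RR (g t) : ℂ)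
      = ((V1 g : ℝ) : ℂ) - ((V2 g : ℝ) : ℂ) * Complex.I := by
    unfold V1 V2
    rw [← intervalIntegral.integral_ofReal, ← intervalIntegral.integral_ofReal,
      ← intervalIntegral.integral_mul_const, ← intervalIntegral.integral_sub]
    · refine intervalIntegral.integral_congr fun t _ => ?_
      exact e t
    · exact (Complex.continuous_ofReal.comp (continuous_cos.mul cR)).intervalIntegrable _ _
    · exact ((Complex.continuous_ofReal.comp (continuous_sin.mul cR)).mul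
        continuous_const).intervalIntegrable _ _
  rw [i, h1, h2]
  simp

theorem u1_le (hg : Ef g) (h1 : V1 g = 0) (h2 : V2 g = 0) :
    2 * ‖fc (fun t => (g t : ℂ)) 1‖ ^ 2 ≤ (1 / 50) ^ 2 := by
  have hb := gsup hg h1 h2
  have cR := hg.cont_RR
  have hc : Continuous fun t => g t - 447 / 500 * RR (g t) :=
    hg.cont.sub (continuous_const.mul cR)
  have h3 := fc_le (φ := fun t => g t - 447 / 500 * RR (g t)) hc (m := 1 / 50)
    (fun t => phi_bd (hb t)) (k := 1) one_ne_zero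
  have h4 : fc (fun t => ((g t - 447 / 500 * RR (g t) : ℝ) : ℂ)) 1 = fc (fun t => (g t : ℂ)) 1 := by
    have h5 : (fun t => ((g t - 447 / 500 * RR (g t) : ℝ) : ℂ))
        = fun t => (g t : ℂ) + (-(447 / 500 : ℂ)) * (RR (g t) : ℂ) := by
      funext t
      push_cast
      ring
    have k1 : Continuous fun t => (g t : ℂ) := Complex.continuous_ofReal.comp hg.cont
    have k2 : Continuous fun t => (-(447 / 500 : ℂ)) * (RR (g t) : ℂ) :=
      continuous_const.mul (Complex.continuous_ofReal.comp cR)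
    rw [h5, fc_add k1 k2, fc_mul_const (-(447 / 500 : ℂ)) (fun t => (RR (g t) : ℂ)), fcR h1 h2 hg, mul_zero, add_zero]
  rw [h4] at h3
  exact h3

theorem u3_le (hg : Ef g) (hd : ∀ t, HasDerivAt g (g' t) t) (hc : Continuous g') :
    18 * ‖fc (fun t => (g t : ℂ)) 3‖ ^ 2 ≤ 1 := by
  have h3 := fc_le hc (m := 1) (abs_g' hg hd) (k := 3) (by norm_num)
  have hper : g (2 * π) = g 0 := by
    have := hg.per 0
    rwa [zero_add] at this
  have h4 := fc_deriv (f := fun t => (g t : ℂ)) (f' := fun t => (g' t : ℂ))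
    (fun t => (hd t).ofReal_comp) (Complex.continuous_ofReal.comp hc) (by simp [hper]) 3
  rw [h4, norm_mul, norm_mul, Complex.norm_I, one_mul] at h3
  have h5 : ‖((3 : ℤ) : ℂ)‖ = 3 := by
    simp
  rw [h5] at h3
  nlinarith

theorem corr_le (hg : Ef g) (hd : ∀ t, HasDerivAt g (g' t) t) (hc : Continuous g')
    (h1 : V1 g = 0) (h2 : V2 g = 0) :
    32 * ‖fc (fun t => (g t : ℂ)) 1‖ ^ 2
      + 24 * (‖fc (fun t => (g t : ℂ)) 1‖ * ‖fc (fun t => (g t : ℂ)) 3‖) ≤ 7 / 80 := by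
  have a1 := u1_le hg h1 h2
  have a3 := u3_le hg hd hc
  have n1 := norm_nonneg (fc (fun t => (g t : ℂ)) 1)
  have n3 := norm_nonneg (fc (fun t => (g t : ℂ)) 3)
  have a4 : (‖fc (fun t => (g t : ℂ)) 1‖ * ‖fc (fun t => (g t : ℂ)) 3‖) ^ 2 ≤ (1 / 300) ^ 2 := by
    rw [mul_pow]
    have b1 : ‖fc (fun t => (g t : ℂ)) 1‖ ^ 2 ≤ 1 / 5000 := by linarith
    have b3 : ‖fc (fun t => (g t : ℂ)) 3‖ ^ 2 ≤ 1 / 18 := by linarith
    calc ‖fc (fun t => (g t : ℂ)) 1‖ ^ 2 * ‖fc (fun t => (g t : ℂ)) 3‖ ^ 2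
        ≤ 1 / 5000 * (1 / 18) := mul_le_mul b1 b3 (sq_nonneg _) (by norm_num)
      _ = (1 / 300) ^ 2 := by norm_num
  have a5 : ‖fc (fun t => (g t : ℂ)) 1‖ * ‖fc (fun t => (g t : ℂ)) 3‖ ≤ 1 / 300 :=
    abs_le_of_sq_le_sq' a4 (by norm_num) |>.2
  linarith

/-- `|x cos 2t + y sin 2t| ≤ 1` -/
theorem w_le {x y : ℝ} (h : x ^ 2 + y ^ 2 = 1) (s : ℝ) : |x * cos s + y * sin s| ≤ 1 := by
  rw [abs_le_one_iff_mul_self_le_one]
  nlinarith [sq_nonneg (x * sin s - y * cos s), sin_sq_add_cos_sq s]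

theorem int_w (x y : ℝ) : ∫ t in (0 : ℝ)..(2 * π), (x * cos (2 * t) + y * sin (2 * t)) = 0 := by
  have e : ∀ t : ℝ, HasDerivAt (fun t => x / 2 * sin (2 * t) - y / 2 * cos (2 * t))
      (x * cos (2 * t) + y * sin (2 * t)) t := by
    intro t
    have h0 : HasDerivAt (fun t : ℝ => 2 * t) 2 t := by
      simpa using (hasDerivAt_id t).const_mul 2
    have h1 := (h0.sin.const_mul (x / 2)).sub (h0.cos.const_mul (y / 2))
    refine h1.congr_deriv ?_
    ring
  rw [intervalIntegral.integral_eq_sub_of_hasDerivAt (fun t _ => e t)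
    ((by fun_prop : Continuous fun t => x * cos (2 * t) + y * sin (2 * t)).intervalIntegrable _ _)]
  have h2 : sin (2 * (2 * π)) = 0 := by
    have := Real.sin_nat_mul_pi 4
    push_cast at this
    rw [show 2 * (2 * π) = 4 * π by ring]
    exact this
  have h3 : cos (2 * (2 * π)) = 1 := by
    have := Real.cos_nat_mul_two_pi 2
    push_cast at this
    exact this
  rw [h2, h3]
  simp

/-- **the second harmonic of `sec⁴ g`** -/
theorem A2_le (hg : Ef g) (hd : ∀ t, HasDerivAt g (g' t) t) (hc : Continuous g')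
    (h1 : V1 g = 0) (h2 : V2 g = 0) {x y : ℝ} (hxy : x ^ 2 + y ^ 2 = 1) :
    ∫ t in (0 : ℝ)..(2 * π), 1 / cos (g t) ^ 4 * (x * cos (2 * t) + y * sin (2 * t))
      ≤ ∫ t in (0 : ℝ)..(2 * π), (1 / cos (g t) ^ 4 - 171 / 200 - 16 / 5 * g t ^ 2) := by
  have cg := hg.cont
  have c4 : Continuous fun t => 1 / cos (g t) ^ 4 :=
    continuous_const.div ((continuous_cos.comp cg).pow 4) fun t => pow_ne_zero 4 (hg.cos_pos t).ne'
  have cw : Continuous fun t : ℝ => x * cos (2 * t) + y * sin (2 * t) := by fun_prop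
  have W := wirt hd hc hg.odd hxy (u1 := ‖fc (fun t => (g t : ℂ)) 1‖)
    (u3 := ‖fc (fun t => (g t : ℂ)) 3‖) rfl rfl
  have C := corr_le hg hd hc h1 h2
  -- `∫ g'² (1 + w) ≤ 2π`
  have D : ∫ t in (0 : ℝ)..(2 * π), g' t ^ 2 * (1 + (x * cos (2 * t) + y * sin (2 * t))) ≤ 2 * π := by
    have D1 : ∫ t in (0 : ℝ)..(2 * π), g' t ^ 2 * (1 + (x * cos (2 * t) + y * sin (2 * t)))
        ≤ ∫ t in (0 : ℝ)..(2 * π), (1 + (x * cos (2 * t) + y * sin (2 * t))) := by
      refine intervalIntegral.integral_mono_on (by positivity) ?_ ?_ (fun t _ => ?_)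
      · exact ((hc.pow 2).mul (continuous_const.add cw)).intervalIntegrable _ _
      · exact (continuous_const.add cw).intervalIntegrable _ _
      · have e1 := (abs_le.1 (w_le hxy (2 * t))).1
        have e2 : g' t ^ 2 ≤ 1 := by
          have := abs_g' hg hd t
          rw [← sq_abs]
          nlinarith [abs_nonneg (g' t)]
        nlinarith
    rw [intervalIntegral.integral_add (continuous_const.intervalIntegrable _ _)
      (cw.intervalIntegrable _ _), int_w, intervalIntegral.integral_const, sub_zero, smul_eq_mul,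
      add_zero, mul_one] at D1
    exact D1
  -- the terms
  have cA : Continuous fun t => g t ^ 2 := cg.pow 2
  have cB : Continuous fun t => g t ^ 2 * (x * cos (2 * t) + y * sin (2 * t)) := cA.mul cw
  have cA2 : Continuous fun t => 2 * g t ^ 2 := continuous_const.mul cA
  have cA9 : Continuous fun t => 9 * g t ^ 2 := continuous_const.mul cA
  have cA16 : Continuous fun t => 16 / 5 * g t ^ 2 := continuous_const.mul cA
  have cB15 : Continuous fun t => 15 * (g t ^ 2 * (x * cos (2 * t) + y * sin (2 * t))) :=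
    continuous_const.mul cB
  have cB2 : Continuous fun t => 2 * (g t ^ 2 * (x * cos (2 * t) + y * sin (2 * t))) :=
    continuous_const.mul cB
  have c1 : Continuous fun _ : ℝ => (1 : ℝ) := continuous_const
  have c171 : Continuous fun _ : ℝ => (171 / 200 : ℝ) := continuous_const
  have c41 : Continuous fun t => 1 / cos (g t) ^ 4 - 1 := c4.sub c1
  have c4171 : Continuous fun t => 1 / cos (g t) ^ 4 - 171 / 200 := c4.sub c171
  have c412 : Continuous fun t => 1 / cos (g t) ^ 4 - 1 - 2 * g t ^ 2 := c41.sub cA2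
  have cw2 : Continuous fun t => (x * cos (2 * t) + y * sin (2 * t))
      + 2 * (g t ^ 2 * (x * cos (2 * t) + y * sin (2 * t))) := cw.add cB2
  have E1 : ∫ t in (0 : ℝ)..(2 * π), g t ^ 2 * (9 + 15 * (x * cos (2 * t) + y * sin (2 * t)))
      = 9 * (∫ t in (0 : ℝ)..(2 * π), g t ^ 2)
        + 15 * ∫ t in (0 : ℝ)..(2 * π), g t ^ 2 * (x * cos (2 * t) + y * sin (2 * t)) := by
    rw [← Imul, ← Imul, ← Iadd cA9 cB15]
    exact Icongr fun t => by ring
  rw [E1] at W
  have E2 : ∫ t in (0 : ℝ)..(2 * π), (1 / cos (g t) ^ 4 - 171 / 200 - 16 / 5 * g t ^ 2)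
      = (∫ t in (0 : ℝ)..(2 * π), 1 / cos (g t) ^ 4) - 171 / 200 * (2 * π)
        - 16 / 5 * ∫ t in (0 : ℝ)..(2 * π), g t ^ 2 := by
    rw [Isub c4171 cA16, Isub c4 c171, Imul, Iconst]
    ring
  have E3 : ∫ t in (0 : ℝ)..(2 * π), 1 / cos (g t) ^ 4 * (x * cos (2 * t) + y * sin (2 * t))
      ≤ (∫ t in (0 : ℝ)..(2 * π), 1 / cos (g t) ^ 4) - 2 * π
        - 2 * (∫ t in (0 : ℝ)..(2 * π), g t ^ 2)
        + 2 * ∫ t in (0 : ℝ)..(2 * π), g t ^ 2 * (x * cos (2 * t) + y * sin (2 * t)) := by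
    have F : ∫ t in (0 : ℝ)..(2 * π), 1 / cos (g t) ^ 4 * (x * cos (2 * t) + y * sin (2 * t))
        ≤ ∫ t in (0 : ℝ)..(2 * π), ((1 / cos (g t) ^ 4 - 1 - 2 * g t ^ 2)
          + ((x * cos (2 * t) + y * sin (2 * t))
            + 2 * (g t ^ 2 * (x * cos (2 * t) + y * sin (2 * t))))) := by
      refine Ile (c4.mul cw) (c412.add cw2) fun t => ?_
      have e1 := (abs_le.1 (w_le hxy (2 * t))).2
      have e2 := sec4_ge (hg.lt t)
      nlinarith [mul_nonneg (sub_nonneg.2 e2) (sub_nonneg.2 e1)]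
    rw [Iadd c412 cw2, Iadd cw cB2, Isub c41 cA2, Isub c4 c1, int_w, Imul, Imul, Iconst] at F
    linarith
  rw [E2]
  have hpi := Real.pi_pos
  have G := mul_le_mul_of_nonneg_left C (by positivity : (0 : ℝ) ≤ 2 * π)
  linarith

end

end Pool.Agent.FPX.UMP.EU
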