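import Mathlib
import Pool.Agent.FPX.UMPDefs

/-
UHDefs (helper16): the half interval problem behind `SStar c`.
`LL t x = T(x) - (3/2) sin t R(x)`, `T = tan sec²`, `R = RR`;
`pm y` is the derivative of the value of the optimal nonnegative path that comes back to `0` at `y`,
`Nb y` is an upper bound for the contribution of `[y, π/2]` after the first zero `y ≥ arcsin (2/3)`.
-/

set_option autoImplicit false

noncomputable section

namespace Pool.Agent.FPX.UMP

open Real

/-- `T(x) - (3/2) sin t R(x)` -/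
def LL (t x : ℝ) : ℝ := tan x / cos x ^ 2 - 3 / 2 * sin t * RR x

/-- slope of the height of the optimal tooth over `[0, y]`: `min (tan (y/2)) (1/√3)` -/
def tm (y : ℝ) : ℝ := min (tan (y / 2)) (1 / √3)

/-- derivative of the value of the optimal tooth over `[0, y]` -/
def pm (y : ℝ) : ℝ := max 0 (tm y * (tm y ^ 2 + 3 / 4 * cos y * tm y + 1 - 3 / 2 * sin y))

/-- bound for the part of `[y, π/2]` after the first zero -/
def Nb (y : ℝ) : ℝ :=
  if π / 2 - y ≤ arctan (1 / 3) then 3 / 4 * cos y ^ 2 / sin y - (cos y / sin y) ^ 2 / 2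
  else 1 / 2 * cos y - sin y / 12 - 1 / 18
    - 3 / 2 * RR (arctan (1 / 3)) * sin (π / 2 - y - arctan (1 / 3))
    + 2 * √2 / 9 * (3 / 2 * sin (π / 2 - y - arctan (1 / 3)) - (π / 2 - y - arctan (1 / 3)))

end Pool.Agent.FPX.UMP
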