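import Mathlib
import Pool.Agent.FPX.UMPDefs
import Pool.Agent.FPX.UMP1
import Pool.Agent.FPU.UHDefs

/-
UNEG (helper5): the part of the half interval problem after the first zero `y ≥ arcsin (2/3)`:
`∫_y^{π/2} LL t (h t) dt ≤ Nb y` for every 1-Lipschitz `h` with `h y = 0`, `|h| ≤ π/6`.
-/

set_option autoImplicit false

noncomputable section

namespace Pool.Agent.FPX.UMP

open Real MeasureTheory Set

/-! ### the functions `T = tan/cos²` and `R = RR` -/

theorem un_T {x : ℝ} (hx : 0 < cos x) :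
    HasDerivAt (fun x => tan x / cos x ^ 2) ((3 - 2 * cos x ^ 2) / cos x ^ 4) x := by
  have h1 := Real.hasDerivAt_tan hx.ne'
  have h2 := h1.div ((hasDerivAt_cos x).pow 2) (pow_ne_zero 2 hx.ne')
  refine h2.congr_deriv ?_
  simp only [Pi.pow_apply]
  rw [tan_eq_sin_div_cos]
  have h3 : sin x ^ 2 = 1 - cos x ^ 2 := by linarith [sin_sq_add_cos_sq x]
  field_simp
  ring_nf
  rw [h3]
  ring

theorem un_RR0 : RR 0 = 0 := by
  unfold RR
  simp

theorem un_RRneg (x : ℝ) : RR (-x) = - RR x := by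
  unfold RR
  rw [tan_neg, cos_neg, arsinh_neg]
  ring

theorem un_cos {x : ℝ} (h0 : 0 ≤ x) (h1 : x < π / 2) : 0 < cos x :=
  cos_pos_of_mem_Ioo ⟨by linarith [pi_pos], h1⟩

/-- lower bound of `R` -/
theorem un_RRlow {x : ℝ} (h0 : 0 ≤ x) (h1 : x < π / 2) :
    tan x * (2 + 1 / cos x) / 3 ≤ RR x := by
  set E : ℝ → ℝ := fun x => RR x - tan x * (2 + 1 / cos x) / 3 with hE
  have hd : ∀ u : ℝ, 0 < cos u → HasDerivAt E ((1 / cos u) * (1 / cos u - 1) ^ 2 / 3) u := by
    intro u hu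
    have h1 := Real.hasDerivAt_tan hu.ne'
    have h2 := (hasDerivAt_const u (1 : ℝ)).div (hasDerivAt_cos u) hu.ne'
    have h3 := (hasDerivAt_RR hu).sub ((h1.mul (h2.const_add 2)).div_const 3)
    refine h3.congr_deriv ?_
    rw [tan_eq_sin_div_cos]
    have h3 : sin u ^ 2 = 1 - cos u ^ 2 := by linarith [sin_sq_add_cos_sq u]
    simp only [Pi.div_apply]
    field_simp
    ring_nf
    rw [h3]
    ring
  have hm : MonotoneOn E (Icc 0 x) := by
    refine monotoneOn_of_hasDerivWithinAt_nonneg (f' := fun u => (1 / cos u) * (1 / cos u - 1) ^ 2 / 3)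
      (convex_Icc 0 x) ?_ ?_ ?_
    · intro u hu
      exact (hd u (un_cos hu.1 (lt_of_le_of_lt hu.2 h1))).continuousAt.continuousWithinAt
    · intro u hu
      rw [interior_Icc] at hu
      exact (hd u (un_cos hu.1.le (lt_trans hu.2 h1))).hasDerivWithinAt
    · intro u hu
      rw [interior_Icc] at hu
      have := un_cos hu.1.le (lt_trans hu.2 h1)
      positivity
  have h2 := hm (left_mem_Icc.2 h0) (right_mem_Icc.2 h0) h0
  have h3 : E 0 = 0 := by
    simp [hE, un_RR0]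
  rw [h3] at h2
  simp only [hE] at h2
  linarith

/-- upper bound of `R` -/
theorem un_RRup {x : ℝ} (h0 : 0 ≤ x) (h1 : x < π / 2) :
    RR x ≤ tan x + tan x ^ 3 / 6 := by
  set E : ℝ → ℝ := fun x => tan x + tan x ^ 3 / 6 - RR x with hE
  have hd : ∀ u : ℝ, 0 < cos u → HasDerivAt E ((1 - cos u) ^ 2 / (2 * cos u ^ 4)) u := by
    intro u hu
    have h1 := Real.hasDerivAt_tan hu.ne'
    have h3 := (h1.add ((h1.pow 3).div_const 6)).sub (hasDerivAt_RR hu)
    refine h3.congr_deriv ?_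
    have h3 : sin u ^ 2 = 1 - cos u ^ 2 := by linarith [sin_sq_add_cos_sq u]
    have h4 : tan u ^ (3 - 1) = (1 - cos u ^ 2) / cos u ^ 2 := by
      rw [← h3, tan_eq_sin_div_cos, div_pow]
    rw [h4]
    push_cast
    field_simp
    ring
  have hm : MonotoneOn E (Icc 0 x) := by
    refine monotoneOn_of_hasDerivWithinAt_nonneg
      (f' := fun u => (1 - cos u) ^ 2 / (2 * cos u ^ 4))
      (convex_Icc 0 x) ?_ ?_ ?_
    · intro u hu
      exact (hd u (un_cos hu.1 (lt_of_le_of_lt hu.2 h1))).continuousAt.continuousWithinAt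
    · intro u hu
      rw [interior_Icc] at hu
      exact (hd u (un_cos hu.1.le (lt_trans hu.2 h1))).hasDerivWithinAt
    · intro u hu
      rw [interior_Icc] at hu
      have := un_cos hu.1.le (lt_trans hu.2 h1)
      positivity
  have h2 := hm (left_mem_Icc.2 h0) (right_mem_Icc.2 h0) h0
  have h3 : E 0 = 0 := by
    simp [hE, un_RR0]
  rw [h3] at h2
  simp only [hE] at h2
  linarith

theorem un_T_eq {x : ℝ} (hx : 0 < cos x) : tan x / cos x ^ 2 = tan x * (1 + tan x ^ 2) := by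
  rw [tan_eq_sin_div_cos]
  have h3 : sin x ^ 2 = 1 - cos x ^ 2 := by linarith [sin_sq_add_cos_sq x]
  field_simp
  rw [h3]
  ring

/-- `R ≤ T` -/
theorem un_RT {x : ℝ} (h0 : 0 ≤ x) (h1 : x < π / 2) : RR x ≤ tan x / cos x ^ 2 := by
  have h2 := un_RRup h0 h1
  have h3 : 0 ≤ tan x := tan_nonneg_of_nonneg_of_le_pi_div_two h0 h1.le
  rw [un_T_eq (un_cos h0 h1)]
  have : 0 ≤ tan x ^ 3 := by positivity
  nlinarith

/-- the lower bound of `(3/2) sin t` -/
theorem un_k {y t x : ℝ} (hy : arcsin (2 / 3) ≤ y) (hx0 : 0 ≤ x) (hx : x ≤ t - y)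
    (ht : t ≤ π / 2) : cos x + √5 / 2 * sin x ≤ 3 / 2 * sin t := by
  have h0 : 0 ≤ arcsin (2 / 3) := arcsin_nonneg.2 (by norm_num)
  have h1 : sin (arcsin (2 / 3) + x) ≤ sin t := by
    refine sin_le_sin_of_le_of_le_pi_div_two (by linarith [pi_pos]) ht (by linarith)
  rw [sin_add, sin_arcsin (by norm_num) (by norm_num), cos_arcsin] at h1
  have h2 : √(1 - (2 / 3) ^ 2) = √5 / 3 := by
    rw [show (1 - (2 / 3) ^ 2 : ℝ) = 5 / 3 ^ 2 by norm_num, sqrt_div (by norm_num),
      sqrt_sq (by norm_num)]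
  rw [h2] at h1
  linarith

theorem un_s5 : (2.236 : ℝ) ≤ √5 ∧ √5 ≤ 2.2361 := by
  constructor
  · rw [le_sqrt' (by norm_num)]
    norm_num
  · rw [sqrt_le_left (by norm_num)]
    norm_num

theorem un_s3 : (1.732 : ℝ) ≤ √3 ∧ √3 ≤ 1.7321 := by
  constructor
  · rw [le_sqrt' (by norm_num)]
    norm_num
  · rw [sqrt_le_left (by norm_num)]
    norm_num

/-- positive values -/
theorem un_pos {y t x : ℝ} (hy : arcsin (2 / 3) ≤ y) (hx0 : 0 ≤ x) (hx : x ≤ t - y)
    (ht : t ≤ π / 2) (hx6 : x ≤ π / 6) : tan x / cos x ^ 2 ≤ 3 / 2 * sin t * RR x := by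
  have hp := pi_pos
  have hx2 : x < π / 2 := by linarith
  have hc := un_cos hx0 hx2
  have hk := un_k hy hx0 hx ht
  have hR := un_RRlow hx0 hx2
  have hτ : 0 ≤ tan x := tan_nonneg_of_nonneg_of_le_pi_div_two hx0 hx2.le
  have hσ0 : 0 ≤ sin x := sin_nonneg_of_nonneg_of_le_pi hx0 (by linarith)
  have hσ : sin x ≤ 1 / 2 := by
    rw [← sin_pi_div_six]
    exact sin_le_sin_of_le_of_le_pi_div_two (by linarith) (by linarith) hx6
  have hc6 : 0.866 ≤ cos x := by
    have h1 : cos (π / 6) ≤ cos x := cos_le_cos_of_nonneg_of_le_pi hx0 (by linarith) hx6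
    rw [cos_pi_div_six] at h1
    have := un_s3.1
    linarith
  have hc1 := cos_le_one x
  have hsc := sin_sq_add_cos_sq x
  obtain ⟨h5, -⟩ := un_s5
  -- the elementary inequality
  have key : 3 ≤ (cos x + √5 / 2 * sin x) * (2 * cos x ^ 2 + cos x) := by
    have a1 : (1 - cos x) * 1.866 ≤ sin x ^ 2 := by nlinarith
    have a2 : 1 - cos x ≤ 0.27 * sin x := by nlinarith
    have a3 : 3 - 2 * cos x ^ 3 - cos x ^ 2 = (1 - cos x) * (2 * cos x ^ 2 + 3 * cos x + 3) := by ring
    have a4 : 3 - 2 * cos x ^ 3 - cos x ^ 2 ≤ 8 * (0.27 * sin x) := by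
      rw [a3]
      have : 2 * cos x ^ 2 + 3 * cos x + 3 ≤ 8 := by nlinarith
      nlinarith [mul_nonneg (sub_nonneg.2 hc1) (sub_nonneg.2 this)]
    have a5 : 2.3 ≤ cos x * (2 * cos x + 1) := by nlinarith
    have a6 : 1.118 * sin x ≤ √5 / 2 * sin x := by nlinarith
    have a7 : 1.118 * sin x * 2.3 ≤ √5 / 2 * sin x * (cos x * (2 * cos x + 1)) :=
      mul_le_mul a6 a5 (by norm_num) (by positivity)
    nlinarith
  have h1 : 1 / cos x ^ 2 ≤ 3 / 2 * sin t * ((2 + 1 / cos x) / 3) := by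
    have h2 : 1 / cos x ^ 2 ≤ (cos x + √5 / 2 * sin x) * ((2 + 1 / cos x) / 3) := by
      rw [div_le_iff₀ (by positivity)]
      have e : (cos x + √5 / 2 * sin x) * ((2 + 1 / cos x) / 3) * cos x ^ 2 =
          (cos x + √5 / 2 * sin x) * (2 * cos x ^ 2 + cos x) / 3 := by
        field_simp
      rw [e]
      linarith
    refine h2.trans (mul_le_mul_of_nonneg_right hk ?_)
    positivity
  have hk0 : 0 ≤ 3 / 2 * sin t := le_trans (by positivity) hk
  calc tan x / cos x ^ 2 = tan x * (1 / cos x ^ 2) := by ring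
    _ ≤ tan x * (3 / 2 * sin t * ((2 + 1 / cos x) / 3)) := mul_le_mul_of_nonneg_left h1 hτ
    _ = 3 / 2 * sin t * (tan x * (2 + 1 / cos x) / 3) := by ring
    _ ≤ 3 / 2 * sin t * RR x := mul_le_mul_of_nonneg_left hR hk0

/-- negative values, first range -/
theorem un_neg1 {y t x s : ℝ} (hy : arcsin (2 / 3) ≤ y) (hx0 : 0 ≤ x) (hx : x ≤ s)
    (hs : s ≤ t - y) (ht : t ≤ π / 2) (hs2 : s ≤ arctan (1 / 3)) :
    3 / 2 * sin t * RR x - tan x / cos x ^ 2 ≤ 3 / 2 * sin t * RR s - tan s / cos s ^ 2 := by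
  have hs3 : s < π / 2 := lt_of_le_of_lt hs2 (arctan_lt_pi_div_two _)
  have hd : ∀ u : ℝ, 0 < cos u → HasDerivAt (fun u => 3 / 2 * sin t * RR u - tan u / cos u ^ 2)
      (3 / 2 * sin t * (1 / cos u ^ 3) - (3 - 2 * cos u ^ 2) / cos u ^ 4) u := by
    intro u hu
    exact ((hasDerivAt_RR hu).const_mul _).sub (un_T hu)
  have hm : MonotoneOn (fun u => 3 / 2 * sin t * RR u - tan u / cos u ^ 2) (Icc 0 s) := by
    refine monotoneOn_of_hasDerivWithinAt_nonneg
      (f' := fun u => 3 / 2 * sin t * (1 / cos u ^ 3) - (3 - 2 * cos u ^ 2) / cos u ^ 4)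
      (convex_Icc 0 s) ?_ ?_ ?_
    · intro u hu
      exact (hd u (un_cos hu.1 (lt_of_le_of_lt hu.2 hs3))).continuousAt.continuousWithinAt
    · intro u hu
      rw [interior_Icc] at hu
      exact (hd u (un_cos hu.1.le (lt_trans hu.2 hs3))).hasDerivWithinAt
    · intro u hu
      rw [interior_Icc] at hu
      have hc := un_cos hu.1.le (lt_trans hu.2 hs3)
      have hk := un_k hy hu.1.le (hu.2.le.trans hs) ht
      have hσ0 : 0 ≤ sin u := sin_nonneg_of_nonneg_of_le_pi hu.1.le (by linarith [hu.2, pi_pos])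
      have hτ : tan u ≤ 1 / 3 := by
        rw [← tan_arctan (1 / 3)]
        exact (strictMonoOn_tan.monotoneOn ⟨by linarith [hu.1, pi_pos], lt_trans hu.2 hs3⟩
          ⟨by linarith [neg_pi_div_two_lt_arctan (1 / 3)], arctan_lt_pi_div_two _⟩
          (hu.2.le.trans hs2))
      rw [tan_eq_sin_div_cos, div_le_iff₀ hc] at hτ
      obtain ⟨h5, -⟩ := un_s5
      have h1 : 3 - 2 * cos u ^ 2 ≤ 3 / 2 * sin t * cos u := by
        have h2 : (cos u + √5 / 2 * sin u) * cos u ≤ 3 / 2 * sin t * cos u :=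
          mul_le_mul_of_nonneg_right hk hc.le
        have h3 := sin_sq_add_cos_sq u
        have h4 : 3 * sin u ≤ √5 / 2 * cos u := by nlinarith
        have h6 : sin u * (3 * sin u) ≤ sin u * (√5 / 2 * cos u) :=
          mul_le_mul_of_nonneg_left h4 hσ0
        nlinarith
      have e : 3 / 2 * sin t * (1 / cos u ^ 3) = 3 / 2 * sin t * cos u / cos u ^ 4 := by
        field_simp
      rw [e, ← sub_div]
      exact div_nonneg (by linarith) (by positivity)
  exact hm ⟨hx0, hx⟩ ⟨hx0.trans hx, le_rfl⟩ hx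

/-- negative values, second range -/
theorem un_neg2 {k x : ℝ} (hk1 : 1 ≤ k) (hk2 : k ≤ 3 / 2) (hx0 : 0 ≤ x) (hx : x < π / 2) :
    k * RR x - tan x / cos x ^ 2 ≤ 2 * √2 / 9 * (k - 1) := by
  have h1 := un_RT hx0 hx
  have h2 := un_RRup hx0 hx
  have hτ : 0 ≤ tan x := tan_nonneg_of_nonneg_of_le_pi_div_two hx0 hx.le
  have h3 : 3 / 2 * RR x - tan x / cos x ^ 2 ≤ √2 / 9 := by
    rw [un_T_eq (un_cos hx0 hx)]
    set τ := tan x
    have hs := sq_sqrt (show (0 : ℝ) ≤ 2 by norm_num)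
    have hs0 := sqrt_nonneg (2 : ℝ)
    have h4 : 0 ≤ (τ - √2 / 3) ^ 2 * (τ + 2 * (√2 / 3)) := by positivity
    have h5 : (τ - √2 / 3) ^ 2 * (τ + 2 * (√2 / 3)) = τ ^ 3 - √2 ^ 2 / 3 * τ + 2 * √2 ^ 2 * √2 / 27 := by
      ring
    rw [h5, hs] at h4
    nlinarith
  have e : k * RR x - tan x / cos x ^ 2 = (3 - 2 * k) * (RR x - tan x / cos x ^ 2)
      + (2 * k - 2) * (3 / 2 * RR x - tan x / cos x ^ 2) := by ring
  rw [e]
  have a1 : (3 - 2 * k) * (RR x - tan x / cos x ^ 2) ≤ 0 :=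
    mul_nonpos_of_nonneg_of_nonpos (by linarith) (by linarith)
  have a2 : (2 * k - 2) * (3 / 2 * RR x - tan x / cos x ^ 2) ≤ (2 * k - 2) * (√2 / 9) :=
    mul_le_mul_of_nonneg_left h3 (by linarith)
  linarith

theorem un_k1 {y t : ℝ} (hy : arcsin (2 / 3) ≤ y) (hyt : y ≤ t) (ht : t ≤ π / 2) :
    1 ≤ 3 / 2 * sin t ∧ 3 / 2 * sin t ≤ 3 / 2 := by
  constructor
  · have := un_k (x := 0) hy le_rfl (by linarith) ht
    simpa using this
  · linarith [sin_le_one t]

theorem un_a3 : arctan (1 / 3) < π / 6 := by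
  rw [← arctan_inv_sqrt_three]
  refine arctan_strictMono ?_
  rw [one_div]
  refine inv_strictAnti₀ (by positivity) ?_
  linarith [un_s3.2]

/-- first pointwise bound -/
theorem un_pt1 {y t x : ℝ} (hy : arcsin (2 / 3) ≤ y) (hyt : y ≤ t) (ht : t ≤ π / 2)
    (hx : |x| ≤ t - y) (hx6 : |x| ≤ π / 6) (hs : t - y ≤ arctan (1 / 3)) :
    LL t x ≤ 3 / 2 * sin t * RR (t - y) - tan (t - y) / cos (t - y) ^ 2 := by
  unfold LL
  have hs0 : 0 ≤ t - y := by linarith
  have hp := pi_pos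
  rcases le_total 0 x with h | h
  · rw [abs_of_nonneg h] at hx hx6
    have h1 := un_pos hy h hx ht hx6
    have h2 := un_pos hy hs0 le_rfl ht (hs.trans un_a3.le)
    linarith
  · rw [abs_of_nonpos h] at hx hx6
    have h1 := un_neg1 hy (x := -x) (by linarith) hx le_rfl ht hs
    rw [un_RRneg, tan_neg, cos_neg] at h1
    linarith [neg_div (cos x ^ 2) (tan x)]

/-- second pointwise bound -/
theorem un_pt2 {y t x : ℝ} (hy : arcsin (2 / 3) ≤ y) (hyt : y ≤ t) (ht : t ≤ π / 2)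
    (hx : |x| ≤ t - y) (hx6 : |x| ≤ π / 6) :
    LL t x ≤ 2 * √2 / 9 * (3 / 2 * sin t - 1) := by
  unfold LL
  have hp := pi_pos
  obtain ⟨hk1, hk2⟩ := un_k1 hy hyt ht
  rcases le_total 0 x with h | h
  · rw [abs_of_nonneg h] at hx hx6
    have h1 := un_pos hy h hx ht hx6
    have h2 : 0 ≤ 2 * √2 / 9 * (3 / 2 * sin t - 1) :=
      mul_nonneg (by positivity) (by linarith)
    linarith
  · rw [abs_of_nonpos h] at hx hx6
    have h1 := un_neg2 hk1 hk2 (x := -x) (by linarith) (by linarith)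
    rw [un_RRneg, tan_neg, cos_neg] at h1
    linarith [neg_div (cos x ^ 2) (tan x)]

/-! ### integration -/

/-- antiderivative of the first bound -/
def un_A (y t : ℝ) : ℝ := 3 / 2 * (-(RR (t - y) * cos t) + cos y * tan (t - y)
  - sin y * (tan (t - y) ^ 2 / 2)) - tan (t - y) ^ 2 / 2

theorem un_A_deriv {y t : ℝ} (hc : 0 < cos (t - y)) :
    HasDerivAt (un_A y) (3 / 2 * sin t * RR (t - y) - tan (t - y) / cos (t - y) ^ 2) t := by
  have h1 : HasDerivAt (fun t => RR (t - y)) (1 / cos (t - y) ^ 3) t :=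
    (hasDerivAt_RR hc).comp_sub_const t y
  have h2 : HasDerivAt (fun t => tan (t - y)) (1 / cos (t - y) ^ 2) t :=
    (Real.hasDerivAt_tan hc.ne').comp_sub_const t y
  have h3 := ((((h1.mul (hasDerivAt_cos t)).neg.add (h2.const_mul (cos y))).sub
    (((h2.pow 2).div_const 2).const_mul (sin y))).const_mul (3 / 2)).sub ((h2.pow 2).div_const 2)
  refine h3.congr_deriv ?_
  have e : cos t = cos y * cos (t - y) - sin y * sin (t - y) := by
    rw [← cos_add]
    congr 1
    ring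
  have e2 : tan (t - y) ^ (2 - 1) = tan (t - y) := by norm_num
  rw [e2, e, tan_eq_sin_div_cos]
  push_cast
  field_simp
  ring

theorem un_A0 (y : ℝ) : un_A y y = 0 := by
  unfold un_A
  simp [un_RR0]

theorem un_cont {h : ℝ → ℝ} (hl : LipschitzWith 1 h) (hb : ∀ t, |h t| ≤ π / 6) :
    Continuous fun t => LL t (h t) := by
  have hc : ∀ t, 0 < cos (h t) := by
    intro t
    have := abs_le.1 (hb t)
    exact cos_pos_of_mem_Ioo ⟨by linarith [pi_pos], by linarith [pi_pos]⟩
  have c1 : Continuous fun t => tan (h t) := by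
    have : (fun t => tan (h t)) = fun t => sin (h t) / cos (h t) := by
      ext t
      rw [tan_eq_sin_div_cos]
    rw [this]
    exact (continuous_sin.comp hl.continuous).div (continuous_cos.comp hl.continuous)
      fun t => (hc t).ne'
  have c2 : Continuous fun t => RR (h t) := by
    unfold RR
    exact ((c1.div (continuous_cos.comp hl.continuous) fun t => (hc t).ne').add
      (continuous_arsinh.comp c1)).div_const 2
  unfold LL
  exact (c1.div ((continuous_cos.comp hl.continuous).pow 2) fun t => pow_ne_zero 2 (hc t).ne').sub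
    ((continuous_const.mul continuous_sin).mul c2)

theorem un_part1 {h : ℝ → ℝ} (hl : LipschitzWith 1 h) (hb : ∀ t, |h t| ≤ π / 6) {y b : ℝ}
    (hy1 : arcsin (2 / 3) ≤ y) (hyb : y ≤ b) (hb2 : b ≤ π / 2) (hs : b - y ≤ arctan (1 / 3))
    (h0 : h y = 0) : ∫ t in y..b, LL t (h t) ≤ un_A y b := by
  have hcos : ∀ t ∈ Icc y b, 0 < cos (t - y) := by
    intro t ht
    exact un_cos (by linarith [ht.1]) (by linarith [ht.2, un_a3, pi_pos])
  have hg : ContinuousOn (fun t => 3 / 2 * sin t * RR (t - y) - tan (t - y) / cos (t - y) ^ 2)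
      (Icc y b) := by
    intro t ht
    have hc := hcos t ht
    have c1 : ContinuousAt (fun t => RR (t - y)) t :=
      ((hasDerivAt_RR hc).comp_sub_const t y).continuousAt
    have c2 : ContinuousAt (fun t => tan (t - y) / cos (t - y) ^ 2) t :=
      ((un_T hc).comp_sub_const t y).continuousAt
    exact (((continuous_const.mul continuous_sin).continuousAt.mul c1).sub c2).continuousWithinAt
  have hgi : IntervalIntegrable (fun t => 3 / 2 * sin t * RR (t - y)
      - tan (t - y) / cos (t - y) ^ 2) volume y b := by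
    refine ContinuousOn.intervalIntegrable ?_
    rw [uIcc_of_le hyb]
    exact hg
  have h1 : ∫ t in y..b, LL t (h t) ≤ ∫ t in y..b, (3 / 2 * sin t * RR (t - y)
      - tan (t - y) / cos (t - y) ^ 2) := by
    refine intervalIntegral.integral_mono_on hyb ((un_cont hl hb).intervalIntegrable _ _) hgi ?_
    intro t ht
    refine un_pt1 hy1 ht.1 (ht.2.trans hb2) ?_ (hb t) (by linarith [ht.2])
    have := hl.dist_le_mul t y
    rw [Real.dist_eq, Real.dist_eq, h0, sub_zero, NNReal.coe_one, one_mul,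
      abs_of_nonneg (by linarith [ht.1] : 0 ≤ t - y)] at this
    exact this
  refine h1.trans (le_of_eq ?_)
  rw [intervalIntegral.integral_eq_sub_of_hasDerivAt (f := un_A y), un_A0, sub_zero]
  · intro t ht
    rw [uIcc_of_le hyb] at ht
    exact un_A_deriv (hcos t ht)
  · exact hgi

theorem un_part2 {h : ℝ → ℝ} (hl : LipschitzWith 1 h) (hb : ∀ t, |h t| ≤ π / 6) {y b : ℝ}
    (hy1 : arcsin (2 / 3) ≤ y) (hyb : y ≤ b) (hb2 : b ≤ π / 2)
    (h0 : h y = 0) : ∫ t in b..(π / 2), LL t (h t) ≤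
      2 * √2 / 9 * (3 / 2 * cos b - (π / 2 - b)) := by
  have h1 : ∫ t in b..(π / 2), LL t (h t) ≤ ∫ t in b..(π / 2),
      (2 * √2 / 9 * (3 / 2 * sin t - 1)) := by
    refine intervalIntegral.integral_mono_on hb2 ((un_cont hl hb).intervalIntegrable _ _)
      (Continuous.intervalIntegrable (by fun_prop) _ _) ?_
    intro t ht
    refine un_pt2 hy1 (hyb.trans ht.1) ht.2 ?_ (hb t)
    have := hl.dist_le_mul t y
    rw [Real.dist_eq, Real.dist_eq, h0, sub_zero, NNReal.coe_one, one_mul,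
      abs_of_nonneg (by linarith [ht.1] : 0 ≤ t - y)] at this
    exact this
  refine h1.trans (le_of_eq ?_)
  have hd : ∀ t ∈ uIcc b (π / 2), HasDerivAt (fun t => 2 * √2 / 9 * (-(3 / 2 * cos t) - t))
      (2 * √2 / 9 * (3 / 2 * sin t - 1)) t := by
    intro t _
    have := ((((hasDerivAt_cos t).const_mul (3 / 2)).neg.sub (hasDerivAt_id t))).const_mul
      (2 * √2 / 9)
    refine this.congr_deriv ?_
    ring
  rw [intervalIntegral.integral_eq_sub_of_hasDerivAt hd
    (Continuous.intervalIntegrable (by fun_prop) _ _), cos_pi_div_two]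
  ring

/-- the part after the first zero -/
theorem neg_part {h : ℝ → ℝ} (hl : LipschitzWith 1 h) (hb : ∀ t, |h t| ≤ π / 6) {y : ℝ}
    (hy1 : arcsin (2 / 3) ≤ y) (hy2 : y ≤ π / 2) (h0 : h y = 0) :
    ∫ t in y..(π / 2), LL t (h t) ≤ Nb y := by
  have hp := pi_pos
  unfold Nb
  split_ifs with hL
  · refine (un_part1 hl hb hy1 hy2 le_rfl hL h0).trans (le_of_eq ?_)
    have hs : 0 < sin y := by
      have h1 := (un_k1 hy1 le_rfl hy2).1
      linarith
    unfold un_A
    rw [tan_pi_div_two_sub, cos_pi_div_two, tan_eq_sin_div_cos, inv_div]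
    field_simp
    ring
  · have hL' : arctan (1 / 3) < π / 2 - y := lt_of_not_ge hL
    have ha : 0 ≤ arctan (1 / 3) := arctan_nonneg.2 (by norm_num)
    set b := y + arctan (1 / 3) with hb'
    have hyb : y ≤ b := by linarith
    have hb2 : b ≤ π / 2 := by linarith
    have h1 := un_part1 hl hb hy1 hyb hb2 (by rw [hb']; linarith) h0
    have h2 := un_part2 hl hb hy1 hyb hb2 h0
    have hc := un_cont hl hb
    rw [← intervalIntegral.integral_add_adjacent_intervals (hc.intervalIntegrable y b)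
      (hc.intervalIntegrable b (π / 2))]
    refine (add_le_add h1 h2).trans (le_of_eq ?_)
    have e1 : b - y = arctan (1 / 3) := by
      rw [hb']
      ring
    have e2 : π / 2 - y - arctan (1 / 3) = π / 2 - b := by
      rw [hb']
      ring
    unfold un_A
    rw [e1, e2, tan_arctan, sin_pi_div_two_sub]
    ring

end Pool.Agent.FPX.UMP
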