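import Mathlib
import Pool.Agent.FPX.UMPDefs
import Pool.Agent.FPX.UMP1
import Pool.Agent.FPU.UHDefs
import Pool.Agent.FPU.UNEG

/-
UCAB (helper5): monotonicity of `LL t` for `(3/2) sin t ≤ 1`, and the two cases of the half interval
problem without a first zero after `arcsin (2/3)`.
-/

set_option autoImplicit false

noncomputable section

namespace Pool.Agent.FPX.UMP

open Real MeasureTheory Set

/-- `LL t` is monotone as long as `(3/2) sin t ≤ 1` -/
theorem LL_mono {t x x' : ℝ} (ht : 3 / 2 * sin t ≤ 1) (hx : |x| < π / 2) (hx' : |x'| < π / 2)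
    (hxx : x ≤ x') : LL t x ≤ LL t x' := by
  have hc : ∀ u ∈ Ioo (-(π / 2)) (π / 2), 0 < cos u := fun u hu => cos_pos_of_mem_Ioo hu
  have hd : ∀ u ∈ Ioo (-(π / 2)) (π / 2), HasDerivAt (LL t)
      ((3 - 2 * cos u ^ 2) / cos u ^ 4 - 3 / 2 * sin t * (1 / cos u ^ 3)) u := by
    intro u hu
    exact (un_T (hc u hu)).sub ((hasDerivAt_RR (hc u hu)).const_mul _)
  have hm : MonotoneOn (LL t) (Ioo (-(π / 2)) (π / 2)) := by
    refine monotoneOn_of_hasDerivWithinAt_nonneg
      (f' := fun u => (3 - 2 * cos u ^ 2) / cos u ^ 4 - 3 / 2 * sin t * (1 / cos u ^ 3))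
      (convex_Ioo _ _) ?_ ?_ ?_
    · intro u hu
      exact (hd u hu).continuousAt.continuousWithinAt
    · intro u hu
      rw [interior_Ioo] at hu
      exact (hd u hu).hasDerivWithinAt
    · intro u hu
      rw [interior_Ioo] at hu
      have h := hc u hu
      have h1 := cos_le_one u
      have e : 3 / 2 * sin t * (1 / cos u ^ 3) = 3 / 2 * sin t * cos u / cos u ^ 4 := by
        field_simp
      rw [e, ← sub_div]
      refine div_nonneg ?_ (by positivity)
      have h2 : 3 / 2 * sin t * cos u ≤ 1 * cos u := mul_le_mul_of_nonneg_right ht h.le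
      nlinarith
  exact hm (abs_lt.1 hx) (abs_lt.1 hx') hxx

theorem LL_zero (t : ℝ) : LL t 0 = 0 := by
  unfold LL
  rw [un_RR0]
  simp

theorem RR_monoOn : MonotoneOn RR (Icc 0 (π / 6)) := by
  have hc : ∀ u ∈ Icc 0 (π / 6), 0 < cos u := fun u hu =>
    un_cos hu.1 (by linarith [hu.2, pi_pos])
  refine monotoneOn_of_hasDerivWithinAt_nonneg (f' := fun u => 1 / cos u ^ 3) (convex_Icc _ _)
    ?_ ?_ ?_
  · intro u hu
    exact (hasDerivAt_RR (hc u hu)).continuousAt.continuousWithinAt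
  · intro u hu
    rw [interior_Icc] at hu
    exact (hasDerivAt_RR (hc u ⟨hu.1.le, hu.2.le⟩)).hasDerivWithinAt
  · intro u hu
    rw [interior_Icc] at hu
    have := hc u ⟨hu.1.le, hu.2.le⟩
    positivity

/-- the case `h (arcsin (2/3)) ≤ 0` -/
theorem case_A {h : ℝ → ℝ} (hl : LipschitzWith 1 h) (hb : ∀ t, |h t| ≤ π / 6)
    (h1 : h (arcsin (2 / 3)) ≤ 0) : ∫ t in (arcsin (2 / 3))..(π / 2), LL t (h t) ≤
      2 * √2 / 9 * (√5 / 2 - (π / 2 - arcsin (2 / 3))) := by
  have hp := pi_pos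
  have hb2 : arcsin (2 / 3) ≤ π / 2 := arcsin_le_pi_div_two _
  have h2 : ∫ t in (arcsin (2 / 3))..(π / 2), LL t (h t) ≤ ∫ t in (arcsin (2 / 3))..(π / 2),
      (2 * √2 / 9 * (3 / 2 * sin t - 1)) := by
    refine intervalIntegral.integral_mono_on hb2 ((un_cont hl hb).intervalIntegrable _ _)
      (Continuous.intervalIntegrable (by fun_prop) _ _) ?_
    intro t ht
    obtain ⟨hk1, hk2⟩ := un_k1 le_rfl ht.1 ht.2
    have hbt := hb t
    unfold LL
    rcases le_total 0 (h t) with h3 | h3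
    · have h4 : h t ≤ t - arcsin (2 / 3) := by
        have := hl.dist_le_mul t (arcsin (2 / 3))
        rw [Real.dist_eq, Real.dist_eq, NNReal.coe_one, one_mul,
          abs_of_nonneg (by linarith [ht.1] : 0 ≤ t - arcsin (2 / 3))] at this
        have := (abs_le.1 this).2
        linarith
      have h5 := un_pos le_rfl h3 h4 ht.2 ((le_abs_self _).trans hbt)
      have h6 : 0 ≤ 2 * √2 / 9 * (3 / 2 * sin t - 1) :=
        mul_nonneg (by positivity) (by linarith)
      linarith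
    · rw [abs_of_nonpos h3] at hbt
      have h4 := un_neg2 hk1 hk2 (x := -h t) (by linarith) (by linarith)
      rw [un_RRneg, tan_neg, cos_neg] at h4
      linarith [neg_div (cos (h t) ^ 2) (tan (h t))]
  refine h2.trans (le_of_eq ?_)
  have hd : ∀ t ∈ uIcc (arcsin (2 / 3)) (π / 2),
      HasDerivAt (fun t => 2 * √2 / 9 * (-(3 / 2 * cos t) - t))
      (2 * √2 / 9 * (3 / 2 * sin t - 1)) t := by
    intro t _
    have := ((((hasDerivAt_cos t).const_mul (3 / 2)).neg.sub (hasDerivAt_id t))).const_mul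
      (2 * √2 / 9)
    refine this.congr_deriv ?_
    ring
  have h5 : √(1 - (2 / 3) ^ 2) = √5 / 3 := by
    rw [show (1 - (2 / 3) ^ 2 : ℝ) = 5 / 3 ^ 2 by norm_num, sqrt_div (by norm_num),
      sqrt_sq (by norm_num)]
  rw [intervalIntegral.integral_eq_sub_of_hasDerivAt hd
    (Continuous.intervalIntegrable (by fun_prop) _ _), cos_pi_div_two, cos_arcsin, h5]
  ring

theorem un_t1 : arcsin (2 / 3) ≤ π / 2 - 0.81 := by
  have hp := pi_gt_three
  rw [arcsin_le_iff_le_sin ⟨by norm_num, by norm_num⟩ ⟨by linarith, by linarith⟩,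
    sin_pi_div_two_sub]
  have := one_sub_sq_div_two_le_cos (x := (0.81 : ℝ))
  norm_num at this ⊢
  linarith

theorem case_A_num {h : ℝ → ℝ} (hl : LipschitzWith 1 h) (hb : ∀ t, |h t| ≤ π / 6)
    (h1 : h (arcsin (2 / 3)) ≤ 0) : ∫ t in (arcsin (2 / 3))..(π / 2), LL t (h t) ≤ 0.0970 := by
  refine (case_A hl hb h1).trans ?_
  have h2 := un_t1
  have h5 := un_s5.2
  have h3 : √2 ≤ 1.4143 := by
    rw [sqrt_le_left (by norm_num)]
    norm_num
  have h4 : √5 / 2 - (π / 2 - arcsin (2 / 3)) ≤ 0.30805 := by linarith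
  have h6 : 0 ≤ 2 * √2 / 9 := by positivity
  calc 2 * √2 / 9 * (√5 / 2 - (π / 2 - arcsin (2 / 3))) ≤ 2 * √2 / 9 * 0.30805 :=
        mul_le_mul_of_nonneg_left h4 h6
    _ ≤ 0.0970 := by nlinarith

theorem tan_pi_six : tan (π / 6) = 1 / √3 := by
  rw [tan_pi_div_six]

theorem RR6 : RR (π / 6) ≤ 19 / (18 * √3) := by
  have hp := pi_pos
  have h := un_RRup (x := π / 6) (by linarith) (by linarith)
  rw [tan_pi_six] at h
  refine h.trans (le_of_eq ?_)
  have h3 := sq_sqrt (show (0 : ℝ) ≤ 3 by norm_num)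
  have h4 : 0 < √3 := by positivity
  have h5 : (1 / √3) ^ 3 = 1 / (3 * √3) := by
    rw [div_pow, one_pow, pow_succ, h3]
  rw [h5]
  field_simp
  norm_num

/-- `T ≤ 1.268 R` on `[0, π/6]` -/
theorem TR6 {x : ℝ} (h0 : 0 ≤ x) (hx : x ≤ π / 6) : tan x / cos x ^ 2 ≤ 1.268 * RR x := by
  have hp := pi_pos
  have h1 := un_RRlow h0 (by linarith)
  have hc := un_cos h0 (show x < π / 2 by linarith)
  have hτ : 0 ≤ tan x := tan_nonneg_of_nonneg_of_le_pi_div_two h0 (by linarith)
  have hc6 : √3 / 2 ≤ cos x := by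
    rw [← cos_pi_div_six]
    exact cos_le_cos_of_nonneg_of_le_pi h0 (by linarith) hx
  have hs3 : (1.73205 : ℝ) ≤ √3 := by
    rw [le_sqrt' (by norm_num)]
    norm_num
  have hs3' := sq_sqrt (show (0 : ℝ) ≤ 3 by norm_num)
  have hc1 := cos_le_one x
  have h2 : 1 / cos x ^ 2 ≤ 1.268 * ((2 + 1 / cos x) / 3) := by
    rw [div_le_iff₀ (by positivity)]
    have e : 1.268 * ((2 + 1 / cos x) / 3) * cos x ^ 2 = 1.268 * (2 * cos x ^ 2 + cos x) / 3 := by
      field_simp
    rw [e]
    have h3 : 0.866025 ≤ cos x := by linarith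
    have h4 : 3 / 4 ≤ cos x ^ 2 := by nlinarith
    nlinarith
  calc tan x / cos x ^ 2 = tan x * (1 / cos x ^ 2) := by ring
    _ ≤ tan x * (1.268 * ((2 + 1 / cos x) / 3)) := mul_le_mul_of_nonneg_left h2 hτ
    _ = 1.268 * (tan x * (2 + 1 / cos x) / 3) := by ring
    _ ≤ 1.268 * RR x := by linarith

/-- pointwise bound beyond `π/6` -/
theorem caseB_pt {t x : ℝ} (ht1 : π / 6 ≤ t) (hx : |x| ≤ π / 6)
    (hp : x < 0 → t ≤ arcsin (2 / 3)) : LL t x ≤ RR (π / 6) * max 0 (1.268 - 3 / 2 * sin t) := by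
  have hpi := pi_pos
  have hr : 0 ≤ RR (π / 6) := by
    rw [← un_RR0]
    exact RR_monoOn ⟨le_rfl, by linarith⟩ ⟨by linarith, le_rfl⟩ (by linarith)
  rcases lt_or_ge x 0 with h | h
  · have h1 : 3 / 2 * sin t ≤ 1 := by
      have h2 : sin t ≤ sin (arcsin (2 / 3)) :=
        sin_le_sin_of_le_of_le_pi_div_two (by linarith) (arcsin_le_pi_div_two _) (hp h)
      rw [sin_arcsin (by norm_num) (by norm_num)] at h2
      linarith
    have h2 := LL_mono (t := t) h1 (x := x) (x' := 0) (by linarith) (by rw [abs_zero]; linarith) h.le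
    rw [LL_zero] at h2
    exact h2.trans (mul_nonneg hr (le_max_left _ _))
  · rw [abs_of_nonneg h] at hx
    have h1 := TR6 h hx
    have h2 : LL t x ≤ (1.268 - 3 / 2 * sin t) * RR x := by
      unfold LL
      linarith
    have h3 : 0 ≤ RR x := by
      rw [← un_RR0]
      exact RR_monoOn ⟨le_rfl, by linarith⟩ ⟨h, hx⟩ h
    have h4 : RR x ≤ RR (π / 6) := RR_monoOn ⟨h, hx⟩ ⟨by linarith, le_rfl⟩ hx
    calc LL t x ≤ (1.268 - 3 / 2 * sin t) * RR x := h2
      _ ≤ max 0 (1.268 - 3 / 2 * sin t) * RR x := mul_le_mul_of_nonneg_right (le_max_right _ _) h3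
      _ ≤ max 0 (1.268 - 3 / 2 * sin t) * RR (π / 6) :=
          mul_le_mul_of_nonneg_left h4 (le_max_left _ _)
      _ = RR (π / 6) * max 0 (1.268 - 3 / 2 * sin t) := mul_comm _ _

theorem caseB_1 {h : ℝ → ℝ} (hl : LipschitzWith 1 h) (hb : ∀ t, |h t| ≤ π / 6) (h0 : h 0 = 0) :
    ∫ t in (0 : ℝ)..(π / 6), LL t (h t) ≤ 1 / 6 + 3 / 2 * (√3 / 2 * RR (π / 6)) - √3 / 2 := by
  have hpi := pi_pos
  have hcos : ∀ t ∈ Icc 0 (π / 6), 0 < cos t := fun t ht => un_cos ht.1 (by linarith [ht.2])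
  have hd : ∀ t ∈ Icc 0 (π / 6), HasDerivAt (fun t => tan t ^ 2 / 2 + 3 / 2 * (cos t * RR t)
      - 3 / 2 * tan t) (LL t t) t := by
    intro t ht
    have hc := hcos t ht
    have h1 := Real.hasDerivAt_tan hc.ne'
    have h2 := (((h1.pow 2).div_const 2).add (((hasDerivAt_cos t).mul
      (hasDerivAt_RR hc)).const_mul (3 / 2))).sub (h1.const_mul (3 / 2))
    refine h2.congr_deriv ?_
    have e2 : tan t ^ (2 - 1) = tan t := by norm_num
    unfold LL
    rw [e2]
    push_cast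
    field_simp
    ring
  have hci : IntervalIntegrable (fun t => LL t t) volume 0 (π / 6) := by
    refine ContinuousOn.intervalIntegrable ?_
    rw [uIcc_of_le (by linarith)]
    intro t ht
    have hc := hcos t ht
    unfold LL
    exact ((un_T hc).continuousAt.sub ((continuous_const.mul continuous_sin).continuousAt.mul
      (hasDerivAt_RR hc).continuousAt)).continuousWithinAt
  have h1 : ∫ t in (0 : ℝ)..(π / 6), LL t (h t) ≤ ∫ t in (0 : ℝ)..(π / 6), LL t t := by
    refine intervalIntegral.integral_mono_on (by linarith)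
      ((un_cont hl hb).intervalIntegrable _ _) hci ?_
    intro t ht
    have h2 : |h t| ≤ t := by
      have := hl.dist_le_mul t 0
      rw [Real.dist_eq, Real.dist_eq, h0, sub_zero, sub_zero, NNReal.coe_one, one_mul,
        abs_of_nonneg ht.1] at this
      exact this
    refine LL_mono ?_ (by linarith [hb t]) (by rw [abs_of_nonneg ht.1]; linarith [ht.2])
      ((le_abs_self _).trans h2)
    have h3 : sin t ≤ sin (π / 6) :=
      sin_le_sin_of_le_of_le_pi_div_two (by linarith [ht.1]) (by linarith) ht.2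
    rw [sin_pi_div_six] at h3
    linarith
  refine h1.trans (le_of_eq ?_)
  rw [intervalIntegral.integral_eq_sub_of_hasDerivAt (fun t ht => hd t (by
    rwa [uIcc_of_le (by linarith)] at ht)) hci]
  have h3 := sq_sqrt (show (0 : ℝ) ≤ 3 by norm_num)
  have h4 : (1 / √3) ^ 2 = 1 / 3 := by
    rw [div_pow, one_pow, h3]
  have h5 : 1 / √3 = √3 / 3 := by
    rw [div_eq_div_iff (by positivity) (by norm_num), ← sq, h3]
    norm_num
  rw [tan_pi_six, cos_pi_div_six, h4, h5, un_RR0, tan_zero]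
  ring

/-- the case `0 ≤ h` on `[arcsin (2/3), π/2]` -/
theorem case_B {h : ℝ → ℝ} (hl : LipschitzWith 1 h) (hb : ∀ t, |h t| ≤ π / 6) (h0 : h 0 = 0)
    (hp : ∀ t ∈ Icc (arcsin (2 / 3)) (π / 2), 0 ≤ h t) :
    ∫ t in (0 : ℝ)..(π / 2), LL t (h t) ≤ 17 / 100 := by
  have hpi := pi_pos
  have hc := un_cont hl hb
  have hi : ∀ a b : ℝ, IntervalIntegrable (fun t => LL t (h t)) volume a b :=
    fun a b => hc.intervalIntegrable a b
  have hr : 0 ≤ RR (π / 6) := by
    rw [← un_RR0]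
    exact RR_monoOn ⟨le_rfl, by linarith⟩ ⟨by linarith, le_rfl⟩ (by linarith)
  have hneg : ∀ t, t ≤ π / 2 → h t < 0 → t ≤ arcsin (2 / 3) := by
    intro t ht hn
    by_contra hlt
    have := hp t ⟨(not_le.1 hlt).le, ht⟩
    linarith
  have hpt : ∀ t, π / 6 ≤ t → t ≤ π / 2 → LL t (h t) ≤
      RR (π / 6) * max 0 (1.268 - 3 / 2 * sin t) := fun t h1 h2 =>
    caseB_pt h1 (hb t) (hneg t h2)
  have hs2 : √2 ≤ 1.4143 := by
    rw [sqrt_le_left (by norm_num)]
    norm_num
  have hs3 : (1.73205 : ℝ) ≤ √3 := by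
    rw [le_sqrt' (by norm_num)]
    norm_num
  have hs3' : √3 ≤ 1.73206 := by
    rw [sqrt_le_left (by norm_num)]
    norm_num
  -- the antiderivative
  have hI : ∀ c a b : ℝ, ∫ t in a..b, RR (π / 6) * (c - 3 / 2 * sin t) =
      RR (π / 6) * (c * (b - a) + 3 / 2 * (cos b - cos a)) := by
    intro c a b
    have hd : ∀ t ∈ uIcc a b, HasDerivAt (fun t => RR (π / 6) * (c * t + 3 / 2 * cos t))
        (RR (π / 6) * (c - 3 / 2 * sin t)) t := by
      intro t _
      have := (((hasDerivAt_id t).const_mul c).add ((hasDerivAt_cos t).const_mul (3 / 2))).const_mul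
        (RR (π / 6))
      refine this.congr_deriv ?_
      ring
    rw [intervalIntegral.integral_eq_sub_of_hasDerivAt hd
      (Continuous.intervalIntegrable (by fun_prop) _ _)]
    ring
  have h1 := caseB_1 hl hb h0
  have h2 : ∫ t in (π / 6)..(π / 4), LL t (h t) ≤
      RR (π / 6) * (1.268 * (π / 4 - π / 6) + 3 / 2 * (cos (π / 4) - cos (π / 6))) := by
    rw [← hI]
    refine intervalIntegral.integral_mono_on (by linarith) (hi _ _)
      (Continuous.intervalIntegrable (by fun_prop) _ _) ?_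
    intro t ht
    refine (hpt t ht.1 (by linarith [ht.2])).trans (mul_le_mul_of_nonneg_left ?_ hr)
    have h3 : sin t ≤ sin (π / 4) :=
      sin_le_sin_of_le_of_le_pi_div_two (by linarith [ht.1]) (by linarith) ht.2
    rw [sin_pi_div_four] at h3
    exact max_le (by linarith) le_rfl
  have h3 : ∫ t in (π / 4)..(π / 3), LL t (h t) ≤
      RR (π / 6) * (1.2991 * (π / 3 - π / 4) + 3 / 2 * (cos (π / 3) - cos (π / 4))) := by
    rw [← hI]
    refine intervalIntegral.integral_mono_on (by linarith) (hi _ _)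
      (Continuous.intervalIntegrable (by fun_prop) _ _) ?_
    intro t ht
    refine (hpt t (by linarith [ht.1]) (by linarith [ht.2])).trans (mul_le_mul_of_nonneg_left ?_ hr)
    have h3 : sin t ≤ sin (π / 3) :=
      sin_le_sin_of_le_of_le_pi_div_two (by linarith [ht.1]) (by linarith) ht.2
    rw [sin_pi_div_three] at h3
    exact max_le (by linarith) (by linarith)
  have h4 : ∫ t in (π / 3)..(π / 2), LL t (h t) ≤ 0 := by
    have : ∫ t in (π / 3)..(π / 2), LL t (h t) ≤ ∫ t in (π / 3)..(π / 2), (0 : ℝ) := by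
      refine intervalIntegral.integral_mono_on (by linarith) (hi _ _)
        intervalIntegrable_const ?_
      intro t ht
      refine (hpt t (by linarith [ht.1]) ht.2).trans (le_of_eq ?_)
      have h3 : sin (π / 3) ≤ sin t :=
        sin_le_sin_of_le_of_le_pi_div_two (by linarith) ht.2 ht.1
      rw [sin_pi_div_three] at h3
      rw [max_eq_left (by linarith), mul_zero]
    simpa using this
  rw [← intervalIntegral.integral_add_adjacent_intervals (hi 0 (π / 6)) (hi (π / 6) (π / 2)),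
    ← intervalIntegral.integral_add_adjacent_intervals (hi (π / 6) (π / 4)) (hi (π / 4) (π / 2)),
    ← intervalIntegral.integral_add_adjacent_intervals (hi (π / 4) (π / 3)) (hi (π / 3) (π / 2))]
  rw [cos_pi_div_four, cos_pi_div_six] at h2
  rw [cos_pi_div_four, cos_pi_div_three] at h3
  have h6 := RR6
  have hpi2 := pi_lt_d4
  have hsum : (∫ t in (0 : ℝ)..(π / 6), LL t (h t)) + ((∫ t in (π / 6)..(π / 4), LL t (h t)) +
      ((∫ t in (π / 4)..(π / 3), LL t (h t)) + ∫ t in (π / 3)..(π / 2), LL t (h t))) ≤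
      1 / 6 - √3 / 2 + RR (π / 6) * (2.5671 * (π / 12) + 3 / 4) := by
    have e : 1 / 6 - √3 / 2 + RR (π / 6) * (2.5671 * (π / 12) + 3 / 4) =
      (1 / 6 + 3 / 2 * (√3 / 2 * RR (π / 6)) - √3 / 2) +
      (RR (π / 6) * (1.268 * (π / 4 - π / 6) + 3 / 2 * (√2 / 2 - √3 / 2)) +
      (RR (π / 6) * (1.2991 * (π / 3 - π / 4) + 3 / 2 * (1 / 2 - √2 / 2)) + 0)) := by ring
    rw [e]
    exact add_le_add h1 (add_le_add h2 (add_le_add h3 h4))
  refine hsum.trans ?_
  have h7 : RR (π / 6) * (2.5671 * (π / 12) + 3 / 4) ≤ 19 / (18 * √3) * 1.42207 := by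
    refine mul_le_mul h6 ?_ (by positivity) (by positivity)
    linarith
  have h8 : 19 / (18 * √3) = 19 * √3 / 54 := by
    have h3 := sq_sqrt (show (0 : ℝ) ≤ 3 by norm_num)
    rw [div_eq_div_iff (by positivity) (by norm_num)]
    nlinarith
  rw [h8] at h7
  linarith

end Pool.Agent.FPX.UMP
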