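import Mathlib
import Pool.Agent.FPX.UMP1
import Pool.Agent.FPU.UHDefs
import Pool.Agent.FPU.CalG

/-
UPOS (helper16): calibration for the nonnegative part of the half interval problem:
`∫_0^y LL t (h t) ≤ ∫_0^y pm` for a 1-Lipschitz function `0 ≤ h ≤ π/6` with `h 0 = h y = 0`, `y ≤ π/2`.
-/

set_option autoImplicit false

noncomputable section

namespace Pool.Agent.FPX.UMP

open Real MeasureTheory Set Filter Topology

theorem cont_pm {y : ℝ} (h1 : -π < y) (h2 : y < π) : ContinuousAt pm y := by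
  have hc : cos (y / 2) ≠ 0 := (cos_pos_of_mem_Ioo ⟨by linarith, by linarith⟩).ne'
  have c1 : ContinuousAt (fun y => tan (y / 2)) y := by
    have : ContinuousAt (fun y : ℝ => y / 2) y := by fun_prop
    exact ContinuousAt.comp (g := tan) (f := fun y : ℝ => y / 2) (continuousAt_tan.2 hc) this
  have c2 : ContinuousAt tm y := c1.min continuousAt_const
  have c3 : ContinuousAt (fun y => tm y * (tm y ^ 2 + 3 / 4 * cos y * tm y + 1 - 3 / 2 * sin y)) y := by
    refine c2.mul ((((c2.pow 2).add ((?_ : ContinuousAt (fun y => 3 / 4 * cos y) y).mul c2)).add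
      continuousAt_const).sub (?_ : ContinuousAt (fun y => 3 / 2 * sin y) y))
    · fun_prop
    · fun_prop
  exact continuousAt_const.max c3

/-- primitive of `pm` -/
def Pm (y : ℝ) : ℝ := ∫ v in (0 : ℝ)..y, pm v

theorem ii_pm {a b : ℝ} (h1 : -π < a) (h2 : a < π) (h3 : -π < b) (h4 : b < π) :
    IntervalIntegrable pm volume a b := by
  refine ContinuousOn.intervalIntegrable fun u hu => ?_
  have hu' := uIcc_subset_Icc (a₁ := a) (b₁ := b) (a₂ := min a b) (b₂ := max a b)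
    ⟨min_le_left _ _, le_max_left _ _⟩ ⟨min_le_right _ _, le_max_right _ _⟩ hu
  exact (cont_pm (lt_of_lt_of_le (lt_min h1 h3) hu'.1)
    (lt_of_le_of_lt hu'.2 (max_lt h2 h4))).continuousWithinAt

theorem d_Pm {y : ℝ} (h1 : -π < y) (h2 : y < π) : HasDerivAt Pm (pm y) y := by
  have hp := pi_pos
  refine intervalIntegral.integral_hasDerivAt_right (ii_pm (by linarith) hp h1 h2) ?_ (cont_pm h1 h2)
  exact ContinuousOn.stronglyMeasurableAtFilter isOpen_Ioo
    (fun u hu => (cont_pm hu.1 hu.2).continuousWithinAt) y ⟨h1, h2⟩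

theorem flux {x y : ℝ} (hx0 : 0 ≤ x) (hxy : 2 * x ≤ y) (hx6 : x ≤ π / 6) (hy : y ≤ π / 2) :
    tan x * (tan x ^ 2 + 3 / 4 * cos y * tan x + 1 - 3 / 2 * sin y) ≤ pm y := by
  have hp := pi_pos
  have h0 : 0 ≤ tan x := tan_nonneg_of_nonneg_of_le_pi_div_two hx0 (by linarith)
  have h1 : tan x ≤ tan (y / 2) :=
    strictMonoOn_tan.monotoneOn ⟨by linarith, by linarith⟩ ⟨by linarith, by linarith⟩ (by linarith)
  have h2 : tan x ≤ 1 / √3 := by
    rw [← tan_pi_div_six]
    exact strictMonoOn_tan.monotoneOn ⟨by linarith, by linarith⟩ ⟨by linarith, by linarith⟩ hx6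
  have h3 : tan x ≤ tm y := le_min h1 h2
  have hc : 0 ≤ cos y := cos_nonneg_of_mem_Icc ⟨by linarith, hy⟩
  unfold pm
  generalize tan x = u at *
  generalize tm y = m at *
  generalize cos y = C at *
  generalize sin y = S at *
  rcases le_total (u ^ 2 + 3 / 4 * C * u + 1 - 3 / 2 * S) 0 with h | h
  · exact le_max_of_le_left (mul_nonpos_of_nonneg_of_nonpos h0 h)
  · refine le_max_of_le_right (mul_le_mul h3 ?_ h (h0.trans h3))
    have e1 : u ^ 2 ≤ m ^ 2 := by gcongr
    have e2 : C * u ≤ C * m := by gcongr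
    linarith

/-- the value function -/
def VV (p : ℝ × ℝ) : ℝ := Pm (p.1 + p.2) - tan p.2 ^ 2 / 2 + 3 / 2 * (RR p.2 * cos p.1)
  - 3 / 2 * (cos (p.1 + p.2) * tan p.2 + sin (p.1 + p.2) * (tan p.2 ^ 2 / 2))

theorem VV_zero (t : ℝ) : VV (t, 0) = Pm t := by
  simp [VV, RR]

/-- first partial derivative of the value function -/
def VA (t x : ℝ) : ℝ := pm (t + x) - 3 / 2 * (RR x * sin t) + 3 / 2 * (sin (t + x) * tan x)
  - 3 / 4 * (cos (t + x) * tan x ^ 2)

theorem d_VV {t x : ℝ} (hx : 0 < cos x) (h1 : -π < t + x) (h2 : t + x < π) :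
    HasFDerivAt VV (VA t x • ContinuousLinearMap.fst ℝ ℝ ℝ
      + (VA t x - LL t x) • ContinuousLinearMap.snd ℝ ℝ ℝ) (t, x) := by
  have f1 : HasFDerivAt (fun p : ℝ × ℝ => p.1) (ContinuousLinearMap.fst ℝ ℝ ℝ) (t, x) :=
    hasFDerivAt_fst
  have f2 : HasFDerivAt (fun p : ℝ × ℝ => p.2) (ContinuousLinearMap.snd ℝ ℝ ℝ) (t, x) :=
    hasFDerivAt_snd
  have f3 : HasFDerivAt (fun p : ℝ × ℝ => p.1 + p.2) (ContinuousLinearMap.fst ℝ ℝ ℝ
      + ContinuousLinearMap.snd ℝ ℝ ℝ) (t, x) := f1.add f2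
  have g1 : HasFDerivAt (fun p : ℝ × ℝ => Pm (p.1 + p.2)) (pm (t + x) • (ContinuousLinearMap.fst ℝ ℝ ℝ
      + ContinuousLinearMap.snd ℝ ℝ ℝ)) (t, x) :=
    HasDerivAt.comp_hasFDerivAt (h₂ := Pm) (t, x) (d_Pm h1 h2) f3
  have g2 : HasFDerivAt (fun p : ℝ × ℝ => tan p.2) ((1 / cos x ^ 2) •
      ContinuousLinearMap.snd ℝ ℝ ℝ) (t, x) :=
    HasDerivAt.comp_hasFDerivAt (h₂ := tan) (t, x) (Real.hasDerivAt_tan hx.ne') f2
  have g3 : HasFDerivAt (fun p : ℝ × ℝ => RR p.2) ((1 / cos x ^ 3) •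
      ContinuousLinearMap.snd ℝ ℝ ℝ) (t, x) :=
    HasDerivAt.comp_hasFDerivAt (h₂ := RR) (t, x) (hasDerivAt_RR hx) f2
  have g4 : HasFDerivAt (fun p : ℝ × ℝ => cos p.1) ((-sin t) •
      ContinuousLinearMap.fst ℝ ℝ ℝ) (t, x) :=
    HasDerivAt.comp_hasFDerivAt (h₂ := cos) (t, x) (hasDerivAt_cos t) f1
  have g5 : HasFDerivAt (fun p : ℝ × ℝ => cos (p.1 + p.2)) ((-sin (t + x)) •
      (ContinuousLinearMap.fst ℝ ℝ ℝ + ContinuousLinearMap.snd ℝ ℝ ℝ)) (t, x) :=
    HasDerivAt.comp_hasFDerivAt (h₂ := cos) (t, x) (hasDerivAt_cos (t + x)) f3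
  have g6 : HasFDerivAt (fun p : ℝ × ℝ => sin (p.1 + p.2)) ((cos (t + x)) •
      (ContinuousLinearMap.fst ℝ ℝ ℝ + ContinuousLinearMap.snd ℝ ℝ ℝ)) (t, x) :=
    HasDerivAt.comp_hasFDerivAt (h₂ := sin) (t, x) (hasDerivAt_sin (t + x)) f3
  have g7 : HasFDerivAt (fun p : ℝ × ℝ => tan p.2 ^ 2 / 2) ((tan x / cos x ^ 2) •
      ContinuousLinearMap.snd ℝ ℝ ℝ) (t, x) := by
    have : HasDerivAt (fun x => tan x ^ 2 / 2) (tan x / cos x ^ 2) x := by
      refine (((Real.hasDerivAt_tan hx.ne').pow 2).div_const 2).congr_deriv ?_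
      norm_num
      ring
    exact HasDerivAt.comp_hasFDerivAt (h₂ := fun x => tan x ^ 2 / 2) (t, x) this f2
  have key := ((g1.sub g7).add ((g3.mul g4).const_mul (3 / 2))).sub
    (((g5.mul g2).add (g6.mul g7)).const_mul (3 / 2))
  refine key.congr_fderiv ?_
  have hs : cos t = cos (t + x) * cos x + sin (t + x) * sin x := by
    rw [← cos_sub]
    congr 1
    ring
  have hsx : sin x = tan x * cos x := (tan_mul_cos hx.ne').symm
  refine ContinuousLinearMap.ext fun v => ?_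
  simp only [add_apply, sub_apply, smul_apply, ContinuousLinearMap.coe_fst',
    ContinuousLinearMap.coe_snd', smul_eq_mul, VA, LL]
  rw [hs, hsx]
  have := hx.ne'
  field_simp
  ring

theorem T_tan {x : ℝ} (hx : 0 < cos x) : tan x / cos x ^ 2 = tan x * (1 + tan x ^ 2) := by
  rw [tan_eq_sin_div_cos]
  have h3 : sin x ^ 2 = 1 - cos x ^ 2 := by linarith [sin_sq_add_cos_sq x]
  field_simp
  rw [h3]
  ring

theorem cont_LL {h : ℝ → ℝ} (hc0 : Continuous h) (hb : ∀ t, |h t| ≤ π / 6) :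
    Continuous fun t => LL t (h t) := by
  have hc : ∀ t, 0 < cos (h t) := by
    intro t
    have := abs_le.1 (hb t)
    exact cos_pos_of_mem_Ioo ⟨by linarith [pi_pos], by linarith [pi_pos]⟩
  have c1 : Continuous fun t => tan (h t) := by
    have : (fun t => tan (h t)) = fun t => sin (h t) / cos (h t) := by
      ext t
      rw [tan_eq_sin_div_cos]
    rw [this]
    exact (continuous_sin.comp hc0).div (continuous_cos.comp hc0) fun t => (hc t).ne'
  have c2 : Continuous fun t => RR (h t) := by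
    unfold RR
    exact ((c1.div (continuous_cos.comp hc0) fun t => (hc t).ne').add
      (continuous_arsinh.comp c1)).div_const 2
  unfold LL
  exact (c1.div ((continuous_cos.comp hc0).pow 2) fun t => pow_ne_zero 2 (hc t).ne').sub
    ((continuous_const.mul continuous_sin).mul c2)

/-- nonnegative function between two zeros `0` and `y` -/
theorem cal {h : ℝ → ℝ} (hl : ∀ s t, |h s - h t| ≤ |s - t|) (hb : ∀ t, |h t| ≤ π / 6) {y : ℝ}
    (hy0 : 0 ≤ y) (hy : y ≤ π / 2) (hp : ∀ t ∈ Icc 0 y, 0 ≤ h t) (h0 : h 0 = 0) (hy1 : h y = 0) :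
    ∫ t in (0 : ℝ)..y, LL t (h t) ≤ Pm y := by
  have hpi := pi_pos
  have hc : Continuous h := by
    have : LipschitzWith 1 h := LipschitzWith.of_dist_le_mul (fun x y => by
      simpa [Real.dist_eq] using hl x y)
    exact this.continuous
  have hcos : ∀ t, 0 < cos (h t) := by
    intro t
    have := abs_le.1 (hb t)
    exact cos_pos_of_mem_Ioo ⟨by linarith, by linarith⟩
  have b1 : ∀ t ∈ Icc 0 y, h t ≤ t := by
    intro t ht
    have := hl t 0
    rw [h0, sub_zero, sub_zero, abs_of_nonneg ht.1] at this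
    exact (le_abs_self _).trans this
  have b2 : ∀ t ∈ Icc 0 y, h t ≤ y - t := by
    intro t ht
    have := hl t y
    rw [hy1, sub_zero, abs_of_nonpos (by linarith [ht.2] : t - y ≤ 0)] at this
    linarith [(le_abs_self _).trans this]
  have hd : ∀ t ∈ Icc 0 y, HasFDerivAt VV (VA t (h t) • ContinuousLinearMap.fst ℝ ℝ ℝ
      + (VA t (h t) - LL t (h t)) • ContinuousLinearMap.snd ℝ ℝ ℝ) (t, h t) := by
    intro t ht
    exact d_VV (hcos t) (by linarith [ht.1, hp t ht]) (by linarith [b2 t ht])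
  have key := FPU.cal_graph hl hy0 VV (fun t => VA t (h t) • ContinuousLinearMap.fst ℝ ℝ ℝ
      + (VA t (h t) - LL t (h t)) • ContinuousLinearMap.snd ℝ ℝ ℝ) (fun t => LL t (h t))
      (fun t ht => ?_) (cont_LL hc hb) (fun t ht => hd t ⟨ht.1, ht.2.le⟩) (fun t ht => ?_)
      (fun t ht => ?_)
  · rw [h0, hy1, VV_zero, VV_zero] at key
    have : Pm 0 = 0 := by simp [Pm]
    linarith
  · have c1 : ContinuousAt (fun t => (t, h t)) t := (continuous_id.prodMk hc).continuousAt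
    exact (ContinuousAt.comp (g := VV) (f := fun t => (t, h t)) (hd t ht).continuousAt
      c1).continuousWithinAt
  · simp only [add_apply, smul_apply, ContinuousLinearMap.coe_fst', ContinuousLinearMap.coe_snd',
      smul_eq_mul]
    linarith
  · simp only [add_apply, smul_apply, ContinuousLinearMap.coe_fst', ContinuousLinearMap.coe_snd',
      smul_eq_mul]
    have ht' : t ∈ Icc 0 y := ⟨ht.1, ht.2.le⟩
    have f := flux (x := h t) (y := t + h t) (hp t ht') (by linarith [b1 t ht'])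
      ((le_abs_self _).trans (hb t)) (by linarith [b2 t ht'])
    have : LL t (h t) ≤ VA t (h t) := by
      unfold VA LL
      rw [T_tan (hcos t)]
      nlinarith
    linarith

end Pool.Agent.FPX.UMP
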