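import Mathlib
import Pool.Agent.FPU.UPOS
import Pool.Agent.FPU.URR

/-
UNUM (helper16): the numerical inequality `∫_0^y pm + Nb y ≤ 17/100` on `[arcsin (2/3), π/2]`.
-/

set_option autoImplicit false

noncomputable section

namespace Pool.Agent.FPX.UMP

open Real MeasureTheory Set Filter Topology

/-- closed form of `Pm` on `[0, π/3]` -/
def PA (y : ℝ) : ℝ := tan (y / 2) ^ 2 - 3 / 2 * (sin (y / 2) ^ 3 / cos (y / 2))

theorem d_PA {y : ℝ} (h0 : 0 ≤ y) (h1 : y ≤ π / 3) : HasDerivAt PA (pm y) y := by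
  have hp := pi_pos
  have hc : 0 < cos (y / 2) := cos_pos_of_mem_Ioo ⟨by linarith, by linarith⟩
  have e1 : HasDerivAt (fun y : ℝ => y / 2) (1 / 2) y := (hasDerivAt_id y).div_const 2
  have e2 : HasDerivAt (fun y : ℝ => tan (y / 2)) (1 / cos (y / 2) ^ 2 * (1 / 2)) y :=
    HasDerivAt.comp (h₂ := tan) y (Real.hasDerivAt_tan hc.ne') e1
  have e3 : HasDerivAt (fun y : ℝ => sin (y / 2)) (cos (y / 2) * (1 / 2)) y :=
    HasDerivAt.comp (h₂ := sin) y (hasDerivAt_sin _) e1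
  have e4 : HasDerivAt (fun y : ℝ => cos (y / 2)) (-sin (y / 2) * (1 / 2)) y :=
    HasDerivAt.comp (h₂ := cos) y (hasDerivAt_cos _) e1
  have e5 := (e2.pow 2).sub (((e3.pow 3).div e4 hc.ne').const_mul (3 / 2))
  refine e5.congr_deriv ?_
  have ht : tan (y / 2) ≤ 1 / √3 := by
    rw [← tan_pi_div_six]
    exact strictMonoOn_tan.monotoneOn ⟨by linarith, by linarith⟩ ⟨by linarith, by linarith⟩
      (by linarith)
  have ht0 : 0 ≤ tan (y / 2) := tan_nonneg_of_nonneg_of_le_pi_div_two (by linarith) (by linarith)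
  have hm : tm y = tan (y / 2) := min_eq_left ht
  have hcy : cos y = 2 * cos (y / 2) ^ 2 - 1 := by
    rw [← cos_two_mul]
    congr 1
    ring
  have hsy : sin y = 2 * sin (y / 2) * cos (y / 2) := by
    rw [← sin_two_mul]
    congr 1
    ring
  have hs : sin (y / 2) = tan (y / 2) * cos (y / 2) := (tan_mul_cos hc.ne').symm
  have hq : (tan (y / 2) ^ 2 + 1) * cos (y / 2) ^ 2 = 1 := by
    have := sin_sq_add_cos_sq (y / 2)
    rw [hs] at this
    linarith
  have h3 : (1.732 : ℝ) ≤ √3 := by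
    rw [le_sqrt' (by norm_num)]
    norm_num
  have ht2 : tan (y / 2) ≤ 0.5774 := by
    refine ht.trans ?_
    rw [div_le_iff₀ (by positivity)]
    linarith
  have hpm : pm y = tan (y / 2) * (tan (y / 2) ^ 2 + 3 / 4 * cos y * tan (y / 2) + 1
      - 3 / 2 * sin y) := by
    unfold pm
    rw [hm]
    refine max_eq_right (mul_nonneg ht0 ?_)
    rw [hcy, hsy, hs]
    generalize tan (y / 2) = u at *
    generalize cos (y / 2) = C at *
    have e6 : C ^ 2 = 1 / (u ^ 2 + 1) := by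
      field_simp
      linarith
    have e7 : 2 * (u * C) * C = 2 * u * C ^ 2 := by ring
    rw [e7, e6]
    have e8 : u ^ 2 + 3 / 4 * (2 * (1 / (u ^ 2 + 1)) - 1) * u + 1 - 3 / 2 * (2 * u * (1 / (u ^ 2 + 1)))
        = (u ^ 4 + 2 * u ^ 2 + 1 - 9 / 4 * u - 3 / 4 * u ^ 3) / (u ^ 2 + 1) := by
      field_simp
      ring
    rw [e8]
    refine div_nonneg ?_ (by positivity)
    nlinarith [sq_nonneg (u ^ 2 - 3 / 8 * u - 0.1), sq_nonneg (u - 0.56), mul_nonneg ht0 ht0,
      mul_nonneg ht0 (mul_nonneg ht0 (sub_nonneg.2 ht2))]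
  rw [hpm, hcy, hsy]
  simp only [Pi.pow_apply, Nat.cast_ofNat, Nat.reduceSub, pow_one]
  rw [hs]
  generalize tan (y / 2) = u at *
  generalize cos (y / 2) = C at *
  have hC := hc.ne'
  field_simp
  linear_combination -(16 * u + 12 * u ^ 2 * C ^ 2) * hq

theorem Pm_eq {y : ℝ} (h0 : 0 ≤ y) (h1 : y ≤ π / 3) : Pm y = PA y := by
  have hp := pi_pos
  have hd : ∀ t ∈ uIcc 0 y, HasDerivAt PA (pm t) t := by
    intro t ht
    rw [uIcc_of_le h0] at ht
    exact d_PA ht.1 (ht.2.trans h1)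
  have h := intervalIntegral.integral_eq_sub_of_hasDerivAt hd
    (ii_pm (by linarith) hp (by linarith) (by linarith))
  unfold Pm
  rw [h]
  simp [PA]

theorem w_bd : (1.73205 : ℝ) ≤ √3 ∧ √3 ≤ 1.73206 := by
  constructor
  · rw [le_sqrt' (by norm_num)]
    norm_num
  · rw [sqrt_le_left (by norm_num)]
    norm_num

/-- upper bound of `pm` beyond `π/3` -/
theorem pm_le {d : ℝ} (h0 : 0 ≤ d) (h1 : d ≤ π / 6) :
    pm (π / 3 + d) ≤ 0.147 - 0.7 * d + 5 / 6 * d ^ 2 := by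
  have hp := pi_pos
  have hp2 := pi_lt_d2
  have hm : tm (π / 3 + d) = 1 / √3 := by
    refine min_eq_right ?_
    rw [← tan_pi_div_six]
    exact strictMonoOn_tan.monotoneOn ⟨by linarith, by linarith⟩ ⟨by linarith, by linarith⟩
      (by linarith)
  obtain ⟨w1, w2⟩ := w_bd
  have hw : √3 ^ 2 = 3 := sq_sqrt (by norm_num)
  have hw0 : √3 ≠ 0 := by positivity
  unfold pm
  rw [hm, cos_add, sin_add, cos_pi_div_three, sin_pi_div_three]
  refine max_le (by nlinarith [sq_nonneg (d - 0.42)]) ?_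
  have e1 : 1 / √3 * ((1 / √3) ^ 2 + 3 / 4 * (1 / 2 * cos d - √3 / 2 * sin d) * (1 / √3) + 1
      - 3 / 2 * (√3 / 2 * cos d + 1 / 2 * sin d))
      = 4 * √3 / 9 - 5 / 8 * cos d - 3 * √3 / 8 * sin d := by
    have i1 : 1 / √3 = √3 / 3 := by
      field_simp
      exact hw.symm
    rw [i1]
    linear_combination (√3 / 27 + cos d / 24 - √3 * sin d / 24 - cos d / 4) * hw
  rw [e1]
  have c1 : 1 - d ^ 2 / 2 ≤ cos d := one_sub_sq_div_two_le_cos
  have s1 : d - d ^ 3 / 4 ≤ sin d := by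
    rcases h0.eq_or_lt with h | h
    · subst h
      simp
    · have := sin_gt_sub_cube h
      nlinarith [pow_pos h 3]
  have s2 : 3 * √3 / 8 * (d - d ^ 3 / 4) ≤ 3 * √3 / 8 * sin d :=
    mul_le_mul_of_nonneg_left s1 (by positivity)
  have d1 : d ≤ 0.53 := by linarith
  have s3 : (3 * √3 / 8) * d ≥ 0.6495 * d := by
    refine mul_le_mul_of_nonneg_right (by linarith) h0
  have s4 : (3 * √3 / 32) * d ^ 3 ≤ 0.1624 * d ^ 3 := by
    refine mul_le_mul_of_nonneg_right (by linarith) (by positivity)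
  have s5 : d ^ 3 ≤ 0.53 * d ^ 2 := by nlinarith [sq_nonneg d]
  nlinarith [sq_nonneg (d - 0.06)]

theorem PA_third : PA (π / 3) = 1 / 3 - √3 / 8 := by
  have e : π / 3 / 2 = π / 6 := by ring
  have hw : √3 ^ 2 = 3 := sq_sqrt (by norm_num)
  have hw0 : √3 ≠ 0 := by positivity
  unfold PA
  rw [e, tan_pi_div_six, sin_pi_div_six, cos_pi_div_six]
  field_simp
  ring_nf
  rw [show √3 ^ 3 = √3 ^ 2 * √3 by ring, hw]
  ring

theorem Pm_le {d : ℝ} (h0 : 0 ≤ d) (h1 : d ≤ π / 6) :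
    Pm (π / 3 + d) ≤ 1 / 3 - √3 / 8 + (0.147 * d - 0.35 * d ^ 2 + 5 / 18 * d ^ 3) := by
  have hp := pi_pos
  have e1 : Pm (π / 3 + d) = Pm (π / 3) + ∫ v in (π / 3)..(π / 3 + d), pm v := by
    unfold Pm
    exact (intervalIntegral.integral_add_adjacent_intervals
      (ii_pm (by linarith) hp (by linarith) (by linarith))
      (ii_pm (by linarith) (by linarith) (by linarith) (by linarith))).symm
  have e2 : ∫ v in (π / 3)..(π / 3 + d), pm v = ∫ v in (0 : ℝ)..d, pm (π / 3 + v) := by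
    rw [intervalIntegral.integral_comp_add_left (fun v => pm v)]
    simp
  have e3 : ∫ v in (0 : ℝ)..d, pm (π / 3 + v) ≤ ∫ v in (0 : ℝ)..d,
      (0.147 - 0.7 * v + 5 / 6 * v ^ 2) := by
    refine intervalIntegral.integral_mono_on h0 ?_ (Continuous.intervalIntegrable (by fun_prop) _ _)
      fun v hv => pm_le hv.1 (hv.2.trans h1)
    refine ContinuousOn.intervalIntegrable fun v hv => ?_
    rw [uIcc_of_le h0] at hv
    have := cont_pm (y := π / 3 + v) (by linarith [hv.1]) (by linarith [hv.2])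
    exact (ContinuousAt.comp (g := pm) (f := fun v => π / 3 + v) this
      (by fun_prop)).continuousWithinAt
  have e4 : ∫ v in (0 : ℝ)..d, (0.147 - 0.7 * v + 5 / 6 * v ^ 2)
      = 0.147 * d - 0.35 * d ^ 2 + 5 / 18 * d ^ 3 := by
    have hd : ∀ t ∈ uIcc 0 d, HasDerivAt (fun d : ℝ => 0.147 * d - 0.35 * d ^ 2 + 5 / 18 * d ^ 3)
        (0.147 - 0.7 * t + 5 / 6 * t ^ 2) t := by
      intro t _
      have := (((hasDerivAt_id t).const_mul 0.147).sub ((hasDerivAt_pow 2 t).const_mul 0.35)).add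
        ((hasDerivAt_pow 3 t).const_mul (5 / 18))
      refine this.congr_deriv ?_
      norm_num
      ring
    rw [intervalIntegral.integral_eq_sub_of_hasDerivAt hd
      (Continuous.intervalIntegrable (by fun_prop) _ _)]
    norm_num
  rw [e1, e2, Pm_eq (by linarith) le_rfl, PA_third]
  linarith

/-- first branch of `Nb` -/
theorem Nb_le1 {y : ℝ} (h0 : 0 < y) (hy : y ≤ π / 2) (hL : π / 2 - y ≤ arctan (1 / 3)) :
    Nb y ≤ 1 / 36 := by
  have hp := pi_pos
  have hs : 0 < sin y := sin_pos_of_pos_of_lt_pi h0 (by linarith)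
  have hs1 := sin_le_one y
  have hc : 0 ≤ cos y := cos_nonneg_of_mem_Icc ⟨by linarith, hy⟩
  have ht : tan (π / 2 - y) ≤ 1 / 3 := by
    rw [← tan_arctan (1 / 3)]
    exact strictMonoOn_tan.monotoneOn ⟨by linarith, by linarith⟩
      ⟨neg_pi_div_two_lt_arctan _, arctan_lt_pi_div_two _⟩ hL
  rw [tan_pi_div_two_sub, tan_eq_sin_div_cos, inv_div] at ht
  unfold Nb
  rw [if_pos hL]
  have e1 : 3 / 4 * cos y ^ 2 / sin y = 3 / 4 * (cos y / sin y) ^ 2 * sin y := by
    field_simp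
  rw [e1]
  have h1 : 0 ≤ cos y / sin y := by positivity
  generalize cos y / sin y = q at *
  nlinarith [sq_nonneg q, mul_nonneg h1 h1]

/-- second branch of `Nb` -/
theorem Nb_le2 {y : ℝ} (h0 : 0 < y) (hy : y ≤ π / 2) (hL : ¬ π / 2 - y ≤ arctan (1 / 3)) :
    Nb y ≤ 0.16625 * cos y + 0.028 * sin y - 1 / 18 := by
  have hp := pi_pos
  have hL' := not_le.1 hL
  have hs : 0 < sin y := sin_pos_of_pos_of_lt_pi h0 (by linarith)
  have hc : 0 ≤ cos y := cos_nonneg_of_mem_Icc ⟨by linarith, hy⟩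
  have ha : 0 ≤ arctan (1 / 3) := arctan_nonneg.2 (by norm_num)
  have hx : 0 ≤ π / 2 - y - arctan (1 / 3) := by linarith
  have hcos : cos (arctan (1 / 3)) = 3 / √10 := by
    rw [cos_arctan]
    rw [show (1 + (1 / 3) ^ 2 : ℝ) = 10 / 3 ^ 2 by norm_num, sqrt_div (by norm_num),
      sqrt_sq (by norm_num)]
    field_simp
  have hsin : sin (arctan (1 / 3)) = 1 / √10 := by
    rw [sin_arctan]
    rw [show (1 + (1 / 3) ^ 2 : ℝ) = 10 / 3 ^ 2 by norm_num, sqrt_div (by norm_num),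
      sqrt_sq (by norm_num)]
    field_simp
  have h10 : (3.16227 : ℝ) ≤ √10 ∧ √10 ≤ 3.16228 := by
    constructor
    · rw [le_sqrt' (by norm_num)]
      norm_num
    · rw [sqrt_le_left (by norm_num)]
      norm_num
  have h2 : √2 ≤ 1.41422 := by
    rw [sqrt_le_left (by norm_num)]
    norm_num
  have hR : 0.33934 ≤ RR (arctan (1 / 3)) := by
    have := le_RR ha (arctan_lt_pi_div_two _)
    rw [tan_arctan, hcos] at this
    have e : 1 / (3 / √10) = √10 / 3 := by field_simp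
    rw [e] at this
    linarith [h10.1]
  set x := π / 2 - y - arctan (1 / 3) with hxd
  have hsx0 : 0 ≤ sin x := sin_nonneg_of_nonneg_of_le_pi hx (by linarith)
  have hsx1 : sin x ≤ x := sin_le hx
  have hsx : sin x = (3 * cos y - sin y) / √10 := by
    rw [hxd, sin_sub, sin_pi_div_two_sub, cos_pi_div_two_sub, hcos, hsin]
    ring
  unfold Nb
  rw [if_neg hL, ← hxd]
  have e1 : 2 * √2 / 9 * (3 / 2 * sin x - x) ≤ 2 * √2 / 9 * (1 / 2 * sin x) :=
    mul_le_mul_of_nonneg_left (by linarith) (by positivity)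
  have e2 : 2 * √2 / 9 * (1 / 2 * sin x) ≤ 0.15714 * sin x := by
    have : 2 * √2 / 9 * (1 / 2) ≤ 0.15714 := by linarith
    nlinarith
  have e3 : 3 / 2 * 0.33934 * sin x ≤ 3 / 2 * RR (arctan (1 / 3)) * sin x :=
    mul_le_mul_of_nonneg_right (by linarith) hsx0
  have e4 : -0.35187 * sin x ≤ -0.33381 * cos y + 0.11128 * sin y := by
    rw [hsx]
    have h0 : 0 < √10 := by linarith [h10.1]
    rw [mul_div_assoc', div_le_iff₀ h0]
    nlinarith [h10.1, h10.2, mul_nonneg hc (sub_nonneg.2 h10.2), mul_nonneg hs.le (sub_nonneg.2 h10.1)]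
  linarith

theorem third_aux : ¬ π / 6 ≤ arctan (1 / 3) := by
  rw [not_le, ← arctan_inv_sqrt_three]
  refine arctan_strictMono ?_
  rw [one_div]
  refine inv_strictAnti₀ (by positivity) ?_
  linarith [w_bd.2]

theorem num1 {y : ℝ} (h0 : 0 < y) (h1 : y ≤ π / 3) : Pm y + Nb y ≤ 17 / 100 := by
  have hp := pi_pos
  have hb : ¬ π / 2 - y ≤ arctan (1 / 3) := by
    intro h
    exact third_aux (by linarith)
  have hN := Nb_le2 h0 (by linarith) hb
  rw [Pm_eq h0.le h1]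
  have hc : 0 < cos (y / 2) := cos_pos_of_mem_Ioo ⟨by linarith, by linarith⟩
  have ht : tan (y / 2) ≤ 1 / √3 := by
    rw [← tan_pi_div_six]
    exact strictMonoOn_tan.monotoneOn ⟨by linarith, by linarith⟩ ⟨by linarith, by linarith⟩
      (by linarith)
  have ht0 : 0 ≤ tan (y / 2) := tan_nonneg_of_nonneg_of_le_pi_div_two (by linarith) (by linarith)
  have hcy : cos y = 2 * cos (y / 2) ^ 2 - 1 := by
    rw [← cos_two_mul]
    congr 1
    ring
  have hsy : sin y = 2 * sin (y / 2) * cos (y / 2) := by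
    rw [← sin_two_mul]
    congr 1
    ring
  have hs : sin (y / 2) = tan (y / 2) * cos (y / 2) := (tan_mul_cos hc.ne').symm
  have hq : (tan (y / 2) ^ 2 + 1) * cos (y / 2) ^ 2 = 1 := by
    have := sin_sq_add_cos_sq (y / 2)
    rw [hs] at this
    linarith
  have ht2 : tan (y / 2) ≤ 0.5774 := by
    refine ht.trans ?_
    rw [div_le_iff₀ (by positivity)]
    linarith [w_bd.1]
  unfold PA
  rw [hcy, hsy, hs] at hN
  rw [hs]
  generalize tan (y / 2) = u at *
  generalize cos (y / 2) = C at *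
  have e0 : (u * C) ^ 3 / C = u ^ 3 * C ^ 2 := by
    field_simp
  have e1 : 2 * (u * C) * C = 2 * u * C ^ 2 := by ring
  rw [e0]
  rw [e1] at hN
  have e6 : C ^ 2 = 1 / (u ^ 2 + 1) := by
    field_simp
    linarith
  rw [e6] at hN ⊢
  refine (add_le_add_right hN _).trans ?_
  have e2 : u ^ 2 - 3 / 2 * (u ^ 3 * (1 / (u ^ 2 + 1)))
      + (0.16625 * (2 * (1 / (u ^ 2 + 1)) - 1) + 0.028 * (2 * u * (1 / (u ^ 2 + 1))) - 1 / 18)
      = (u ^ 2 * (u ^ 2 + 1) - 3 / 2 * u ^ 3 + 0.16625 * (1 - u ^ 2) + 0.056 * u) / (u ^ 2 + 1)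
        - 1 / 18 := by
    field_simp
    ring
  rw [e2, sub_le_iff_le_add, div_le_iff₀ (by positivity)]
  have k0 : 0 ≤ 0.5774 - u := by linarith
  have k1 : 0 ≤ (0.5774 - u) * (u * (u - 0.4613) ^ 2) := by positivity
  have k2 : 0 ≤ (0.5774 - u) * (0.0995 - 0.1374 * u) := mul_nonneg k0 (by linarith)
  nlinarith

theorem num2 {y : ℝ} (h0 : π / 3 ≤ y) (h1 : y ≤ π / 2) : Pm y + Nb y ≤ 17 / 100 := by
  have hp := pi_pos
  have hp2 := pi_lt_d2
  obtain ⟨w1, w2⟩ := w_bd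
  obtain ⟨d, hd⟩ : ∃ d, y = π / 3 + d := ⟨y - π / 3, by ring⟩
  have d0 : 0 ≤ d := by linarith
  have d1 : d ≤ π / 6 := by linarith
  have d2 : d ≤ 0.53 := by linarith
  have hP := Pm_le d0 d1
  rw [← hd] at hP
  by_cases hb : π / 2 - y ≤ arctan (1 / 3)
  · have hN := Nb_le1 (by linarith) h1 hb
    have e1 : 0.147 * d - 0.35 * d ^ 2 + 5 / 18 * d ^ 3 ≤ 0.0215 := by
      have e2 : (d - 0.42) ^ 3 ≤ 0.11 ^ 3 := by
        have : d - 0.42 ≤ 0.11 := by linarith
        exact Odd.strictMono_pow (by decide : Odd 3) |>.monotone this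
      nlinarith
    linarith
  · have hN := Nb_le2 (by linarith) h1 hb
    rw [hd, cos_add, sin_add, cos_pi_div_three, sin_pi_div_three, ← hd] at hN
    have c1 : cos d ≤ 1 := cos_le_one d
    have s1 : d - d ^ 3 / 6 ≤ sin d := by
      rcases d0.eq_or_lt with h | h
      · rw [← h]
        simp
      · exact (sin_gt_sub_cube h).le
    have s2 : sin d ≤ d := sin_le d0
    have s3 : √3 / 2 * (d - d ^ 3 / 6) ≤ √3 / 2 * sin d :=
      mul_le_mul_of_nonneg_left s1 (by positivity)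
    have s4 : √3 / 2 * cos d ≤ √3 / 2 * 1 := mul_le_mul_of_nonneg_left c1 (by positivity)
    have s5 : 0.866 * d ≤ √3 / 2 * d := mul_le_mul_of_nonneg_right (by linarith) d0
    have s6 : √3 / 12 * d ^ 3 ≤ 0.1444 * d ^ 3 := mul_le_mul_of_nonneg_right (by linarith)
      (by positivity)
    have s7 : d ^ 3 ≤ 0.53 * d ^ 2 := by nlinarith [sq_nonneg d]
    nlinarith [sq_nonneg (d - 0.045)]

/-- the numerical inequality -/
theorem num {y : ℝ} (hy1 : arcsin (2 / 3) ≤ y) (hy2 : y ≤ π / 2) : Pm y + Nb y ≤ 17 / 100 := by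
  have h0 : 0 < arcsin (2 / 3) := arcsin_pos.2 (by norm_num)
  rcases le_total y (π / 3) with h | h
  · exact num1 (by linarith) h
  · exact num2 h hy2

end Pool.Agent.FPX.UMP
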