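import Mathlib
import Pool.Agent.FPX.UMP3

/-
UCAU (helper16): the causal identity.  If `tan² g + ∫_t^{t+π} T(g) ≤ 3c` for all `t` then the
inequality of `NStar c` holds for `g`.
-/

set_option autoImplicit false

open MeasureTheory Set Filter Topology

noncomputable section

namespace Pool.Agent.FPX.UMP

open Real

/-- the integral over one period of an antiperiodic function -/
theorem int_anti {f : ℝ → ℝ} (hf : Continuous f) (h : ∀ t, f (t + π) = -f t) :
    ∫ t in (0 : ℝ)..(2 * π), f t = 0 := by
  have h1 : ∫ t in (0 : ℝ)..(2 * π), f t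
      = (∫ t in (0 : ℝ)..π, f t) + ∫ t in π..(2 * π), f t :=
    (intervalIntegral.integral_add_adjacent_intervals (hf.intervalIntegrable _ _)
      (hf.intervalIntegrable _ _)).symm
  have h2 : ∫ t in π..(2 * π), f t = ∫ t in (0 : ℝ)..π, f (t + π) := by
    rw [intervalIntegral.integral_comp_add_right]
    congr 1 <;> ring
  rw [h1, h2]
  simp only [h]
  rw [intervalIntegral.integral_neg]
  ring

theorem int7 {f1 f2 f3 f4 f5 f6 f7 : ℝ → ℝ} (h1 : Continuous f1) (h2 : Continuous f2)
    (h3 : Continuous f3) (h4 : Continuous f4) (h5 : Continuous f5) (h6 : Continuous f6)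
    (h7 : Continuous f7) (a b : ℝ) :
    ∫ t in a..b, (f1 t - f2 t + f3 t + f4 t - f5 t + f6 t - f7 t)
      = (∫ t in a..b, f1 t) - (∫ t in a..b, f2 t) + (∫ t in a..b, f3 t) + (∫ t in a..b, f4 t)
        - (∫ t in a..b, f5 t) + (∫ t in a..b, f6 t) - (∫ t in a..b, f7 t) := by
  rw [intervalIntegral.integral_sub, intervalIntegral.integral_add, intervalIntegral.integral_sub,
    intervalIntegral.integral_add, intervalIntegral.integral_add, intervalIntegral.integral_sub]
  all_goals exact Continuous.intervalIntegrable (by fun_prop) _ _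

variable {g : ℝ → ℝ}

/-- derivative of a `C¹` function -/
theorem hd_of (hc : ContDiff ℝ 1 g) (t : ℝ) : HasDerivAt g (deriv g t) t :=
  (hc.differentiable (by norm_num) t).hasDerivAt

theorem cont_deriv_of (hc : ContDiff ℝ 1 g) : Continuous (deriv g) := hc.continuous_deriv (by norm_num)

theorem deriv_le_of (hl : LipschitzWith 1 g) (t : ℝ) : |deriv g t| ≤ 1 := by
  have := norm_deriv_le_of_lipschitz (x₀ := t) hl
  simpa using this

theorem deriv_anti (hg : Ef g) (t : ℝ) : deriv g (t + π) = -deriv g t := by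
  have h1 : (fun s => g (s + π)) = fun s => -g s := funext hg.odd
  have h2 : deriv (fun s => g (s + π)) t = deriv g (t + π) := deriv_comp_add_const ..
  rw [← h2, h1]
  exact deriv.neg

theorem cont_T (hg : Ef g) : Continuous fun t => tan (g t) / cos (g t) ^ 2 :=
  hg.cont_tan.div ((continuous_cos.comp hg.cont).pow 2) fun t => pow_ne_zero 2 (hg.cos_pos t).ne'

/-- the primitive `I(t) = ∫_t^{t+π} T(g)` -/
def II (g : ℝ → ℝ) (t : ℝ) : ℝ := ∫ s in t..(t + π), tan (g s) / cos (g s) ^ 2

theorem T_anti (hg : Ef g) (t : ℝ) :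
    tan (g (t + π)) / cos (g (t + π)) ^ 2 = -(tan (g t) / cos (g t) ^ 2) := by
  rw [hg.odd, tan_neg, cos_neg, neg_div]

theorem hasDerivAt_II (hg : Ef g) (t : ℝ) :
    HasDerivAt (II g) (-2 * (tan (g t) / cos (g t) ^ 2)) t := by
  have hT := cont_T hg
  have h1 : ∀ u, HasDerivAt (fun u => ∫ s in (0 : ℝ)..u, tan (g s) / cos (g s) ^ 2)
      (tan (g u) / cos (g u) ^ 2) u := fun u =>
    intervalIntegral.integral_hasDerivAt_right (hT.intervalIntegrable _ _)
      (hT.stronglyMeasurableAtFilter _ _) hT.continuousAt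
  have h2 : II g = fun t => (∫ s in (0 : ℝ)..(t + π), tan (g s) / cos (g s) ^ 2)
      - ∫ s in (0 : ℝ)..t, tan (g s) / cos (g s) ^ 2 := by
    funext t
    unfold II
    rw [intervalIntegral.integral_interval_sub_left (hT.intervalIntegrable _ _)
      (hT.intervalIntegrable _ _)]
  rw [h2]
  have h3 := ((h1 (t + π)).comp_add_const t π).sub (h1 t)
  refine h3.congr_deriv ?_
  rw [T_anti hg]
  ring

theorem II_anti (hg : Ef g) (t : ℝ) : II g (t + π) = -II g t := by
  unfold II
  rw [← intervalIntegral.integral_neg]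
  have h2 : ∫ s in (t + π)..(t + π + π), tan (g s) / cos (g s) ^ 2
      = ∫ s in t..(t + π), tan (g (s + π)) / cos (g (s + π)) ^ 2 := by
    rw [intervalIntegral.integral_comp_add_right (fun s => tan (g s) / cos (g s) ^ 2)]
  rw [h2]
  simp only [T_anti hg]

theorem cont_II (hg : Ef g) : Continuous (II g) :=
  continuous_iff_continuousAt.2 fun t => (hasDerivAt_II hg t).continuousAt

/-- `⟨b, u⟩` -/
def be (a b t : ℝ) : ℝ := a * cos t + b * sin t

/-- `⟨b, u^⊥⟩` -/
def be' (a b t : ℝ) : ℝ := b * cos t - a * sin t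

/-- sum of the two null densities -/
def ws (g : ℝ → ℝ) (a b t : ℝ) : ℝ :=
  (1 + sin (g t) * be a b t + deriv g t * (cos (g t) * be' a b t)) / cos (g t) ^ 2

/-- difference of the two null densities -/
def wd (g : ℝ → ℝ) (a b t : ℝ) : ℝ :=
  (deriv g t * (1 + sin (g t) * be a b t) + cos (g t) * be' a b t) / cos (g t) ^ 2

/-- primitive of `wd` -/
def ze (g : ℝ → ℝ) (a b t : ℝ) : ℝ := tan (g t) + 1 / cos (g t) * be a b t

/-- the function of `g` for the integration by parts -/
def Ps (g : ℝ → ℝ) (d t : ℝ) : ℝ := -(tan (g t) / cos (g t) ^ 3) + (2 * d + 1) * RR (g t)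
    - (d - tan (g t) ^ 2) * (tan (g t) * (1 / cos (g t)))

theorem cont_be (a b : ℝ) : Continuous (be a b) := by unfold be; fun_prop

theorem cont_be' (a b : ℝ) : Continuous (be' a b) := by unfold be'; fun_prop

theorem d_be (a b t : ℝ) : HasDerivAt (be a b) (be' a b t) t := by
  refine (((hasDerivAt_cos t).const_mul a).add ((hasDerivAt_sin t).const_mul b)).congr_deriv ?_
  simp only [be']
  ring

theorem d_be' (a b t : ℝ) : HasDerivAt (be' a b) (-be a b t) t := by
  refine (((hasDerivAt_cos t).const_mul b).sub ((hasDerivAt_sin t).const_mul a)).congr_deriv ?_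
  simp only [be]
  ring

theorem be_anti (a b t : ℝ) : be a b (t + π) = -be a b t := by
  simp only [be, cos_add_pi, sin_add_pi]
  ring

theorem be'_anti (a b t : ℝ) : be' a b (t + π) = -be' a b t := by
  simp only [be', cos_add_pi, sin_add_pi]
  ring

theorem cont_ws (hg : Ef g) (hc : ContDiff ℝ 1 g) (a b : ℝ) : Continuous (ws g a b) := by
  have cc : Continuous fun t => cos (g t) := continuous_cos.comp hg.cont
  have cs : Continuous fun t => sin (g t) := continuous_sin.comp hg.cont
  refine Continuous.div ?_ (cc.pow 2) fun t => pow_ne_zero 2 (hg.cos_pos t).ne'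
  exact (continuous_const.add (cs.mul (cont_be a b))).add
    ((cont_deriv_of hc).mul (cc.mul (cont_be' a b)))

theorem cont_wd (hg : Ef g) (hc : ContDiff ℝ 1 g) (a b : ℝ) : Continuous (wd g a b) := by
  have cc : Continuous fun t => cos (g t) := continuous_cos.comp hg.cont
  have cs : Continuous fun t => sin (g t) := continuous_sin.comp hg.cont
  refine Continuous.div ?_ (cc.pow 2) fun t => pow_ne_zero 2 (hg.cos_pos t).ne'
  exact ((cont_deriv_of hc).mul (continuous_const.add (cs.mul (cont_be a b)))).add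
    (cc.mul (cont_be' a b))

theorem ws_anti (hg : Ef g) (a b t : ℝ) : ws g a b (t + π) = ws g a b t := by
  simp only [ws, hg.odd, sin_neg, cos_neg, be_anti, be'_anti, deriv_anti hg]
  ring

theorem wd_anti (hg : Ef g) (a b t : ℝ) : wd g a b (t + π) = -wd g a b t := by
  simp only [wd, hg.odd, sin_neg, cos_neg, be_anti, be'_anti, deriv_anti hg]
  ring

theorem d_sec (hg : Ef g) (hc : ContDiff ℝ 1 g) (t : ℝ) :
    HasDerivAt (fun t => 1 / cos (g t)) (deriv g t * sin (g t) / cos (g t) ^ 2) t := by
  have e1 := (hasDerivAt_const t (1 : ℝ)).div ((hasDerivAt_cos (g t)).comp t (hd_of hc t))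
    (hg.cos_pos t).ne'
  refine e1.congr_deriv ?_
  simp only [Function.comp]
  ring

theorem d_tan (hg : Ef g) (hc : ContDiff ℝ 1 g) (t : ℝ) :
    HasDerivAt (fun t => tan (g t)) (deriv g t / cos (g t) ^ 2) t := by
  refine ((Real.hasDerivAt_tan (hg.cos_pos t).ne').comp t (hd_of hc t)).congr_deriv ?_
  ring

theorem d_ze (hg : Ef g) (hc : ContDiff ℝ 1 g) (a b t : ℝ) :
    HasDerivAt (ze g a b) (wd g a b t) t := by
  refine ((d_tan hg hc t).add ((d_sec hg hc t).mul (d_be a b t))).congr_deriv ?_
  simp only [wd]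
  have := (hg.cos_pos t).ne'
  field_simp
  ring

theorem d_Ps (hg : Ef g) (hc : ContDiff ℝ 1 g) (d t : ℝ) :
    HasDerivAt (Ps g d) ((d - tan (g t) ^ 2) * (1 / cos (g t)) * deriv g t) t := by
  have e1 : HasDerivAt (fun t => tan (g t) / cos (g t) ^ 3)
      ((deriv g t / cos (g t) ^ 2 * cos (g t) ^ 3
        - tan (g t) * (3 * cos (g t) ^ 2 * (-sin (g t) * deriv g t))) / (cos (g t) ^ 3) ^ 2) t := by
    have e2 : HasDerivAt (fun t => cos (g t) ^ 3) (3 * cos (g t) ^ 2 * (-sin (g t) * deriv g t)) t := by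
      refine (((hasDerivAt_cos (g t)).comp t (hd_of hc t)).pow 3).congr_deriv ?_
      simp only [Function.comp]
      norm_num
    exact (d_tan hg hc t).div e2 (pow_ne_zero 3 (hg.cos_pos t).ne')
  have dR : HasDerivAt (fun t => RR (g t)) (1 / cos (g t) ^ 3 * deriv g t) t :=
    (hasDerivAt_RR (hg.cos_pos t)).comp t (hd_of hc t)
  have e3 := ((e1.neg).add (dR.const_mul (2 * d + 1))).sub
    ((((d_tan hg hc t).pow 2).const_sub d).mul ((d_tan hg hc t).mul (d_sec hg hc t)))
  refine e3.congr_deriv ?_
  have hn := (hg.cos_pos t).ne'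
  have hs : sin (g t) = tan (g t) * cos (g t) := (tan_mul_cos hn).symm
  have hq : tan (g t) ^ 2 * cos (g t) ^ 2 + cos (g t) ^ 2 = 1 := by
    have := sin_sq_add_cos_sq (g t)
    rw [hs] at this
    linarith
  have hu : (1 / cos (g t)) ^ 2 = 1 + tan (g t) ^ 2 := by
    field_simp
    linarith
  rw [hs]
  simp only [Pi.mul_apply, Pi.pow_apply, Nat.cast_ofNat, Nat.reduceSub, pow_one]
  generalize tan (g t) = T at *
  generalize cos (g t) = C at *
  generalize deriv g t = G at *
  have hC : C = (1 / C)⁻¹ := by simp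
  generalize 1 / C = u at *
  have hu0 : u ≠ 0 := by
    rintro rfl
    simp at hC
    exact hn hC
  subst hC
  have e1 : -((G / u⁻¹ ^ 2 * u⁻¹ ^ 3 - T * (3 * u⁻¹ ^ 2 * (-(T * u⁻¹) * G))) / (u⁻¹ ^ 3) ^ 2)
      = -(G * u ^ 5) - 3 * T ^ 2 * G * u ^ 3 := by
    field_simp
    ring
  have e2 : G / u⁻¹ ^ 2 = G * u ^ 2 := by field_simp
  have e3 : G * (T * u⁻¹) / u⁻¹ ^ 2 = G * T * u := by field_simp
  have e4 : 1 / u⁻¹ ^ 3 = u ^ 3 := by field_simp
  rw [e1, e2, e3, e4]
  linear_combination G * u * (-u ^ 2 + d - T ^ 2) * hu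

/-- integration by parts -/
theorem parts_d (hg : Ef g) (hc : ContDiff ℝ 1 g) (h1 : V1 g = 0) (h2 : V2 g = 0) (a b d : ℝ) :
    ∫ t in (0 : ℝ)..(2 * π), (d - tan (g t) ^ 2) * ws g a b t
      = (∫ t in (0 : ℝ)..(2 * π), (d - tan (g t) ^ 2) / cos (g t) ^ 2)
        - ∫ t in (0 : ℝ)..(2 * π), tan (g t) / cos (g t) ^ 3 * be a b t := by
  have hdc := cont_deriv_of hc
  have hne : ∀ t, cos (g t) ≠ 0 := fun t => (hg.cos_pos t).ne'
  have cc : Continuous fun t => cos (g t) := continuous_cos.comp hg.cont
  have ct := hg.cont_tan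
  have cR := hg.cont_RR
  have cs1 : Continuous fun t => 1 / cos (g t) := hg.cont_sec
  have cPs : Continuous (Ps g d) := continuous_iff_continuousAt.2 fun t => (d_Ps hg hc d t).continuousAt
  have F1 : ∀ t, HasDerivAt (fun t => Ps g d t * be' a b t)
      ((d - tan (g t) ^ 2) * (1 / cos (g t)) * deriv g t * be' a b t
        + Ps g d t * (-be a b t)) t := fun t =>
    (d_Ps hg hc d t).mul (d_be' a b t)
  have k4 : Continuous fun t => ((d - tan (g t) ^ 2) * (1 / cos (g t)) * deriv g t * be' a b t
        + Ps g d t * (-be a b t)) :=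
      (((((continuous_const.sub (ct.pow 2)).mul cs1).mul hdc).mul (cont_be' a b)).add
        (cPs.mul (cont_be a b).neg))
  have i1 : ∫ t in (0 : ℝ)..(2 * π),
      ((d - tan (g t) ^ 2) * (1 / cos (g t)) * deriv g t * be' a b t
        + Ps g d t * (-be a b t)) = 0 := by
    rw [intervalIntegral.integral_eq_sub_of_hasDerivAt (fun t _ => F1 t) (k4.intervalIntegrable _ _)]
    have p1 : g (2 * π) = g 0 := by
      have := hg.per 0
      rwa [zero_add] at this
    have p2 : Ps g d (2 * π) = Ps g d 0 := by simp only [Ps, p1]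
    have p3 : be' a b (2 * π) = be' a b 0 := by
      simp only [be', cos_two_pi, sin_two_pi, cos_zero, sin_zero]
    simp only [p2, p3, sub_self]
  have i5 : ∫ t in (0 : ℝ)..(2 * π), RR (g t) * be a b t = 0 := by
    have e1 : ∫ t in (0 : ℝ)..(2 * π), RR (g t) * be a b t = a * V1 g + b * V2 g := by
      unfold V1 V2
      rw [← intervalIntegral.integral_const_mul, ← intervalIntegral.integral_const_mul,
        ← intervalIntegral.integral_add]
      · refine intervalIntegral.integral_congr fun t _ => ?_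
        simp only [be]
        ring
      · exact (continuous_const.mul (continuous_cos.mul cR)).intervalIntegrable _ _
      · exact (continuous_const.mul (continuous_sin.mul cR)).intervalIntegrable _ _
    rw [e1, h1, h2]
    ring
  have k1 : Continuous fun t => (d - tan (g t) ^ 2) / cos (g t) ^ 2 :=
    (continuous_const.sub (ct.pow 2)).div (cc.pow 2) fun t => pow_ne_zero 2 (hne t)
  have k2 : Continuous fun t => tan (g t) / cos (g t) ^ 3 * be a b t :=
    (ct.div (cc.pow 3) fun t => pow_ne_zero 3 (hne t)).mul (cont_be a b)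
  have k3 : Continuous fun t => (2 * d + 1) * (RR (g t) * be a b t) :=
    continuous_const.mul (cR.mul (cont_be a b))
  have key : ∀ t, (d - tan (g t) ^ 2) * ws g a b t
      = (d - tan (g t) ^ 2) / cos (g t) ^ 2 - tan (g t) / cos (g t) ^ 3 * be a b t
        + (2 * d + 1) * (RR (g t) * be a b t)
        + ((d - tan (g t) ^ 2) * (1 / cos (g t)) * deriv g t * be' a b t
          + Ps g d t * (-be a b t)) - 0 + 0 - 0 := by
    intro t
    have hs : sin (g t) = tan (g t) * cos (g t) := (tan_mul_cos (hne t)).symm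
    simp only [Ps, ws]
    rw [hs]
    have := hne t
    field_simp
    ring
  simp only [key]
  rw [int7 k1 k2 k3 k4 continuous_const continuous_const continuous_const, i1,
    intervalIntegral.integral_const_mul, i5]
  simp

/-- the causal identity, as an inequality -/
theorem cau {c a b : ℝ} (hg : Ef g) (hc : ContDiff ℝ 1 g) (h1 : V1 g = 0) (h2 : V2 g = 0)
    (hA : ∀ t, tan (g t) ^ 2 + II g t ≤ 3 * c) (hab : a ^ 2 + b ^ 2 ≤ 1) :
    0 ≤ ∫ t in (0 : ℝ)..(2 * π), (c - tan (g t) ^ 2) * ws g a b t := by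
  have hdc := cont_deriv_of hc
  have hne : ∀ t, cos (g t) ≠ 0 := fun t => (hg.cos_pos t).ne'
  have cc : Continuous fun t => cos (g t) := continuous_cos.comp hg.cont
  have ct := hg.cont_tan
  have cR := hg.cont_RR
  have cs1 : Continuous fun t => 1 / cos (g t) := hg.cont_sec
  have cI := cont_II hg
  have cT := cont_T hg
  have cws := cont_ws hg hc a b
  have cwd := cont_wd hg hc a b
  have atan : ∀ t, tan (g (t + π)) = -tan (g t) := fun t => by rw [hg.odd, tan_neg]
  have cze : Continuous (ze g a b) :=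
    continuous_iff_continuousAt.2 fun t => (d_ze hg hc a b t).continuousAt
  have F2 : ∀ t, HasDerivAt (fun t => II g t * ze g a b t)
      (-2 * (tan (g t) / cos (g t) ^ 2) * ze g a b t + II g t * wd g a b t) t := fun t =>
    (hasDerivAt_II hg t).mul (d_ze hg hc a b t)
  have k5 : Continuous fun t => (-2 * (tan (g t) / cos (g t) ^ 2) * ze g a b t
      + II g t * wd g a b t) :=
    ((continuous_const.mul cT).mul cze).add (cI.mul cwd)
  have i2 : ∫ t in (0 : ℝ)..(2 * π),
      (-2 * (tan (g t) / cos (g t) ^ 2) * ze g a b t + II g t * wd g a b t) = 0 := by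
    rw [intervalIntegral.integral_eq_sub_of_hasDerivAt (fun t _ => F2 t) (k5.intervalIntegrable _ _)]
    have p1 : g (2 * π) = g 0 := by
      have := hg.per 0
      rwa [zero_add] at this
    have p2 : II g (2 * π) = II g 0 := by
      have e1 := II_anti hg (0 + π)
      rw [II_anti hg 0, neg_neg] at e1
      rw [← e1]
      congr 1
      ring
    have p3 : ze g a b (2 * π) = ze g a b 0 := by
      simp only [ze, be, p1, cos_two_pi, sin_two_pi, cos_zero, sin_zero]
    simp only [p2, p3, sub_self]
  have i3 : ∫ t in (0 : ℝ)..(2 * π), (3 * c - tan (g t) ^ 2) * wd g a b t = 0 := by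
    refine int_anti ((continuous_const.sub (ct.pow 2)).mul cwd) fun t => ?_
    simp only [atan, wd_anti hg]
    ring
  have i4 : ∫ t in (0 : ℝ)..(2 * π), II g t * ws g a b t = 0 := by
    refine int_anti (cI.mul cws) fun t => ?_
    simp only [II_anti hg, ws_anti hg]
    ring
  have k1 : Continuous fun t => tan (g t) ^ 2 / cos (g t) ^ 2 :=
    (ct.pow 2).div (cc.pow 2) fun t => pow_ne_zero 2 (hne t)
  have k2 : Continuous fun t => tan (g t) / cos (g t) ^ 3 * be a b t :=
    (ct.div (cc.pow 3) fun t => pow_ne_zero 3 (hne t)).mul (cont_be a b)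
  -- the pointwise identity
  have key : ∀ t, (3 * c - tan (g t) ^ 2 - II g t) * (ws g a b t + wd g a b t)
      = (-2) * (tan (g t) ^ 2 / cos (g t) ^ 2) - 2 * (tan (g t) / cos (g t) ^ 3 * be a b t)
        + (3 * c - tan (g t) ^ 2) * ws g a b t + (3 * c - tan (g t) ^ 2) * wd g a b t
        - (-2 * (tan (g t) / cos (g t) ^ 2) * ze g a b t + II g t * wd g a b t)
        + 0 - II g t * ws g a b t := by
    intro t
    simp only [ze]
    have := hne t
    field_simp
    ring
  have hpos : 0 ≤ ∫ t in (0 : ℝ)..(2 * π),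
      (3 * c - tan (g t) ^ 2 - II g t) * (ws g a b t + wd g a b t) := by
    refine intervalIntegral.integral_nonneg (by positivity) fun t _ => ?_
    refine mul_nonneg (by linarith [hA t]) ?_
    have e1 : ws g a b t + wd g a b t
        = (1 + deriv g t) * (1 + (sin (g t) * be a b t + cos (g t) * be' a b t))
        / cos (g t) ^ 2 := by
      simp only [ws, wd]
      ring
    rw [e1]
    have e2 := abs_le.1 (deriv_le_of hg.lip t)
    refine div_nonneg (mul_nonneg (by linarith) ?_) (by positivity)
    have e3 : (sin (g t) * be a b t + cos (g t) * be' a b t) ^ 2 ≤ 1 := by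
      have e4 : be a b t ^ 2 + be' a b t ^ 2 = a ^ 2 + b ^ 2 := by
        simp only [be, be']
        have := sin_sq_add_cos_sq t
        linear_combination (a ^ 2 + b ^ 2) * this
      have e5 := sin_sq_add_cos_sq (g t)
      nlinarith [sq_nonneg (sin (g t) * be' a b t - cos (g t) * be a b t)]
    have := abs_le_of_sq_le_sq' (a := sin (g t) * be a b t + cos (g t) * be' a b t) (b := 1)
      (by linarith) (by norm_num)
    linarith [this.1]
  have hsum : ∫ t in (0 : ℝ)..(2 * π),
      (3 * c - tan (g t) ^ 2 - II g t) * (ws g a b t + wd g a b t)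
      = 3 * ∫ t in (0 : ℝ)..(2 * π), (c - tan (g t) ^ 2) * ws g a b t := by
    simp only [key]
    have m1 : Continuous fun t => (-2) * (tan (g t) ^ 2 / cos (g t) ^ 2) := continuous_const.mul k1
    have m2 : Continuous fun t => 2 * (tan (g t) / cos (g t) ^ 3 * be a b t) :=
      continuous_const.mul k2
    have m3 : Continuous fun t => (3 * c - tan (g t) ^ 2) * ws g a b t :=
      (continuous_const.sub (ct.pow 2)).mul cws
    have m4 : Continuous fun t => (3 * c - tan (g t) ^ 2) * wd g a b t :=
      (continuous_const.sub (ct.pow 2)).mul cwd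
    have m7 : Continuous fun t => II g t * ws g a b t := cI.mul cws
    rw [int7 m1 m2 m3 m4 k5 continuous_const m7, i2, i3, i4,
      intervalIntegral.integral_const_mul, intervalIntegral.integral_const_mul,
      parts_d hg hc h1 h2, parts_d hg hc h1 h2]
    have e1 : ∫ t in (0 : ℝ)..(2 * π), (3 * c - tan (g t) ^ 2) / cos (g t) ^ 2
        = 3 * (∫ t in (0 : ℝ)..(2 * π), (c - tan (g t) ^ 2) / cos (g t) ^ 2)
          + 2 * ∫ t in (0 : ℝ)..(2 * π), tan (g t) ^ 2 / cos (g t) ^ 2 := by
      rw [← intervalIntegral.integral_const_mul, ← intervalIntegral.integral_const_mul,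
        ← intervalIntegral.integral_add]
      · refine intervalIntegral.integral_congr fun t _ => ?_
        ring
      · refine (continuous_const.mul ?_).intervalIntegrable _ _
        exact (continuous_const.sub (ct.pow 2)).div (cc.pow 2) fun t => pow_ne_zero 2 (hne t)
      · exact (continuous_const.mul k1).intervalIntegrable _ _
    rw [e1]
    simp only [intervalIntegral.integral_zero]
    ring
  rw [hsum] at hpos
  linarith

/-- reduction of `NStar c` to the bound for `tan² g + ∫_t^{t+π} T(g)` -/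
theorem nstar_of {c : ℝ} (hP : ∀ g : ℝ → ℝ, Ef g → ContDiff ℝ 1 g → V1 g = 0 → V2 g = 0 →
    ∀ t, tan (g t) ^ 2 + II g t ≤ 3 * c) : NStar c := by
  intro g g' hg hd hc' h1 h2 a b hab
  have hc : ContDiff ℝ 1 g := by
    rw [contDiff_one_iff_deriv]
    refine ⟨fun t => (hd t).differentiableAt, ?_⟩
    have : deriv g = g' := funext fun t => (hd t).deriv
    rw [this]
    exact hc'
  have h := cau (c := c) (a := -a) (b := -b) hg hc h1 h2 (hP g hg hc h1 h2) (by nlinarith)
  refine h.trans (le_of_eq (intervalIntegral.integral_congr fun t _ => ?_))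
  have : deriv g t = g' t := (hd t).deriv
  simp only [ws, be, be', this]
  ring

end Pool.Agent.FPX.UMP
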