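import Mathlib

set_option autoImplicit false

/-!
# FPU.UDefs

Definitions for the one variable inequality of the filling area project.
-/

namespace Pool.Agent.FPU

open Real MeasureTheory

/-- `R(s) = ∫_0^s sec^3`. -/
noncomputable def Rf (s : ℝ) : ℝ := ∫ x in (0:ℝ)..s, 1 / Real.cos x ^ 3

/-- `T(s) = tan s sec^2 s`. -/
noncomputable def Tf (s : ℝ) : ℝ := Real.sin s / Real.cos s ^ 3

/-- Odd 1-Lipschitz functions in normal position. -/
structure NF (g : ℝ → ℝ) : Prop where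
  lip : ∀ x y, |g x - g y| ≤ |x - y|
  odd : ∀ t, g (t + π) = - g t
  bnd : ∀ t, |g t| < π / 2
  c : ∫ t in (0:ℝ)..π, Rf (g t) * Real.cos t = 0
  s : ∫ t in (0:ℝ)..π, Rf (g t) * Real.sin t = 0

end Pool.Agent.FPU
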