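import Mathlib
import Pool.Agent.FPU.UDefs
import Pool.Agent.FPU.CalG

set_option autoImplicit false

/-!
# FPU.UPA (helper55)

`P(τ) = tan² g(τ) + |∫_τ^{τ+π} T(g)|` is largest at the zeros of `g`, for antiperiodic 1-Lipschitz
functions `g` with values in `(-π/2, π/2)`.
-/

namespace Pool.Agent.FPU

open Real MeasureTheory Set Filter Topology

theorem hasDerivAt_tan_sq {y : ℝ} (hy : |y| < π / 2) :
    HasDerivAt (fun y => Real.tan y ^ 2) (2 * Tf y) y := by
  have hc : Real.cos y ≠ 0 := by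
    have := abs_lt.mp hy
    exact (Real.cos_pos_of_mem_Ioo ⟨by linarith [this.1], this.2⟩).ne'
  have h := (Real.hasDerivAt_tan hc).pow 2
  convert! h using 1
  rw [Tf, Real.tan_eq_sin_div_cos]
  norm_num
  field_simp

theorem continuous_of_lip {g : ℝ → ℝ} (hg : ∀ x y, |g x - g y| ≤ |x - y|) : Continuous g := by
  have : LipschitzWith 1 g := LipschitzWith.of_dist_le_mul (fun x y => by
    simpa [Real.dist_eq] using hg x y)
  exact this.continuous

theorem cos_pos_of_abs {y : ℝ} (hy : |y| < π / 2) : 0 < Real.cos y := by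
  have := abs_lt.mp hy
  exact Real.cos_pos_of_mem_Ioo ⟨by linarith [this.1], this.2⟩

theorem continuous_Tf_comp {g : ℝ → ℝ} (hg : Continuous g) (hb : ∀ t, |g t| < π / 2) :
    Continuous (fun t => Tf (g t)) := by
  unfold Tf
  refine (Real.continuous_sin.comp hg).div ((Real.continuous_cos.comp hg).pow 3) ?_
  intro t
  exact pow_ne_zero 3 (cos_pos_of_abs (hb t)).ne'

theorem continuous_tan_sq_comp {g : ℝ → ℝ} (hg : Continuous g) (hb : ∀ t, |g t| < π / 2) :
    Continuous (fun t => Real.tan (g t) ^ 2) := by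
  have : (fun t => Real.tan (g t) ^ 2) = fun t => (Real.sin (g t) / Real.cos (g t)) ^ 2 := by
    funext t; rw [Real.tan_eq_sin_div_cos]
  rw [this]
  refine ((Real.continuous_sin.comp hg).div (Real.continuous_cos.comp hg) ?_).pow 2
  intro t
  exact (cos_pos_of_abs (hb t)).ne'

/-- on an interval where `g ≥ 0`: `tan² g` varies by at most `2 ∫ T(g)` -/
theorem tan_sq_step {g : ℝ → ℝ} (hg : ∀ x y, |g x - g y| ≤ |x - y|) (hb : ∀ t, |g t| < π / 2)
    {a b : ℝ} (hab : a ≤ b) (hpos : ∀ t ∈ Icc a b, 0 ≤ g t) (σ : ℝ) (hσ : σ = 1 ∨ σ = -1) :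
    σ * (Real.tan (g b) ^ 2 - Real.tan (g a) ^ 2) ≤ 2 * ∫ t in a..b, Tf (g t) := by
  have hgc := continuous_of_lip hg
  have hT0 : ∀ x ∈ Ico a b, 0 ≤ Tf (g x) := by
    intro x hx
    have h1 := hpos x (Ico_subset_Icc_self hx)
    have h2 := (abs_lt.mp (hb x)).2
    exact div_nonneg (Real.sin_nonneg_of_nonneg_of_le_pi h1 (by linarith [Real.pi_pos]))
      (pow_pos (cos_pos_of_abs (hb x)) 3).le
  have key := cal_graph hg hab (V := fun p => - (σ * Real.tan p.2 ^ 2))
    (D := fun x => (-(σ * (2 * Tf (g x)))) • ContinuousLinearMap.snd ℝ ℝ ℝ)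
    (L := fun x => -(2 * Tf (g x))) ?_ ?_ ?_ ?_ ?_
  · rw [intervalIntegral.integral_neg, intervalIntegral.integral_const_mul] at key
    nlinarith [key]
  · exact ((continuous_tan_sq_comp hgc hb).const_mul σ |>.neg).continuousOn
  · exact ((continuous_Tf_comp hgc hb).const_mul 2).neg
  · intro x _
    have hs : HasFDerivAt (fun p : ℝ × ℝ => p.2) (ContinuousLinearMap.snd ℝ ℝ ℝ) (x, g x) :=
      hasFDerivAt_snd
    have h := HasDerivAt.comp_hasFDerivAt (h₂ := fun y => -(σ * Real.tan y ^ 2))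
      (x, g x) (((hasDerivAt_tan_sq (hb x)).const_mul σ).neg) hs
    exact h
  · intro x hx
    have := hT0 x hx
    rcases hσ with rfl | rfl <;> simp <;> linarith
  · intro x hx
    have := hT0 x hx
    rcases hσ with rfl | rfl <;> simp <;> linarith

/-- The function `I(t) = ∫_t^{t+π} T(g)`: increments. -/
theorem int_shift {g : ℝ → ℝ} (hgc : Continuous g) (ho : ∀ t, g (t + π) = - g t)
    (hb : ∀ t, |g t| < π / 2) (a b : ℝ) :
    (∫ t in b..(b + π), Tf (g t)) - (∫ t in a..(a + π), Tf (g t)) = -2 * ∫ t in a..b, Tf (g t) := by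
  have hc := continuous_Tf_comp hgc hb
  have hi : ∀ u v, IntervalIntegrable (fun t => Tf (g t)) volume u v :=
    fun u v => hc.intervalIntegrable u v
  have h1 : ∫ t in (a + π)..(b + π), Tf (g t) = - ∫ t in a..b, Tf (g t) := by
    have h2 : ∫ t in (a + π)..(b + π), Tf (g t) = ∫ t in a..b, Tf (g (t + π)) := by
      rw [intervalIntegral.integral_comp_add_right (fun t => Tf (g t))]
    rw [h2, ← intervalIntegral.integral_neg]
    congr 1
    funext t
    rw [ho, Tf, Tf, Real.sin_neg, Real.cos_neg, neg_div]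
  have h3 := intervalIntegral.integral_add_adjacent_intervals (hi a b) (hi b (b + π))
  have h4 := intervalIntegral.integral_add_adjacent_intervals (hi a (a + π)) (hi (a + π) (b + π))
  linarith

/-- main statement, `g τ ≥ 0` -/
theorem upa_pos {g : ℝ → ℝ} (hg : ∀ x y, |g x - g y| ≤ |x - y|) (ho : ∀ t, g (t + π) = - g t)
    (hb : ∀ t, |g t| < π / 2) {c3 : ℝ}
    (hz : ∀ z, g z = 0 → |∫ t in z..(z + π), Tf (g t)| ≤ c3) {τ : ℝ} (hτ : 0 ≤ g τ) :
    Real.tan (g τ) ^ 2 + |∫ t in τ..(τ + π), Tf (g t)| ≤ c3 := by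
  have hgc := continuous_of_lip hg
  -- zero to the left
  have hL : ∃ z, z ≤ τ ∧ g z = 0 ∧ ∀ t ∈ Icc z τ, 0 ≤ g t := by
    let S := Icc (τ - π) τ ∩ g ⁻¹' (Iic 0)
    have hSc : IsCompact S := isCompact_Icc.inter_right (isClosed_Iic.preimage hgc)
    have hm : τ - π ∈ S := by
      refine ⟨⟨le_refl _, by linarith [Real.pi_pos]⟩, ?_⟩
      have := ho (τ - π)
      rw [sub_add_cancel] at this
      show g (τ - π) ≤ 0
      linarith
    obtain ⟨z, hzS, hzm⟩ := hSc.exists_isGreatest ⟨_, hm⟩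
    have hpos : ∀ t ∈ Ioc z τ, 0 < g t := by
      intro t ht
      by_contra hcon
      push Not at hcon
      have : t ∈ S := ⟨⟨le_trans hzS.1.1 ht.1.le, ht.2⟩, hcon⟩
      exact absurd (hzm this) (not_le.mpr ht.1)
    have hz0 : 0 ≤ g z := by
      rcases eq_or_lt_of_le hzS.1.2 with h | h
      · rw [h]; exact hτ
      · have hcl : z ∈ closure (Ioc z τ) := by
          rw [closure_Ioc h.ne]; exact left_mem_Icc.mpr h.le
        exact (isClosed_Ici.preimage hgc).closure_subset_iff.mpr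
          (fun t ht => (hpos t ht).le) hcl
    have hz00 : g z = 0 := le_antisymm hzS.2 hz0
    refine ⟨z, hzS.1.2, hz00, fun t ht => ?_⟩
    rcases eq_or_lt_of_le ht.1 with h | h
    · rw [← h, hz00]
    · exact (hpos t ⟨h, ht.2⟩).le
  have hR : ∃ z, τ ≤ z ∧ g z = 0 ∧ ∀ t ∈ Icc τ z, 0 ≤ g t := by
    let S := Icc τ (τ + π) ∩ g ⁻¹' (Iic 0)
    have hSc : IsCompact S := isCompact_Icc.inter_right (isClosed_Iic.preimage hgc)
    have hm : τ + π ∈ S := by
      refine ⟨⟨by linarith [Real.pi_pos], le_refl _⟩, ?_⟩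
      show g (τ + π) ≤ 0
      rw [ho]; linarith
    obtain ⟨z, hzS, hzm⟩ := hSc.exists_isLeast ⟨_, hm⟩
    have hpos : ∀ t ∈ Ico τ z, 0 < g t := by
      intro t ht
      by_contra hcon
      push Not at hcon
      have : t ∈ S := ⟨⟨ht.1, le_trans ht.2.le hzS.1.2⟩, hcon⟩
      exact absurd (hzm this) (not_le.mpr ht.2)
    have hz0 : 0 ≤ g z := by
      rcases eq_or_lt_of_le hzS.1.1 with h | h
      · rw [← h]; exact hτ
      · have hcl : z ∈ closure (Ico τ z) := by
          rw [closure_Ico h.ne]; exact right_mem_Icc.mpr h.le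
        exact (isClosed_Ici.preimage hgc).closure_subset_iff.mpr
          (fun t ht => (hpos t ht).le) hcl
    have hz00 : g z = 0 := le_antisymm hzS.2 hz0
    refine ⟨z, hzS.1.1, hz00, fun t ht => ?_⟩
    rcases eq_or_lt_of_le ht.2 with h | h
    · rw [h, hz00]
    · exact (hpos t ⟨ht.1, h⟩).le
  obtain ⟨z1, hz1, hg1, hp1⟩ := hL
  obtain ⟨z2, hz2, hg2, hp2⟩ := hR
  have k1 := tan_sq_step hg hb hz1 hp1 1 (Or.inl rfl)
  have k2 := tan_sq_step hg hb hz2 hp2 (-1) (Or.inr rfl)
  have s1 := int_shift hgc ho hb z1 τ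
  have s2 := int_shift hgc ho hb τ z2
  have e1 := abs_le.mp (hz z1 hg1)
  have e2 := abs_le.mp (hz z2 hg2)
  rw [hg1, Real.tan_zero] at k1
  rw [hg2, Real.tan_zero] at k2
  have : |∫ t in τ..(τ + π), Tf (g t)| ≤ c3 - Real.tan (g τ) ^ 2 := by
    rw [abs_le]
    constructor
    · nlinarith [k2, s2, e2.1, e2.2]
    · nlinarith [k1, s1, e1.1, e1.2]
  linarith

theorem upa {g : ℝ → ℝ} (hg : ∀ x y, |g x - g y| ≤ |x - y|) (ho : ∀ t, g (t + π) = - g t)
    (hb : ∀ t, |g t| < π / 2) {c3 : ℝ}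
    (hz : ∀ z, g z = 0 → |∫ t in z..(z + π), Tf (g t)| ≤ c3) (τ : ℝ) :
    Real.tan (g τ) ^ 2 + |∫ t in τ..(τ + π), Tf (g t)| ≤ c3 := by
  rcases le_total 0 (g τ) with h | h
  · exact upa_pos hg ho hb hz h
  · have hneg : ∀ u v, ∫ t in u..v, Tf (-(g t)) = - ∫ t in u..v, Tf (g t) := by
      intro u v
      rw [← intervalIntegral.integral_neg]
      congr 1
      funext t
      rw [Tf, Tf, Real.sin_neg, Real.cos_neg, neg_div]
    have key := upa_pos (g := fun t => -(g t)) (c3 := c3)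
      (fun x y => by
        have := hg x y
        rw [show -(g x) - -(g y) = -(g x - g y) by ring, abs_neg]; exact this)
      (fun t => by rw [ho t]) (fun t => by rw [abs_neg]; exact hb t)
      (fun z hz0 => by
        have : g z = 0 := by simpa using hz0
        rw [hneg, abs_neg]; exact hz z this) (τ := τ) (by linarith)
    rw [hneg, abs_neg, Real.tan_neg] at key
    simpa using key

end Pool.Agent.FPU
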