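import Mathlib
import Pool.Agent.FPU.UCAU
import Pool.Agent.FPU.UPA

/-
URED (helper16): `NStar (2K/3)` from the half interval bound
`∫_0^{π/2} (T(h) - k sin t R(h)) ≤ K` for 1-Lipschitz `h` with `h 0 = 0`, `|h| ≤ π/6`, and from the sup
bound `|g| ≤ π/6`.
-/

set_option autoImplicit false

open MeasureTheory Set Filter Topology

noncomputable section

namespace Pool.Agent.FPX.UMP

open Real

theorem RR_odd (s : ℝ) : RR (-s) = -RR s := by
  unfold RR
  rw [tan_neg, cos_neg, arsinh_neg]
  ring

theorem Tf_eq (s : ℝ) : FPU.Tf s = tan s / cos s ^ 2 := by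
  unfold FPU.Tf
  rw [tan_eq_sin_div_cos, div_div]
  congr 1
  ring

variable {g : ℝ → ℝ}

theorem int_sin_R (hg : Ef g) (h1 : V1 g = 0) (h2 : V2 g = 0) (z : ℝ) :
    ∫ t in (0 : ℝ)..π, sin t * RR (g (z + t)) = 0 := by
  have cR := hg.cont_RR
  set F : ℝ → ℝ := fun s => sin (s - z) * RR (g s) with hF
  have cF : Continuous F := (by fun_prop : Continuous fun s : ℝ => sin (s - z)).mul cR
  have hper : Function.Periodic F π := by
    intro s
    simp only [hF]
    rw [hg.odd, RR_odd, show s + π - z = s - z + π by ring, sin_add_pi]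
    ring
  have e0 : ∫ t in (0 : ℝ)..π, sin t * RR (g (z + t)) = ∫ s in z..(z + π), F s := by
    have : ∀ t, sin t * RR (g (z + t)) = F (z + t) := by
      intro t
      simp only [hF]
      rw [show z + t - z = t by ring]
    simp only [this]
    rw [intervalIntegral.integral_comp_add_left (fun s => F s)]
    simp
  have e1 : ∫ s in (0 : ℝ)..(2 * π), F s = 2 * ∫ s in z..(z + π), F s := by
    have h3 : ∫ s in (0 : ℝ)..(2 * π), F s
        = (∫ s in (0 : ℝ)..(0 + π), F s) + ∫ s in π..(π + π), F s := by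
      rw [zero_add, show π + π = 2 * π by ring]
      exact (intervalIntegral.integral_add_adjacent_intervals (cF.intervalIntegrable _ _)
        (cF.intervalIntegrable _ _)).symm
    rw [h3, hper.intervalIntegral_add_eq 0 z, hper.intervalIntegral_add_eq π z]
    ring
  have e2 : ∫ s in (0 : ℝ)..(2 * π), F s = cos z * V2 g - sin z * V1 g := by
    unfold V1 V2
    rw [← intervalIntegral.integral_const_mul, ← intervalIntegral.integral_const_mul,
      ← intervalIntegral.integral_sub]
    · refine intervalIntegral.integral_congr fun s _ => ?_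
      simp only [hF, sin_sub]
      ring
    · exact (continuous_const.mul (continuous_sin.mul cR)).intervalIntegrable _ _
    · exact (continuous_const.mul (continuous_cos.mul cR)).intervalIntegrable _ _
  rw [h1, h2] at e2
  rw [e0]
  linarith

/-- a zero `z` of `g`: one sided bound -/
theorem zero_bd {k K : ℝ}
    (hJ : ∀ h : ℝ → ℝ, LipschitzWith 1 h → h 0 = 0 → (∀ t, |h t| ≤ π / 6) →
      ∫ t in (0 : ℝ)..(π / 2), (tan (h t) / cos (h t) ^ 2 - k * sin t * RR (h t)) ≤ K)
    (hg : Ef g) (h1 : V1 g = 0) (h2 : V2 g = 0) (hs : ∀ t, |g t| ≤ π / 6) {z : ℝ} (hz : g z = 0) :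
    ∫ t in z..(z + π), tan (g t) / cos (g t) ^ 2 ≤ 2 * K := by
  have cT := cont_T hg
  have cR := hg.cont_RR
  have l1 : LipschitzWith 1 fun t => g (z + t) := by
    refine LipschitzWith.of_dist_le_mul fun x y => ?_
    have := hg.lip.dist_le_mul (z + x) (z + y)
    simpa using this
  have l2 : LipschitzWith 1 fun t => g (z + (π - t)) := by
    refine LipschitzWith.of_dist_le_mul fun x y => ?_
    have := hg.abs_sub (z + (π - x)) (z + (π - y))
    rw [show z + (π - x) - (z + (π - y)) = y - x by ring, abs_sub_comm y x] at this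
    simpa [Real.dist_eq] using this
  have j1 := hJ (fun t => g (z + t)) l1 (by simp [hz]) (fun t => hs _)
  have j2 := hJ (fun t => g (z + (π - t))) l2 (by simp [hg.odd, hz]) (fun t => hs _)
  set G : ℝ → ℝ := fun t => tan (g (z + t)) / cos (g (z + t)) ^ 2 - k * sin t * RR (g (z + t)) with hG
  have c1 : Continuous fun t => tan (g (z + t)) / cos (g (z + t)) ^ 2 :=
    cT.comp (by fun_prop : Continuous fun t : ℝ => z + t)
  have c2 : Continuous fun t => RR (g (z + t)) := cR.comp (by fun_prop : Continuous fun t : ℝ => z + t)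
  have cG : Continuous G := c1.sub ((by fun_prop : Continuous fun t : ℝ => k * sin t).mul c2)
  have e1 : ∫ t in (0 : ℝ)..(π / 2), (tan (g (z + (π - t))) / cos (g (z + (π - t))) ^ 2
      - k * sin t * RR (g (z + (π - t)))) = ∫ t in (π / 2)..π, G t := by
    have : ∀ t, tan (g (z + (π - t))) / cos (g (z + (π - t))) ^ 2
      - k * sin t * RR (g (z + (π - t))) = G (π - t) := by
      intro t
      simp only [hG, sin_pi_sub]
    simp only [this]
    rw [intervalIntegral.integral_comp_sub_left (fun t => G t)]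
    congr 1 <;> ring
  have e2 : (∫ t in (0 : ℝ)..(π / 2), G t) + ∫ t in (π / 2)..π, G t = ∫ t in (0 : ℝ)..π, G t :=
    intervalIntegral.integral_add_adjacent_intervals (cG.intervalIntegrable _ _)
      (cG.intervalIntegrable _ _)
  have e3 : ∫ t in (0 : ℝ)..π, G t = ∫ t in (0 : ℝ)..π, tan (g (z + t)) / cos (g (z + t)) ^ 2 := by
    have e4 := int_sin_R hg h1 h2 z
    have e5 : ∫ t in (0 : ℝ)..π, k * sin t * RR (g (z + t)) = 0 := by
      have : ∀ t, k * sin t * RR (g (z + t)) = k * (sin t * RR (g (z + t))) := fun t => by ring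
      simp only [this]
      rw [intervalIntegral.integral_const_mul, e4, mul_zero]
    simp only [hG]
    rw [intervalIntegral.integral_sub (c1.intervalIntegrable _ _), e5, sub_zero]
    exact ((by fun_prop : Continuous fun t : ℝ => k * sin t).mul c2).intervalIntegrable _ _
  have e6 : ∫ t in (0 : ℝ)..π, tan (g (z + t)) / cos (g (z + t)) ^ 2
      = ∫ t in z..(z + π), tan (g t) / cos (g t) ^ 2 := by
    rw [intervalIntegral.integral_comp_add_left (fun s => tan (g s) / cos (g s) ^ 2)]
    simp
  rw [e1] at j2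
  linarith

/-- `-g` -/
theorem ef_neg (hg : Ef g) : Ef fun t => -g t where
  lip := by
    refine LipschitzWith.of_dist_le_mul fun x y => ?_
    have := hg.lip.dist_le_mul x y
    simpa using this
  odd := fun t => by rw [hg.odd]
  lt := fun t => by rw [abs_neg]; exact hg.lt t

theorem V1_neg (g : ℝ → ℝ) : V1 (fun t => -g t) = -V1 g := by
  unfold V1
  rw [← intervalIntegral.integral_neg]
  refine intervalIntegral.integral_congr fun t _ => ?_
  simp only [RR_odd]
  ring

theorem V2_neg (g : ℝ → ℝ) : V2 (fun t => -g t) = -V2 g := by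
  unfold V2
  rw [← intervalIntegral.integral_neg]
  refine intervalIntegral.integral_congr fun t _ => ?_
  simp only [RR_odd]
  ring

/-- a zero `z` of `g`: two sided bound -/
theorem zero_abs {k K : ℝ}
    (hJ : ∀ h : ℝ → ℝ, LipschitzWith 1 h → h 0 = 0 → (∀ t, |h t| ≤ π / 6) →
      ∫ t in (0 : ℝ)..(π / 2), (tan (h t) / cos (h t) ^ 2 - k * sin t * RR (h t)) ≤ K)
    (hg : Ef g) (h1 : V1 g = 0) (h2 : V2 g = 0) (hs : ∀ t, |g t| ≤ π / 6) {z : ℝ} (hz : g z = 0) :
    |∫ t in z..(z + π), tan (g t) / cos (g t) ^ 2| ≤ 2 * K := by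
  refine abs_le.2 ⟨?_, zero_bd hJ hg h1 h2 hs hz⟩
  have := zero_bd hJ (ef_neg hg) (by rw [V1_neg, h1, neg_zero]) (by rw [V2_neg, h2, neg_zero])
    (fun t => by rw [abs_neg]; exact hs t) (z := z) (by rw [hz, neg_zero])
  have e : ∀ t, tan (-g t) / cos (-g t) ^ 2 = -(tan (g t) / cos (g t) ^ 2) := fun t => by
    rw [tan_neg, cos_neg, neg_div]
  simp only [e] at this
  rw [intervalIntegral.integral_neg] at this
  linarith

/-- `NStar` from the half interval bound and the sup bound -/
theorem nstar_of_half {k K c : ℝ} (hc : 2 * K ≤ 3 * c)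
    (hJ : ∀ h : ℝ → ℝ, LipschitzWith 1 h → h 0 = 0 → (∀ t, |h t| ≤ π / 6) →
      ∫ t in (0 : ℝ)..(π / 2), (tan (h t) / cos (h t) ^ 2 - k * sin t * RR (h t)) ≤ K)
    (hS : ∀ g : ℝ → ℝ, Ef g → V1 g = 0 → V2 g = 0 → ∀ t, |g t| ≤ π / 6) : NStar c := by
  refine nstar_of fun g hg _ h1 h2 t => ?_
  have hp := FPU.upa (g := g) (c3 := 2 * K) (fun x y => hg.abs_sub x y) hg.odd hg.lt
    (fun z hz => by
      simp only [Tf_eq]
      exact zero_abs hJ hg h1 h2 (hS g hg h1 h2) hz) t
  simp only [Tf_eq] at hp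
  have := le_abs_self (∫ s in t..(t + π), tan (g s) / cos (g s) ^ 2)
  unfold II
  linarith

end Pool.Agent.FPX.UMP
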