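import Mathlib
import Pool.Agent.FPU.UNUM
import Pool.Agent.FPU.UNEG
import Pool.Agent.FPU.UCAB
import Pool.Agent.FPU.URED

/-
UHALF (helper16): the half interval bound with `k = 3/2`, `K = 17/100`, and `NStar (17/150)` from the
sup bound `|g| ≤ π/6`.
-/

set_option autoImplicit false

noncomputable section

namespace Pool.Agent.FPX.UMP

open Real MeasureTheory Set Filter Topology

/-- the first part, up to a zero `y ≥ arcsin (2/3)` -/
theorem first_part {h : ℝ → ℝ} (hl : LipschitzWith 1 h) (hb : ∀ t, |h t| ≤ π / 6) (h0 : h 0 = 0)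
    {y : ℝ} (hy1 : arcsin (2 / 3) ≤ y) (hy2 : y ≤ π / 2) (hyz : h y ≤ 0)
    (hp : ∀ t ∈ Ico (arcsin (2 / 3)) y, 0 ≤ h t) : ∫ t in (0 : ℝ)..y, LL t (h t) ≤ Pm y := by
  have hpi := pi_pos
  have ht1 : 0 < arcsin (2 / 3) := arcsin_pos.2 (by norm_num)
  set p : ℝ → ℝ := fun t => max (h t) 0 with hpd
  have pl : ∀ s t, |p s - p t| ≤ |s - t| := by
    intro s t
    refine (abs_max_sub_max_le_abs (h s) (h t) 0).trans ?_
    have := hl.dist_le_mul s t
    simpa [Real.dist_eq] using this
  have pb : ∀ t, |p t| ≤ π / 6 := by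
    intro t
    rw [abs_of_nonneg (le_max_right _ _)]
    exact max_le ((le_abs_self _).trans (hb t)) (by linarith)
  have pc : Continuous p := hl.continuous.max continuous_const
  have key := cal pl pb (by linarith) hy2 (fun t _ => le_max_right _ _) (by simp [hpd, h0])
    (by simp [hpd, hyz])
  refine le_trans ?_ key
  refine intervalIntegral.integral_mono_on (by linarith)
    ((cont_LL hl.continuous hb).intervalIntegrable _ _) ((cont_LL pc pb).intervalIntegrable _ _) ?_
  intro t ht
  have lt : ∀ s, |h s| < π / 2 := fun s => lt_of_le_of_lt (hb s) (by linarith)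
  have lp : ∀ s, |p s| < π / 2 := fun s => lt_of_le_of_lt (pb s) (by linarith)
  rcases le_total t (arcsin (2 / 3)) with h1 | h1
  · refine LL_mono ?_ (lt t) (lp t) (le_max_left _ _)
    have : sin t ≤ sin (arcsin (2 / 3)) :=
      sin_le_sin_of_le_of_le_pi_div_two (by linarith [ht.1]) (by linarith) h1
    rw [sin_arcsin (by norm_num) (by norm_num)] at this
    linarith
  · rcases ht.2.eq_or_lt with h2 | h2
    · rcases h1.eq_or_lt with h3 | h3
      · refine LL_mono ?_ (lt t) (lp t) (le_max_left _ _)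
        rw [← h3, sin_arcsin (by norm_num) (by norm_num)]
        norm_num
      · -- `h y ≤ 0` and `h ≥ 0` on the left
        have h4 : 0 ≤ h t := by
          have hcl : IsClosed {s | 0 ≤ h s} := isClosed_le continuous_const hl.continuous
          have h5 : t ∈ closure (Ico (arcsin (2 / 3)) t) := by
            rw [closure_Ico h3.ne]
            exact ⟨h3.le, le_rfl⟩
          exact closure_minimal (fun s hs => hp s ⟨hs.1, by rw [← h2]; exact hs.2⟩) hcl h5
        have : p t = h t := max_eq_left h4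
        rw [this]
    · have : p t = h t := max_eq_left (hp t ⟨h1, h2⟩)
      rw [this]

theorem Pm_t1 : Pm (arcsin (2 / 3)) ≤ 0.073 := by
  have hpi := pi_pos
  have ht1 : 0 < arcsin (2 / 3) := arcsin_pos.2 (by norm_num)
  have ht3 : arcsin (2 / 3) ≤ π / 3 := by
    rw [arcsin_le_iff_le_sin ⟨by norm_num, by norm_num⟩ ⟨by linarith, by linarith⟩,
      sin_pi_div_three]
    linarith [w_bd.1]
  rw [Pm_eq ht1.le ht3]
  have hsin : sin (arcsin (2 / 3)) = 2 / 3 := sin_arcsin (by norm_num) (by norm_num)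
  generalize arcsin (2 / 3) = y at *
  have hc : 0 < cos (y / 2) := cos_pos_of_mem_Ioo ⟨by linarith, by linarith⟩
  have ht0 : 0 < tan (y / 2) := tan_pos_of_pos_of_lt_pi_div_two (by linarith) (by linarith)
  have ht : tan (y / 2) ≤ 1 := by
    rw [← tan_pi_div_four]
    exact strictMonoOn_tan.monotoneOn ⟨by linarith, by linarith⟩ ⟨by linarith, by linarith⟩
      (by linarith)
  have hsy : sin y = 2 * sin (y / 2) * cos (y / 2) := by
    rw [← sin_two_mul]
    congr 1
    ring
  have hs : sin (y / 2) = tan (y / 2) * cos (y / 2) := (tan_mul_cos hc.ne').symm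
  have hq : (tan (y / 2) ^ 2 + 1) * cos (y / 2) ^ 2 = 1 := by
    have := sin_sq_add_cos_sq (y / 2)
    rw [hs] at this
    linarith
  rw [hsin, hs] at hsy
  unfold PA
  rw [hs]
  generalize tan (y / 2) = u at *
  generalize cos (y / 2) = C at *
  have e1 : u * C ^ 2 = 1 / 3 := by linarith
  have e2 : (u * C) ^ 3 / C = u ^ 2 / 3 := by
    have : (u * C) ^ 3 / C = u ^ 2 * (u * C ^ 2) := by
      field_simp
    rw [this, e1]
    ring
  have e3 : u ^ 2 + 1 = 3 * u := by
    have : (u ^ 2 + 1) * (u * C ^ 2) = u := by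
      calc (u ^ 2 + 1) * (u * C ^ 2) = u * ((u ^ 2 + 1) * C ^ 2) := by ring
        _ = u := by rw [hq, mul_one]
    rw [e1] at this
    linarith
  have e4 : u ≤ 0.382 := by
    by_contra hn
    rw [not_le] at hn
    nlinarith
  rw [e2]
  nlinarith

/-- the half interval bound -/
theorem half {h : ℝ → ℝ} (hl : LipschitzWith 1 h) (h0 : h 0 = 0) (hb : ∀ t, |h t| ≤ π / 6) :
    ∫ t in (0 : ℝ)..(π / 2), LL t (h t) ≤ 17 / 100 := by
  have hpi := pi_pos
  have ht1 : 0 < arcsin (2 / 3) := arcsin_pos.2 (by norm_num)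
  have ht2 : arcsin (2 / 3) ≤ π / 2 := arcsin_le_pi_div_two _
  have hc := cont_LL hl.continuous hb
  have split : ∀ y, ∫ t in (0 : ℝ)..(π / 2), LL t (h t)
      = (∫ t in (0 : ℝ)..y, LL t (h t)) + ∫ t in y..(π / 2), LL t (h t) := fun y =>
    (intervalIntegral.integral_add_adjacent_intervals (hc.intervalIntegrable _ _)
      (hc.intervalIntegrable _ _)).symm
  rcases le_or_gt (h (arcsin (2 / 3))) 0 with hA | hA
  · have h1 := first_part hl hb h0 le_rfl ht2 hA (fun t ht => absurd ht.2 (not_lt.2 ht.1))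
    have h2 := case_A_num hl hb hA
    have h3 := Pm_t1
    rw [split (arcsin (2 / 3))]
    linarith
  · by_cases hz : ∃ y ∈ Icc (arcsin (2 / 3)) (π / 2), h y = 0
    · -- first zero
      have hK : IsCompact (Icc (arcsin (2 / 3)) (π / 2) ∩ h ⁻¹' {0}) :=
        isCompact_Icc.inter_right (isClosed_singleton.preimage hl.continuous)
      obtain ⟨y, ⟨hy, hy0⟩, hmin⟩ := hK.exists_isLeast (by
        obtain ⟨y, hy, hy0⟩ := hz
        exact ⟨y, hy, hy0⟩)
      have hy0' : h y = 0 := hy0
      have hpos : ∀ t ∈ Ico (arcsin (2 / 3)) y, 0 ≤ h t := by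
        intro t ht
        by_contra hn
        rw [not_le] at hn
        have hiv := intermediate_value_Icc' ht.1 hl.continuous.continuousOn
        obtain ⟨s, hs, hs0⟩ := hiv ⟨hn.le, hA.le⟩
        have : y ≤ s := hmin ⟨⟨hs.1, by linarith [hs.2, ht.2, hy.2]⟩, hs0⟩
        linarith [hs.2, ht.2]
      have h1 := first_part hl hb h0 hy.1 hy.2 hy0'.le hpos
      have h2 := neg_part hl hb hy.1 hy.2 hy0'
      have h3 := num hy.1 hy.2
      rw [split y]
      linarith
    · refine case_B hl hb h0 fun t ht => ?_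
      by_contra hn
      rw [not_le] at hn
      have hiv := intermediate_value_Icc' ht.1 hl.continuous.continuousOn
      obtain ⟨s, hs, hs0⟩ := hiv ⟨hn.le, hA.le⟩
      exact hz ⟨s, ⟨hs.1, hs.2.trans ht.2⟩, hs0⟩

theorem half' (h : ℝ → ℝ) (hl : LipschitzWith 1 h) (h0 : h 0 = 0) (hb : ∀ t, |h t| ≤ π / 6) :
    ∫ t in (0 : ℝ)..(π / 2), (tan (h t) / cos (h t) ^ 2 - 3 / 2 * sin t * RR (h t)) ≤ 17 / 100 :=
  half hl h0 hb

/-- `NStar (17/150)` from the sup bound -/
theorem nstar_of_sup
    (hS : ∀ g : ℝ → ℝ, Ef g → V1 g = 0 → V2 g = 0 → ∀ t, |g t| ≤ π / 6) : NStar (17 / 150) :=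
  nstar_of_half (by norm_num) half' hS

end Pool.Agent.FPX.UMP
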