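import Mathlib
import Pool.Agent.FPU.UHALF
import Pool.Agent.FPU.USUP
import Pool.Agent.FPX.UMP4

/-
USTAR (helper16): the energy bound of the universal map with constant `17/150`.
-/

set_option autoImplicit false

noncomputable section

namespace Pool.Agent.FPX.UMP

/-- the bound in the frame of the area vector -/
theorem nstar : NStar (17 / 150) :=
  nstar_of_sup fun _ hg h1 h2 t => gsup hg h1 h2 t

/-- the energy bound of the universal map -/
theorem ustar : UStar (17 / 150) := ustar_of_nstar nstar

end Pool.Agent.FPX.UMP
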