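import Mathlib
import Pool.Agent.FPU.EUN2
import Pool.Agent.FPU.USTAR
import Pool.Agent.FPU.EUDefs

/-
EUN3 (helper26): expansion of the second moment bound `NE` of the universal map in the frame of the
area vector and its reduction to a bound of the third harmonic.
-/

set_option autoImplicit false

open MeasureTheory Set Filter Topology

noncomputable section

namespace Pool.Agent.FPX.UMP.EU

open Real

/-- the function of the calibration inequality -/
def MM (x : ℝ) : ℝ := -(173 / 300) * (1 / cos x ^ 2) + 171 / 200 + 16 / 5 * x ^ 2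

/-- the bound of the third harmonic -/
def PThree : Prop := ∀ g g' : ℝ → ℝ, Ef g → (∀ t, HasDerivAt g (g' t) t) → Continuous g' →
  V1 g = 0 → V2 g = 0 → ∀ x y : ℝ, x ^ 2 + y ^ 2 = 1 →
  1 / 2 * ∫ t in (0 : ℝ)..(2 * π), (tan (g t) / cos (g t) ^ 3 + 3 * RR (g t))
      * (x * cos (3 * t) + y * sin (3 * t))
    ≤ ∫ t in (0 : ℝ)..(2 * π), MM (g t)

/-! ### linear functionals on discs -/

theorem disc {X Y C : ℝ} (h : ∀ x y : ℝ, x ^ 2 + y ^ 2 = 1 → x * X + y * Y ≤ C) {a b ρ : ℝ}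
    (hρ : 0 ≤ ρ) (hab : a ^ 2 + b ^ 2 ≤ ρ ^ 2) : a * X + b * Y ≤ ρ * C := by
  have h0 : 0 ≤ C := by
    have h1 := h 1 0 (by norm_num)
    have h2 := h (-1) 0 (by norm_num)
    linarith
  have hn : √(X ^ 2 + Y ^ 2) ≤ C := by
    rcases eq_or_lt_of_le (Real.sqrt_nonneg (X ^ 2 + Y ^ 2)) with e | e
    · rw [← e]
      exact h0
    · have hs : √(X ^ 2 + Y ^ 2) ^ 2 = X ^ 2 + Y ^ 2 := Real.sq_sqrt (by positivity)
      have h3 := h (X / √(X ^ 2 + Y ^ 2)) (Y / √(X ^ 2 + Y ^ 2)) (by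
        rw [div_pow, div_pow, ← add_div, hs, div_self]
        rw [← hs]
        positivity)
      have e2 : X / √(X ^ 2 + Y ^ 2) * X + Y / √(X ^ 2 + Y ^ 2) * Y = √(X ^ 2 + Y ^ 2) := by
        field_simp
        rw [hs]
      rwa [e2] at h3
  have h4 : a * X + b * Y ≤ √(a ^ 2 + b ^ 2) * √(X ^ 2 + Y ^ 2) := by
    rw [← Real.sqrt_mul (by positivity)]
    refine Real.le_sqrt_of_sq_le ?_
    nlinarith [sq_nonneg (a * Y - b * X)]
  have h5 : √(a ^ 2 + b ^ 2) ≤ ρ := by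
    rw [Real.sqrt_le_left hρ]
    exact hab
  calc a * X + b * Y ≤ √(a ^ 2 + b ^ 2) * √(X ^ 2 + Y ^ 2) := h4
    _ ≤ ρ * C := mul_le_mul h5 hn (Real.sqrt_nonneg _) hρ

section

variable {g g' : ℝ → ℝ}

theorem c_sec4 (hg : Ef g) : Continuous fun t => 1 / cos (g t) ^ 4 :=
  continuous_const.div ((continuous_cos.comp hg.cont).pow 4) fun t => pow_ne_zero 4 (hg.cos_pos t).ne'

theorem c_S (hg : Ef g) : Continuous fun t => tan (g t) / cos (g t) ^ 3 :=
  hg.cont_tan.div ((continuous_cos.comp hg.cont).pow 3) fun t => pow_ne_zero 3 (hg.cos_pos t).ne'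

theorem c_g3 (hg : Ef g) (hc : Continuous g') : Continuous fun t => g' t / cos (g t) ^ 3 :=
  hc.div ((continuous_cos.comp hg.cont).pow 3) fun t => pow_ne_zero 3 (hg.cos_pos t).ne'

/-- integration by parts against `RR ∘ g` -/
theorem ibp (hg : Ef g) (hd : ∀ t, HasDerivAt g (g' t) t) (hc : Continuous g') {φ φ' : ℝ → ℝ}
    (hφ : ∀ t, HasDerivAt φ (φ' t) t) (cφ : Continuous φ') (hp : φ (2 * π) = φ 0) :
    ∫ t in (0 : ℝ)..(2 * π), φ t * (g' t / cos (g t) ^ 3)
      = -∫ t in (0 : ℝ)..(2 * π), φ' t * RR (g t) := by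
  have key := intervalIntegral.integral_mul_deriv_eq_deriv_mul (a := 0) (b := 2 * π)
    (u := φ) (v := fun t => RR (g t)) (u' := φ') (v' := fun t => g' t / cos (g t) ^ 3)
    (fun t _ => hφ t) (fun t _ => by
      refine ((hasDerivAt_RR (hg.cos_pos t)).comp t (hd t)).congr_deriv ?_
      ring)
    (cφ.intervalIntegrable _ _) ((c_g3 hg hc).intervalIntegrable _ _)
  rw [key]
  have e : g (2 * π) = g 0 := by
    have := hg.per 0
    rwa [zero_add] at this
  rw [hp, e, sub_self, zero_sub]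

theorem dphi (a b p q t : ℝ) : HasDerivAt
    (fun t => 2 * (p * cos t + q * sin t) ^ 2 * (a * sin t - b * cos t))
    (4 * (p * cos t + q * sin t) * (-(p * sin t) + q * cos t) * (a * sin t - b * cos t)
      + 2 * (p * cos t + q * sin t) ^ 2 * (a * cos t + b * sin t)) t := by
  have h1 : HasDerivAt (fun t => p * cos t + q * sin t) (p * -sin t + q * cos t) t :=
    ((hasDerivAt_cos t).const_mul p).add ((hasDerivAt_sin t).const_mul q)
  have h2 : HasDerivAt (fun t => a * sin t - b * cos t) (a * cos t - b * -sin t) t :=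
    ((hasDerivAt_sin t).const_mul a).sub ((hasDerivAt_cos t).const_mul b)
  have h3 := ((h1.pow 2).const_mul 2).mul h2
  refine h3.congr_deriv ?_
  simp only [Pi.pow_apply, Nat.cast_ofNat]
  ring

theorem cos3 (t : ℝ) : cos (3 * t) = cos t ^ 3 - 3 * cos t * sin t ^ 2 := by
  rw [cos_three_mul]
  linear_combination (3 * cos t) * (sin_sq_add_cos_sq t)

theorem sin3 (t : ℝ) : sin (3 * t) = 3 * cos t ^ 2 * sin t - sin t ^ 3 := by
  rw [sin_three_mul]
  linear_combination (-3 * sin t) * (sin_sq_add_cos_sq t)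

theorem lin8 {f1 f2 f3 f4 f5 f6 f7 f8 : ℝ → ℝ} (k1 : Continuous f1) (k2 : Continuous f2)
    (k3 : Continuous f3) (k4 : Continuous f4) (k5 : Continuous f5) (k6 : Continuous f6)
    (k7 : Continuous f7) (k8 : Continuous f8) :
    ∫ t in (0 : ℝ)..(2 * π), (f1 t - f2 t - f3 t - f4 t - f5 t + f6 t + f7 t - f8 t)
      = (∫ t in (0 : ℝ)..(2 * π), f1 t) - (∫ t in (0 : ℝ)..(2 * π), f2 t)
        - (∫ t in (0 : ℝ)..(2 * π), f3 t) - (∫ t in (0 : ℝ)..(2 * π), f4 t)
        - (∫ t in (0 : ℝ)..(2 * π), f5 t) + (∫ t in (0 : ℝ)..(2 * π), f6 t)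
        + (∫ t in (0 : ℝ)..(2 * π), f7 t) - ∫ t in (0 : ℝ)..(2 * π), f8 t := by
  have h2 : Continuous fun t => f1 t - f2 t := k1.sub k2
  have h3 : Continuous fun t => f1 t - f2 t - f3 t := h2.sub k3
  have h4 : Continuous fun t => f1 t - f2 t - f3 t - f4 t := h3.sub k4
  have h5 : Continuous fun t => f1 t - f2 t - f3 t - f4 t - f5 t := h4.sub k5
  have h6 : Continuous fun t => f1 t - f2 t - f3 t - f4 t - f5 t + f6 t := h5.add k6
  have h7 : Continuous fun t => f1 t - f2 t - f3 t - f4 t - f5 t + f6 t + f7 t := h6.add k7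
  rw [Isub h7 k8, Iadd h6 k7, Iadd h5 k6, Isub h4 k5, Isub h3 k4, Isub h2 k3, Isub k1 k2]

/-- the expansion -/
theorem expand (hg : Ef g) (hd : ∀ t, HasDerivAt g (g' t) t) (hc : Continuous g')
    (h1 : V1 g = 0) (h2 : V2 g = 0) (E a b p q : ℝ) :
    ∫ t in (0 : ℝ)..(2 * π),
      (E - 2 * (p * cos t + q * sin t) ^ 2 / cos (g t) ^ 2) / cos (g t) ^ 2 *
      (1 - a * (sin (g t) * cos t - cos (g t) * g' t * sin t)
        - b * (sin (g t) * sin t + cos (g t) * g' t * cos t))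
    = E * (∫ t in (0 : ℝ)..(2 * π), 1 / cos (g t) ^ 2)
      - ((p ^ 2 + q ^ 2) * (∫ t in (0 : ℝ)..(2 * π), 1 / cos (g t) ^ 4)
        + ∫ t in (0 : ℝ)..(2 * π), 1 / cos (g t) ^ 4
          * ((p ^ 2 - q ^ 2) * cos (2 * t) + (2 * p * q) * sin (2 * t)))
      + (∫ t in (0 : ℝ)..(2 * π), tan (g t) / cos (g t) ^ 3
          * (((p ^ 2 + q ^ 2) * a + 1 / 2 * (a * (p ^ 2 - q ^ 2) + b * (2 * p * q))) * cos t
            + ((p ^ 2 + q ^ 2) * b + 1 / 2 * (a * (2 * p * q) - b * (p ^ 2 - q ^ 2))) * sin t))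
      + 1 / 2 * ∫ t in (0 : ℝ)..(2 * π), (tan (g t) / cos (g t) ^ 3 + 3 * RR (g t))
          * ((a * (p ^ 2 - q ^ 2) - b * (2 * p * q)) * cos (3 * t)
            + (a * (2 * p * q) + b * (p ^ 2 - q ^ 2)) * sin (3 * t)) := by
  have cR := hg.cont_RR
  have cS := c_S hg
  have c4 := c_sec4 hg
  have cW := hg.cont_sec2
  have c3 := c_g3 hg hc
  have I := ibp hg hd hc (dphi a b p q) (by fun_prop) (by simp)
  have P1 := parts1 hg hd hc
  have P2 := parts2 hg hd hc
  rw [h1, mul_zero] at P1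
  rw [h2, mul_zero] at P2
  have cg := hg.cont
  have cc := continuous_cos.comp cg
  have cs := continuous_sin.comp cg
  have z1 : Continuous fun t => (sin (g t) * cos t - cos (g t) * g' t * sin t) / cos (g t) ^ 2 :=
    (((cs.mul continuous_cos).sub ((cc.mul hc).mul continuous_sin))).div (cc.pow 2)
      fun t => pow_ne_zero 2 (hg.cos_pos t).ne'
  have z2 : Continuous fun t => (sin (g t) * sin t + cos (g t) * g' t * cos t) / cos (g t) ^ 2 :=
    (((cs.mul continuous_sin).add ((cc.mul hc).mul continuous_cos))).div (cc.pow 2)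
      fun t => pow_ne_zero 2 (hg.cos_pos t).ne'
  -- the third harmonic and the first harmonics
  set a3 : ℝ := a * (p ^ 2 - q ^ 2) - b * (2 * p * q) with ha3
  set b3 : ℝ := a * (2 * p * q) + b * (p ^ 2 - q ^ 2) with hb3
  set a1 : ℝ := (p ^ 2 + q ^ 2) * a + 1 / 2 * (a * (p ^ 2 - q ^ 2) + b * (2 * p * q)) with ha1
  set b1 : ℝ := (p ^ 2 + q ^ 2) * b + 1 / 2 * (a * (2 * p * q) - b * (p ^ 2 - q ^ 2)) with hb1
  set a0 : ℝ := (p ^ 2 + q ^ 2) * a - 1 / 2 * (a * (p ^ 2 - q ^ 2) + b * (2 * p * q)) with ha0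
  set b0 : ℝ := (p ^ 2 + q ^ 2) * b - 1 / 2 * (a * (2 * p * q) - b * (p ^ 2 - q ^ 2)) with hb0
  have cT : Continuous fun t : ℝ => a3 * cos (3 * t) + b3 * sin (3 * t) := by fun_prop
  have cF : Continuous fun t : ℝ => a1 * cos t + b1 * sin t := by fun_prop
  have cD : Continuous fun t : ℝ => (p ^ 2 - q ^ 2) * cos (2 * t) + (2 * p * q) * sin (2 * t) := by
    fun_prop
  have cST : Continuous fun t => tan (g t) / cos (g t) ^ 3 * (a3 * cos (3 * t) + b3 * sin (3 * t)) :=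
    cS.mul cT
  have cRT : Continuous fun t => RR (g t) * (a3 * cos (3 * t) + b3 * sin (3 * t)) := cR.mul cT
  have cSF : Continuous fun t => tan (g t) / cos (g t) ^ 3 * (a1 * cos t + b1 * sin t) := cS.mul cF
  have c4D : Continuous fun t => 1 / cos (g t) ^ 4
      * ((p ^ 2 - q ^ 2) * cos (2 * t) + (2 * p * q) * sin (2 * t)) := c4.mul cD
  have cRc : Continuous fun t => cos t * RR (g t) := continuous_cos.mul cR
  have cRs : Continuous fun t => sin t * RR (g t) := continuous_sin.mul cR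
  have cphi : Continuous fun t => 2 * (p * cos t + q * sin t) ^ 2 * (a * sin t - b * cos t)
      * (g' t / cos (g t) ^ 3) := Continuous.mul (by fun_prop) c3
  have kR1 : Continuous fun t => a0 * (cos t * RR (g t)) := continuous_const.mul cRc
  have kR2 : Continuous fun t => b0 * (sin t * RR (g t)) := continuous_const.mul cRs
  have kR3 : Continuous fun t => 3 / 2 * (RR (g t) * (a3 * cos (3 * t) + b3 * sin (3 * t))) :=
    continuous_const.mul cRT
  have kR12 : Continuous fun t => a0 * (cos t * RR (g t)) + b0 * (sin t * RR (g t)) := kR1.add kR2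
  -- the integral of `φ' R`
  have J : ∫ t in (0 : ℝ)..(2 * π),
      (4 * (p * cos t + q * sin t) * (-(p * sin t) + q * cos t) * (a * sin t - b * cos t)
        + 2 * (p * cos t + q * sin t) ^ 2 * (a * cos t + b * sin t)) * RR (g t)
      = 3 / 2 * ∫ t in (0 : ℝ)..(2 * π), RR (g t) * (a3 * cos (3 * t) + b3 * sin (3 * t)) := by
    have e : ∫ t in (0 : ℝ)..(2 * π),
        (4 * (p * cos t + q * sin t) * (-(p * sin t) + q * cos t) * (a * sin t - b * cos t)
        + 2 * (p * cos t + q * sin t) ^ 2 * (a * cos t + b * sin t)) * RR (g t)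
        = ∫ t in (0 : ℝ)..(2 * π), (a0 * (cos t * RR (g t)) + b0 * (sin t * RR (g t))
          + 3 / 2 * (RR (g t) * (a3 * cos (3 * t) + b3 * sin (3 * t)))) := by
      refine Icongr fun t => ?_
      rw [cos3, sin3, ha3, hb3, ha0, hb0]
      have hcs := sin_sq_add_cos_sq t
      linear_combination (RR (g t) * (((p ^ 2 + q ^ 2) * a - 1 / 2 * (a * (p ^ 2 - q ^ 2)
        + b * (2 * p * q))) * cos t
        + ((p ^ 2 + q ^ 2) * b - 1 / 2 * (a * (2 * p * q) - b * (p ^ 2 - q ^ 2))) * sin t)) * hcs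
    rw [e, Iadd kR12 kR3, Iadd kR1 kR2, Imul, Imul, Imul]
    have e1 : ∫ t in (0 : ℝ)..(2 * π), cos t * RR (g t) = 0 := h1
    have e2 : ∫ t in (0 : ℝ)..(2 * π), sin t * RR (g t) = 0 := h2
    rw [e1, e2]
    ring
  rw [J] at I
  -- the pointwise identity
  have L : ∫ t in (0 : ℝ)..(2 * π),
      (E - 2 * (p * cos t + q * sin t) ^ 2 / cos (g t) ^ 2) / cos (g t) ^ 2 *
      (1 - a * (sin (g t) * cos t - cos (g t) * g' t * sin t)
        - b * (sin (g t) * sin t + cos (g t) * g' t * cos t))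
      = ∫ t in (0 : ℝ)..(2 * π), (E * (1 / cos (g t) ^ 2)
        - (E * a) * ((sin (g t) * cos t - cos (g t) * g' t * sin t) / cos (g t) ^ 2)
        - (E * b) * ((sin (g t) * sin t + cos (g t) * g' t * cos t) / cos (g t) ^ 2)
        - (p ^ 2 + q ^ 2) * (1 / cos (g t) ^ 4)
        - 1 / cos (g t) ^ 4 * ((p ^ 2 - q ^ 2) * cos (2 * t) + (2 * p * q) * sin (2 * t))
        + tan (g t) / cos (g t) ^ 3 * (a1 * cos t + b1 * sin t)
        + 1 / 2 * (tan (g t) / cos (g t) ^ 3 * (a3 * cos (3 * t) + b3 * sin (3 * t)))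
        - 2 * (p * cos t + q * sin t) ^ 2 * (a * sin t - b * cos t)
          * (g' t / cos (g t) ^ 3)) := by
    refine Icongr fun t => ?_
    have hcg : cos (g t) ≠ 0 := (hg.cos_pos t).ne'
    have hcs := sin_sq_add_cos_sq t
    rw [cos3, sin3, cos_two_mul, sin_two_mul, tan_eq_sin_div_cos, ha3, hb3, ha1, hb1]
    have e1 : (p ^ 2 - q ^ 2) * (2 * cos t ^ 2 - 1) + 2 * p * q * (2 * sin t * cos t)
        = 2 * (p * cos t + q * sin t) ^ 2 - (p ^ 2 + q ^ 2) := by
      linear_combination (-2 * q ^ 2) * hcs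
    have e2 : ((p ^ 2 + q ^ 2) * a + 1 / 2 * (a * (p ^ 2 - q ^ 2) + b * (2 * p * q))) * cos t
        + ((p ^ 2 + q ^ 2) * b + 1 / 2 * (a * (2 * p * q) - b * (p ^ 2 - q ^ 2))) * sin t
        = 2 * (p * cos t + q * sin t) ^ 2 * (a * cos t + b * sin t)
          - 1 / 2 * ((a * (p ^ 2 - q ^ 2) - b * (2 * p * q)) * (cos t ^ 3 - 3 * cos t * sin t ^ 2)
            + (a * (2 * p * q) + b * (p ^ 2 - q ^ 2)) * (3 * cos t ^ 2 * sin t - sin t ^ 3)) := by
      linear_combination (-(((p ^ 2 + q ^ 2) * a + 1 / 2 * (a * (p ^ 2 - q ^ 2)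
        + b * (2 * p * q))) * cos t
        + ((p ^ 2 + q ^ 2) * b + 1 / 2 * (a * (2 * p * q) - b * (p ^ 2 - q ^ 2))) * sin t)) * hcs
    rw [e1, e2]
    field_simp
    ring
  rw [L]
  have k1 : Continuous fun t => E * (1 / cos (g t) ^ 2) := continuous_const.mul cW
  have k2 : Continuous fun t => (E * a)
      * ((sin (g t) * cos t - cos (g t) * g' t * sin t) / cos (g t) ^ 2) := continuous_const.mul z1
  have k3 : Continuous fun t => (E * b)
      * ((sin (g t) * sin t + cos (g t) * g' t * cos t) / cos (g t) ^ 2) := continuous_const.mul z2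
  have k4 : Continuous fun t => (p ^ 2 + q ^ 2) * (1 / cos (g t) ^ 4) := continuous_const.mul c4
  have k7 : Continuous fun t => 1 / 2 * (tan (g t) / cos (g t) ^ 3
      * (a3 * cos (3 * t) + b3 * sin (3 * t))) := continuous_const.mul cST
  rw [lin8 k1 k2 k3 k4 c4D cSF k7 cphi, Imul, Imul, Imul, Imul, Imul, P1, P2, I]
  have N : ∫ t in (0 : ℝ)..(2 * π), (tan (g t) / cos (g t) ^ 3 + 3 * RR (g t))
        * (a3 * cos (3 * t) + b3 * sin (3 * t))
      = (∫ t in (0 : ℝ)..(2 * π), tan (g t) / cos (g t) ^ 3 * (a3 * cos (3 * t) + b3 * sin (3 * t)))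
        + 3 * ∫ t in (0 : ℝ)..(2 * π), RR (g t) * (a3 * cos (3 * t) + b3 * sin (3 * t)) := by
    have k8 : Continuous fun t => 3 * (RR (g t) * (a3 * cos (3 * t) + b3 * sin (3 * t))) :=
      continuous_const.mul cRT
    rw [← Imul, ← Iadd cST k8]
    exact Icongr fun t => by ring
  rw [N]
  ring

theorem Ilin {F c s : ℝ → ℝ} (cF : Continuous F) (cc : Continuous c) (cs : Continuous s) (α β : ℝ) :
    ∫ t in (0 : ℝ)..(2 * π), F t * (α * c t + β * s t)
      = α * (∫ t in (0 : ℝ)..(2 * π), F t * c t) + β * ∫ t in (0 : ℝ)..(2 * π), F t * s t := by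
  have k1 : Continuous fun t => α * (F t * c t) := continuous_const.mul (cF.mul cc)
  have k2 : Continuous fun t => β * (F t * s t) := continuous_const.mul (cF.mul cs)
  rw [← Imul, ← Imul, ← Iadd k1 k2]
  exact Icongr fun t => by ring

/-- the expansion in terms of six moments -/
theorem expand' (hg : Ef g) (hd : ∀ t, HasDerivAt g (g' t) t) (hc : Continuous g')
    (h1 : V1 g = 0) (h2 : V2 g = 0) (E a b p q : ℝ) :
    ∫ t in (0 : ℝ)..(2 * π),
      (E - 2 * (p * cos t + q * sin t) ^ 2 / cos (g t) ^ 2) / cos (g t) ^ 2 *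
      (1 - a * (sin (g t) * cos t - cos (g t) * g' t * sin t)
        - b * (sin (g t) * sin t + cos (g t) * g' t * cos t))
    = E * (∫ t in (0 : ℝ)..(2 * π), 1 / cos (g t) ^ 2)
      - ((p ^ 2 + q ^ 2) * (∫ t in (0 : ℝ)..(2 * π), 1 / cos (g t) ^ 4)
        + ((p ^ 2 - q ^ 2) * (∫ t in (0 : ℝ)..(2 * π), 1 / cos (g t) ^ 4 * cos (2 * t))
          + (2 * p * q) * ∫ t in (0 : ℝ)..(2 * π), 1 / cos (g t) ^ 4 * sin (2 * t)))
      + (((p ^ 2 + q ^ 2) * a + 1 / 2 * (a * (p ^ 2 - q ^ 2) + b * (2 * p * q)))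
          * (∫ t in (0 : ℝ)..(2 * π), tan (g t) / cos (g t) ^ 3 * cos t)
        + ((p ^ 2 + q ^ 2) * b + 1 / 2 * (a * (2 * p * q) - b * (p ^ 2 - q ^ 2)))
          * ∫ t in (0 : ℝ)..(2 * π), tan (g t) / cos (g t) ^ 3 * sin t)
      + 1 / 2 * ((a * (p ^ 2 - q ^ 2) - b * (2 * p * q))
          * (∫ t in (0 : ℝ)..(2 * π), (tan (g t) / cos (g t) ^ 3 + 3 * RR (g t)) * cos (3 * t))
        + (a * (2 * p * q) + b * (p ^ 2 - q ^ 2))
          * ∫ t in (0 : ℝ)..(2 * π), (tan (g t) / cos (g t) ^ 3 + 3 * RR (g t)) * sin (3 * t)) := by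
  rw [expand hg hd hc h1 h2]
  have cS := c_S hg
  have cP : Continuous fun t => tan (g t) / cos (g t) ^ 3 + 3 * RR (g t) :=
    cS.add (continuous_const.mul hg.cont_RR)
  rw [Ilin (c_sec4 hg) (by fun_prop : Continuous fun t : ℝ => cos (2 * t))
    (by fun_prop : Continuous fun t : ℝ => sin (2 * t)),
    Ilin cS continuous_cos continuous_sin,
    Ilin cP (by fun_prop : Continuous fun t : ℝ => cos (3 * t))
    (by fun_prop : Continuous fun t : ℝ => sin (3 * t))]

theorem c_int (hg : Ef g) (hc : Continuous g') (E a b p q : ℝ) : Continuous fun t =>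
      (E - 2 * (p * cos t + q * sin t) ^ 2 / cos (g t) ^ 2) / cos (g t) ^ 2 *
      (1 - a * (sin (g t) * cos t - cos (g t) * g' t * sin t)
        - b * (sin (g t) * sin t + cos (g t) * g' t * cos t)) := by
  have cg := hg.cont
  have cc : Continuous fun t => cos (g t) := continuous_cos.comp cg
  have cs : Continuous fun t => sin (g t) := continuous_sin.comp cg
  have hn : ∀ t, cos (g t) ^ 2 ≠ 0 := fun t => pow_ne_zero 2 (hg.cos_pos t).ne'
  refine Continuous.mul (Continuous.div (continuous_const.sub (Continuous.div (by fun_prop)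
    (cc.pow 2) hn)) (cc.pow 2) hn) ?_
  fun_prop

/-- `NStar` in terms of moments -/
theorem first_le (hg : Ef g) (hd : ∀ t, HasDerivAt g (g' t) t) (hc : Continuous g')
    (h1 : V1 g = 0) (h2 : V2 g = 0) {a b : ℝ} (hab : a ^ 2 + b ^ 2 ≤ 1) :
    a * -(∫ t in (0 : ℝ)..(2 * π), tan (g t) / cos (g t) ^ 3 * cos t)
      + b * -(∫ t in (0 : ℝ)..(2 * π), tan (g t) / cos (g t) ^ 3 * sin t)
    ≤ (167 / 150) * (∫ t in (0 : ℝ)..(2 * π), 1 / cos (g t) ^ 2)
      - ∫ t in (0 : ℝ)..(2 * π), 1 / cos (g t) ^ 4 := by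
  have n := nstar g g' hg hd hc h1 h2 a b hab
  have e : ∫ t in (0 : ℝ)..(2 * π), (17 / 150 - tan (g t) ^ 2) / cos (g t) ^ 2 *
      (1 - a * (sin (g t) * cos t - cos (g t) * g' t * sin t)
        - b * (sin (g t) * sin t + cos (g t) * g' t * cos t))
      = 1 / 2 * ((∫ t in (0 : ℝ)..(2 * π),
          (167 / 150 - 2 * (1 * cos t + 0 * sin t) ^ 2 / cos (g t) ^ 2) / cos (g t) ^ 2 *
          (1 - a * (sin (g t) * cos t - cos (g t) * g' t * sin t)
            - b * (sin (g t) * sin t + cos (g t) * g' t * cos t)))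
        + ∫ t in (0 : ℝ)..(2 * π),
          (167 / 150 - 2 * (0 * cos t + 1 * sin t) ^ 2 / cos (g t) ^ 2) / cos (g t) ^ 2 *
          (1 - a * (sin (g t) * cos t - cos (g t) * g' t * sin t)
            - b * (sin (g t) * sin t + cos (g t) * g' t * cos t))) := by
    rw [← Iadd (c_int hg hc _ _ _ _ _) (c_int hg hc _ _ _ _ _), ← Imul]
    refine Icongr fun t => ?_
    have hcg : cos (g t) ≠ 0 := (hg.cos_pos t).ne'
    have e1 : 17 / 150 - tan (g t) ^ 2 = 167 / 150 - 1 / cos (g t) ^ 2 := by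
      rw [tan_eq_sin_div_cos]
      have := sin_sq_add_cos_sq (g t)
      field_simp
      linear_combination (-150) * this
    have e2 : 2 * (0 * cos t + 1 * sin t) ^ 2 = 2 - 2 * (1 * cos t + 0 * sin t) ^ 2 := by
      linear_combination 2 * (sin_sq_add_cos_sq t)
    rw [e1, e2]
    ring
  rw [e, expand' hg hd hc h1 h2, expand' hg hd hc h1 h2] at n
  linarith

/-- **the second moment bound of the universal map**, from the bound of the third harmonic -/
theorem ne_of_pthree (hP : PThree) : NE (33 / 20) := by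
  intro g g' hg hd hc h1 h2 a b hab p q hpq
  rw [expand' hg hd hc h1 h2]
  have cS := c_S hg
  have c4 := c_sec4 hg
  have cW := hg.cont_sec2
  have cP : Continuous fun t => tan (g t) / cos (g t) ^ 3 + 3 * RR (g t) :=
    cS.add (continuous_const.mul hg.cont_RR)
  have cg2 : Continuous fun t => g t ^ 2 := hg.cont.pow 2
  set W := ∫ t in (0 : ℝ)..(2 * π), 1 / cos (g t) ^ 2 with hW
  set A := ∫ t in (0 : ℝ)..(2 * π), 1 / cos (g t) ^ 4 with hA
  set Ac := ∫ t in (0 : ℝ)..(2 * π), 1 / cos (g t) ^ 4 * cos (2 * t) with hAc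
  set As := ∫ t in (0 : ℝ)..(2 * π), 1 / cos (g t) ^ 4 * sin (2 * t) with hAs
  set X := ∫ t in (0 : ℝ)..(2 * π), tan (g t) / cos (g t) ^ 3 * cos t with hX
  set Y := ∫ t in (0 : ℝ)..(2 * π), tan (g t) / cos (g t) ^ 3 * sin t with hY
  set Pc := ∫ t in (0 : ℝ)..(2 * π), (tan (g t) / cos (g t) ^ 3 + 3 * RR (g t)) * cos (3 * t) with hPc
  set Ps := ∫ t in (0 : ℝ)..(2 * π), (tan (g t) / cos (g t) ^ 3 + 3 * RR (g t)) * sin (3 * t) with hPs
  set K := ∫ t in (0 : ℝ)..(2 * π), g t ^ 2 with hK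
  -- three bounds on unit vectors
  have b1 : ∀ x y : ℝ, x ^ 2 + y ^ 2 = 1 → x * -X + y * -Y ≤ 167 / 150 * W - A :=
    fun x y h => first_le hg hd hc h1 h2 h.le
  have b2 : ∀ x y : ℝ, x ^ 2 + y ^ 2 = 1 → x * Ac + y * As ≤ A - 171 / 200 * (2 * π) - 16 / 5 * K := by
    intro x y h
    have h3 := A2_le hg hd hc h1 h2 h
    have k1 : Continuous fun _ : ℝ => (171 / 200 : ℝ) := continuous_const
    have k2 : Continuous fun t => 1 / cos (g t) ^ 4 - 171 / 200 := c4.sub k1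
    have k3 : Continuous fun t => 16 / 5 * g t ^ 2 := continuous_const.mul cg2
    rw [Ilin c4 (by fun_prop : Continuous fun t : ℝ => cos (2 * t))
      (by fun_prop : Continuous fun t : ℝ => sin (2 * t)), Isub k2 k3, Isub c4 k1, Iconst, Imul] at h3
    linarith
  have b3 : ∀ x y : ℝ, x ^ 2 + y ^ 2 = 1 → x * (-(1 / 2) * Pc) + y * (-(1 / 2) * Ps)
      ≤ -(173 / 300) * W + 171 / 200 * (2 * π) + 16 / 5 * K := by
    intro x y h
    have h3 := hP g g' hg hd hc h1 h2 (-x) (-y) (by linarith [neg_sq x, neg_sq y])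
    have k1 : Continuous fun t => -(173 / 300) * (1 / cos (g t) ^ 2) := continuous_const.mul cW
    have k2 : Continuous fun _ : ℝ => (171 / 200 : ℝ) := continuous_const
    have k3 : Continuous fun t => 16 / 5 * g t ^ 2 := continuous_const.mul cg2
    have k4 : Continuous fun t => -(173 / 300) * (1 / cos (g t) ^ 2) + 171 / 200 := k1.add k2
    unfold MM at h3
    rw [Ilin cP (by fun_prop : Continuous fun t : ℝ => cos (3 * t))
      (by fun_prop : Continuous fun t : ℝ => sin (3 * t)), Iadd k4 k3, Iadd k1 k2, Iconst, Imul,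
      Imul] at h3
    linarith
  -- discs
  have hr : 0 ≤ p ^ 2 + q ^ 2 := by positivity
  have d1 := disc b1 (a := (p ^ 2 + q ^ 2) * a) (b := (p ^ 2 + q ^ 2) * b) hr (by
    have := mul_le_mul_of_nonneg_left hab (sq_nonneg (p ^ 2 + q ^ 2))
    linarith)
  have hq : (a * (p ^ 2 - q ^ 2) + b * (2 * p * q)) ^ 2 + (a * (2 * p * q) - b * (p ^ 2 - q ^ 2)) ^ 2
      = (a ^ 2 + b ^ 2) * (p ^ 2 + q ^ 2) ^ 2 := by ring
  have hq3 : (a * (p ^ 2 - q ^ 2) - b * (2 * p * q)) ^ 2 + (a * (2 * p * q) + b * (p ^ 2 - q ^ 2)) ^ 2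
      = (a ^ 2 + b ^ 2) * (p ^ 2 + q ^ 2) ^ 2 := by ring
  have d1' := disc b1 (a := 1 / 2 * (a * (p ^ 2 - q ^ 2) + b * (2 * p * q)))
    (b := 1 / 2 * (a * (2 * p * q) - b * (p ^ 2 - q ^ 2))) hr (by
    have := mul_le_mul_of_nonneg_left hab (sq_nonneg (p ^ 2 + q ^ 2))
    nlinarith [sq_nonneg (p ^ 2 + q ^ 2)])
  have d2 := disc b2 (a := p ^ 2 - q ^ 2) (b := 2 * p * q) hr (by
    apply le_of_eq
    ring)
  have d3 := disc b3 (a := a * (p ^ 2 - q ^ 2) - b * (2 * p * q))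
    (b := a * (2 * p * q) + b * (p ^ 2 - q ^ 2)) hr (by
    have := mul_le_mul_of_nonneg_left hab (sq_nonneg (p ^ 2 + q ^ 2))
    linarith)
  have hW0 : 0 ≤ W := by
    rw [hW]
    exact intervalIntegral.integral_nonneg (by positivity) fun t _ => by positivity
  have hfin : 0 ≤ (1 - (p ^ 2 + q ^ 2)) * (33 / 20 * W) :=
    mul_nonneg (by linarith) (by linarith)
  linarith

end

end Pool.Agent.FPX.UMP.EU
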