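import Mathlib
import Pool.Agent.FPU.EUN3

/-
EUP (helper26): the bound of the third harmonic (calibration) and the energy bound `NE (33/20)` of the
universal map.
-/

set_option autoImplicit false

open MeasureTheory Set Filter Topology

noncomputable section

namespace Pool.Agent.FPX.UMP.EU

open Real

/-! ### lower bounds of the arcsine -/

theorem poly7 {y : ℝ} (h0 : 0 ≤ y) :
    (1 - y) * (1 + y / 2 + 3 * y ^ 2 / 8 + 5 * y ^ 3 / 16) ^ 2 ≤ 1 := by
  have e : (1 - y) * (1 + y / 2 + 3 * y ^ 2 / 8 + 5 * y ^ 3 / 16) ^ 2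
      = 1 - (35 / 64 * y ^ 4 + 14 / 64 * y ^ 5 + 35 / 256 * y ^ 6 + 25 / 256 * y ^ 7) := by ring
  rw [e]
  have : 0 ≤ 35 / 64 * y ^ 4 + 14 / 64 * y ^ 5 + 35 / 256 * y ^ 6 + 25 / 256 * y ^ 7 := by positivity
  linarith

theorem asin_ge {x : ℝ} (h0 : 0 ≤ x) (h1 : x ≤ π / 6) :
    sin x + sin x ^ 3 / 6 + 3 * sin x ^ 5 / 40 + 5 * sin x ^ 7 / 112 ≤ x := by
  have hd : ∀ z, HasDerivAt
      (fun x => x - (sin x + sin x ^ 3 / 6 + 3 * sin x ^ 5 / 40 + 5 * sin x ^ 7 / 112))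
      (1 - cos z * (1 + sin z ^ 2 / 2 + 3 * (sin z ^ 2) ^ 2 / 8 + 5 * (sin z ^ 2) ^ 3 / 16)) z := by
    intro z
    have hs := hasDerivAt_sin z
    have h3 := (hasDerivAt_id z).sub (((hs.add ((hs.pow 3).div_const 6)).add
      (((hs.pow 5).const_mul 3).div_const 40)).add (((hs.pow 7).const_mul 5).div_const 112))
    refine h3.congr_deriv ?_
    simp only [Nat.cast_ofNat]
    ring
  have hmono : MonotoneOn
      (fun x => x - (sin x + sin x ^ 3 / 6 + 3 * sin x ^ 5 / 40 + 5 * sin x ^ 7 / 112))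
      (Icc 0 (π / 6)) := by
    refine monotoneOn_of_deriv_nonneg (convex_Icc _ _) (fun x _ => ?_) (fun x _ => ?_)
      (fun z hz => ?_)
    · exact (hd x).continuousAt.continuousWithinAt
    · exact (hd x).differentiableAt.differentiableWithinAt
    · have hz' := interior_subset hz
      rw [(hd z).deriv]
      have hc : 0 < cos z := cos_pos_of_mem_Ioo ⟨by linarith [hz'.1, pi_pos], half_pi_gt hz'.2⟩
      have hy0 : 0 ≤ sin z ^ 2 := sq_nonneg _
      have hp := poly7 hy0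
      have hcs : 1 - sin z ^ 2 = cos z ^ 2 := by linarith [sin_sq_add_cos_sq z]
      rw [hcs, ← mul_pow] at hp
      have hq : 0 ≤ cos z * (1 + sin z ^ 2 / 2 + 3 * (sin z ^ 2) ^ 2 / 8
          + 5 * (sin z ^ 2) ^ 3 / 16) := by positivity
      have : cos z * (1 + sin z ^ 2 / 2 + 3 * (sin z ^ 2) ^ 2 / 8
          + 5 * (sin z ^ 2) ^ 3 / 16) ≤ 1 := by
        by_contra hcon
        push Not at hcon
        nlinarith
      linarith
  have h4 := hmono (show (0 : ℝ) ∈ Icc 0 (π / 6) from ⟨le_rfl, by positivity⟩)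
    (show x ∈ Icc 0 (π / 6) from ⟨h0, h1⟩) h0
  simp only [sin_zero] at h4
  norm_num at h4
  linarith

/-! ### the polynomial inequality -/

/-- lower bound of `MM` times `cos²` -/
def NN (y : ℝ) : ℝ := -(173 / 300) + (1 - y) * (171 / 200
  + 16 / 5 * (y * (1 + y / 3 + 8 * y ^ 2 / 45 + 4 * y ^ 3 / 35)))

def BB (y : ℝ) : ℝ := 5 / 2 - 3 * y / 2 - 33 / 250 * ((1 + y / 6 + 3 * y ^ 2 / 40) * (1 - y) ^ 2)

theorem NN_nonneg {y : ℝ} (h0 : 0 ≤ y) (h1 : y ≤ 1 / 4) : 0 ≤ NN y := by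
  unfold NN
  have h2 : 0 ≤ y * (1 + y / 3 + 8 * y ^ 2 / 45 + 4 * y ^ 3 / 35) := by positivity
  nlinarith

theorem BB_nonneg {y : ℝ} (h0 : 0 ≤ y) (h1 : y ≤ 1 / 4) : 0 ≤ BB y := by
  unfold BB
  have h2 : (1 + y / 6 + 3 * y ^ 2 / 40) ≤ 2 := by nlinarith
  have h3 : (1 - y) ^ 2 ≤ 1 := by nlinarith
  have h4 : (1 + y / 6 + 3 * y ^ 2 / 40) * (1 - y) ^ 2 ≤ 2 * 1 :=
    mul_le_mul h2 h3 (sq_nonneg _) (by norm_num)
  linarith

theorem poly12 {y : ℝ} (h0 : 0 ≤ y) (h1 : y ≤ 1 / 4) :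
    y * BB y ^ 2 + ((1 / 4 + 11 / 500) * (1 - y) ^ 3
      + (11 / 500 + (11 / 250) ^ 2) * (1 - y) ^ 4) ≤ 4 * NN y ^ 2 * (1 - y) ^ 2 := by
  have hz : 0 ≤ 1 / 4 - y := by linarith
  have e : 4 * NN y ^ 2 * (1 - y) ^ 2 - (y * BB y ^ 2 + ((1 / 4 + 11 / 500) * (1 - y) ^ 3
      + (11 / 500 + (11 / 250) ^ 2) * (1 - y) ^ 4))
      = 32892780544/140625 * (y ^ 0 * (1 / 4 - y) ^ 12)
    + 339327582208/140625 * (y ^ 1 * (1 / 4 - y) ^ 11)
    + 3347513737216/140625 * (y ^ 2 * (1 / 4 - y) ^ 10)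
    + 291384265293824/2109375 * (y ^ 3 * (1 / 4 - y) ^ 9)
    + 2271211355072512/4921875 * (y ^ 4 * (1 / 4 - y) ^ 8)
    + 71117482315899584/73828125 * (y ^ 5 * (1 / 4 - y) ^ 7)
    + 293601134059583872/221484375 * (y ^ 6 * (1 / 4 - y) ^ 6)
    + 272394710823781592/221484375 * (y ^ 7 * (1 / 4 - y) ^ 5)
    + 1186644985288145476/1550390625 * (y ^ 8 * (1 / 4 - y) ^ 4)
    + 636168634975550909/2067187500 * (y ^ 9 * (1 / 4 - y) ^ 3)
    + 50139337620476317/689062500 * (y ^ 10 * (1 / 4 - y) ^ 2)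
    + 120486239598897/15312500 * (y ^ 11 * (1 / 4 - y) ^ 1)
    + 4807049294231/76562500 * (y ^ 12 * (1 / 4 - y) ^ 0) := by
    unfold NN BB
    ring
  have : 0 ≤ 4 * NN y ^ 2 * (1 - y) ^ 2 - (y * BB y ^ 2 + ((1 / 4 + 11 / 500) * (1 - y) ^ 3
      + (11 / 500 + (11 / 250) ^ 2) * (1 - y) ^ 4)) := by
    rw [e]
    positivity
  linarith

/-! ### the calibration -/

/-- `P - 3 a` -/
def bb (x : ℝ) : ℝ := tan x / cos x ^ 3 + 3 / 2 * (tan x / cos x) - 33 / 250 * x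

theorem cal_pos {x : ℝ} (h0 : 0 ≤ x) (h1 : x ≤ π / 6) :
    0 ≤ MM x ∧ bb x ^ 2 + (1 / 2 * (1 / cos x) + 11 / 250) ^ 2 ≤ 4 * MM x ^ 2 := by
  have hc : 0 < cos x := cos_pos_of_mem_Ioo ⟨by linarith [pi_pos], half_pi_gt h1⟩
  have hc1 : cos x ≤ 1 := cos_le_one x
  have hs0 : 0 ≤ sin x := sin_nonneg_of_nonneg_of_le_pi h0 (by linarith [pi_pos])
  have hs1 : sin x ≤ 1 / 2 := by
    rw [← sin_pi_div_six]
    exact sin_le_sin_of_le_of_le_pi_div_two (by linarith [pi_pos]) (by linarith [pi_pos]) h1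
  have hcs : sin x ^ 2 + cos x ^ 2 = 1 := sin_sq_add_cos_sq x
  have ha := asin_ge h0 h1
  set v := sin x with hv
  set c := cos x with hcdef
  set y := v ^ 2 with hy
  have hy0 : 0 ≤ y := sq_nonneg _
  have hy1 : y ≤ 1 / 4 := by nlinarith
  have hcy : c ^ 2 = 1 - y := by linarith
  -- lower bounds for `x` and `x²`
  have ha1 : v * (1 + y / 6 + 3 * y ^ 2 / 40) ≤ x := by
    have : v * (1 + y / 6 + 3 * y ^ 2 / 40) = v + v ^ 3 / 6 + 3 * v ^ 5 / 40 := by
      rw [hy]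
      ring
    rw [this]
    have : 0 ≤ 5 * v ^ 7 / 112 := by positivity
    linarith
  have ha2 : y * (1 + y / 3 + 8 * y ^ 2 / 45 + 4 * y ^ 3 / 35) ≤ x ^ 2 := by
    have h2 : (v + v ^ 3 / 6 + 3 * v ^ 5 / 40 + 5 * v ^ 7 / 112) ^ 2 ≤ x ^ 2 :=
      pow_le_pow_left₀ (by positivity) ha 2
    have h3 : (v + v ^ 3 / 6 + 3 * v ^ 5 / 40 + 5 * v ^ 7 / 112) ^ 2
        = y * (1 + y / 3 + 8 * y ^ 2 / 45 + 4 * y ^ 3 / 35)
          + (9 / 1600 + 5 / 336) * (v ^ 2) ^ 5 + (30 / 4480) * (v ^ 2) ^ 6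
          + 25 / 12544 * (v ^ 2) ^ 7 := by
      rw [hy]
      ring
    have h4 : 0 ≤ (9 / 1600 + 5 / 336) * (v ^ 2) ^ 5 + (30 / 4480) * (v ^ 2) ^ 6
          + 25 / 12544 * (v ^ 2) ^ 7 := by positivity
    linarith
  -- `MM`
  have hM : NN y / c ^ 2 ≤ MM x := by
    unfold MM NN
    rw [div_le_iff₀ (by positivity)]
    have e : (-(173 / 300) * (1 / c ^ 2) + 171 / 200 + 16 / 5 * x ^ 2) * c ^ 2
        = -(173 / 300) + (171 / 200 + 16 / 5 * x ^ 2) * c ^ 2 := by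
      field_simp
      ring
    rw [← hcdef, e, hcy]
    have : 0 ≤ 1 - y := by linarith
    nlinarith
  have hN := NN_nonneg hy0 hy1
  have hM0 : 0 ≤ NN y / c ^ 2 := by positivity
  refine ⟨hM0.trans hM, ?_⟩
  -- `bb`
  have hb : bb x ≤ v / c ^ 4 * BB y := by
    unfold bb BB
    rw [tan_eq_sin_div_cos, ← hv, ← hcdef]
    have e : v / c ^ 4 * (5 / 2 - 3 * y / 2 - 33 / 250 * ((1 + y / 6 + 3 * y ^ 2 / 40) * (1 - y) ^ 2))
        = v / c / c ^ 3 + 3 / 2 * (v / c / c) - 33 / 250 * (v * (1 + y / 6 + 3 * y ^ 2 / 40)) := by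
      rw [← hcy]
      have : y = 1 - c ^ 2 := by linarith
      field_simp
      rw [this]
      ring
    rw [e]
    linarith
  have hb0 : 0 ≤ bb x := by
    unfold bb
    have ht : x ≤ tan x := le_tan h0 (half_pi_gt h1)
    have ht0 : 0 ≤ tan x := h0.trans ht
    have h2 : tan x ≤ tan x / cos x := by
      rw [le_div_iff₀ hc]
      nlinarith
    have h3 : 0 ≤ tan x / cos x ^ 3 := by positivity
    linarith
  have hb2 : bb x ^ 2 ≤ (v / c ^ 4 * BB y) ^ 2 := pow_le_pow_left₀ hb0 hb 2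
  have hm2 : (NN y / c ^ 2) ^ 2 ≤ MM x ^ 2 := pow_le_pow_left₀ hM0 hM 2
  have hsec : (1 / 2 * (1 / c) + 11 / 250) ^ 2 ≤ (1 / 4 + 11 / 500) * (1 / c ^ 2)
      + (11 / 500 + (11 / 250) ^ 2) := by
    have e : 1 / c ^ 2 = (1 / c) ^ 2 := by rw [div_pow, one_pow]
    rw [e]
    nlinarith [sq_nonneg (1 / c - 1)]
  have hp := poly12 hy0 hy1
  have h8 : 0 < c ^ 8 := by positivity
  have hfin : (v / c ^ 4 * BB y) ^ 2 + ((1 / 4 + 11 / 500) * (1 / c ^ 2)
      + (11 / 500 + (11 / 250) ^ 2)) ≤ 4 * (NN y / c ^ 2) ^ 2 := by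
    rw [← mul_le_mul_iff_left₀ h8]
    have e1 : ((v / c ^ 4 * BB y) ^ 2 + ((1 / 4 + 11 / 500) * (1 / c ^ 2)
      + (11 / 500 + (11 / 250) ^ 2))) * c ^ 8 = y * BB y ^ 2 + ((1 / 4 + 11 / 500) * (c ^ 2) ^ 3
      + (11 / 500 + (11 / 250) ^ 2) * (c ^ 2) ^ 4) := by
      rw [hy]
      field_simp
    have e2 : 4 * (NN y / c ^ 2) ^ 2 * c ^ 8 = 4 * NN y ^ 2 * (c ^ 2) ^ 2 := by
      field_simp
    rw [e1, e2, hcy]
    exact hp
  linarith

theorem cal {x : ℝ} (h : |x| ≤ π / 6) :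
    0 ≤ MM x ∧ bb x ^ 2 + (1 / 2 * (1 / cos x) + 11 / 250) ^ 2 ≤ 4 * MM x ^ 2 := by
  rcases le_total 0 x with h0 | h0
  · exact cal_pos h0 (by rwa [abs_of_nonneg h0] at h)
  · have h1 := cal_pos (x := -x) (by linarith) (by rwa [abs_of_nonpos h0] at h)
    have e1 : MM (-x) = MM x := by
      unfold MM
      rw [cos_neg]
      ring
    have e2 : bb (-x) = -bb x := by
      unfold bb
      rw [tan_neg, cos_neg]
      ring
    rw [e1, e2, cos_neg, neg_sq] at h1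
    exact h1

/-! ### the third harmonic -/

theorem pw {b A M w z γ : ℝ} (hM : 0 ≤ M) (h : b ^ 2 + A ^ 2 ≤ 4 * M ^ 2) (hwz : w ^ 2 + z ^ 2 = 1)
    (hγ : γ ^ 2 ≤ 1) : 1 / 2 * (b * w - A * γ * z) ≤ M := by
  have h4 : (b * w - A * γ * z) ^ 2 ≤ (b ^ 2 + A ^ 2) * (w ^ 2 + (γ * z) ^ 2) := by
    nlinarith [sq_nonneg (b * (γ * z) + A * w)]
  have h5 : w ^ 2 + (γ * z) ^ 2 ≤ 1 := by
    rw [mul_pow]
    nlinarith [sq_nonneg z]
  have h6 : (b ^ 2 + A ^ 2) * (w ^ 2 + (γ * z) ^ 2) ≤ (b ^ 2 + A ^ 2) * 1 :=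
    mul_le_mul_of_nonneg_left h5 (by positivity)
  have h3 : (b * w - A * γ * z) ^ 2 ≤ (2 * M) ^ 2 := by linarith
  have h7 := abs_le_of_sq_le_sq' h3 (by linarith)
  linarith [h7.2]

theorem pthree : PThree := by
  intro g g' hg hd hc h1 h2 x y hxy
  have hb := gsup hg h1 h2
  have cS := c_S hg
  have cR := hg.cont_RR
  have ca := hg.cont_at
  have cg := hg.cont
  have csec := hg.cont_sec
  have ct := hg.cont_tan
  have cc : Continuous fun t => cos (g t) := continuous_cos.comp cg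
  have cW := hg.cont_sec2
  have hn : ∀ t, cos (g t) ≠ 0 := fun t => (hg.cos_pos t).ne'
  have cw : Continuous fun t : ℝ => x * cos (3 * t) + y * sin (3 * t) := by fun_prop
  have cv : Continuous fun t : ℝ => x * sin (3 * t) - y * cos (3 * t) := by fun_prop
  have cb : Continuous fun t => bb (g t) := by
    unfold bb
    exact (cS.add (continuous_const.mul (ct.div cc hn))).sub (continuous_const.mul cg)
  have ca' : Continuous fun t => (1 / 2 * (1 / cos (g t)) + 11 / 250) * g' t :=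
    ((continuous_const.mul csec).add continuous_const).mul hc
  have caa : Continuous fun t => 1 / 2 * arsinh (tan (g t)) + 11 / 250 * g t :=
    (continuous_const.mul ca).add (continuous_const.mul cg)
  -- integration by parts
  have hper : g (2 * π) = g 0 := by
    have := hg.per 0
    rwa [zero_add] at this
  have key := intervalIntegral.integral_mul_deriv_eq_deriv_mul (a := 0) (b := 2 * π)
    (u := fun t => 1 / 2 * arsinh (tan (g t)) + 11 / 250 * g t)
    (v := fun t => x * sin (3 * t) - y * cos (3 * t))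
    (u' := fun t => (1 / 2 * (1 / cos (g t)) + 11 / 250) * g' t)
    (v' := fun t => 3 * (x * cos (3 * t) + y * sin (3 * t)))
    (fun t _ => by
      have k1 := ((hasDerivAt_at (hg.cos_pos t)).comp t (hd t)).const_mul (1 / 2)
      have k2 := (hd t).const_mul (11 / 250)
      refine (k1.add k2).congr_deriv ?_
      ring)
    (fun t _ => by
      have k0 : HasDerivAt (fun t : ℝ => 3 * t) 3 t := by
        simpa using (hasDerivAt_id t).const_mul 3
      refine ((k0.sin.const_mul x).sub (k0.cos.const_mul y)).congr_deriv ?_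
      ring)
    (ca'.intervalIntegrable _ _) ((continuous_const.mul cw).intervalIntegrable _ _)
  have s6 : sin (3 * (2 * π)) = 0 := by
    have := Real.sin_nat_mul_pi 6
    push_cast at this
    rw [show 3 * (2 * π) = 6 * π by ring]
    exact this
  have c6 : cos (3 * (2 * π)) = 1 := by
    have := Real.cos_nat_mul_two_pi 3
    push_cast at this
    exact this
  have s0 : sin (3 * 0) = 0 := by rw [mul_zero, sin_zero]
  have c0 : cos (3 * 0) = 1 := by rw [mul_zero, cos_zero]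
  rw [hper, s6, c6, s0, c0, sub_self, zero_sub] at key
  -- decomposition
  have k1 : Continuous fun t => bb (g t) * (x * cos (3 * t) + y * sin (3 * t)) := cb.mul cw
  have k2 : Continuous fun t => (1 / 2 * arsinh (tan (g t)) + 11 / 250 * g t)
      * (3 * (x * cos (3 * t) + y * sin (3 * t))) := caa.mul (continuous_const.mul cw)
  have k3 : Continuous fun t => (1 / 2 * (1 / cos (g t)) + 11 / 250) * g' t
      * (x * sin (3 * t) - y * cos (3 * t)) := ca'.mul cv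
  have e1 : ∫ t in (0 : ℝ)..(2 * π), (tan (g t) / cos (g t) ^ 3 + 3 * RR (g t))
      * (x * cos (3 * t) + y * sin (3 * t))
      = ∫ t in (0 : ℝ)..(2 * π), (bb (g t) * (x * cos (3 * t) + y * sin (3 * t))
        + (1 / 2 * arsinh (tan (g t)) + 11 / 250 * g t)
          * (3 * (x * cos (3 * t) + y * sin (3 * t)))) := by
    refine Icongr fun t => ?_
    unfold bb RR
    ring
  have cM : Continuous fun t => MM (g t) := by
    unfold MM
    exact ((continuous_const.mul cW).add continuous_const).add (continuous_const.mul (cg.pow 2))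
  rw [e1, Iadd k1 k2, key, ← sub_eq_add_neg, ← Isub k1 k3, ← Imul]
  refine Ile (continuous_const.mul (k1.sub k3)) cM fun t => ?_
  obtain ⟨m0, m1⟩ := cal (hb t)
  have hg1 := abs_g' hg hd t
  have hg2 : g' t ^ 2 ≤ 1 := by
    rw [← sq_abs]
    nlinarith [abs_nonneg (g' t)]
  have hwz : (x * cos (3 * t) + y * sin (3 * t)) ^ 2 + (x * sin (3 * t) - y * cos (3 * t)) ^ 2
      = 1 := by
    have := sin_sq_add_cos_sq (3 * t)
    linear_combination (x ^ 2 + y ^ 2) * this + hxy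
  exact pw m0 m1 hwz hg2

/-- **second moment bound of the universal map** in the frame of the area vector -/
theorem ne : NE (33 / 20) := ne_of_pthree pthree

end Pool.Agent.FPX.UMP.EU
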