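import Mathlib
import Pool.Agent.FPU.EUC
import Pool.Agent.FPU.EUP

/-
EUZ (helper26, helper3): the universal map of the surface with `e + |J| ≤ 167/75 + ε` and
`e ≤ 33/20 + ε`.
-/

set_option autoImplicit false

open MeasureTheory Set Filter Topology
open scoped ENNReal NNReal

noncomputable section

namespace Pool.Agent.FPX.UMQ

open Pool.Agent.FPX Pool.Agent.FPX.UMP Pool.Agent.EWD

open Real

variable {M : Type} [MetricSpace M] {γ : ℝ → M}

/-- **the universal map of the surface** with the bound `17/150` and `e ≤ 33/20 + ε` -/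
theorem umapEU [CompactSpace M] (C : Calc M γ) (hγ : Bd γ) {ε : ℝ} (hε : 0 < ε) :
    ∃ F : Fin 3 → M → ℝ, Sph γ F ∧
      (∀ k, LipschitzWith (toNNReal (2 * √(1 + 17 / 150) + ε)) (F k)) ∧
      (∀ᵐ o ∂C.μ, (‖dx C F o‖ ^ 2 + ‖dy C F o‖ ^ 2) / 2 + |jac C F o| ≤ 2 * (1 + 17 / 150) + ε) ∧
      (∀ᵐ o ∂C.μ, (‖dx C F o‖ ^ 2 + ‖dy C F o‖ ^ 2) / 2 ≤ 33 / 20 + ε) ∧
      ∫ o, jac C F o ∂C.μ = 2 * π :=
  umapE C hγ (by norm_num) ustar (by norm_num) (EU.ne_of_pthree EU.pthree) hε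

end Pool.Agent.FPX.UMQ
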