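import Mathlib
import Pool.Agent.FPX.UMPDefs

/-!
# FPU.J1 (helper15)

Basic facts on `R = ∫ sec³` and `T = tan sec²`, and the integrand
`ph s t = T s - k sin t R s` with `k = 8/(3√3)`.
-/

set_option autoImplicit false

open MeasureTheory Set Real

noncomputable section

namespace Pool.Agent.FPU.J

open Pool.Agent.FPX.UMP (RR)

/-- `tan (π/6)` -/
def g0 : ℝ := 1 / √3

/-- `T = tan + tan³ = tan sec²` -/
def TT (s : ℝ) : ℝ := tan s + tan s ^ 3

/-- the multiplier `k = 8/(3√3)` -/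
def kk : ℝ := 8 / 3 * g0

/-- `tan` of the cap level -/
def g1 : ℝ := 2 / 3 * g0

/-- the integrand -/
def ph (s t : ℝ) : ℝ := TT s - kk * sin t * RR s

lemma g0_sq : g0 ^ 2 = 1 / 3 := by
  unfold g0; rw [div_pow, sq_sqrt (by norm_num)]; norm_num

lemma g0_pos : 0 < g0 := by unfold g0; positivity

lemma g0_lb : 0.57735 < g0 := by
  have h := g0_sq; have h' := g0_pos
  nlinarith

lemma g0_ub : g0 < 0.577351 := by
  have h := g0_sq; have h' := g0_pos
  nlinarith

lemma kk_pos : 0 < kk := by unfold kk; have := g0_pos; positivity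

lemma kk_lb : 1.5396 < kk := by unfold kk; have := g0_lb; linarith

lemma kk_ub : kk < 1.539603 := by unfold kk; have := g0_ub; linarith

lemma g1_lb : 0.3849 < g1 := by unfold g1; have := g0_lb; linarith

lemma g1_ub : g1 < 0.384901 := by unfold g1; have := g0_ub; linarith

lemma tan_pi_div_six' : tan (π / 6) = g0 := by
  rw [Real.tan_pi_div_six, g0]

lemma cos_pos' {s : ℝ} (h : |s| ≤ π / 6) : 0 < cos s := by
  apply cos_pos_of_mem_Ioo
  have := abs_le.1 h
  have := pi_pos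
  constructor <;> linarith

lemma cos_pos'' {s : ℝ} (h : |s| < π / 2) : 0 < cos s := by
  apply cos_pos_of_mem_Ioo
  have := abs_lt.1 h
  constructor <;> linarith

/-- `sec² = 1 + tan²` -/
lemma sec_sq {s : ℝ} (h : 0 < cos s) : (1 / cos s) ^ 2 = 1 + tan s ^ 2 := by
  have h1 := sin_sq_add_cos_sq s
  rw [tan_eq_sin_div_cos]
  field_simp
  linarith

lemma sec_pos {s : ℝ} (h : 0 < cos s) : 0 < 1 / cos s := by positivity

lemma sec_ge_one {s : ℝ} (h : 0 < cos s) : 1 ≤ 1 / cos s := by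
  rw [le_div_iff₀ h]; linarith [cos_le_one s]

lemma RR_neg (s : ℝ) : RR (-s) = - RR s := by
  unfold RR
  rw [tan_neg, cos_neg, arsinh_neg]; ring

lemma RR_zero : RR 0 = 0 := by
  unfold RR; simp

lemma TT_neg (s : ℝ) : TT (-s) = - TT s := by
  unfold TT; rw [tan_neg]; ring

lemma TT_zero : TT 0 = 0 := by unfold TT; simp

lemma ph_neg (s t : ℝ) : ph (-s) t = - ph s t := by
  unfold ph; rw [TT_neg, RR_neg]; ring

lemma ph_zero (t : ℝ) : ph 0 t = 0 := by unfold ph; rw [TT_zero, RR_zero]; ring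

lemma hasDerivAt_tan' {s : ℝ} (h : 0 < cos s) : HasDerivAt tan ((1 / cos s) ^ 2) s := by
  have := Real.hasDerivAt_tan h.ne'
  rwa [one_div_pow]

lemma hasDerivAt_RR {s : ℝ} (h : 0 < cos s) : HasDerivAt RR ((1 / cos s) ^ 3) s := by
  have ht := hasDerivAt_tan' h
  have hc := Real.hasDerivAt_cos s
  have h1 : HasDerivAt (fun x => tan x / cos x)
      (((1 / cos s) ^ 2 * cos s - tan s * (- sin s)) / cos s ^ 2) s := ht.div hc h.ne'
  have h2 : HasDerivAt (fun x => arsinh (tan x)) ((√(1 + tan s ^ 2))⁻¹ * (1 / cos s) ^ 2) s :=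
    (Real.hasDerivAt_arsinh (tan s)).comp s ht
  have h3 := (h1.add h2).div_const 2
  have hs : √(1 + tan s ^ 2) = 1 / cos s := by
    rw [← sec_sq h, sqrt_sq (sec_pos h).le]
  have : ((1 / cos s) ^ 3) = ((((1 / cos s) ^ 2 * cos s - tan s * (- sin s)) / cos s ^ 2) +
      ((√(1 + tan s ^ 2))⁻¹ * (1 / cos s) ^ 2)) / 2 := by
    rw [hs, tan_eq_sin_div_cos]
    have h4 := sin_sq_add_cos_sq s
    have h5 : sin s ^ 2 = 1 - cos s ^ 2 := by linarith
    field_simp
    rw [h5]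
    ring
  rw [this]
  exact h3

lemma hasDerivAt_TT {s : ℝ} (h : 0 < cos s) :
    HasDerivAt TT ((1 + 3 * tan s ^ 2) * (1 / cos s) ^ 2) s := by
  have ht := hasDerivAt_tan' h
  have h2 : HasDerivAt (fun x => tan x + tan x ^ 3)
      ((1 / cos s) ^ 2 + ((3:ℕ):ℝ) * tan s ^ (3-1) * (1 / cos s) ^ 2) s := ht.add (ht.pow 3)
  have e : (1 + 3 * tan s ^ 2) * (1 / cos s) ^ 2
      = (1 / cos s) ^ 2 + ((3:ℕ):ℝ) * tan s ^ (3-1) * (1 / cos s) ^ 2 := by
    push_cast; ring
  rw [e]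
  exact h2

lemma hasDerivAt_ph {s : ℝ} (t : ℝ) (h : 0 < cos s) :
    HasDerivAt (fun s => ph s t)
      ((1 + 3 * tan s ^ 2) * (1 / cos s) ^ 2 - kk * sin t * (1 / cos s) ^ 3) s :=
  (hasDerivAt_TT h).sub ((hasDerivAt_RR h).const_mul _)

/-- generic comparison on `[0, b]` -/
lemma mono_aux {f f' : ℝ → ℝ} {a b : ℝ} (hf : ∀ x ∈ Icc a b, HasDerivAt f (f' x) x)
    (hp : ∀ x ∈ Icc a b, 0 ≤ f' x) : MonotoneOn f (Icc a b) := by
  apply monotoneOn_of_deriv_nonneg (convex_Icc a b)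
  · intro x hx; exact (hf x hx).continuousAt.continuousWithinAt
  · intro x hx
    exact (hf x (interior_subset hx)).differentiableAt.differentiableWithinAt
  · intro x hx
    rw [(hf x (interior_subset hx)).deriv]
    exact hp x (interior_subset hx)

lemma anti_aux {f f' : ℝ → ℝ} {a b : ℝ} (hf : ∀ x ∈ Icc a b, HasDerivAt f (f' x) x)
    (hp : ∀ x ∈ Icc a b, f' x ≤ 0) : AntitoneOn f (Icc a b) := by
  apply antitoneOn_of_deriv_nonpos (convex_Icc a b)
  · intro x hx; exact (hf x hx).continuousAt.continuousWithinAt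
  · intro x hx
    exact (hf x (interior_subset hx)).differentiableAt.differentiableWithinAt
  · intro x hx
    rw [(hf x (interior_subset hx)).deriv]
    exact hp x (interior_subset hx)

lemma mem_cos {b x : ℝ} (hb : b < π / 2) (hx : x ∈ Icc (0:ℝ) b) : 0 < cos x := by
  apply cos_pos''
  rw [abs_of_nonneg hx.1]; linarith [hx.2]

lemma tan_nn {b x : ℝ} (hb : b < π / 2) (hx : x ∈ Icc (0:ℝ) b) : 0 ≤ tan x :=
  tan_nonneg_of_nonneg_of_le_pi_div_two hx.1 (by linarith [hx.2])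

/-- `tan ≤ R` -/
lemma tan_le_RR {s : ℝ} (h0 : 0 ≤ s) (h1 : s < π / 2) : tan s ≤ RR s := by
  have := mono_aux (f := fun x => RR x - tan x) (a := 0) (b := s)
    (f' := fun x => (1 / cos x) ^ 3 - (1 / cos x) ^ 2)
    (fun x hx => (hasDerivAt_RR (mem_cos h1 hx)).sub (hasDerivAt_tan' (mem_cos h1 hx)))
    (fun x hx => by
      have h := sec_ge_one (mem_cos h1 hx)
      have : (1 / cos x) ^ 3 - (1 / cos x) ^ 2 = (1 / cos x) ^ 2 * (1 / cos x - 1) := by ring
      rw [this]; apply mul_nonneg (by positivity); linarith)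
  have h := this (left_mem_Icc.2 h0) (right_mem_Icc.2 h0) h0
  simp only [RR_zero, tan_zero, sub_zero] at h
  linarith

/-- increments of `R` are controlled by `tan`: for every `m > 0`,
`R s - R r ≤ ((1 + m²) (q_s - q_r) + (q_s³ - q_r³)/3)/(2m)` -/
lemma RR_incr {m r s : ℝ} (hm : 0 < m) (h0 : 0 ≤ r) (h1 : r ≤ s) (h2 : s < π / 2) :
    RR s - RR r ≤ ((1 + m ^ 2) * (tan s - tan r) + (tan s ^ 3 - tan r ^ 3) / 3) / (2 * m) := by
  have key := mono_aux (f := fun x => ((1 + m ^ 2) * tan x + tan x ^ 3 / 3) / (2 * m) - RR x)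
    (a := r) (b := s)
    (f' := fun x => ((1 + m ^ 2) * (1 / cos x) ^ 2 + (((3:ℕ):ℝ) * tan x ^ 2 * (1 / cos x) ^ 2) / 3)
      / (2 * m) - (1 / cos x) ^ 3)
    (fun x hx => by
      have hc : 0 < cos x := mem_cos h2 ⟨h0.trans hx.1, hx.2⟩
      have ht := hasDerivAt_tan' hc
      exact (((ht.const_mul (1 + m ^ 2)).add ((ht.pow 3).div_const 3)).div_const (2 * m)).sub
        (hasDerivAt_RR hc))
    (fun x hx => by
      have hc : 0 < cos x := mem_cos h2 ⟨h0.trans hx.1, hx.2⟩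
      have hs := sec_sq hc
      set S := 1 / cos x with hS
      have ht : tan x ^ 2 = S ^ 2 - 1 := by linarith
      rw [ht]
      have : ((1 + m ^ 2) * S ^ 2 + (((3:ℕ):ℝ) * (S ^ 2 - 1) * S ^ 2) / 3) / (2 * m) - S ^ 3
          = S ^ 2 * (S - m) ^ 2 / (2 * m) := by
        field_simp
        push_cast
        ring
      rw [this]; positivity)
  have h := key (left_mem_Icc.2 h1) (right_mem_Icc.2 h1) h1
  simp only at h
  have e : ((1 + m ^ 2) * (tan s - tan r) + (tan s ^ 3 - tan r ^ 3) / 3) / (2 * m)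
      = ((1 + m ^ 2) * tan s + tan s ^ 3 / 3) / (2 * m)
        - ((1 + m ^ 2) * tan r + tan r ^ 3 / 3) / (2 * m) := by
    field_simp; ring
  rw [e]; linarith

/-- `R ≤ q + q³/6` -/
lemma RR_le {s : ℝ} (h0 : 0 ≤ s) (h1 : s < π / 2) : RR s ≤ tan s + tan s ^ 3 / 6 := by
  have := RR_incr (m := 1) one_pos le_rfl h0 h1
  rw [RR_zero, tan_zero] at this
  linarith

/-- `R ≥ q + q³/6 - q⁵/40` -/
lemma RR_ge {s : ℝ} (h0 : 0 ≤ s) (h1 : s ≤ π / 6) :
    tan s + tan s ^ 3 / 6 - tan s ^ 5 / 40 ≤ RR s := by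
  have hp := pi_pos
  have h2 : s < π / 2 := by linarith
  have key := mono_aux (f := fun x => RR x - (tan x + tan x ^ 3 / 6 - tan x ^ 5 / 40))
    (a := 0) (b := s)
    (f' := fun x => (1 / cos x) ^ 3 - ((1 / cos x) ^ 2
      + (((3:ℕ):ℝ) * tan x ^ 2 * (1 / cos x) ^ 2) / 6
      - (((5:ℕ):ℝ) * tan x ^ 4 * (1 / cos x) ^ 2) / 40))
    (fun x hx => by
      have hc : 0 < cos x := mem_cos h2 hx
      have ht := hasDerivAt_tan' hc
      exact (hasDerivAt_RR hc).sub ((ht.add ((ht.pow 3).div_const 6)).sub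
        ((ht.pow 5).div_const 40)))
    (fun x hx => by
      have hc : 0 < cos x := mem_cos h2 hx
      have hs := sec_sq hc
      have hS1 := sec_ge_one hc
      set S := 1 / cos x with hS
      have e : S ^ 3 - (S ^ 2 + (((3:ℕ):ℝ) * tan x ^ 2 * S ^ 2) / 6
        - (((5:ℕ):ℝ) * tan x ^ 4 * S ^ 2) / 40)
        = S ^ 2 * (S - (1 + tan x ^ 2 / 2 - (tan x ^ 2) ^ 2 / 8)) := by push_cast; ring
      rw [e]
      have ht : tan x ^ 2 = S ^ 2 - 1 := by linarith
      rw [ht]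
      have e2 : S - (1 + (S ^ 2 - 1) / 2 - (S ^ 2 - 1) ^ 2 / 8)
        = (S - 1) ^ 3 * (S + 3) / 8 := by ring
      rw [e2]
      have : 0 ≤ S - 1 := by linarith
      positivity)
  have h := key (left_mem_Icc.2 h0) (right_mem_Icc.2 h0) h0
  simp only [RR_zero, tan_zero] at h
  norm_num at h
  linarith

lemma RR_nonneg {s : ℝ} (h0 : 0 ≤ s) (h1 : s < π / 2) : 0 ≤ RR s :=
  (tan_nonneg_of_nonneg_of_le_pi_div_two h0 h1.le).trans (tan_le_RR h0 h1)

lemma tan_le_g0 {s : ℝ} (h1 : s ≤ π / 6) (h0 : -(π / 2) < s) : tan s ≤ g0 := by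
  rw [← tan_pi_div_six']
  have hp := pi_pos
  rcases eq_or_lt_of_le h1 with h | h
  · rw [h]
  · exact (tan_lt_tan_of_lt_of_lt_pi_div_two h0 (by linarith) h).le

/-- for `k sin t ≤ 1` the integrand is increasing -/
lemma ph_mono {t : ℝ} (ht : kk * sin t ≤ 1) {a b : ℝ} (ha : -(π / 2) < a)
    (hab : a ≤ b) (hb : b < π / 2) : ph a t ≤ ph b t := by
  have key := mono_aux (f := fun x => ph x t) (a := a) (b := b)
    (f' := fun s => (1 + 3 * tan s ^ 2) * (1 / cos s) ^ 2 - kk * sin t * (1 / cos s) ^ 3)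
    (fun x hx => hasDerivAt_ph t (cos_pos'' (abs_lt.2 ⟨by linarith [hx.1], by linarith [hx.2]⟩)))
    (fun x hx => by
      have hc : 0 < cos x := cos_pos'' (abs_lt.2 ⟨by linarith [hx.1], by linarith [hx.2]⟩)
      have hs := sec_sq hc
      have hS1 := sec_ge_one hc
      set S := 1 / cos x with hS
      have e : (1 + 3 * tan x ^ 2) * S ^ 2 - kk * sin t * S ^ 3
        = S ^ 2 * (1 + 3 * tan x ^ 2 - kk * sin t * S) := by ring
      rw [e]
      apply mul_nonneg (by positivity)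
      have : kk * sin t * S ≤ 1 * S := mul_le_mul_of_nonneg_right ht (by linarith)
      have ht2 : tan x ^ 2 = S ^ 2 - 1 := by linarith
      rw [ht2]
      nlinarith)
  exact key (left_mem_Icc.2 hab) (right_mem_Icc.2 hab) hab

end Pool.Agent.FPU.J
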