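import Pool.Agent.FPU.J1

/-!
# FPU.J2 (helper15)

Pointwise bounds of the integrand `ph`.
-/

set_option autoImplicit false

open MeasureTheory Set Real

noncomputable section

namespace Pool.Agent.FPU.J

open Pool.Agent.FPX.UMP (RR)

/-- the cap level -/
def r1 : ℝ := arctan g1

lemma tan_r1 : tan r1 = g1 := tan_arctan g1

lemma g1_pos : 0 < g1 := by have := g1_lb; linarith

lemma g1_lt_g0 : g1 < g0 := by unfold g1; have := g0_pos; linarith

lemma r1_pos : 0 < r1 := arctan_pos.2 g1_pos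

lemma r1_lt : r1 < π / 6 := by
  have h : arctan g1 < arctan g0 := arctan_strictMono g1_lt_g0
  have h2 : arctan g0 = π / 6 := by
    rw [← tan_pi_div_six']
    have hp := pi_pos
    exact arctan_tan (by linarith) (by linarith)
  unfold r1; linarith

lemma g1_sq : g1 ^ 2 = 4 / 27 := by
  unfold g1; have := g0_sq; ring_nf; ring_nf at this; rw [this]; norm_num

lemma kk_g1 : kk * g1 = 16 / 27 := by
  have := g0_sq; unfold kk g1
  nlinarith

lemma kk_g0 : kk * g0 = 8 / 9 := by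
  have := g0_sq; unfold kk
  nlinarith

lemma kk_sq : kk ^ 2 = 64 / 27 := by
  have := g0_sq; unfold kk
  nlinarith

lemma g0_g1 : g0 * g1 = 2 / 9 := by
  have := g0_sq; unfold g1
  nlinarith

lemma cos_r1_pos : 0 < cos r1 := by
  apply cos_pos''; rw [abs_of_pos r1_pos]
  have := r1_lt; have := pi_pos; linarith

/-- for `y = k sin t ≥ 1 + tan² s` the integrand is nonpositive at `s ≥ 0` -/
lemma ph_nonpos {s t : ℝ} (h0 : 0 ≤ s) (h1 : s ≤ π / 6) (hy : 1 + tan s ^ 2 ≤ kk * sin t) :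
    ph s t ≤ 0 := by
  have hp := pi_pos
  have hR := tan_le_RR h0 (by linarith)
  have hR0 : 0 ≤ RR s := RR_nonneg h0 (by linarith)
  have h2 : (1 + tan s ^ 2) * RR s ≤ kk * sin t * RR s := mul_le_mul_of_nonneg_right hy hR0
  have h3 : (1 + tan s ^ 2) * tan s ≤ (1 + tan s ^ 2) * RR s :=
    mul_le_mul_of_nonneg_left hR (by positivity)
  unfold ph TT
  nlinarith

lemma ph_nonpos' {s t : ℝ} (h0 : 0 ≤ s) (h1 : s ≤ π / 6) (hy : 4 / 3 ≤ kk * sin t) :
    ph s t ≤ 0 := by
  have hp := pi_pos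
  have h2 : tan s ≤ g0 := tan_le_g0 h1 (by linarith)
  have h3 : 0 ≤ tan s := tan_nonneg_of_nonneg_of_le_pi_div_two h0 (by linarith)
  have h4 : tan s ^ 2 ≤ 1 / 3 := by rw [← g0_sq]; exact pow_le_pow_left₀ h3 h2 2
  exact ph_nonpos h0 h1 (by linarith)

/-- negative values: `y R(r) - T(r) ≤ .33 (y - 1)` -/
lemma neg_ph_le {r t : ℝ} (h0 : 0 ≤ r) (h1 : r ≤ π / 6) (hy : 1 ≤ kk * sin t) :
    ph (-r) t ≤ 0.33 * (kk * sin t - 1) := by
  have hp := pi_pos
  rw [ph_neg]
  have hR := RR_le h0 (by linarith)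
  have hq0 : 0 ≤ tan r := tan_nonneg_of_nonneg_of_le_pi_div_two h0 (by linarith)
  have hq1 : tan r ≤ g0 := tan_le_g0 h1 (by linarith)
  have hg := g0_ub
  have hk : kk * sin t ≤ 1.539603 := by
    have := kk_ub; have h := sin_le_one t
    have := kk_pos
    nlinarith
  unfold ph TT
  set q := tan r with hq
  set y := kk * sin t with hydef
  have h3 : y * RR r ≤ y * (q + q ^ 3 / 6) := mul_le_mul_of_nonneg_left hR (by linarith)
  have h4 : 0 ≤ (q - 0.49) ^ 2 * (q + 0.98) := by positivity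
  have hq3 : 0 ≤ q ^ 3 := by positivity
  -- affine in y: combine the end points y = 1 and y = 1.539603
  have e1 : (q + q ^ 3 / 6) - q - q ^ 3 ≤ 0 := by linarith
  have e2 : 1.539603 * (q + q ^ 3 / 6) - q - q ^ 3 ≤ 0.33 * (1.539603 - 1) := by
    nlinarith
  nlinarith

/-- no excess below the cap for `y ≤ 4/3` -/
lemma cap_mono {r t : ℝ} (h0 : r1 ≤ r) (h1 : r ≤ π / 6) (hy : kk * sin t ≤ 4 / 3) :
    ph (-r) t ≤ ph (-r1) t := by
  have hp := pi_pos
  have hr := r1_pos
  rw [ph_neg, ph_neg]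
  have key := mono_aux (f := fun x => ph x t) (a := r1) (b := r)
    (f' := fun s => (1 + 3 * tan s ^ 2) * (1 / cos s) ^ 2 - kk * sin t * (1 / cos s) ^ 3)
    (fun x hx => hasDerivAt_ph t (cos_pos'' (abs_lt.2 ⟨by linarith [hx.1], by linarith [hx.2]⟩)))
    (fun x hx => by
      have hc : 0 < cos x := cos_pos'' (abs_lt.2 ⟨by linarith [hx.1], by linarith [hx.2]⟩)
      have hs := sec_sq hc
      have hS1 := sec_ge_one hc
      have ht : g1 ≤ tan x := by
        rw [← tan_r1]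
        rcases eq_or_lt_of_le hx.1 with h | h
        · rw [h]
        · exact (tan_lt_tan_of_lt_of_lt_pi_div_two (by linarith) (by linarith [hx.2]) h).le
      have ht2 : 4 / 27 ≤ tan x ^ 2 := by
        rw [← g1_sq]; exact pow_le_pow_left₀ g1_pos.le ht 2
      set S := 1 / cos x with hS
      have e : (1 + 3 * tan x ^ 2) * S ^ 2 - kk * sin t * S ^ 3
        = S ^ 2 * (1 + 3 * tan x ^ 2 - kk * sin t * S) := by ring
      rw [e]
      apply mul_nonneg (by positivity)
      have : kk * sin t * S ≤ 4 / 3 * S := mul_le_mul_of_nonneg_right hy (by linarith)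
      have ht3 : tan x ^ 2 = S ^ 2 - 1 := by linarith
      rw [ht3]
      rw [ht3] at ht2
      nlinarith [sq_nonneg (S - 1.07)])
  have := key (left_mem_Icc.2 h0) (right_mem_Icc.2 h0) h0
  simp only at this
  linarith

/-- excess below the cap is at most `.012` -/
lemma cap_excess {r t : ℝ} (h0 : r1 ≤ r) (h1 : r ≤ π / 6) (hy : 0 ≤ sin t) :
    ph (-r) t ≤ ph (-r1) t + 0.012 := by
  have hp := pi_pos
  have hr := r1_pos
  rw [ph_neg, ph_neg]
  have hR := RR_incr (m := 1.11) (r := r1) (s := r) (by norm_num) hr.le h0 (by linarith)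
  have hRm : 0 ≤ RR r - RR r1 := by
    have key := mono_aux (f := RR) (a := r1) (b := r) (f' := fun s => (1 / cos s) ^ 3)
      (fun x hx => hasDerivAt_RR (cos_pos'' (abs_lt.2 ⟨by linarith [hx.1], by linarith [hx.2]⟩)))
      (fun x hx => by
        have hc : 0 < cos x := cos_pos'' (abs_lt.2 ⟨by linarith [hx.1], by linarith [hx.2]⟩)
        positivity)
    have := key (left_mem_Icc.2 h0) (right_mem_Icc.2 h0) h0
    linarith
  have hq0 : g1 ≤ tan r := by
    rw [← tan_r1]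
    rcases eq_or_lt_of_le h0 with h | h
    · rw [h]
    · exact (tan_lt_tan_of_lt_of_lt_pi_div_two (by linarith) (by linarith) h).le
  have hq1 : tan r ≤ g0 := tan_le_g0 h1 (by linarith)
  rw [tan_r1] at hR
  have hk : kk * sin t ≤ 1.539603 := by
    have := kk_ub; have h := sin_le_one t
    have := kk_pos
    nlinarith
  unfold ph TT
  rw [tan_r1]
  set q := tan r with hq
  set y := kk * sin t with hydef
  have hy0 : 0 ≤ y := mul_nonneg kk_pos.le hy
  have h3 : y * (RR r - RR r1) ≤ 1.539603 * (RR r - RR r1) := mul_le_mul_of_nonneg_right hk hRm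
  have hg := g0_ub
  have hg1 := g1_lb
  have hg1' := g1_ub
  have h4 : 0 ≤ (q - 0.487) ^ 2 * (q + 0.974) := by
    apply mul_nonneg (sq_nonneg _); linarith
  have h5 : g1 ^ 3 ≤ 0.384901 ^ 3 := pow_le_pow_left₀ g1_pos.le hg1'.le 3
  have h4' : 0.711507 * q - 0.23101 ≤ q ^ 3 := by nlinarith
  have hR' : RR r - RR r1 ≤ 1.00546 * (q - g1) + 0.15016 * (q ^ 3 - g1 ^ 3) := by
    have hd : 0 ≤ q - g1 := by linarith
    have hd3 : 0 ≤ q ^ 3 - g1 ^ 3 := by
      have := pow_le_pow_left₀ g1_pos.le hq0 3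
      linarith
    have e : ((1 + 1.11 ^ 2) * (q - g1) + (q ^ 3 - g1 ^ 3) / 3) / (2 * 1.11)
      = (2.2321 / 2.22) * (q - g1) + (1 / 6.66) * (q ^ 3 - g1 ^ 3) := by ring
    rw [e] at hR
    have a1 : (2.2321 / 2.22 : ℝ) * (q - g1) ≤ 1.00546 * (q - g1) :=
      mul_le_mul_of_nonneg_right (by norm_num) hd
    have a2 : (1 / 6.66 : ℝ) * (q ^ 3 - g1 ^ 3) ≤ 0.15016 * (q ^ 3 - g1 ^ 3) :=
      mul_le_mul_of_nonneg_right (by norm_num) hd3
    linarith
  have e3 : y * (RR r - RR r1) - (q - g1) - (q ^ 3 - g1 ^ 3) ≤ 0.012 := by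
    linarith
  linarith

end Pool.Agent.FPU.J
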