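import Pool.Agent.FPU.J2

/-!
# FPU.J3 (helper15)

The field of lines of slope `-1` capped at the level `-r1`.
-/

set_option autoImplicit false

open MeasureTheory Set Real

noncomputable section

namespace Pool.Agent.FPU.J

open Pool.Agent.FPX.UMP (RR)

/-- capped integrand -/
def phc (s t : ℝ) : ℝ := ph (max s (-r1)) t

/-- antiderivative of `τ ↦ ph (β - τ) τ` -/
def Fe (β τ : ℝ) : ℝ :=
  -(1 / 2) * tan (β - τ) ^ 2 - kk * (-(cos τ * RR (β - τ)) + cos β * tan (β - τ)
    + 1 / 2 * sin β * tan (β - τ) ^ 2)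

lemma Fe_deriv {β τ : ℝ} (h : 0 < cos (β - τ)) :
    HasDerivAt (fun τ => Fe β τ) (ph (β - τ) τ) τ := by
  have hl : HasDerivAt (fun τ : ℝ => β - τ) (-1) τ := by
    simpa using (hasDerivAt_id τ).const_sub β
  have ht : HasDerivAt (fun τ : ℝ => tan (β - τ)) ((1 / cos (β - τ)) ^ 2 * (-1)) τ :=
    (hasDerivAt_tan' h).comp τ hl
  have hR : HasDerivAt (fun τ : ℝ => RR (β - τ)) ((1 / cos (β - τ)) ^ 3 * (-1)) τ :=
    (hasDerivAt_RR h).comp τ hl
  have hc := Real.hasDerivAt_cos τ
  have h1 := ((ht.pow 2).const_mul (-(1 / 2))).sub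
    (((((hc.mul hR).neg).add (ht.const_mul (cos β))).add
      ((ht.pow 2).const_mul (1 / 2 * sin β))).const_mul kk)
  have e : ph (β - τ) τ = -(1 / 2) * (((2:ℕ):ℝ) * tan (β - τ) ^ (2 - 1) *
      ((1 / cos (β - τ)) ^ 2 * (-1))) - kk * (-(-sin τ * RR (β - τ) + cos τ *
      ((1 / cos (β - τ)) ^ 3 * (-1))) + cos β * ((1 / cos (β - τ)) ^ 2 * (-1))
      + 1 / 2 * sin β * (((2:ℕ):ℝ) * tan (β - τ) ^ (2 - 1) * ((1 / cos (β - τ)) ^ 2 * (-1)))) := by
    unfold ph TT
    have hs := sec_sq h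
    set S := 1 / cos (β - τ) with hS
    have hct : cos τ * S = cos β + sin β * tan (β - τ) := by
      have : cos τ = cos β * cos (β - τ) + sin β * sin (β - τ) := by
        have := cos_sub β (β - τ)
        rw [← this]; ring_nf
      rw [this, hS, tan_eq_sin_div_cos]
      field_simp
    have e1 : tan (β - τ) + tan (β - τ) ^ 3 = tan (β - τ) * S ^ 2 := by rw [hs]; ring
    have e2 : cos τ * (S ^ 3 * (-1)) = -(cos β + sin β * tan (β - τ)) * S ^ 2 := by
      rw [← hct]; ring
    rw [e1, e2]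
    push_cast
    ring
  rw [e]
  exact h1

lemma ph_continuousOn {β a b : ℝ} (hab : ∀ τ ∈ Icc a b, 0 < cos (β - τ)) :
    ContinuousOn (fun τ => ph (β - τ) τ) (Icc a b) := by
  intro τ hτ
  have h := hab τ hτ
  have hl : ContinuousAt (fun τ : ℝ => β - τ) τ := by fun_prop
  have ht : ContinuousAt (fun τ : ℝ => tan (β - τ)) τ :=
    ContinuousAt.comp (f := fun τ : ℝ => β - τ) (hasDerivAt_tan' h).continuousAt hl
  have hR : ContinuousAt (fun τ : ℝ => RR (β - τ)) τ :=
    ContinuousAt.comp (f := fun τ : ℝ => β - τ) (hasDerivAt_RR h).continuousAt hl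
  have : ContinuousAt (fun τ => ph (β - τ) τ) τ := by
    unfold ph TT
    exact (ht.add (ht.pow 3)).sub ((continuousAt_const.mul continuous_sin.continuousAt).mul hR)
  exact this.continuousWithinAt

lemma int_line {β a b : ℝ} (hle : a ≤ b) (hab : ∀ τ ∈ Icc a b, 0 < cos (β - τ)) :
    ∫ τ in a..b, ph (β - τ) τ = Fe β b - Fe β a := by
  apply intervalIntegral.integral_eq_sub_of_hasDerivAt
  · intro τ hτ
    rw [uIcc_of_le hle] at hτ
    exact Fe_deriv (hab τ hτ)
  · apply ContinuousOn.intervalIntegrable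
    rw [uIcc_of_le hle]
    exact ph_continuousOn hab

/-- continuity of `ph s t` for fixed `s` -/
lemma ph_cont_t (s : ℝ) : Continuous (fun t => ph s t) := by
  unfold ph; fun_prop

lemma int_const (s a b : ℝ) :
    ∫ τ in a..b, ph s τ = TT s * (b - a) - kk * RR s * (cos a - cos b) := by
  have : (fun τ => ph s τ) = fun τ => TT s - (kk * RR s) * sin τ := by
    ext τ; unfold ph; ring
  rw [this, intervalIntegral.integral_sub (by simp) (by
    apply Continuous.intervalIntegrable; fun_prop), intervalIntegral.integral_const,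
    intervalIntegral.integral_const_mul, integral_sin]
  simp only [smul_eq_mul]; ring

/-- value function of the field -/
def w (β t : ℝ) : ℝ := ∫ τ in t..(π / 2), phc (β - τ) τ

def T1 : ℝ := g1 + g1 ^ 3

def C1 (β : ℝ) : ℝ :=
  -(1 / 2) * g1 ^ 2 + kk * g1 * cos β - 1 / 2 * kk * g1 ^ 2 * sin β - T1 * (π / 2 - β - r1)

def C2 (β : ℝ) : ℝ :=
  -(1 / 2) * (cos β / sin β) ^ 2 + 1 / 2 * kk * cos β * (cos β / sin β)

lemma TT_r1 : TT (-r1) = - T1 := by
  rw [TT_neg]; unfold TT T1; rw [tan_r1]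

lemma w_eq0 {β t : ℝ} (h : β - t ≤ -r1) (ht : t ≤ π / 2) :
    w β t = ∫ τ in t..(π / 2), ph (-r1) τ := by
  unfold w
  apply intervalIntegral.integral_congr
  intro τ hτ
  rw [uIcc_of_le ht] at hτ
  simp only [phc]
  rw [max_eq_right]
  linarith [hτ.1]

lemma w_eq1 {β t : ℝ} (h : -r1 ≤ β - t) (h2 : β - t < π / 2) (hb : β ≤ π / 2 - r1) :
    w β t = C1 β - Fe β t := by
  have hr := r1_pos
  have hr' := r1_lt
  have hp := pi_pos
  unfold w
  have hle : t ≤ β + r1 := by linarith
  have hle2 : β + r1 ≤ π / 2 := by linarith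
  have hcos : ∀ τ ∈ Icc t (β + r1), 0 < cos (β - τ) := by
    intro τ hτ
    apply cos_pos''; rw [abs_lt]
    constructor <;> linarith [hτ.1, hτ.2]
  have e1 : ∫ τ in t..(β + r1), phc (β - τ) τ = Fe β (β + r1) - Fe β t := by
    rw [← int_line hle hcos]
    apply intervalIntegral.integral_congr
    intro τ hτ
    rw [uIcc_of_le hle] at hτ
    simp only [phc]
    rw [max_eq_left]
    linarith [hτ.2]
  have e2 : ∫ τ in (β + r1)..(π / 2), phc (β - τ) τ = ∫ τ in (β + r1)..(π / 2), ph (-r1) τ := by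
    apply intervalIntegral.integral_congr
    intro τ hτ
    rw [uIcc_of_le hle2] at hτ
    simp only [phc]
    rw [max_eq_right]
    linarith [hτ.1]
  have i1 : IntervalIntegrable (fun τ => phc (β - τ) τ) volume t (β + r1) := by
    apply ContinuousOn.intervalIntegrable
    rw [uIcc_of_le hle]
    apply (ph_continuousOn hcos).congr
    intro τ hτ
    simp only [phc]
    rw [max_eq_left]
    linarith [hτ.2]
  have i2 : IntervalIntegrable (fun τ => phc (β - τ) τ) volume (β + r1) (π / 2) := by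
    apply ContinuousOn.intervalIntegrable
    rw [uIcc_of_le hle2]
    apply (ph_cont_t (-r1)).continuousOn.congr
    intro τ hτ
    simp only [phc]
    rw [max_eq_right]
    linarith [hτ.1]
  rw [← intervalIntegral.integral_add_adjacent_intervals i1 i2, e1, e2, int_const, TT_r1, RR_neg]
  unfold C1
  have e3 : Fe β (β + r1) = -(1 / 2) * g1 ^ 2 - kk * (cos (β + r1) * RR r1 - cos β * g1
      + 1 / 2 * sin β * g1 ^ 2) := by
    unfold Fe
    have : β - (β + r1) = -r1 := by ring
    rw [this, tan_neg, RR_neg, tan_r1]; ring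
  rw [e3, cos_pi_div_two]
  ring

lemma w_eq2 {β t : ℝ} (ht : t ≤ π / 2) (h2 : β - t < π / 2) (hb : π / 2 - r1 ≤ β)
    (hb2 : β ≤ π / 2) :
    w β t = C2 β - Fe β t := by
  have hr := r1_pos
  have hr' := r1_lt
  have hp := pi_pos
  unfold w
  have hcos : ∀ τ ∈ Icc t (π / 2), 0 < cos (β - τ) := by
    intro τ hτ
    apply cos_pos''; rw [abs_lt]
    constructor <;> linarith [hτ.1, hτ.2]
  have e1 : ∫ τ in t..(π / 2), phc (β - τ) τ = Fe β (π / 2) - Fe β t := by
    rw [← int_line ht hcos]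
    apply intervalIntegral.integral_congr
    intro τ hτ
    rw [uIcc_of_le ht] at hτ
    simp only [phc]
    rw [max_eq_left]
    linarith [hτ.2]
  rw [e1]
  have hsin : 0 < sin β := sin_pos_of_pos_of_lt_pi (by linarith) (by linarith)
  have e2 : tan (β - π / 2) = - (cos β / sin β) := by
    rw [tan_eq_sin_div_cos, sin_sub_pi_div_two, cos_sub_pi_div_two]; ring
  unfold Fe C2
  rw [e2, cos_pi_div_two]
  field_simp
  ring

end Pool.Agent.FPU.J
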