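import Pool.Agent.FPU.J3

/-!
# FPU.J4 (helper15)

The value function of the field is nonincreasing in the label `β`.
-/

set_option autoImplicit false

open MeasureTheory Set Real

noncomputable section

namespace Pool.Agent.FPU.J

open Pool.Agent.FPX.UMP (RR)

lemma Fe_deriv_beta {β t : ℝ} (h : 0 < cos (β - t)) :
    HasDerivAt (fun β => Fe β t) (-(tan (β - t) + tan (β - t) ^ 3)
      + kk * (sin β * tan (β - t) - 1 / 2 * cos β * tan (β - t) ^ 2)) β := by
  have hl : HasDerivAt (fun β : ℝ => β - t) 1 β := by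
    simpa using (hasDerivAt_id β).sub_const t
  have ht : HasDerivAt (fun β : ℝ => tan (β - t)) ((1 / cos (β - t)) ^ 2 * 1) β :=
    HasDerivAt.comp (h₂ := tan) (h := fun β : ℝ => β - t) β (hasDerivAt_tan' h) hl
  have hR : HasDerivAt (fun β : ℝ => RR (β - t)) ((1 / cos (β - t)) ^ 3 * 1) β :=
    HasDerivAt.comp (h₂ := RR) (h := fun β : ℝ => β - t) β (hasDerivAt_RR h) hl
  have hc := Real.hasDerivAt_cos β
  have hs' := Real.hasDerivAt_sin β
  have h1 := ((ht.pow 2).const_mul (-(1 / 2))).sub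
    (((((hR.const_mul (cos t)).neg).add (hc.mul ht)).add
      ((hs'.const_mul (1 / 2)).mul (ht.pow 2))).const_mul kk)
  have e : -(tan (β - t) + tan (β - t) ^ 3)
      + kk * (sin β * tan (β - t) - 1 / 2 * cos β * tan (β - t) ^ 2)
      = -(1 / 2) * (((2:ℕ):ℝ) * tan (β - t) ^ (2 - 1) * ((1 / cos (β - t)) ^ 2 * 1))
        - kk * (-(cos t * ((1 / cos (β - t)) ^ 3 * 1))
          + (-sin β * tan (β - t) + cos β * ((1 / cos (β - t)) ^ 2 * 1))
          + (1 / 2 * cos β * tan (β - t) ^ 2 + 1 / 2 * sin β *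
            (((2:ℕ):ℝ) * tan (β - t) ^ (2 - 1) * ((1 / cos (β - t)) ^ 2 * 1)))) := by
    have hs := sec_sq h
    set S := 1 / cos (β - t) with hS
    have hct : cos t * S = cos β + sin β * tan (β - t) := by
      have : cos t = cos β * cos (β - t) + sin β * sin (β - t) := by
        have := cos_sub β (β - t)
        rw [← this]; ring_nf
      rw [this, hS, tan_eq_sin_div_cos]
      field_simp
    have e1 : tan (β - t) + tan (β - t) ^ 3 = tan (β - t) * S ^ 2 := by rw [hs]; ring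
    have e2 : cos t * (S ^ 3 * 1) = (cos β + sin β * tan (β - t)) * S ^ 2 := by
      rw [← hct]; ring
    rw [e1, e2, hs]
    push_cast
    ring
  rw [e]
  exact h1

/-- the bracket for `β ≤ π/2 - r1` -/
def K1 (σ β : ℝ) : ℝ :=
  1 + σ ^ 2 - σ * g1 + g1 ^ 2 - kk * sin β + 1 / 2 * kk * cos β * (σ - g1)

/-- the bracket for `β ≥ π/2 - r1`, `γ = cot β` -/
def K2 (σ γ β : ℝ) : ℝ :=
  1 + σ ^ 2 - σ * γ + γ ^ 2 - kk * sin β + 1 / 2 * kk * cos β * (σ - γ)

lemma C1_deriv (β : ℝ) : HasDerivAt C1 (-(kk * g1 * sin β) - 1 / 2 * kk * g1 ^ 2 * cos β + T1) β := by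
  have hc := Real.hasDerivAt_cos β
  have hs := Real.hasDerivAt_sin β
  have hl : HasDerivAt (fun β : ℝ => π / 2 - β - r1) (-1) β := by
    simpa using ((hasDerivAt_id β).const_sub (π / 2)).sub_const r1
  have h := (((hasDerivAt_const β (-(1 / 2) * g1 ^ 2)).add (hc.const_mul (kk * g1))).sub
    (hs.const_mul (1 / 2 * kk * g1 ^ 2))).sub (hl.const_mul T1)
  have e : -(kk * g1 * sin β) - 1 / 2 * kk * g1 ^ 2 * cos β + T1
      = 0 + kk * g1 * -sin β - 1 / 2 * kk * g1 ^ 2 * cos β - T1 * -1 := by ring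
  rw [e]; exact h

lemma W1_deriv {β t : ℝ} (h : 0 < cos (β - t)) :
    HasDerivAt (fun β => C1 β - Fe β t) ((tan (β - t) + g1) * K1 (tan (β - t)) β) β := by
  have h1 := (C1_deriv β).sub (Fe_deriv_beta (t := t) h)
  have e : (tan (β - t) + g1) * K1 (tan (β - t)) β
      = -(kk * g1 * sin β) - 1 / 2 * kk * g1 ^ 2 * cos β + T1 - (-(tan (β - t) + tan (β - t) ^ 3)
      + kk * (sin β * tan (β - t) - 1 / 2 * cos β * tan (β - t) ^ 2)) := by
    unfold K1 T1; ring
  rw [e]; exact h1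

lemma C2_deriv {β : ℝ} (h : 0 < sin β) :
    HasDerivAt C2 (cos β / sin β + (cos β / sin β) ^ 3 - kk * cos β
      - 1 / 2 * kk * cos β * (cos β / sin β) ^ 2) β := by
  have hc := Real.hasDerivAt_cos β
  have hs := Real.hasDerivAt_sin β
  have hq : HasDerivAt (fun β => cos β / sin β) ((-sin β * sin β - cos β * cos β) / sin β ^ 2) β :=
    hc.div hs h.ne'
  have h1 := ((hq.pow 2).const_mul (-(1 / 2))).add ((hc.const_mul (1 / 2 * kk)).mul hq)
  have e : cos β / sin β + (cos β / sin β) ^ 3 - kk * cos β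
      - 1 / 2 * kk * cos β * (cos β / sin β) ^ 2
      = -(1 / 2) * (((2:ℕ):ℝ) * (cos β / sin β) ^ (2 - 1) *
        ((-sin β * sin β - cos β * cos β) / sin β ^ 2))
        + (1 / 2 * kk * -sin β * (cos β / sin β) + 1 / 2 * kk * cos β *
          ((-sin β * sin β - cos β * cos β) / sin β ^ 2)) := by
    have h2 : (-sin β * sin β - cos β * cos β) / sin β ^ 2 = -(1 + (cos β / sin β) ^ 2) := by
      field_simp; ring
    have h3 : sin β * (cos β / sin β) = cos β := by field_simp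
    have h4 : 1 / 2 * kk * -sin β * (cos β / sin β) = -(1 / 2 * kk * cos β) := by
      rw [← h3]; field_simp
    rw [h2, h4]
    push_cast
    ring
  rw [e]; exact h1

lemma W2_deriv {β t : ℝ} (hs : 0 < sin β) (h : 0 < cos (β - t)) :
    HasDerivAt (fun β => C2 β - Fe β t)
      ((tan (β - t) + cos β / sin β) * K2 (tan (β - t)) (cos β / sin β) β) β := by
  have h1 := (C2_deriv hs).sub (Fe_deriv_beta (t := t) h)
  have e : (tan (β - t) + cos β / sin β) * K2 (tan (β - t)) (cos β / sin β) β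
      = cos β / sin β + (cos β / sin β) ^ 3 - kk * cos β
      - 1 / 2 * kk * cos β * (cos β / sin β) ^ 2 - (-(tan (β - t) + tan (β - t) ^ 3)
      + kk * (sin β * tan (β - t) - 1 / 2 * cos β * tan (β - t) ^ 2)) := by
    have h3 : sin β * (cos β / sin β) = cos β := by field_simp
    set γ := cos β / sin β with hγ
    unfold K2
    have h4 : kk * sin β * γ = kk * cos β := by rw [mul_assoc, h3]
    linear_combination (-1) * h4
  rw [e]; exact h1

/-! ### sign of the brackets -/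

/-- the time `arcsin (1/k)` -/
def t1 : ℝ := arcsin (9 / 8 * g0)

lemma sin_t1 : sin t1 = 9 / 8 * g0 := by
  have h1 := g0_pos; have h2 := g0_ub
  exact sin_arcsin (by linarith) (by linarith)

lemma kk_sin_t1 : kk * sin t1 = 1 := by
  rw [sin_t1]; unfold kk; have := g0_sq; nlinarith

lemma cos_t1_pos : 0 < cos t1 := by
  have h2 := sin_t1
  have h3 := g0_sq
  have h4 : 0 ≤ cos t1 := cos_arcsin_nonneg _
  have h5 := sin_sq_add_cos_sq t1
  rcases eq_or_lt_of_le h4 with h | h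
  · rw [← h, h2] at h5
    nlinarith
  · exact h

lemma cos_t1_sq : cos t1 ^ 2 = 37 / 64 := by
  have h5 := sin_sq_add_cos_sq t1
  rw [sin_t1] at h5
  have := g0_sq
  nlinarith

/-- `κ = k cos t1 = √(37/27)` -/
def ka : ℝ := kk * cos t1

lemma ka_sq : ka ^ 2 = 37 / 27 := by
  unfold ka; rw [mul_pow, kk_sq, cos_t1_sq]; norm_num

lemma ka_pos : 0 < ka := mul_pos kk_pos cos_t1_pos

lemma ka_lb : 1.1706 < ka := by
  have h := ka_sq; have h' := ka_pos
  nlinarith

lemma ka_ub : ka < 1.17064 := by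
  have h := ka_sq; have h' := ka_pos
  nlinarith

lemma t1_pos : 0 < t1 := by
  apply arcsin_pos.2; have := g0_pos; linarith

lemma t1_lt : t1 < π / 2 := by
  apply arcsin_lt_pi_div_two.2; have := g0_ub; linarith

lemma sin_shift (β : ℝ) : kk * sin β = cos (β - t1) + ka * sin (β - t1) := by
  have : sin β = sin t1 * cos (β - t1) + cos t1 * sin (β - t1) := by
    rw [← sin_add]; ring_nf
  rw [this]
  unfold ka
  linear_combination cos (β - t1) * kk_sin_t1

lemma cos_shift (β : ℝ) : kk * cos β = ka * cos (β - t1) - sin (β - t1) := by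
  have : cos β = cos t1 * cos (β - t1) - sin t1 * sin (β - t1) := by
    rw [← cos_add]; ring_nf
  rw [this]
  unfold ka
  linear_combination (-1) * sin (β - t1) * kk_sin_t1

/-- the bound of `x = β - t1` -/
lemma tan_x_le {β : ℝ} (h1 : t1 ≤ β) (h2 : β ≤ π / 2 - r1) :
    tan (β - t1) ≤ 0.5417 ∧ sin (β - t1) ≤ 0.5417 ∧ 0 < cos (β - t1) ∧ 0 ≤ sin (β - t1) := by
  have hr := r1_pos
  have hp := pi_pos
  have ht := t1_pos
  have hc : 0 < cos (β - t1) := by
    apply cos_pos''; rw [abs_of_nonneg (by linarith)]; linarith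
  have hs : 0 ≤ sin (β - t1) := sin_nonneg_of_nonneg_of_le_pi (by linarith) (by linarith)
  have h3 : 0 ≤ cos (β + r1) := cos_nonneg_of_neg_pi_div_two_le_of_le (by linarith) (by linarith)
  rw [cos_add] at h3
  have h4 : sin r1 = g1 * cos r1 := by
    rw [← tan_r1, tan_eq_sin_div_cos]; field_simp [cos_r1_pos.ne']
  rw [h4] at h3
  have h5 : 0 ≤ cos β - sin β * g1 := by
    have hc1 := cos_r1_pos
    by_contra hneg
    push Not at hneg
    nlinarith
  have h6 : 0 ≤ (ka - g1) * cos (β - t1) - (1 + g1 * ka) * sin (β - t1) := by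
    have e : (ka - g1) * cos (β - t1) - (1 + g1 * ka) * sin (β - t1)
      = kk * cos β - kk * sin β * g1 := by rw [cos_shift, sin_shift]; ring
    rw [e]
    have := mul_nonneg kk_pos.le h5
    linarith
  have hka := ka_lb; have hka' := ka_ub
  have hg := g1_lb; have hg' := g1_ub
  have h7 : tan (β - t1) ≤ 0.5417 := by
    rw [tan_eq_sin_div_cos, div_le_iff₀ hc]
    have a0 : 1.45056 ≤ 1 + g1 * ka := by nlinarith
    have a1 : (ka - g1) * cos (β - t1) ≤ 0.78574 * cos (β - t1) :=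
      mul_le_mul_of_nonneg_right (by linarith) hc.le
    have a2 : 1.45056 * sin (β - t1) ≤ (1 + g1 * ka) * sin (β - t1) :=
      mul_le_mul_of_nonneg_right a0 hs
    nlinarith
  refine ⟨h7, ?_, hc, hs⟩
  have h8 : sin (β - t1) = tan (β - t1) * cos (β - t1) := by
    rw [tan_eq_sin_div_cos]; field_simp
  rw [h8]
  have := cos_le_one (β - t1)
  have h9 : 0 ≤ tan (β - t1) := by rw [tan_eq_sin_div_cos]; positivity
  nlinarith

lemma K1_lower {β : ℝ} (h1 : t1 ≤ β) (h2 : β ≤ π / 2 - r1) : K1 (-g1) β ≤ 0 := by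
  obtain ⟨ha, hb, hc, hd⟩ := tan_x_le h1 h2
  have e : K1 (-g1) β = 13 / 9 - (1 + g1 * ka) * cos (β - t1) - (ka - g1) * sin (β - t1) := by
    unfold K1
    have h3 := sin_shift β
    have h4 := cos_shift β
    have h5 := g1_sq
    have : 1 + (-g1) ^ 2 - -g1 * g1 + g1 ^ 2 - kk * sin β + 1 / 2 * kk * cos β * (-g1 - g1)
      = 1 + 3 * g1 ^ 2 - kk * sin β - g1 * (kk * cos β) := by ring
    rw [this, h3, h4, h5]; ring
  rw [e]
  have hka := ka_lb; have hka' := ka_ub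
  have hg := g1_lb; have hg' := g1_ub
  have hy := sin_sq_add_cos_sq (β - t1)
  have hc1 := cos_le_one (β - t1)
  set y := sin (β - t1) with hydef
  set x := cos (β - t1) with hxdef
  have h6 : 1 - y ^ 2 ≤ x := by nlinarith
  have h7 : 1.4505 ≤ 1 + g1 * ka := by nlinarith
  have h8 : 0.7856 ≤ ka - g1 := by linarith
  have h9 : 1.4505 * (1 - y ^ 2) ≤ (1 + g1 * ka) * x := by
    have : 1.4505 * (1 - y ^ 2) ≤ 1.4505 * x := by linarith
    have : 1.4505 * x ≤ (1 + g1 * ka) * x := mul_le_mul_of_nonneg_right h7 hc.le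
    linarith
  have h10 : 0.7856 * y ≤ (ka - g1) * y := mul_le_mul_of_nonneg_right h8 hd
  nlinarith

lemma K1_upper {β : ℝ} (h1 : t1 ≤ β) (h2 : β ≤ π / 2 - r1) : K1 (tan (β - t1)) β ≤ 0 := by
  obtain ⟨ha, hb, hc, hd⟩ := tan_x_le h1 h2
  have hs : sin (β - t1) = tan (β - t1) * cos (β - t1) := by
    rw [tan_eq_sin_div_cos]; field_simp
  have h9 : 0 ≤ tan (β - t1) := by rw [tan_eq_sin_div_cos]; positivity
  have hsec := sec_sq hc
  have e : K1 (tan (β - t1)) β = 31 / 27 + tan (β - t1) ^ 2 - tan (β - t1) * g1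
      - cos (β - t1) * (1 + 1 / 2 * (g1 * ka) + 1 / 2 * ka * tan (β - t1)
        - 1 / 2 * g1 * tan (β - t1) + 1 / 2 * tan (β - t1) ^ 2) := by
    unfold K1
    have h3 := sin_shift β
    have h4 := cos_shift β
    have h5 := g1_sq
    have : 1 + tan (β - t1) ^ 2 - tan (β - t1) * g1 + g1 ^ 2 - kk * sin β
        + 1 / 2 * kk * cos β * (tan (β - t1) - g1)
      = 1 + tan (β - t1) ^ 2 - tan (β - t1) * g1 + g1 ^ 2 - kk * sin β
        + 1 / 2 * (kk * cos β) * (tan (β - t1) - g1) := by ring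
    rw [this, h3, h4, h5, hs]; ring
  rw [e]
  have hka := ka_lb; have hka' := ka_ub
  have hg := g1_lb; have hg' := g1_ub
  set q := tan (β - t1) with hq
  set x := cos (β - t1) with hx
  have hx2 : x ^ 2 * (1 + q ^ 2) = 1 := by
    rw [← hsec]; field_simp
  have h6 : 1 - q ^ 2 / 2 ≤ x := by
    by_contra hneg
    push Not at hneg
    have hq2 : q ^ 2 ≤ 0.3 := by nlinarith
    have h7 : x ^ 2 < (1 - q ^ 2 / 2) ^ 2 := by
      apply pow_lt_pow_left₀ hneg hc.le (by norm_num)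
    have h8 : (1 - q ^ 2 / 2) ^ 2 * (1 + q ^ 2) ≤ 1 := by
      nlinarith [sq_nonneg q, pow_nonneg h9 4, mul_nonneg (sq_nonneg (q^2)) (sub_nonneg.2 hq2)]
    nlinarith [sq_nonneg q]
  have h7 : 1.22525 + 0.39284 * q + 1 / 2 * q ^ 2 ≤ 1 + 1 / 2 * (g1 * ka) + 1 / 2 * ka * q
        - 1 / 2 * g1 * q + 1 / 2 * q ^ 2 := by
    have : 0.4505 ≤ g1 * ka := by nlinarith
    nlinarith
  have h8 : (1 - q ^ 2 / 2) * (1.22525 + 0.39284 * q + 1 / 2 * q ^ 2)
      ≤ x * (1 + 1 / 2 * (g1 * ka) + 1 / 2 * ka * q - 1 / 2 * g1 * q + 1 / 2 * q ^ 2) := by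
    apply mul_le_mul h6 h7 (by positivity) hc.le
  have h10 : 31 / 27 + q ^ 2 - q * 0.3849 ≤ (1 - q ^ 2 / 2) * (1.22525 + 0.39284 * q + 1 / 2 * q ^ 2) := by
    nlinarith [mul_nonneg h9 (sub_nonneg.2 ha), mul_nonneg (mul_nonneg h9 h9) (sub_nonneg.2 ha),
      mul_nonneg (mul_nonneg (mul_nonneg h9 h9) h9) (sub_nonneg.2 ha)]
  nlinarith

lemma K1_nonpos {β σ : ℝ} (h1 : t1 ≤ β) (h2 : β ≤ π / 2 - r1) (h3 : -g1 ≤ σ)
    (h4 : σ ≤ tan (β - t1)) : K1 σ β ≤ 0 := by
  have ha := K1_lower h1 h2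
  have hb := K1_upper h1 h2
  obtain ⟨_, _, hc, hd⟩ := tan_x_le h1 h2
  have h9 : 0 ≤ tan (β - t1) := by rw [tan_eq_sin_div_cos]; positivity
  have hg := g1_pos
  have key : K1 σ β * (tan (β - t1) + g1) = (tan (β - t1) + g1) * ((σ + g1) * (σ - tan (β - t1)))
      + K1 (-g1) β * (tan (β - t1) - σ) + K1 (tan (β - t1)) β * (σ + g1) := by
    unfold K1; ring
  have h5 : (tan (β - t1) + g1) * ((σ + g1) * (σ - tan (β - t1))) ≤ 0 := by
    apply mul_nonpos_of_nonneg_of_nonpos (by linarith)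
    apply mul_nonpos_of_nonneg_of_nonpos (by linarith) (by linarith)
  have h6 : K1 (-g1) β * (tan (β - t1) - σ) ≤ 0 :=
    mul_nonpos_of_nonpos_of_nonneg ha (by linarith)
  have h7 : K1 (tan (β - t1)) β * (σ + g1) ≤ 0 :=
    mul_nonpos_of_nonpos_of_nonneg hb (by linarith)
  by_contra hneg
  push Not at hneg
  have : 0 < K1 σ β * (tan (β - t1) + g1) := mul_pos hneg (by linarith)
  linarith

lemma K2_g0 {β γ : ℝ} (hγ0 : 0 ≤ γ) (hγ1 : γ ≤ g1) (hs : 0 < sin β) (hc : cos β = γ * sin β) :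
    K2 g0 γ β ≤ 0 := by
  have h := sin_sq_add_cos_sq β
  rw [hc] at h
  have hk := kk_lb
  have hg0 := g0_sq
  have hg := g0_pos
  have hgl := g0_lb
  have hgu := g0_ub
  have hg1 := g1_ub
  unfold K2
  rw [hc]
  set x := sin β with hx
  have hx2 : x ^ 2 * (1 + γ ^ 2) = 1 := by linarith
  have h6 : 1 - γ ^ 2 / 2 ≤ x := by
    by_contra hneg
    push Not at hneg
    have hq2 : γ ^ 2 ≤ 0.3 := by nlinarith
    have h7 : x ^ 2 < (1 - γ ^ 2 / 2) ^ 2 := by
      apply pow_lt_pow_left₀ hneg hs.le (by norm_num)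
    have h8 : (1 - γ ^ 2 / 2) ^ 2 * (1 + γ ^ 2) ≤ 1 := by
      nlinarith [sq_nonneg γ, pow_nonneg hγ0 4, mul_nonneg (sq_nonneg (γ^2)) (sub_nonneg.2 hq2)]
    nlinarith [sq_nonneg γ]
  have h11 : 0 ≤ 1 - γ / 2 * (g0 - γ) := by nlinarith
  have h12 : 1.5396 * (1 - γ ^ 2 / 2) * (1 - γ / 2 * (g0 - γ)) ≤ kk * x * (1 - γ / 2 * (g0 - γ)) := by
    apply mul_le_mul_of_nonneg_right _ h11
    have : 0 ≤ 1 - γ ^ 2 / 2 := by nlinarith
    nlinarith
  have h13 : 1 + g0 ^ 2 - g0 * γ + γ ^ 2 ≤ 1.5396 * (1 - γ ^ 2 / 2) * (1 - γ / 2 * (g0 - γ)) := by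
    rw [hg0]
    nlinarith [mul_nonneg hγ0 (sub_nonneg.2 hγ1), mul_nonneg hγ0 hγ0,
      mul_nonneg (mul_nonneg hγ0 hγ0) hγ0, mul_nonneg hγ0 hg.le]
  nlinarith

lemma K2_nonpos {β γ σ : ℝ} (hγ0 : 0 ≤ γ) (hγ1 : γ ≤ g1) (hs : 0 < sin β) (hc : cos β = γ * sin β)
    (h3 : -γ ≤ σ) (h4 : σ ≤ g0) : K2 σ γ β ≤ 0 := by
  have hb := K2_g0 hγ0 hγ1 hs hc
  have hg := g0_pos
  have hk := kk_lb
  have ha : K2 (-γ) γ β ≤ 0 := by
    have h := sin_sq_add_cos_sq β
    have h1 := sin_le_one β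
    unfold K2
    rw [hc] at h ⊢
    have hgg : γ ^ 2 ≤ 4 / 27 := by rw [← g1_sq]; exact pow_le_pow_left₀ hγ0 hγ1 2
    have e : kk * sin β + kk * (γ * sin β) * γ = kk / sin β := by
      field_simp
      nlinarith
    have e2 : kk ≤ kk / sin β := by
      rw [le_div_iff₀ hs]; nlinarith
    nlinarith
  have key : K2 σ γ β * (g0 + γ) = (g0 + γ) * ((σ + γ) * (σ - g0))
      + K2 (-γ) γ β * (g0 - σ) + K2 g0 γ β * (σ + γ) := by
    unfold K2; ring
  have h5 : (g0 + γ) * ((σ + γ) * (σ - g0)) ≤ 0 := by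
    apply mul_nonpos_of_nonneg_of_nonpos (by linarith)
    apply mul_nonpos_of_nonneg_of_nonpos (by linarith) (by linarith)
  have h6 : K2 (-γ) γ β * (g0 - σ) ≤ 0 :=
    mul_nonpos_of_nonpos_of_nonneg ha (by linarith)
  have h7 : K2 g0 γ β * (σ + γ) ≤ 0 :=
    mul_nonpos_of_nonpos_of_nonneg hb (by linarith)
  by_contra hneg
  push Not at hneg
  have : 0 < K2 σ γ β * (g0 + γ) := mul_pos hneg (by linarith)
  linarith

end Pool.Agent.FPU.J
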