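import Pool.Agent.FPU.J4

/-!
# FPU.J5 (helper15)

Monotonicity of the value function in the label and the comparison theorem.
-/

set_option autoImplicit false

open MeasureTheory Set Real

noncomputable section

namespace Pool.Agent.FPU.J

open Pool.Agent.FPX.UMP (RR)

lemma tan_mono {a b : ℝ} (ha : -(π / 2) < a) (hab : a ≤ b) (hb : b < π / 2) : tan a ≤ tan b := by
  rcases eq_or_lt_of_le hab with h | h
  · rw [h]
  · exact (tan_lt_tan_of_lt_of_lt_pi_div_two ha hb h).le

lemma tan_neg_r1 : tan (-r1) = -g1 := by rw [tan_neg, tan_r1]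

lemma t1_lt_pi_div_three : t1 < π / 3 := by
  have hp := pi_pos
  by_contra h
  push Not at h
  have h1 : sin (π / 3) ≤ sin t1 :=
    sin_le_sin_of_le_of_le_pi_div_two (by linarith) t1_lt.le h
  rw [sin_t1, sin_pi_div_three] at h1
  have h2 := g0_ub
  have h3 : (1.7 : ℝ) ≤ √3 := by
    apply le_sqrt_of_sq_le; norm_num
  linarith

lemma pi_div_six_lt_t1 : π / 6 < t1 := by
  have hp := pi_pos
  by_contra h
  push Not at h
  have h1 : sin t1 ≤ sin (π / 6) :=
    sin_le_sin_of_le_of_le_pi_div_two (by linarith [t1_pos]) (by linarith) h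
  rw [sin_t1, sin_pi_div_six] at h1
  have h2 := g0_lb
  linarith

lemma seg_a {β b t : ℝ} (h1 : β ≤ b) (h2 : b ≤ t - r1) (ht : t ≤ π / 2) : w b t = w β t := by
  rw [w_eq0 (by linarith) ht, w_eq0 (by linarith) ht]

lemma seg_b {β b t : ℝ} (ht : t1 ≤ t) (ht2 : t ≤ π / 2) (h0 : t1 ≤ β) (h1 : t - r1 ≤ β) (h2 : β ≤ b)
    (h3 : b ≤ π / 2 - r1) : w b t ≤ w β t := by
  have hp := pi_pos
  have hr := r1_pos
  have hr' := r1_lt
  have h6 := pi_div_six_lt_t1
  rw [w_eq1 (by linarith) (by linarith) h3, w_eq1 (by linarith) (by linarith) (by linarith)]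
  have hc : ∀ x ∈ Icc β b, 0 < cos (x - t) := by
    intro x hx
    apply cos_pos''; rw [abs_lt]
    constructor <;> linarith [hx.1, hx.2]
  have key := anti_aux (f := fun x => C1 x - Fe x t) (a := β) (b := b)
    (f' := fun x => (tan (x - t) + g1) * K1 (tan (x - t)) x)
    (fun x hx => W1_deriv (hc x hx))
    (fun x hx => by
      have e1 : -g1 ≤ tan (x - t) := by
        rw [← tan_neg_r1]
        exact tan_mono (by linarith) (by linarith [hx.1]) (by linarith [hx.2])
      have e2 : tan (x - t) ≤ tan (x - t1) :=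
        tan_mono (by linarith [hx.1]) (by linarith) (by linarith [hx.2])
      apply mul_nonpos_of_nonneg_of_nonpos (by linarith)
      exact K1_nonpos (by linarith [hx.1]) (by linarith [hx.2]) e1 e2)
  exact key (left_mem_Icc.2 h2) (right_mem_Icc.2 h2) h2

lemma cot_le {β : ℝ} (h1 : π / 2 - r1 ≤ β) (h2 : β ≤ π / 2) :
    0 < sin β ∧ 0 ≤ cos β / sin β ∧ cos β / sin β ≤ g1 ∧ tan (β - π / 2) = -(cos β / sin β) := by
  have hp := pi_pos
  have hr := r1_pos
  have hr' := r1_lt
  have hs : 0 < sin β := sin_pos_of_pos_of_lt_pi (by linarith) (by linarith)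
  have hc : 0 ≤ cos β := cos_nonneg_of_neg_pi_div_two_le_of_le (by linarith) h2
  have h3 : cos (β + r1) ≤ 0 := by
    apply cos_nonpos_of_pi_div_two_le_of_le <;> linarith
  rw [cos_add] at h3
  have h4 : sin r1 = g1 * cos r1 := by
    rw [← tan_r1, tan_eq_sin_div_cos]; field_simp [cos_r1_pos.ne']
  rw [h4] at h3
  have h5 : cos β - sin β * g1 ≤ 0 := by
    have hc1 := cos_r1_pos
    by_contra hneg
    push Not at hneg
    nlinarith
  refine ⟨hs, by positivity, ?_, ?_⟩
  · rw [div_le_iff₀ hs]; linarith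
  · rw [tan_eq_sin_div_cos, sin_sub_pi_div_two, cos_sub_pi_div_two]; ring

lemma seg_c {β b t : ℝ} (ht : t1 ≤ t) (ht2 : t ≤ π / 2) (h1 : π / 2 - r1 ≤ β) (h2 : β ≤ b)
    (h3 : b ≤ π / 2) (h4 : b - t ≤ π / 6) : w b t ≤ w β t := by
  have hp := pi_pos
  have hr := r1_pos
  have hr' := r1_lt
  have h6 := pi_div_six_lt_t1
  rw [w_eq2 ht2 (by linarith) (by linarith) h3, w_eq2 ht2 (by linarith) h1 (by linarith)]
  have hc : ∀ x ∈ Icc β b, 0 < cos (x - t) := by
    intro x hx
    apply cos_pos''; rw [abs_lt]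
    constructor <;> linarith [hx.1, hx.2]
  have key := anti_aux (f := fun x => C2 x - Fe x t) (a := β) (b := b)
    (f' := fun x => (tan (x - t) + cos x / sin x) * K2 (tan (x - t)) (cos x / sin x) x)
    (fun x hx => W2_deriv (cot_le (by linarith [hx.1]) (by linarith [hx.2])).1 (hc x hx))
    (fun x hx => by
      obtain ⟨hs, hg0, hg1, htan⟩ := cot_le (β := x) (by linarith [hx.1]) (by linarith [hx.2])
      have e1 : -(cos x / sin x) ≤ tan (x - t) := by
        rw [← htan]
        exact tan_mono (by linarith [hx.1]) (by linarith) (by linarith [hx.2])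
      have e2 : tan (x - t) ≤ g0 := tan_le_g0 (by linarith [hx.2]) (by linarith [hx.1])
      apply mul_nonpos_of_nonneg_of_nonpos (by linarith)
      exact K2_nonpos hg0 hg1 hs (by field_simp) e1 e2)
  exact key (left_mem_Icc.2 h2) (right_mem_Icc.2 h2) h2

/-- the value function is nonincreasing in the label -/
theorem w_anti {β b t : ℝ} (ht : t1 ≤ t) (ht2 : t ≤ π / 2) (h0 : t1 ≤ β) (h2 : β ≤ b)
    (h3 : b ≤ π / 2) (h4 : b - t ≤ π / 6) : w b t ≤ w β t := by
  by_cases hb : b ≤ t - r1
  · exact (seg_a h2 hb ht2).le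
  · push Not at hb
    -- move up to the cap line
    have s1 : w (max β (t - r1)) t ≤ w β t := by
      rcases le_total β (t - r1) with h | h
      · rw [max_eq_right h]; exact (seg_a h le_rfl ht2).le
      · rw [max_eq_left h]
    have hm : max β (t - r1) ≤ b := max_le h2 hb.le
    have hm1 : t - r1 ≤ max β (t - r1) := le_max_right _ _
    have hm0 : t1 ≤ max β (t - r1) := h0.trans (le_max_left _ _)
    refine le_trans ?_ s1
    rcases le_total b (π / 2 - r1) with h | h
    · exact seg_b ht ht2 hm0 hm1 hm h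
    · rcases le_total (max β (t - r1)) (π / 2 - r1) with h' | h'
      · exact (seg_c ht ht2 le_rfl h h3 h4).trans (seg_b ht ht2 hm0 hm1 h' le_rfl)
      · exact seg_c ht ht2 h' hm h3 h4

/-! ### Lipschitz bounds -/

lemma ph_lip {s s' t : ℝ} (h1 : s ∈ Icc (-(π / 6)) (π / 6)) (h2 : s' ∈ Icc (-(π / 6)) (π / 6)) :
    |ph s t - ph s' t| ≤ 6 * |s - s'| := by
  have hp := pi_pos
  have hc : ∀ x ∈ Icc (-(π / 6)) (π / 6), 0 < cos x := by
    intro x hx; apply cos_pos'; rw [abs_le]; exact hx
  have := Convex.norm_image_sub_le_of_norm_hasDerivWithin_le (𝕜 := ℝ) (C := 6)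
    (f := fun s => ph s t)
    (f' := fun s => (1 + 3 * tan s ^ 2) * (1 / cos s) ^ 2 - kk * sin t * (1 / cos s) ^ 3)
    (s := Icc (-(π / 6)) (π / 6)) (x := s') (y := s)
    (fun x hx => (hasDerivAt_ph t (hc x hx)).hasDerivWithinAt)
    (fun x hx => by
      have hcx := hc x hx
      have hs := sec_sq hcx
      have hS1 := sec_ge_one hcx
      have ht1 : tan x ≤ g0 := tan_le_g0 hx.2 (by linarith [hx.1])
      have ht2 : -g0 ≤ tan x := by
        rw [← tan_pi_div_six', ← tan_neg]
        exact tan_mono (by linarith) hx.1 (by linarith [hx.2])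
      have ht3 : tan x ^ 2 ≤ 1 / 3 := by
        rw [← g0_sq]; apply sq_le_sq'; linarith; linarith
      have hk := kk_ub; have hk' := kk_pos
      have hsi := abs_le.1 (abs_sin_le_one t)
      simp only [Real.norm_eq_abs]
      set S := 1 / cos x with hS
      have hS2 : S ^ 2 ≤ 4 / 3 := by linarith
      have hS3 : S ≤ 1.16 := by nlinarith
      have hS4 : 0 ≤ S ^ 3 := by positivity
      have hS5 : S ^ 3 ≤ 1.55 := by
        have : S ^ 3 = S ^ 2 * S := by ring
        rw [this]; nlinarith
      have h7 : |kk * sin t * S ^ 3| ≤ 1.54 * 1.55 := by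
        rw [abs_mul, abs_mul, abs_of_pos hk', abs_of_nonneg hS4]
        have : kk * |sin t| ≤ 1.54 := by
          have := abs_sin_le_one t
          have := abs_nonneg (sin t)
          nlinarith
        apply mul_le_mul this hS5 hS4 (by norm_num)
      have h8 : |(1 + 3 * tan x ^ 2) * S ^ 2| ≤ 2 * (4 / 3) := by
        rw [abs_of_nonneg (by positivity)]
        apply mul_le_mul (by linarith) hS2 (by positivity) (by norm_num)
      calc |(1 + 3 * tan x ^ 2) * S ^ 2 - kk * sin t * S ^ 3|
          ≤ |(1 + 3 * tan x ^ 2) * S ^ 2| + |kk * sin t * S ^ 3| := abs_sub _ _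
        _ ≤ 6 := by norm_num at h7 h8 ⊢; linarith)
    (convex_Icc _ _) h2 h1
  simpa [Real.norm_eq_abs] using this

lemma phc_lip {s s' t : ℝ} (h1 : s ≤ π / 6) (h2 : s' ≤ π / 6) :
    |phc s t - phc s' t| ≤ 6 * |s - s'| := by
  have hr := r1_pos; have hr' := r1_lt; have hp := pi_pos
  unfold phc
  refine (ph_lip (t := t) ⟨?_, ?_⟩ ⟨?_, ?_⟩).trans ?_
  · have := le_max_right s (-r1); linarith
  · apply max_le h1; linarith
  · have := le_max_right s' (-r1); linarith
  · apply max_le h2; linarith
  · have := abs_max_sub_max_le_abs s s' (-r1)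
    linarith

lemma quad_anti {G : ℝ → ℝ} {a b C : ℝ} (hab : a ≤ b)
    (h : ∀ x ∈ Icc a b, ∀ y ∈ Icc a b, x ≤ y → G y - G x ≤ C * (y - x) ^ 2) : G b ≤ G a := by
  by_contra hneg
  push Not at hneg
  obtain ⟨n, hn⟩ := exists_nat_gt (C * (b - a) ^ 2 / (G b - G a))
  have hpos : 0 < G b - G a := by linarith
  -- n + 1 pieces
  set N : ℕ := n + 1 with hN
  have hN0 : (0:ℝ) < N := by positivity
  have hstep : ∀ i ∈ Finset.range N, G (a + ((i + 1 : ℕ) : ℝ) * ((b - a) / N)) -
      G (a + (i : ℝ) * ((b - a) / N)) ≤ C * ((b - a) / N) ^ 2 := by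
    intro i hi
    have hi' : i < N := Finset.mem_range.1 hi
    have hi2 : ((i:ℝ) + 1) ≤ N := by exact_mod_cast hi'
    have hd : 0 ≤ (b - a) / N := div_nonneg (by linarith) hN0.le
    have hd2 : (N:ℝ) * ((b - a) / N) = b - a := by field_simp
    have e := h (a + (i : ℝ) * ((b - a) / N)) ⟨by
        have : (0:ℝ) ≤ (i:ℝ) * ((b - a) / N) := by positivity
        linarith, by
        have : (i:ℝ) * ((b - a) / N) ≤ N * ((b - a) / N) :=
          mul_le_mul_of_nonneg_right (by linarith) hd
        linarith⟩ (a + ((i + 1 : ℕ) : ℝ) * ((b - a) / N)) ⟨by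
        have : (0:ℝ) ≤ ((i + 1 : ℕ):ℝ) * ((b - a) / N) := by positivity
        linarith, by
        have : ((i + 1 : ℕ):ℝ) * ((b - a) / N) ≤ N * ((b - a) / N) :=
          mul_le_mul_of_nonneg_right (by push_cast; linarith) hd
        linarith⟩ (by push_cast; nlinarith)
    have e2 : a + ((i + 1 : ℕ) : ℝ) * ((b - a) / N) - (a + (i : ℝ) * ((b - a) / N))
        = (b - a) / N := by push_cast; ring
    rw [e2] at e
    exact e
  have hsum := Finset.sum_le_sum hstep
  rw [Finset.sum_range_sub (fun i : ℕ => G (a + (i : ℝ) * ((b - a) / N)))] at hsum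
  simp only [Finset.sum_const, Finset.card_range, nsmul_eq_mul, Nat.cast_zero, zero_mul,
    add_zero] at hsum
  have hd2 : (N:ℝ) * ((b - a) / N) = b - a := by field_simp
  rw [hd2] at hsum
  have e3 : (N:ℝ) * (C * ((b - a) / N) ^ 2) = C * (b - a) ^ 2 / N := by field_simp
  rw [e3] at hsum
  have e4 : a + (b - a) = b := by ring
  rw [e4] at hsum
  have h5 : C * (b - a) ^ 2 < (G b - G a) * N := by
    rw [div_lt_iff₀ hpos] at hn
    have : (n:ℝ) ≤ N := by rw [hN]; push_cast; linarith
    nlinarith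
  rw [le_div_iff₀ hN0] at hsum
  linarith

/-- continuity of `τ ↦ ph (u τ) τ` -/
lemma ph_comp_cont {u : ℝ → ℝ} (hu : Continuous u) (hb : ∀ τ, |u τ| ≤ π / 6) :
    Continuous (fun τ => ph (u τ) τ) := by
  rw [continuous_iff_continuousAt]
  intro τ
  have hc : 0 < cos (u τ) := cos_pos' (hb τ)
  have ht : ContinuousAt (fun τ : ℝ => tan (u τ)) τ :=
    ContinuousAt.comp (f := u) (hasDerivAt_tan' hc).continuousAt hu.continuousAt
  have hR : ContinuousAt (fun τ : ℝ => RR (u τ)) τ :=
    ContinuousAt.comp (f := u) (hasDerivAt_RR hc).continuousAt hu.continuousAt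
  unfold ph TT
  exact (ht.add (ht.pow 3)).sub ((continuousAt_const.mul continuous_sin.continuousAt).mul hR)

lemma phc_comp_cont {u : ℝ → ℝ} (hu : Continuous u) (hb : ∀ τ, u τ ≤ π / 6) :
    Continuous (fun τ => phc (u τ) τ) := by
  have hr := r1_pos; have hr' := r1_lt; have hp := pi_pos
  unfold phc
  apply ph_comp_cont (hu.max continuous_const)
  intro τ
  rw [abs_le]
  constructor
  · have := le_max_right (u τ) (-r1); linarith
  · apply max_le (hb τ); linarith

/-- comparison with the field -/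
theorem compare {h : ℝ → ℝ} (hl : ∀ x y, |h x - h y| ≤ |x - y|) (hb : ∀ t, h t ≤ π / 6)
    (hlo : ∀ t ∈ Icc t1 (π / 2), t1 ≤ t + h t) (hhi : ∀ t ∈ Icc t1 (π / 2), t + h t ≤ π / 2) :
    ∫ t in t1..(π / 2), phc (h t) t ≤ w (t1 + h t1) t1 := by
  have hp := pi_pos
  have ht1 := t1_lt
  have hcont : Continuous h := by
    have : LipschitzWith 1 h := LipschitzWith.of_dist_le_mul (fun x y => by
      rw [dist_eq, dist_eq]; simpa using hl x y)
    exact this.continuous
  have hphc := phc_comp_cont hcont hb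
  set G : ℝ → ℝ := fun t => w (t + h t) t + ∫ τ in t1..t, phc (h τ) τ with hG
  have key : G (π / 2) ≤ G t1 := by
    apply quad_anti (C := 12) ht1.le
    intro x hx y hy hxy
    have hβ : x + h x ≤ y + h y := by
      have := abs_le.1 (hl x y)
      have e : |x - y| = y - x := by rw [abs_of_nonpos (by linarith)]; ring
      rw [e] at this; linarith [this.2]
    have a1 : w (y + h y) y ≤ w (x + h x) y :=
      w_anti hy.1 hy.2 (hlo x hx) hβ (hhi y hy) (by linarith [hb y])
    -- difference in time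
    have hcl : Continuous (fun τ : ℝ => phc (min (x + h x - τ) (π / 6)) τ) :=
      phc_comp_cont (by fun_prop) (fun τ => min_le_right _ _)
    have hintx : ∀ a b, x ≤ a → x ≤ b → IntervalIntegrable (fun τ => phc (x + h x - τ) τ) volume a b := by
      intro a b ha hb'
      apply (hcl.intervalIntegrable a b).congr
      intro τ hτ
      simp only
      rw [min_eq_left]
      have : x ≤ τ := by
        rcases mem_uIoc.1 hτ with h1 | h1 <;> linarith [h1.1]
      linarith [hb x]
    have a2 : w (x + h x) y - w (x + h x) x = - ∫ τ in x..y, phc (x + h x - τ) τ := by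
      unfold w
      rw [← intervalIntegral.integral_add_adjacent_intervals (hintx x y le_rfl hxy)
        (hintx y (π / 2) hxy (by linarith [hx.2]))]
      ring
    have a3 : (∫ τ in t1..y, phc (h τ) τ) - ∫ τ in t1..x, phc (h τ) τ
        = ∫ τ in x..y, phc (h τ) τ := by
      rw [← intervalIntegral.integral_add_adjacent_intervals (hphc.intervalIntegrable t1 x)
        (hphc.intervalIntegrable x y)]
      ring
    have a4 : ∫ τ in x..y, (phc (h τ) τ - phc (x + h x - τ) τ) ≤ ∫ τ in x..y, 12 * (y - x) := by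
      apply intervalIntegral.integral_mono_on hxy
      · exact (hphc.intervalIntegrable x y).sub (hintx x y le_rfl hxy)
      · simp
      · intro τ hτ
        have b1 := phc_lip (t := τ) (s := h τ) (s' := x + h x - τ) (hb τ)
          (by linarith [hb x, hτ.1])
        have b2 := (abs_le.1 b1).2
        have b3 : |h τ - (x + h x - τ)| ≤ 2 * (y - x) := by
          have := abs_le.1 (hl τ x)
          have e : |τ - x| = τ - x := abs_of_nonneg (by linarith [hτ.1])
          rw [e] at this
          rw [abs_le]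
          constructor <;> linarith [this.1, this.2, hτ.1, hτ.2]
        linarith
    rw [intervalIntegral.integral_sub (hphc.intervalIntegrable x y) (hintx x y le_rfl hxy),
      intervalIntegral.integral_const, smul_eq_mul] at a4
    simp only [hG]
    have : (12:ℝ) * (y - x) ^ 2 = (y - x) * (12 * (y - x)) := by ring
    rw [this]
    linarith
  simp only [hG] at key
  rw [intervalIntegral.integral_same, add_zero] at key
  have : w (π / 2 + h (π / 2)) (π / 2) = 0 := by
    unfold w; exact intervalIntegral.integral_same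
  rw [this, zero_add] at key
  exact key

end Pool.Agent.FPU.J
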