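import Pool.Agent.FPU.J5

/-!
# FPU.J6 (helper15)

The left part `[0, t1]` together with the value function at `t1`.
-/

set_option autoImplicit false

open MeasureTheory Set Real

noncomputable section

namespace Pool.Agent.FPU.J

open Pool.Agent.FPX.UMP (RR)

/-- antiderivative of `t ↦ ph t t` -/
def Pp (t : ℝ) : ℝ := 1 / 2 * tan t ^ 2 - kk * (tan t - cos t * RR t)

lemma Pp_deriv {t : ℝ} (h : 0 < cos t) : HasDerivAt Pp (ph t t) t := by
  have ht := hasDerivAt_tan' h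
  have hR := hasDerivAt_RR h
  have hc := Real.hasDerivAt_cos t
  have h1 := ((ht.pow 2).const_mul (1 / 2)).sub ((ht.sub (hc.mul hR)).const_mul kk)
  have e : ph t t = 1 / 2 * (((2:ℕ):ℝ) * tan t ^ (2 - 1) * (1 / cos t) ^ 2)
      - kk * ((1 / cos t) ^ 2 - (-sin t * RR t + cos t * (1 / cos t) ^ 3)) := by
    have hs := sec_sq h
    have h2 : cos t * (1 / cos t) ^ 3 = (1 / cos t) ^ 2 := by field_simp
    rw [h2, hs]
    unfold ph TT
    push_cast
    ring
  rw [e]; exact h1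

lemma Pp_zero : Pp 0 = 0 := by unfold Pp; rw [tan_zero, RR_zero]; ring

lemma diag_contOn {a : ℝ} (ha : a < π / 2) : ContinuousOn (fun t => ph t t) (Icc 0 a) := by
  intro t ht
  have h : 0 < cos t := mem_cos ha ht
  have h1 : ContinuousAt (fun t => ph t t) t := by
    unfold ph TT
    exact ((hasDerivAt_tan' h).continuousAt.add ((hasDerivAt_tan' h).continuousAt.pow 3)).sub
      ((continuousAt_const.mul continuous_sin.continuousAt).mul (hasDerivAt_RR h).continuousAt)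
  exact h1.continuousWithinAt

lemma int_diag {a : ℝ} (h0 : 0 ≤ a) (ha : a < π / 2) : ∫ t in (0:ℝ)..a, ph t t = Pp a := by
  rw [intervalIntegral.integral_eq_sub_of_hasDerivAt (f := Pp)]
  · rw [Pp_zero, sub_zero]
  · intro t ht
    rw [uIcc_of_le h0] at ht
    exact Pp_deriv (mem_cos ha ht)
  · apply ContinuousOn.intervalIntegrable
    rw [uIcc_of_le h0]
    exact diag_contOn ha

lemma kk_sin_le {t : ℝ} (h0 : 0 ≤ t) (h1 : t ≤ t1) : kk * sin t ≤ 1 := by
  have hp := pi_pos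
  rw [← kk_sin_t1]
  apply mul_le_mul_of_nonneg_left _ kk_pos.le
  exact sin_le_sin_of_le_of_le_pi_div_two (by linarith) t1_lt.le h1

/-! ### the one parameter family, `β ≤ π/3` -/

def B1 (a : ℝ) : ℝ := tan a ^ 2 - kk * sin a ^ 2 * tan a + C1 (2 * a)

lemma B1_eq {a : ℝ} (h : 0 < cos a) : Pp a - Fe (2 * a) a = tan a ^ 2 - kk * sin a ^ 2 * tan a := by
  unfold Pp Fe
  have e0 : 2 * a - a = a := by ring
  rw [e0, cos_two_mul, sin_two_mul, tan_eq_sin_div_cos]
  have hs := sin_sq_add_cos_sq a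
  have hc2 : cos a ^ 2 = 1 - sin a ^ 2 := by linarith
  field_simp
  rw [hc2]
  ring

lemma B1_deriv {a : ℝ} (h : 0 < cos a) : HasDerivAt B1
    (2 * tan a * (1 / cos a) ^ 2 - kk * (2 * sin a * cos a * tan a + sin a ^ 2 * (1 / cos a) ^ 2)
      + 2 * (-(kk * g1 * sin (2 * a)) - 1 / 2 * kk * g1 ^ 2 * cos (2 * a) + T1)) a := by
  have ht := hasDerivAt_tan' h
  have hs := Real.hasDerivAt_sin a
  have hl : HasDerivAt (fun a : ℝ => 2 * a) 2 a := by
    simpa using (hasDerivAt_id a).const_mul (2:ℝ)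
  have hC : HasDerivAt (fun a : ℝ => C1 (2 * a))
      ((-(kk * g1 * sin (2 * a)) - 1 / 2 * kk * g1 ^ 2 * cos (2 * a) + T1) * 2) a :=
    HasDerivAt.comp (h₂ := C1) (h := fun a : ℝ => 2 * a) a (C1_deriv (2 * a)) hl
  have h1 := ((ht.pow 2).sub (((hs.pow 2).const_mul kk).mul ht)).add hC
  have e : 2 * tan a * (1 / cos a) ^ 2 - kk * (2 * sin a * cos a * tan a + sin a ^ 2 * (1 / cos a) ^ 2)
      + 2 * (-(kk * g1 * sin (2 * a)) - 1 / 2 * kk * g1 ^ 2 * cos (2 * a) + T1)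
      = ((2:ℕ):ℝ) * tan a ^ (2 - 1) * (1 / cos a) ^ 2 - (kk * (((2:ℕ):ℝ) * sin a ^ (2 - 1) * cos a)
        * tan a + kk * sin a ^ 2 * (1 / cos a) ^ 2)
        + (-(kk * g1 * sin (2 * a)) - 1 / 2 * kk * g1 ^ 2 * cos (2 * a) + T1) * 2 := by
    push_cast; ring
  rw [e]; exact h1

lemma T1_eq : T1 = 62 / 81 * g0 := by
  unfold T1
  have h := g1_sq
  have : g1 ^ 3 = g1 * g1 ^ 2 := by ring
  rw [this, h]; unfold g1; ring

lemma B1_deriv_nonneg {a : ℝ} (h0 : 0 ≤ a) (h1 : a ≤ π / 6) :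
    0 ≤ 2 * tan a * (1 / cos a) ^ 2 - kk * (2 * sin a * cos a * tan a + sin a ^ 2 * (1 / cos a) ^ 2)
      + 2 * (-(kk * g1 * sin (2 * a)) - 1 / 2 * kk * g1 ^ 2 * cos (2 * a) + T1) := by
  have hp := pi_pos
  have hc : 0 < cos a := cos_pos' (by rw [abs_of_nonneg h0]; exact h1)
  have hsec := sec_sq hc
  have hq1 : tan a ≤ g0 := tan_le_g0 h1 (by linarith)
  have hq0 : 0 ≤ tan a := tan_nonneg_of_nonneg_of_le_pi_div_two h0 (by linarith)
  have hs : sin a = tan a * cos a := by rw [tan_eq_sin_div_cos]; field_simp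
  set q := tan a with hq
  set c := cos a with hcdef
  have hc2 : c ^ 2 = 1 / (1 + q ^ 2) := by rw [← hsec]; field_simp
  have e1 : 2 * sin a * c * q = 2 * q ^ 2 / (1 + q ^ 2) := by
    rw [hs]
    have : 2 * (q * c) * c * q = 2 * q ^ 2 * c ^ 2 := by ring
    rw [this, hc2]; ring
  have e2 : sin a ^ 2 * (1 / c) ^ 2 = q ^ 2 := by rw [hs]; field_simp
  have e3 : sin (2 * a) = 2 * q / (1 + q ^ 2) := by
    rw [sin_two_mul, ← hcdef, hs]
    have : 2 * (q * c) * c = 2 * q * c ^ 2 := by ring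
    rw [this, hc2]; ring
  have e4 : cos (2 * a) = (1 - q ^ 2) / (1 + q ^ 2) := by
    rw [cos_two_mul, ← hcdef, hc2]; field_simp; ring
  rw [e1, e2, e3, e4, hsec, T1_eq]
  have hg0 := g0_sq
  have hgp := g0_pos
  -- substitute q = g0 x
  obtain ⟨x, hx⟩ : ∃ x, q = g0 * x := ⟨q / g0, by field_simp⟩
  have hx0 : 0 ≤ x := by
    by_contra hneg
    push Not at hneg
    have := mul_neg_of_pos_of_neg hgp hneg
    linarith
  have hx1 : x ≤ 1 := by
    by_contra hneg
    push Not at hneg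
    have : g0 * 1 < g0 * x := mul_lt_mul_of_pos_left hneg hgp
    linarith
  have hq2 : q ^ 2 = x ^ 2 / 3 := by rw [hx, mul_pow, hg0]; ring
  have ekg1 : kk * g1 = 16 / 27 := kk_g1
  have ekg2 : kk * g1 ^ 2 = 32 / 81 * g0 := by
    have : kk * g1 ^ 2 = (kk * g1) * g1 := by ring
    rw [this, kk_g1]; unfold g1; ring
  have e5 : 1 / 2 * kk * g1 ^ 2 = 16 / 81 * g0 := by
    have : 1 / 2 * kk * g1 ^ 2 = 1 / 2 * (kk * g1 ^ 2) := by ring
    rw [this, ekg2]; ring
  rw [ekg1, e5]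
  have ek : kk = 8 / 3 * g0 := rfl
  rw [ek]
  have hden : (0:ℝ) < 1 + q ^ 2 := by positivity
  have main : 2 * q * (1 + q ^ 2) - 8 / 3 * g0 * (2 * q ^ 2 / (1 + q ^ 2) + q ^ 2)
      + 2 * (-(16 / 27 * (2 * q / (1 + q ^ 2))) - 16 / 81 * g0 * ((1 - q ^ 2) / (1 + q ^ 2))
        + 62 / 81 * g0)
      = g0 / 81 * (2 * (3 * x + 2) * (1 - x) * (23 - 19 * x + 3 * x ^ 2 - 3 * x ^ 3)) / (1 + q ^ 2) := by
    rw [hq2, hx]
    field_simp
    ring
  rw [main]
  have h23 : 0 ≤ 23 - 19 * x + 3 * x ^ 2 - 3 * x ^ 3 := by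
    have : x ^ 3 ≤ 1 := pow_le_one₀ hx0 hx1
    nlinarith [sq_nonneg x]
  have h1x : 0 ≤ 1 - x := by linarith
  positivity

lemma sin_delta : sin (π / 6 - r1) = cos r1 / 6 := by
  have h4 : sin r1 = g1 * cos r1 := by
    rw [← tan_r1, tan_eq_sin_div_cos]; field_simp [cos_r1_pos.ne']
  rw [sin_sub, sin_pi_div_six, cos_pi_div_six, h4]
  have h3 : √3 = 3 * g0 := by
    unfold g0
    have : √3 ^ 2 = 3 := sq_sqrt (by norm_num)
    have h3p : 0 < √3 := by positivity
    field_simp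
    linarith
  rw [h3]
  have := g0_g1
  have e : 3 * g0 / 2 * (g1 * cos r1) = 3 / 2 * (g0 * g1) * cos r1 := by ring
  rw [e, this]; ring

lemma sqrt3_eq : √3 = 3 * g0 := by
  unfold g0
  have : √3 ^ 2 = 3 := sq_sqrt (by norm_num)
  have h3p : 0 < √3 := by positivity
  field_simp
  linarith

lemma delta_lb : 0.1555 ≤ π / 6 - r1 := by
  have hr := r1_pos
  have hr' := r1_lt
  have hp := pi_pos
  have h1 : sin (π / 6 - r1) ≤ π / 6 - r1 := sin_le (by linarith)
  rw [sin_delta] at h1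
  have hc := cos_r1_pos
  have h2 := sec_sq hc
  rw [tan_r1, g1_sq] at h2
  have h3 : cos r1 ^ 2 = 27 / 31 := by
    have : (1 / cos r1) ^ 2 = 1 / cos r1 ^ 2 := by rw [one_div_pow]
    rw [this] at h2
    have h5 : cos r1 ^ 2 ≠ 0 := by positivity
    field_simp at h2
    linarith
  have h4 : 0.9332 ≤ cos r1 := by nlinarith
  linarith

lemma C1_pi_div_three : 1 / 9 + C1 (π / 3) ≤ 0.1659 := by
  unfold C1
  rw [cos_pi_div_three, sin_pi_div_three, sqrt3_eq, T1_eq]
  have h1 := delta_lb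
  have h2 := g1_sq
  have h3 := kk_g1
  have h4 := g0_g1
  have h5 := g0_lb
  have e : 1 / 2 * kk * g1 ^ 2 * (3 * g0 / 2) = 3 / 4 * (kk * g1) * (g0 * g1) := by ring
  have e2 : π / 2 - π / 3 - r1 = π / 6 - r1 := by ring
  rw [e, e2, h3, h4, h2]
  nlinarith

lemma B1_le {a : ℝ} (h0 : 0 ≤ a) (h1 : a ≤ π / 6) : B1 a ≤ 0.1659 := by
  have hp := pi_pos
  have key := mono_aux (f := B1) (a := a) (b := π / 6)
    (f' := fun a => 2 * tan a * (1 / cos a) ^ 2 - kk * (2 * sin a * cos a * tan a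
      + sin a ^ 2 * (1 / cos a) ^ 2)
      + 2 * (-(kk * g1 * sin (2 * a)) - 1 / 2 * kk * g1 ^ 2 * cos (2 * a) + T1))
    (fun x hx => B1_deriv (cos_pos' (by rw [abs_of_nonneg (h0.trans hx.1)]; exact hx.2)))
    (fun x hx => B1_deriv_nonneg (h0.trans hx.1) hx.2)
  have h := key (left_mem_Icc.2 h1) (right_mem_Icc.2 h1) h1
  have e : B1 (π / 6) = 1 / 9 + C1 (π / 3) := by
    unfold B1
    have e1 : 2 * (π / 6) = π / 3 := by ring
    rw [e1, tan_pi_div_six', sin_pi_div_six, g0_sq]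
    have := kk_g0
    have e2 : kk * (1 / 2) ^ 2 * g0 = 1 / 4 * (kk * g0) := by ring
    rw [e2, this]; ring
  rw [e] at h
  exact h.trans C1_pi_div_three

/-! ### the one parameter family, `β ≥ π/3` -/

def Dd (β : ℝ) : ℝ :=
  1 / 3 - 8 / 9 + 1 / 2 * kk * (β - π / 3) + 8 / 9 * cos β + kk / 6 * sin β

lemma TT_six : TT (π / 6) = 1 / 2 * kk := by
  unfold TT kk; rw [tan_pi_div_six']
  have := g0_sq
  have e : g0 ^ 3 = g0 * g0 ^ 2 := by ring
  rw [e, this]; ring

lemma Dd_eq (β : ℝ) :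
    Pp (π / 6) + (∫ t in (π / 6)..(β - π / 6), ph (π / 6) t) - Fe β (β - π / 6) = Dd β := by
  rw [int_const, TT_six]
  unfold Pp Fe Dd
  have e0 : β - (β - π / 6) = π / 6 := by ring
  rw [e0, tan_pi_div_six', g0_sq]
  have := kk_g0
  linear_combination (-1 + cos β) * this

lemma Dd_deriv (β : ℝ) : HasDerivAt Dd (1 / 2 * kk - 8 / 9 * sin β + kk / 6 * cos β) β := by
  have hc := Real.hasDerivAt_cos β
  have hs := Real.hasDerivAt_sin β
  have hl : HasDerivAt (fun β : ℝ => β - π / 3) 1 β := by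
    simpa using (hasDerivAt_id β).sub_const (π / 3)
  have h1 := (((hasDerivAt_const β (1 / 3 - 8 / 9 : ℝ)).add (hl.const_mul (1 / 2 * kk))).add
    (hc.const_mul (8 / 9))).add (hs.const_mul (kk / 6))
  have e : 1 / 2 * kk - 8 / 9 * sin β + kk / 6 * cos β
      = 0 + 1 / 2 * kk * 1 + 8 / 9 * -sin β + kk / 6 * cos β := by ring
  rw [e]; exact h1

lemma B2_le {β : ℝ} (h0 : π / 3 ≤ β) (h1 : β ≤ π / 2 - r1) : Dd β + C1 β ≤ 0.1659 := by
  have hp := pi_pos
  have hr := r1_pos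
  have key := anti_aux (f := fun x => Dd x + C1 x) (a := π / 3) (b := β)
    (f' := fun x => (1 / 2 * kk - 8 / 9 * sin x + kk / 6 * cos x)
      + (-(kk * g1 * sin x) - 1 / 2 * kk * g1 ^ 2 * cos x + T1))
    (fun x hx => (Dd_deriv x).add (C1_deriv x))
    (fun x hx => by
      have a1 : cos x ≤ 1 / 2 := by
        rw [← cos_pi_div_three]
        exact cos_le_cos_of_nonneg_of_le_pi (by linarith) (by linarith [hx.2]) hx.1
      have a2 : 3 * g0 / 2 ≤ sin x := by
        rw [← sqrt3_eq, ← sin_pi_div_three]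
        exact sin_le_sin_of_le_of_le_pi_div_two (by linarith) (by linarith [hx.2]) hx.1
      have ekg2 : kk * g1 ^ 2 = 32 / 81 * g0 := by
        have : kk * g1 ^ 2 = (kk * g1) * g1 := by ring
        rw [this, kk_g1]; unfold g1; ring
      have e5 : 1 / 2 * kk * g1 ^ 2 * cos x = 16 / 81 * g0 * cos x := by
        have : 1 / 2 * kk * g1 ^ 2 * cos x = 1 / 2 * (kk * g1 ^ 2) * cos x := by ring
        rw [this, ekg2]; ring
      rw [kk_g1, e5, T1_eq]
      unfold kk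
      have hg := g0_pos
      nlinarith)
  have h := key (left_mem_Icc.2 h0) (right_mem_Icc.2 h0) h0
  simp only at h
  have e : Dd (π / 3) = 1 / 9 := by
    unfold Dd
    rw [cos_pi_div_three, sin_pi_div_three, sqrt3_eq]
    have := kk_g0
    linear_combination (1 / 4) * this
  rw [e] at h
  exact h.trans C1_pi_div_three

lemma C1_eq_C2 : C1 (π / 2 - r1) = C2 (π / 2 - r1) := by
  have h4 : sin r1 = g1 * cos r1 := by
    rw [← tan_r1, tan_eq_sin_div_cos]; field_simp [cos_r1_pos.ne']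
  have hc := cos_r1_pos
  unfold C1 C2
  rw [cos_pi_div_two_sub, sin_pi_div_two_sub, h4]
  field_simp
  ring

lemma B3_le {β : ℝ} (h0 : π / 2 - r1 ≤ β) (h1 : β ≤ π / 2) : Dd β + C2 β ≤ 0.1659 := by
  have hp := pi_pos
  have hr := r1_pos
  have hr' := r1_lt
  have key := anti_aux (f := fun x => Dd x + C2 x) (a := π / 2 - r1) (b := β)
    (f' := fun x => (1 / 2 * kk - 8 / 9 * sin x + kk / 6 * cos x)
      + (cos x / sin x + (cos x / sin x) ^ 3 - kk * cos x
      - 1 / 2 * kk * cos x * (cos x / sin x) ^ 2))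
    (fun x hx => (Dd_deriv x).add (C2_deriv (cot_le hx.1 (by linarith [hx.2])).1))
    (fun x hx => by
      obtain ⟨hs, hg0, hg1, _⟩ := cot_le (β := x) hx.1 (by linarith [hx.2])
      have hK := K2_g0 hg0 hg1 hs (by field_simp)
      have hg := g0_pos
      have e : (1 / 2 * kk - 8 / 9 * sin x + kk / 6 * cos x)
          + (cos x / sin x + (cos x / sin x) ^ 3 - kk * cos x
          - 1 / 2 * kk * cos x * (cos x / sin x) ^ 2)
          = (g0 + cos x / sin x) * K2 g0 (cos x / sin x) x := by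
        have h3 : sin x * (cos x / sin x) = cos x := by field_simp
        set γ := cos x / sin x with hγ
        unfold K2
        have h4 : kk * sin x * γ = kk * cos x := by rw [mul_assoc, h3]
        have h5 := kk_g0
        have h6 := g0_sq
        have h7 : g0 ^ 3 = 1 / 3 * g0 := by
          have : g0 ^ 3 = g0 ^ 2 * g0 := by ring
          rw [this, h6]
        have h8 : kk = 8 / 3 * g0 := rfl
        have e1 : (g0 + γ) * (1 + g0 ^ 2 - g0 * γ + γ ^ 2 - kk * sin x + 1 / 2 * kk * cos x * (g0 - γ))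
          = g0 + g0 ^ 3 + γ + γ ^ 3 - (kk * g0) * sin x - kk * sin x * γ
            + 1 / 2 * kk * cos x * (g0 ^ 2 - γ ^ 2) := by ring
        rw [e1, h4, h5, h6, h7]
        have h9 : 1 / 2 * kk = 4 / 3 * g0 := by rw [h8]; ring
        linear_combination h9
      rw [e]
      exact mul_nonpos_of_nonneg_of_nonpos (by linarith) hK)
  have h := key (left_mem_Icc.2 h0) (right_mem_Icc.2 h0) h0
  simp only at h
  rw [← C1_eq_C2] at h
  exact h.trans (B2_le (by linarith) le_rfl)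

end Pool.Agent.FPU.J
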