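import Pool.Agent.FPU.J6

/-!
# FPU.J7 (helper15)

Lemma J: for a 1-Lipschitz `g` with `g 0 = 0`, `|g| ≤ π/6`,
`∫_0^{π/2} (T(g) - k sin t R(g)) ≤ 0.1722`.
-/

set_option autoImplicit false

open MeasureTheory Set Real

noncomputable section

namespace Pool.Agent.FPU.J

open Pool.Agent.FPX.UMP (RR)

lemma one_le_y {t : ℝ} (h0 : t1 ≤ t) (h1 : t ≤ π / 2) : 1 ≤ kk * sin t := by
  have hp := pi_pos
  rw [← kk_sin_t1]
  apply mul_le_mul_of_nonneg_left _ kk_pos.le
  exact sin_le_sin_of_le_of_le_pi_div_two (by linarith [t1_pos]) h1 h0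

lemma y_late {t : ℝ} (h0 : π / 3 ≤ t) (h1 : t ≤ π / 2) : 4 / 3 ≤ kk * sin t := by
  have hp := pi_pos
  have h2 : sin (π / 3) ≤ sin t :=
    sin_le_sin_of_le_of_le_pi_div_two (by linarith) h1 h0
  rw [sin_pi_div_three, sqrt3_eq] at h2
  have h3 := kk_g0
  have h4 := kk_pos
  have h5 : kk * (3 * g0 / 2) ≤ kk * sin t := mul_le_mul_of_nonneg_left h2 h4.le
  have e : kk * (3 * g0 / 2) = 3 / 2 * (kk * g0) := by ring
  rw [e, h3] at h5
  linarith

lemma y_early {t : ℝ} (h0 : t1 ≤ t) (h1 : t ≤ π / 3) : kk * sin t ≤ 4 / 3 := by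
  have hp := pi_pos
  have h2 : sin t ≤ sin (π / 3) :=
    sin_le_sin_of_le_of_le_pi_div_two (by linarith [t1_pos]) (by linarith) h1
  rw [sin_pi_div_three, sqrt3_eq] at h2
  have h3 := kk_g0
  have h4 := kk_pos
  have h5 : kk * sin t ≤ kk * (3 * g0 / 2) := mul_le_mul_of_nonneg_left h2 h4.le
  have e : kk * (3 * g0 / 2) = 3 / 2 * (kk * g0) := by ring
  rw [e, h3] at h5
  linarith

/-- monotone replacement on an interval where `k sin t ≤ 1` -/
lemma int_mono_line {g : ℝ → ℝ} (hg : Continuous g) (hb : ∀ t, |g t| ≤ π / 6) {f : ℝ → ℝ}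
    {a b : ℝ} (h0 : 0 ≤ a) (hab : a ≤ b) (hb1 : b ≤ t1) (hf : ∀ t ∈ Icc a b, g t ≤ f t)
    (hf2 : ∀ t ∈ Icc a b, f t < π / 2)
    (hc : ContinuousOn (fun t => ph (f t) t) (Icc a b)) :
    ∫ t in a..b, ph (g t) t ≤ ∫ t in a..b, ph (f t) t := by
  have hp := pi_pos
  apply intervalIntegral.integral_mono_on hab
  · exact (ph_comp_cont hg hb).intervalIntegrable _ _
  · apply ContinuousOn.intervalIntegrable
    rwa [uIcc_of_le hab]
  · intro t ht
    have := abs_le.1 (hb t)
    exact ph_mono (kk_sin_le (h0.trans ht.1) (ht.2.trans hb1)) (by linarith) (hf t ht) (hf2 t ht)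

section

variable {g : ℝ → ℝ} (hl : ∀ x y, |g x - g y| ≤ |x - y|) (h0 : g 0 = 0)
  (hb : ∀ t, |g t| ≤ π / 6)

include hl in
lemma cont_of_lip : Continuous g := by
  have : LipschitzWith 1 g := LipschitzWith.of_dist_le_mul (fun x y => by
    rw [dist_eq, dist_eq]; simpa using hl x y)
  exact this.continuous

include hl h0 in
lemma g_le_t {t : ℝ} (ht : 0 ≤ t) : g t ≤ t := by
  have := (abs_le.1 (hl t 0)).2
  rw [h0, sub_zero, sub_zero, abs_of_nonneg ht] at this
  exact this

include hl in
lemma g_up {s t : ℝ} (h : s ≤ t) : g s ≤ g t + (t - s) := by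
  have := (abs_le.1 (hl s t)).2
  rw [abs_of_nonpos (by linarith)] at this
  linarith

include hl in
lemma g_dn {s t : ℝ} (h : s ≤ t) : g t ≤ g s + (t - s) := by
  have := (abs_le.1 (hl t s)).2
  rw [abs_of_nonneg (by linarith)] at this
  linarith

include hl h0 hb in
/-- the left part plus the value function -/
theorem left_plus (hv : 0 ≤ g t1) :
    (∫ t in (0:ℝ)..t1, ph (g t) t) + w (t1 + g t1) t1 ≤ 0.1659 := by
  have hp := pi_pos
  have hr := r1_pos
  have hr' := r1_lt
  have h6 := pi_div_six_lt_t1
  have h3 := t1_lt_pi_div_three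
  have hg := cont_of_lip hl
  have hcont := ph_comp_cont hg hb
  have hv2 : g t1 ≤ π / 6 := (abs_le.1 (hb t1)).2
  set β := t1 + g t1 with hβ
  rcases le_total β (π / 3) with hc | hc
  · -- β ≤ π/3
    have ha0 : 0 ≤ β / 2 := by linarith
    have ha1 : β / 2 ≤ π / 6 := by linarith
    have ha2 : β / 2 ≤ t1 := by linarith
    have hcos : ∀ τ ∈ Icc (β / 2) t1, 0 < cos (β - τ) := by
      intro τ hτ
      apply cos_pos''; rw [abs_lt]
      constructor <;> linarith [hτ.1, hτ.2]
    rw [← intervalIntegral.integral_add_adjacent_intervals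
      (hcont.intervalIntegrable 0 (β / 2)) (hcont.intervalIntegrable (β / 2) t1)]
    have i1 : ∫ t in (0:ℝ)..(β / 2), ph (g t) t ≤ Pp (β / 2) := by
      rw [← int_diag ha0 (by linarith)]
      exact int_mono_line hg hb (f := fun t => t) le_rfl ha0 ha2 (fun t ht => g_le_t hl h0 ht.1)
        (fun t ht => by linarith [ht.2]) (diag_contOn (by linarith))
    have i2 : ∫ t in (β / 2)..t1, ph (g t) t ≤ Fe β t1 - Fe β (β / 2) := by
      rw [← int_line ha2 hcos]
      exact int_mono_line hg hb (f := fun t => β - t) ha0 ha2 le_rfl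
        (fun t ht => by have := g_up hl ht.2; linarith)
        (fun t ht => by linarith [ht.1]) (ph_continuousOn hcos)
    rw [w_eq1 (by linarith) (by linarith) (by linarith)]
    have e : β = 2 * (β / 2) := by ring
    have e1 : Pp (β / 2) - Fe β (β / 2) + C1 β = B1 (β / 2) := by
      have hcc : 0 < cos (β / 2) := cos_pos' (by rw [abs_of_nonneg ha0]; exact ha1)
      have := B1_eq hcc
      rw [← e] at this
      unfold B1
      rw [← e]
      linarith
    have := B1_le ha0 ha1
    linarith
  · -- β ≥ π/3
    have ht1 : π / 6 ≤ β - π / 6 := by linarith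
    have ht2 : β - π / 6 ≤ t1 := by linarith
    have hcos : ∀ τ ∈ Icc (β - π / 6) t1, 0 < cos (β - τ) := by
      intro τ hτ
      apply cos_pos''; rw [abs_lt]
      constructor <;> linarith [hτ.1, hτ.2]
    rw [← intervalIntegral.integral_add_adjacent_intervals
      (hcont.intervalIntegrable 0 (β - π / 6)) (hcont.intervalIntegrable (β - π / 6) t1),
      ← intervalIntegral.integral_add_adjacent_intervals
      (hcont.intervalIntegrable 0 (π / 6)) (hcont.intervalIntegrable (π / 6) (β - π / 6))]
    have i1 : ∫ t in (0:ℝ)..(π / 6), ph (g t) t ≤ Pp (π / 6) := by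
      rw [← int_diag (by linarith) (by linarith)]
      exact int_mono_line hg hb (f := fun t => t) le_rfl (by linarith) (by linarith)
        (fun t ht => g_le_t hl h0 ht.1)
        (fun t ht => by linarith [ht.2]) (diag_contOn (by linarith))
    have i3 : ∫ t in (π / 6)..(β - π / 6), ph (g t) t
        ≤ ∫ t in (π / 6)..(β - π / 6), ph (π / 6) t :=
      int_mono_line hg hb (f := fun _ => π / 6) (by linarith) ht1 ht2
        (fun t _ => (abs_le.1 (hb t)).2) (fun t _ => by linarith) (ph_cont_t _).continuousOn
    have i2 : ∫ t in (β - π / 6)..t1, ph (g t) t ≤ Fe β t1 - Fe β (β - π / 6) := by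
      rw [← int_line ht2 hcos]
      exact int_mono_line hg hb (f := fun t => β - t) (by linarith) ht2 le_rfl
        (fun t ht => by have := g_up hl ht.2; linarith)
        (fun t ht => by linarith [ht.1]) (ph_continuousOn hcos)
    have hD := Dd_eq β
    rcases le_total β (π / 2 - r1) with hq | hq
    · rw [w_eq1 (by linarith) (by linarith) hq]
      have := B2_le hc hq
      linarith
    · rw [w_eq2 (by linarith) (by linarith) hq (by linarith)]
      have := B3_le hq (by linarith)
      linarith

include hl h0 hb in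
/-- main case -/
theorem case_I (hv : 0 ≤ g t1) {z : ℝ} (hz : z ∈ Icc (π / 3) (π / 2)) (hgz : g z ≤ 0) :
    ∫ t in (0:ℝ)..(π / 2), ph (g t) t ≤ 0.1722 := by
  have hp := pi_pos
  have hp2 := pi_lt_d4
  have hr := r1_pos
  have hr' := r1_lt
  have h6 := pi_div_six_lt_t1
  have h3 := t1_lt_pi_div_three
  have hg := cont_of_lip hl
  have hcont := ph_comp_cont hg hb
  -- the truncated function
  set h : ℝ → ℝ := fun t => min (g t) (max 0 (z - t)) with hh
  have hhl : ∀ x y, |h x - h y| ≤ |x - y| := by
    intro x y
    have e1 := abs_min_sub_min_le_max (g x) (max 0 (z - x)) (g y) (max 0 (z - y))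
    have e2 : |max 0 (z - x) - max 0 (z - y)| ≤ |x - y| := by
      have e3 : |(z - x) - (z - y)| = |x - y| := by
        rw [← abs_neg]; congr 1; ring
      refine (abs_max_sub_max_le_max 0 (z - x) 0 (z - y)).trans ?_
      rw [e3]
      apply max_le _ le_rfl
      rw [sub_self, abs_zero]; exact abs_nonneg _
    exact e1.trans (max_le (hl x y) e2)
  have hhb : ∀ t, |h t| ≤ π / 6 := by
    intro t
    have := abs_le.1 (hb t)
    rw [abs_le]
    constructor
    · apply le_min this.1
      have := le_max_left 0 (z - t)
      linarith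
    · exact (min_le_left _ _).trans this.2
  have hhc := cont_of_lip hhl
  have ht1h : h t1 = g t1 := by
    simp only [hh]
    apply min_eq_left
    have := g_up hl (s := t1) (t := z) (by linarith [hz.1])
    exact le_trans (by linarith) (le_max_right _ _)
  have hcmp := compare hhl (fun t => (abs_le.1 (hhb t)).2)
    (fun t ht => by
      have := g_up hhl (s := t1) (t := t) ht.1
      rw [ht1h] at this
      linarith)
    (fun t ht => by
      have : h t ≤ max 0 (z - t) := min_le_right _ _
      rcases le_total 0 (z - t) with hq | hq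
      · rw [max_eq_right hq] at this; linarith [hz.2]
      · rw [max_eq_left hq] at this; linarith [ht.2])
  rw [ht1h] at hcmp
  have hleft := left_plus hl h0 hb hv
  -- the right part
  have hright : ∫ t in t1..(π / 2), ph (g t) t
      ≤ (∫ t in t1..(π / 2), phc (h t) t) + 0.012 * (π / 6) := by
    have hphc := phc_comp_cont hhc (fun t => (abs_le.1 (hhb t)).2)
    rw [← intervalIntegral.integral_add_adjacent_intervals
      (hcont.intervalIntegrable t1 (π / 3)) (hcont.intervalIntegrable (π / 3) (π / 2)),
      ← intervalIntegral.integral_add_adjacent_intervals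
      (hphc.intervalIntegrable t1 (π / 3)) (hphc.intervalIntegrable (π / 3) (π / 2))]
    have j1 : ∫ t in t1..(π / 3), ph (g t) t ≤ ∫ t in t1..(π / 3), phc (h t) t := by
      apply intervalIntegral.integral_mono_on h3.le
      · exact hcont.intervalIntegrable _ _
      · exact hphc.intervalIntegrable _ _
      · intro t ht
        have ee : h t = g t := by
          simp only [hh]
          apply min_eq_left
          have := g_up hl (s := t) (t := z) (by linarith [hz.1, ht.2])
          exact le_trans (by linarith) (le_max_right _ _)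
        rw [ee]
        unfold phc
        rcases le_total (-r1) (g t) with hq | hq
        · rw [max_eq_left hq]
        · rw [max_eq_right hq]
          have := cap_mono (r := -(g t)) (t := t) (by linarith)
            (by linarith [(abs_le.1 (hb t)).1]) (y_early ht.1 ht.2)
          rw [neg_neg] at this
          exact this
    have j2 : ∫ t in (π / 3)..(π / 2), ph (g t) t
        ≤ ∫ t in (π / 3)..(π / 2), (phc (h t) t + 0.012) := by
      apply intervalIntegral.integral_mono_on (by linarith)
      · exact hcont.intervalIntegrable _ _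
      · exact (hphc.intervalIntegrable _ _).add (by simp)
      · intro t ht
        have hs0 : 0 ≤ sin t := sin_nonneg_of_nonneg_of_le_pi (by linarith [ht.1])
          (by linarith [ht.2])
        -- first compare g with h
        have k1 : ph (g t) t ≤ ph (h t) t := by
          rcases le_total (g t) (max 0 (z - t)) with hq | hq
          · have : h t = g t := min_eq_left hq
            rw [this]
          · have hht : h t = max 0 (z - t) := min_eq_right hq
            rcases le_total 0 (z - t) with hq2 | hq2
            · have e1 := g_up hl (s := t) (t := z) (by linarith)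
              rw [max_eq_right hq2] at hq hht
              have : g t = h t := by rw [hht]; linarith
              rw [this]
            · rw [max_eq_left hq2] at hq hht
              rw [hht, ph_zero]
              exact ph_nonpos' hq (abs_le.1 (hb t)).2 (y_late ht.1 ht.2)
        have k2 : ph (h t) t ≤ phc (h t) t + 0.012 := by
          unfold phc
          rcases le_total (-r1) (h t) with hq | hq
          · rw [max_eq_left hq]; linarith
          · rw [max_eq_right hq]
            have := cap_excess (r := -(h t)) (t := t) (by linarith)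
              (by linarith [(abs_le.1 (hhb t)).1]) hs0
            rw [neg_neg] at this
            exact this
        exact k1.trans k2
    rw [intervalIntegral.integral_add (hphc.intervalIntegrable _ _) (by simp),
      intervalIntegral.integral_const, smul_eq_mul] at j2
    have e : (π / 2 - π / 3) * 0.012 = 0.012 * (π / 6) := by ring
    rw [e] at j2
    linarith
  rw [← intervalIntegral.integral_add_adjacent_intervals
    (hcont.intervalIntegrable 0 t1) (hcont.intervalIntegrable t1 (π / 2))]
  linarith

end

/-! ### numerical facts on `t1` -/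

lemma cos_t1_lb : 0.7603 < cos t1 := by
  have h := cos_t1_sq; have h' := cos_t1_pos
  nlinarith

lemma cos_t1_ub : cos t1 < 0.7604 := by
  have h := cos_t1_sq; have h' := cos_t1_pos
  nlinarith

/-- `π/4 - t1` -/
lemma x_bounds : 0.0783 < π / 4 - t1 ∧ π / 4 - t1 < 0.0785 := by
  have hp := pi_pos
  have hp3 := pi_gt_d4
  have hp4 := pi_lt_d4
  have h6 := pi_div_six_lt_t1
  have h2 : √2 ^ 2 = 2 := sq_sqrt (by norm_num)
  have h2p : 0 < √2 := by positivity
  have h2l : 1.41421 < √2 := by nlinarith
  have h2u : √2 < 1.41422 := by nlinarith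
  have hsin : sin (π / 4 - t1) = √2 / 2 * (cos t1 - sin t1) := by
    rw [sin_sub, sin_pi_div_four, cos_pi_div_four]; ring
  have hcs : 0.11080 < cos t1 - sin t1 ∧ cos t1 - sin t1 < 0.11083 := by
    rw [sin_t1]
    have h := cos_t1_sq; have h' := cos_t1_pos
    have a1 := g0_lb; have a2 := g0_ub
    have c1 : 0.76034 < cos t1 := by nlinarith
    have c2 : cos t1 < 0.760346 := by nlinarith
    constructor <;> linarith
  have s1 : 0.07834 < sin (π / 4 - t1) := by rw [hsin]; nlinarith [hcs.1]
  have s2 : sin (π / 4 - t1) < 0.07837 := by rw [hsin]; nlinarith [hcs.2]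
  have hx0 : 0 < π / 4 - t1 := by
    by_contra hneg
    push Not at hneg
    have : sin (π / 4 - t1) ≤ 0 := sin_nonpos_of_nonpos_of_neg_pi_le hneg (by linarith [t1_lt])
    linarith
  constructor
  · have := sin_lt hx0
    linarith
  · by_contra hneg
    push Not at hneg
    have h7 := sin_gt_sub_cube hx0
    have : (0.0785:ℝ) - 0.0785 ^ 3 / 6 ≤ (π / 4 - t1) - (π / 4 - t1) ^ 3 / 6 := by
      have hx2 : π / 4 - t1 ≤ 0.3 := by linarith
      set x := π / 4 - t1 with hx
      have h8 : 0 ≤ 1 - (x ^ 2 + x * 0.0785 + 0.0785 ^ 2) / 6 := by nlinarith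
      have h9 := mul_nonneg (sub_nonneg.2 hneg) h8
      nlinarith
    norm_num at this
    linarith

end Pool.Agent.FPU.J
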