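import Pool.Agent.FPU.J7

/-!
# FPU.J8 (helper15)

The two remaining cases and Lemma J.
-/

set_option autoImplicit false

open MeasureTheory Set Real

noncomputable section

namespace Pool.Agent.FPU.J

open Pool.Agent.FPX.UMP (RR)

lemma int_y (a b : ℝ) : ∫ t in a..b, (kk * sin t - 1) = kk * (cos a - cos b) - (b - a) := by
  rw [intervalIntegral.integral_sub (by apply Continuous.intervalIntegrable; fun_prop) (by simp),
    intervalIntegral.integral_const_mul, integral_sin, intervalIntegral.integral_const]
  simp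

section

variable {g : ℝ → ℝ} (hl : ∀ x y, |g x - g y| ≤ |x - y|) (h0 : g 0 = 0)
  (hb : ∀ t, |g t| ≤ π / 6)

lemma kk_cos_pi_div_two : kk * cos (π / 2) = 0 := by rw [cos_pi_div_two]; ring

include hl h0 hb in
/-- case `g t1 < 0` -/
theorem case_II (hv : g t1 < 0) : ∫ t in (0:ℝ)..(π / 2), ph (g t) t ≤ 0.1722 := by
  have hp := pi_pos
  have hp3 := pi_gt_d4
  have hp4 := pi_lt_d4
  have h6 := pi_div_six_lt_t1
  have h3 := t1_lt_pi_div_three
  have hx := x_bounds
  have hg := cont_of_lip hl
  have hcont := ph_comp_cont hg hb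
  have ha0 : 0 ≤ t1 / 2 := by linarith
  have ha2 : t1 / 2 ≤ t1 := by linarith
  have hcos : ∀ τ ∈ Icc (t1 / 2) t1, 0 < cos (t1 - τ) := by
    intro τ hτ
    apply cos_pos''; rw [abs_lt]
    constructor <;> linarith [hτ.1, hτ.2]
  have i1 : ∫ t in (0:ℝ)..(t1 / 2), ph (g t) t ≤ Pp (t1 / 2) := by
    rw [← int_diag ha0 (by linarith)]
    exact int_mono_line hg hb (f := fun t => t) le_rfl ha0 ha2 (fun t ht => g_le_t hl h0 ht.1)
      (fun t ht => by linarith [ht.2]) (diag_contOn (by linarith))
  have i2 : ∫ t in (t1 / 2)..t1, ph (g t) t ≤ Fe t1 t1 - Fe t1 (t1 / 2) := by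
    rw [← int_line ha2 hcos]
    exact int_mono_line hg hb (f := fun t => t1 - t) ha0 ha2 le_rfl
      (fun t ht => by have := g_up hl ht.2; linarith)
      (fun t ht => by linarith [ht.1]) (ph_continuousOn hcos)
  have e0 : Fe t1 t1 = 0 := by
    unfold Fe; rw [sub_self, tan_zero, RR_zero]; ring
  have hcc : 0 < cos (t1 / 2) := cos_pos'' (by rw [abs_of_nonneg ha0]; linarith)
  have e1 := B1_eq hcc
  have e2 : 2 * (t1 / 2) = t1 := by ring
  rw [e2] at e1
  have hleft : ∫ t in (0:ℝ)..t1, ph (g t) t ≤ 0.0682 := by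
    rw [← intervalIntegral.integral_add_adjacent_intervals
      (hcont.intervalIntegrable 0 (t1 / 2)) (hcont.intervalIntegrable (t1 / 2) t1)]
    have c1 := cos_two_mul (t1 / 2)
    rw [e2] at c1
    have c2 := cos_t1_lb; have c3 := cos_t1_ub
    have c4 := sin_sq_add_cos_sq (t1 / 2)
    have hsec := sec_sq hcc
    have htn : 0 ≤ tan (t1 / 2) := tan_nonneg_of_nonneg_of_le_pi_div_two ha0 (by linarith)
    set q := tan (t1 / 2) with hq
    set c := cos (t1 / 2) with hc
    set s := sin (t1 / 2) with hs
    have hsq : s = q * c := by rw [hq, tan_eq_sin_div_cos, ← hs, ← hc]; field_simp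
    have hq2 : q ^ 2 * c ^ 2 = s ^ 2 := by rw [hsq]; ring
    have hc2l : 0.88015 < c ^ 2 := by linarith
    have hc2u : c ^ 2 < 0.8802 := by linarith
    have hs2l : 0.1198 < s ^ 2 := by linarith
    have hs2u : s ^ 2 < 0.11985 := by linarith
    have hq2u : q ^ 2 < 0.13618 := by nlinarith
    have hq2l : 0.1361 < q ^ 2 := by
      by_contra hneg
      push Not at hneg
      nlinarith
    have hql : 0.3689 < q := by nlinarith
    have hk := kk_lb
    have hprod : 1.5396 * 0.1198 * 0.3689 ≤ kk * s ^ 2 * q := by
      apply mul_le_mul _ hql.le (by norm_num) (by have := kk_pos; positivity)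
      apply mul_le_mul hk.le hs2l.le (by norm_num) kk_pos.le
    norm_num at hprod
    linarith
  have hright : ∫ t in t1..(π / 2), ph (g t) t ≤ ∫ t in t1..(π / 2), 0.33 * (kk * sin t - 1) := by
    apply intervalIntegral.integral_mono_on t1_lt.le
    · exact hcont.intervalIntegrable _ _
    · apply Continuous.intervalIntegrable; fun_prop
    · intro t ht
      have hy := one_le_y ht.1 ht.2
      have hbt := abs_le.1 (hb t)
      rcases le_total (g t) 0 with hq | hq
      · have := neg_ph_le (r := -(g t)) (t := t) (by linarith) (by linarith [hbt.1]) hy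
        rw [neg_neg] at this
        exact this
      · have hgt : g t ≤ t - t1 := by
          have := g_dn hl ht.1
          linarith
        have hle : ph (g t) t ≤ 0 := by
          apply ph_nonpos hq hbt.2
          -- 1 + tan² s ≤ k sin t
          have k1 : kk * sin (t1 + g t) ≤ kk * sin t := by
            apply mul_le_mul_of_nonneg_left _ kk_pos.le
            exact sin_le_sin_of_le_of_le_pi_div_two (by linarith) ht.2 (by linarith)
          have k2 := sin_shift (t1 + g t)
          have e3 : t1 + g t - t1 = g t := by ring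
          rw [e3] at k2
          have hcs : 0 < cos (g t) := cos_pos' (hb t)
          have hsec := sec_sq hcs
          have htn : 0 ≤ tan (g t) := tan_nonneg_of_nonneg_of_le_pi_div_two hq (by linarith)
          have htg : tan (g t) ≤ g0 := tan_le_g0 hbt.2 (by linarith)
          have hs : sin (g t) = tan (g t) * cos (g t) := by rw [tan_eq_sin_div_cos]; field_simp
          rw [hs] at k2
          set q := tan (g t) with hqd
          set x := cos (g t) with hxd
          have hx2 : x ^ 2 * (1 + q ^ 2) = 1 := by rw [← hsec]; field_simp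
          have hgu := g0_ub
          have hq2 : q ^ 2 ≤ 0.3334 := by nlinarith
          have hx6 : 1 - q ^ 2 / 2 ≤ x := by
            by_contra hneg
            push Not at hneg
            have h7 : x ^ 2 < (1 - q ^ 2 / 2) ^ 2 := by
              apply pow_lt_pow_left₀ hneg hcs.le (by norm_num)
            have h8 : (1 - q ^ 2 / 2) ^ 2 * (1 + q ^ 2) ≤ 1 := by
              nlinarith [sq_nonneg q, pow_nonneg htn 4, mul_nonneg (sq_nonneg (q^2)) (sub_nonneg.2 hq2)]
            nlinarith [sq_nonneg q]
          have hka := ka_lb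
          have h9 : (1 - q ^ 2 / 2) * (1 + 1.17 * q) ≤ x * (1 + ka * q) := by
            apply mul_le_mul hx6 (by nlinarith) (by positivity) hcs.le
          have h10 : 1 + q ^ 2 ≤ (1 - q ^ 2 / 2) * (1 + 1.17 * q) := by
            have hq5 : q ≤ 0.578 := by linarith
            nlinarith [mul_nonneg htn (sub_nonneg.2 hq5),
              mul_nonneg (mul_nonneg htn htn) (sub_nonneg.2 hq5)]
          have h11 : x + ka * (q * x) = x * (1 + ka * q) := by ring
          linarith
        linarith
  rw [intervalIntegral.integral_const_mul, int_y] at hright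
  rw [← intervalIntegral.integral_add_adjacent_intervals
    (hcont.intervalIntegrable 0 t1) (hcont.intervalIntegrable t1 (π / 2))]
  have e4 : kk * (cos t1 - cos (π / 2)) = ka := by
    rw [cos_pi_div_two, sub_zero]; rfl
  rw [e4] at hright
  have hka := ka_ub
  linarith [hx.1]

lemma RR_six_ub : RR (π / 6) ≤ 0.60943 := by
  have hp := pi_pos
  have h := RR_le (s := π / 6) (by linarith) (by linarith)
  rw [tan_pi_div_six'] at h
  have h2 := g0_sq
  have h3 : g0 ^ 3 = 1 / 3 * g0 := by
    have : g0 ^ 3 = g0 ^ 2 * g0 := by ring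
    rw [this, h2]
  rw [h3] at h
  have := g0_ub
  linarith

lemma RR_six_lb : 0.60782 ≤ RR (π / 6) := by
  have hp := pi_pos
  have h := RR_ge (s := π / 6) (by linarith) le_rfl
  rw [tan_pi_div_six'] at h
  have h2 := g0_sq
  have h3 : g0 ^ 3 = 1 / 3 * g0 := by
    have : g0 ^ 3 = g0 ^ 2 * g0 := by ring
    rw [this, h2]
  have h5 : g0 ^ 5 = 1 / 9 * g0 := by
    have : g0 ^ 5 = (g0 ^ 2) ^ 2 * g0 := by ring
    rw [this, h2]; ring
  rw [h3, h5] at h
  have := g0_lb
  linarith

/-- `T - R` is increasing on `[0, π/6]` -/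
lemma TR_mono {s : ℝ} (h0 : 0 ≤ s) (h1 : s ≤ π / 6) : TT s - RR s ≤ 0.162 := by
  have hp := pi_pos
  have key := mono_aux (f := fun x => TT x - RR x) (a := s) (b := π / 6)
    (f' := fun x => (1 + 3 * tan x ^ 2) * (1 / cos x) ^ 2 - (1 / cos x) ^ 3)
    (fun x hx => by
      have hc : 0 < cos x := cos_pos' (by rw [abs_of_nonneg (h0.trans hx.1)]; exact hx.2)
      exact (hasDerivAt_TT hc).sub (hasDerivAt_RR hc))
    (fun x hx => by
      have hc : 0 < cos x := cos_pos' (by rw [abs_of_nonneg (h0.trans hx.1)]; exact hx.2)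
      have hs := sec_sq hc
      have hS1 := sec_ge_one hc
      set S := 1 / cos x with hS
      have e : (1 + 3 * tan x ^ 2) * S ^ 2 - S ^ 3 = S ^ 2 * (1 + 3 * tan x ^ 2 - S) := by ring
      rw [e]
      apply mul_nonneg (by positivity)
      have ht2 : tan x ^ 2 = S ^ 2 - 1 := by linarith
      rw [ht2]; nlinarith)
  have h := key (left_mem_Icc.2 h1) (right_mem_Icc.2 h1) h1
  simp only at h
  have h2 := RR_six_lb
  have h3 := TT_six
  have h4 := kk_ub
  rw [h3] at h
  linarith

include hl h0 hb in
/-- case `g > 0` on `[π/3, π/2]` -/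
theorem case_III (hv : 0 ≤ g t1) (hpos : ∀ z ∈ Icc (π / 3) (π / 2), 0 < g z) :
    ∫ t in (0:ℝ)..(π / 2), ph (g t) t ≤ 0.1722 := by
  have hp := pi_pos
  have hp3 := pi_gt_d4
  have hp4 := pi_lt_d4
  have h6 := pi_div_six_lt_t1
  have h3 := t1_lt_pi_div_three
  have hx := x_bounds
  have hg := cont_of_lip hl
  have hcont := ph_comp_cont hg hb
  have i1 : ∫ t in (0:ℝ)..(π / 6), ph (g t) t ≤ Pp (π / 6) := by
    rw [← int_diag (by linarith) (by linarith)]
    exact int_mono_line hg hb (f := fun t => t) le_rfl (by linarith) h6.le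
      (fun t ht => g_le_t hl h0 ht.1)
      (fun t ht => by linarith [ht.2]) (diag_contOn (by linarith))
  have i2 : ∫ t in (π / 6)..t1, ph (g t) t ≤ ∫ t in (π / 6)..t1, ph (π / 6) t :=
    int_mono_line hg hb (f := fun _ => π / 6) (by linarith) h6.le le_rfl
      (fun t _ => (abs_le.1 (hb t)).2) (fun t _ => by linarith) (ph_cont_t _).continuousOn
  have hleft : ∫ t in (0:ℝ)..t1, ph (g t) t ≤ 0.1326 := by
    rw [← intervalIntegral.integral_add_adjacent_intervals
      (hcont.intervalIntegrable 0 (π / 6)) (hcont.intervalIntegrable (π / 6) t1)]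
    rw [int_const, TT_six] at i2
    unfold Pp at i1
    rw [tan_pi_div_six', g0_sq] at i1
    have hR := RR_six_ub
    have hR0 := RR_six_lb
    have hka := ka_ub
    have hkal := ka_lb
    have hk := kk_ub
    have e1 : kk * RR (π / 6) * (cos (π / 6) - cos t1)
      = kk * cos (π / 6) * RR (π / 6) - ka * RR (π / 6) := by unfold ka; ring
    rw [e1] at i2
    have e2 : kk * (g0 - cos (π / 6) * RR (π / 6)) = kk * g0 - kk * cos (π / 6) * RR (π / 6) := by
      ring
    rw [e2, kk_g0] at i1
    have h7 : ka * RR (π / 6) ≤ 1.17064 * 0.60943 := by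
      apply mul_le_mul hka.le hR (by linarith) (by norm_num)
    have h8 : t1 - π / 6 ≤ 0.1836 := by linarith [hx.1]
    have h9 : 1 / 2 * kk * (t1 - π / 6) ≤ 0.7699 * 0.1836 := by
      apply mul_le_mul (by linarith) h8 (by linarith) (by norm_num)
    norm_num at h7 h9
    linarith
  have hmid : ∫ t in t1..(π / 3), ph (g t) t
      ≤ ∫ t in t1..(π / 3), (0.162 - 0.31 * (kk * sin t - 1)) := by
    apply intervalIntegral.integral_mono_on h3.le
    · exact hcont.intervalIntegrable _ _
    · apply Continuous.intervalIntegrable; fun_prop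
    · intro t ht
      have hy := one_le_y ht.1 (by linarith [ht.2])
      have hy2 := y_early ht.1 ht.2
      have hbt := abs_le.1 (hb t)
      rcases le_total 0 (g t) with hq | hq
      · have a1 := TR_mono hq hbt.2
        have a2 : TT (g t) ≤ 4 / 3 * RR (g t) := by
          have hR := tan_le_RR hq (by linarith)
          have htn : 0 ≤ tan (g t) := tan_nonneg_of_nonneg_of_le_pi_div_two hq (by linarith)
          have htg : tan (g t) ≤ g0 := tan_le_g0 hbt.2 (by linarith)
          have ht2 : tan (g t) ^ 2 ≤ 1 / 3 := by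
            rw [← g0_sq]; exact pow_le_pow_left₀ htn htg 2
          unfold TT
          nlinarith
        unfold ph
        -- affine in y
        have hz : 0 ≤ kk * sin t - 1 := by linarith
        have hz2 : kk * sin t - 1 ≤ 1 / 3 := by linarith
        nlinarith
      · set r := -(g t) with hrd
        have hr0 : 0 ≤ r := by linarith
        have hr1 : r ≤ 0.1702 := by
          have b1 := g_up hl (s := t1) (t := t) ht.1
          have b2 := g_dn hl (s := t) (t := π / 3) ht.2
          have b3 := hpos (π / 3) ⟨le_rfl, by linarith⟩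
          linarith [hx.1, hx.2]
        have hgr : g t = -r := by rw [hrd]; ring
        rw [hgr, ph_neg]
        have hRle := RR_le hr0 (by linarith)
        have htr : tan r ≤ 0.1728 := by
          have hcr : 1 - r ^ 2 / 2 ≤ cos r := one_sub_sq_div_two_le_cos
          have hc0 : 0 < cos r := by nlinarith
          rw [tan_eq_sin_div_cos, div_le_iff₀ hc0]
          have := sin_le hr0
          nlinarith
        have htr0 : 0 ≤ tan r := tan_nonneg_of_nonneg_of_le_pi_div_two hr0 (by linarith)
        have hR2 : RR r ≤ 0.1737 := by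
          have : tan r ^ 3 ≤ 0.1728 ^ 3 := pow_le_pow_left₀ htr0 htr 3
          norm_num at this
          linarith
        have hR0 : 0 ≤ RR r := RR_nonneg hr0 (by linarith)
        have hTR : RR r ≤ TT r := by
          unfold TT
          have : 0 ≤ tan r ^ 3 := by positivity
          linarith
        unfold ph
        have hz : 0 ≤ kk * sin t - 1 := by linarith
        have hz2 : kk * sin t - 1 ≤ 1 / 3 := by linarith
        nlinarith
  have hlate : ∫ t in (π / 3)..(π / 2), ph (g t) t ≤ 0 := by
    have : ∫ t in (π / 3)..(π / 2), ph (g t) t ≤ ∫ t in (π / 3)..(π / 2), (0:ℝ) := by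
      apply intervalIntegral.integral_mono_on (by linarith)
      · exact hcont.intervalIntegrable _ _
      · simp
      · intro t ht
        exact ph_nonpos' (hpos t ht).le (abs_le.1 (hb t)).2 (y_late ht.1 ht.2)
    simpa using this
  have hsub : IntervalIntegrable (fun t => 0.31 * (kk * sin t - 1)) volume t1 (π / 3) := by
    apply Continuous.intervalIntegrable; fun_prop
  rw [intervalIntegral.integral_sub (by simp) hsub, intervalIntegral.integral_const,
    intervalIntegral.integral_const_mul, int_y, cos_pi_div_three, smul_eq_mul] at hmid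
  rw [← intervalIntegral.integral_add_adjacent_intervals
    (hcont.intervalIntegrable 0 t1) (hcont.intervalIntegrable t1 (π / 2)),
    ← intervalIntegral.integral_add_adjacent_intervals
    (hcont.intervalIntegrable t1 (π / 3)) (hcont.intervalIntegrable (π / 3) (π / 2))]
  have e5 : kk * (cos t1 - 1 / 2) = ka - kk / 2 := by unfold ka; ring
  rw [e5] at hmid
  have hka := ka_lb
  have hk := kk_ub
  linarith [hx.1, hx.2]

include hl h0 hb in
/-- **Lemma J** -/
theorem lemma_J : ∫ t in (0:ℝ)..(π / 2), ph (g t) t ≤ 0.1722 := by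
  rcases lt_or_ge (g t1) 0 with hv | hv
  · exact case_II hl h0 hb hv
  · by_cases hz : ∃ z ∈ Icc (π / 3) (π / 2), g z ≤ 0
    · obtain ⟨z, hz1, hz2⟩ := hz
      exact case_I hl h0 hb hv hz1 hz2
    · push Not at hz
      exact case_III hl h0 hb hv hz

end

/-- Lemma J in the form used by `FPU.URED` -/
theorem hJ (h : ℝ → ℝ) (hl : LipschitzWith 1 h) (h0 : h 0 = 0) (hb : ∀ t, |h t| ≤ π / 6) :
    ∫ t in (0:ℝ)..(π / 2), (tan (h t) / cos (h t) ^ 2 - kk * sin t * RR (h t)) ≤ 0.1722 := by
  have hl' : ∀ x y, |h x - h y| ≤ |x - y| := by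
    intro x y
    have := hl.dist_le_mul x y
    rw [dist_eq, dist_eq] at this
    simpa using this
  have := lemma_J hl' h0 hb
  refine le_trans (le_of_eq ?_) this
  apply intervalIntegral.integral_congr
  intro t _
  simp only
  have hc : 0 < cos (h t) := cos_pos' (hb t)
  have hs := sec_sq hc
  unfold ph TT
  have e : tan (h t) / cos (h t) ^ 2 = tan (h t) * (1 / cos (h t)) ^ 2 := by
    rw [one_div_pow]; ring
  rw [e, hs]; ring

end Pool.Agent.FPU.J
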